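import Mathlib.Data.Real.Basic
import Mathlib.Tactic

/- Affine arithmetic in three noise variables with fixed point natural numbers.
A signed number v is stored as v + 2^52, the unit is 2^32. -/

noncomputable section
namespace Pool.Agent.Work.MP_c2ab8b_gt

def fN (x : ℕ) (f : ℕ → Bool) : Bool := Nat.rec (f 0) (fun n _ => f (Nat.succ n)) x

theorem fN_eq (x : ℕ) (f : ℕ → Bool) : fN x f = f x := by cases x <;> rfl

structure L where
  c : ℕ
  g1 : ℕ
  g2 : ℕ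
  g3 : ℕ
  r : ℕ

structure E where
  c : ℕ
  g1 : ℕ
  g2 : ℕ
  g3 : ℕ
  r : ℕ
  m : ℕ
  n : ℕ

def E.l (X : E) : L := E.rec (fun c g1 g2 g3 r _ _ => ⟨c, g1, g2, g3, r⟩) X

def vl (u : ℕ) : ℝ := (u : ℝ) - 4503599627370496

def ab (u : ℕ) : ℕ := Nat.add (Nat.sub u 4503599627370496) (Nat.sub 4503599627370496 u)

def mkL (c g1 g2 g3 r : ℕ) (k : L → Bool) : Bool :=
  fN c fun c => fN g1 fun g1 => fN g2 fun g2 => fN g3 fun g3 => fN r fun r => k ⟨c, g1, g2, g3, r⟩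

theorem mkL_eq (c g1 g2 g3 r : ℕ) (k : L → Bool) : mkL c g1 g2 g3 r k = k ⟨c, g1, g2, g3, r⟩ := by
  simp only [mkL, fN_eq]

def dot1 (a b : ℕ) : ℕ :=
  Nat.shiftRight (Nat.sub (Nat.add (Nat.mul a b) 20282428946464784258014046584832)
    (Nat.mul 4503599627370496 (Nat.add a b))) 32

def dot2 (a b c d : ℕ) : ℕ :=
  Nat.shiftRight (Nat.sub (Nat.add (Nat.add (Nat.mul a b) (Nat.mul c d)) 40564838550116454681961297870848)
    (Nat.mul 4503599627370496 (Nat.add (Nat.add a b) (Nat.add c d)))) 32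

def dotd (a b : ℕ) : ℕ :=
  Nat.shiftRight (Nat.sub (Nat.add (Nat.mul a b) 20282419275058227340980648935424)
    (Nat.mul 4503599627370496 (Nat.add a b))) 31

def ext (X : L) (k : E → Bool) : Bool :=
  L.rec (fun c g1 g2 g3 r => fN (ab c) fun m => fN (Nat.add (Nat.add (ab g1) (ab g2)) (ab g3)) fun n =>
    k ⟨c, g1, g2, g3, r, m, n⟩) X

def mul (X Y : E) (k : L → Bool) : Bool :=
  E.rec (fun c a1 a2 a3 r m n => E.rec (fun d b1 b2 b3 s m' n' =>
    fN (Nat.add m n) fun p => fN (Nat.add m' n') fun q =>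
    Nat.ble (Nat.mul p q) 37778931862957161709568 &&
    mkL (dot1 c d) (dot2 c b1 d a1) (dot2 c b2 d a2) (dot2 c b3 d a3)
      (Nat.add (Nat.shiftRight (Nat.add (Nat.add (Nat.mul (Nat.add p r) s) (Nat.mul q r))
        (Nat.mul n n')) 32) 5) k) Y) X

def sq (X : E) (k : L → Bool) : Bool :=
  E.rec (fun c a1 a2 a3 r m n =>
    fN (Nat.add n r) fun p => fN (Nat.shiftRight (Nat.mul p p) 1) fun q =>
    Nat.ble (Nat.mul (Nat.add m p) (Nat.add m p)) 18889465931478580854784 &&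
    mkL (Nat.shiftRight (Nat.sub (Nat.add (Nat.add (Nat.mul c c) q) 20282428946464784258014046584832)
        (Nat.mul 9007199254740992 c)) 32) (dotd c a1) (dotd c a2) (dotd c a3)
      (Nat.add (Nat.shiftRight (Nat.add (Nat.mul (Nat.mul 2 m) r) q) 32) 6) k) X

def smul (t tm : ℕ) (X : L) (k : L → Bool) : Bool :=
  L.rec (fun c a1 a2 a3 r =>
    mkL (dot1 t c) (dot1 t a1) (dot1 t a2) (dot1 t a3)
      (Nat.add (Nat.shiftRight (Nat.mul tm r) 32) 5) k) X

def smulE (t tm : ℕ) (X : E) (k : L → Bool) : Bool :=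
  E.rec (fun c a1 a2 a3 r m n =>
    Nat.ble (Nat.mul tm (Nat.add m n)) 37778931862957161709568 &&
    mkL (dot1 t c) (dot1 t a1) (dot1 t a2) (dot1 t a3)
      (Nat.add (Nat.shiftRight (Nat.mul tm r) 32) 5) k) X

def ad (a b : ℕ) : ℕ := Nat.sub (Nat.add a b) 4503599627370496
def sb (a b : ℕ) : ℕ := Nat.sub (Nat.add a 4503599627370496) b
def ng (a : ℕ) : ℕ := Nat.sub 9007199254740992 a

def add (X Y : L) (k : L → Bool) : Bool :=
  L.rec (fun c a1 a2 a3 r => L.rec (fun d b1 b2 b3 s =>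
    mkL (ad c d) (ad a1 b1) (ad a2 b2) (ad a3 b3) (Nat.add r s) k) Y) X

def sub (X Y : L) (k : L → Bool) : Bool :=
  L.rec (fun c a1 a2 a3 r => L.rec (fun d b1 b2 b3 s =>
    mkL (sb c d) (sb a1 b1) (sb a2 b2) (sb a3 b3) (Nat.add r s) k) Y) X

/-- add a constant known up to an error -/
def addc (X : L) (t e : ℕ) (k : L → Bool) : Bool :=
  L.rec (fun c a1 a2 a3 r => fN (ad c t) fun c' => fN (Nat.add r e) fun r' => k ⟨c', a1, a2, a3, r'⟩) X

def addE (X : E) (t : ℕ) (k : E → Bool) : Bool :=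
  E.rec (fun c a1 a2 a3 r _ n => fN (ad c t) fun c' => fN (ab c') fun m' => k ⟨c', a1, a2, a3, r, m', n⟩) X

/-- constant minus form -/
def rsub (t : ℕ) (X : E) (k : E → Bool) : Bool :=
  E.rec (fun c a1 a2 a3 r _ n => fN (sb t c) fun c' => fN (ab c') fun m' =>
    fN (ng a1) fun b1 => fN (ng a2) fun b2 => fN (ng a3) fun b3 => k ⟨c', b1, b2, b3, r, m', n⟩) X

def hiLe (X : E) (t : ℕ) : Bool := E.rec (fun c _ _ _ r _ n => Nat.ble (Nat.add (Nat.add c n) r) t) X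
def loGe (X : E) (t : ℕ) : Bool := E.rec (fun c _ _ _ r _ n => Nat.ble (Nat.add (Nat.add t n) r) c) X

def zeroL : L := ⟨4503599627370496, 4503599627370496, 4503599627370496, 4503599627370496, 0⟩

def hf (a : ℕ) : ℕ := Nat.shiftRight (Nat.add a 4503599627370496) 1

def pos (X : E) (k : L → Bool) : Bool :=
  bif loGe X 4503599627370496 then k X.l else bif hiLe X 4503599627370496 then k zeroL else
  E.rec (fun c a1 a2 a3 r m n => fN (Nat.shiftRight (Nat.add (Nat.add m n) r) 2) fun q =>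
    Nat.ble q 8796093022208 &&
    mkL (Nat.add (hf c) q) (hf a1) (hf a2) (hf a3) (Nat.add (Nat.add (Nat.shiftRight r 1) q) 7) k) X

def pos2 (X : E) (k : L → Bool) : Bool :=
  bif loGe X 4503599627370496 then sq X k else
  E.rec (fun c _ _ _ r _ n => fN (Nat.sub (Nat.add (Nat.add c n) r) 4503599627370496) fun p =>
    fN (Nat.add (Nat.shiftRight (Nat.mul p p) 33) 1) fun q =>
    Nat.ble q 8796093022208 &&
    fN (Nat.add q 4503599627370496) fun c' =>
      k ⟨c', 4503599627370496, 4503599627370496, 4503599627370496, q⟩) X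

def inv (X : E) (k : L → Bool) (z : Bool) : Bool :=
  E.rec (fun c _ _ _ r _ n =>
    fN (Nat.sub c (Nat.add (Nat.add 4503599627370496 n) r)) fun l =>
    bif Nat.ble 8388608 l then
      fN (Nat.div 18446744073709551616 (Nat.sub c 4503599627370496)) fun q =>
      fN (Nat.add q 4503599627370496) fun qo =>
      smulE qo q X fun Y => ext Y fun Y => rsub 4503603922337792 Y fun e =>
      E.rec (fun _ _ _ _ er em en => fN (Nat.add (Nat.add em en) er) fun M =>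
        fN (Nat.add (Nat.shiftRight (Nat.div (Nat.mul M M) l) 1) 2) fun t =>
        bif Nat.ble t 8796093022208 then
          smulE qo q e fun W => addc W (Nat.add qo t) t k
        else z) e
    else z) X

/-! ### Semantics -/

structure Ns where
  e1 : ℝ
  e2 : ℝ
  e3 : ℝ
  h1 : |e1| ≤ 1
  h2 : |e2| ≤ 1
  h3 : |e3| ≤ 1

def InL (ε : Ns) (j : ℝ) (X : L) (x : ℝ) : Prop :=
  |vl X.c| ≤ j * 2 ^ 44 ∧ |vl X.g1| ≤ j * 2 ^ 44 ∧ |vl X.g2| ≤ j * 2 ^ 44 ∧ |vl X.g3| ≤ j * 2 ^ 44 ∧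
    |x * 2 ^ 32 - (vl X.c + vl X.g1 * ε.e1 + vl X.g2 * ε.e2 + vl X.g3 * ε.e3)| ≤ (X.r : ℝ)

def InE (ε : Ns) (j : ℝ) (X : E) (x : ℝ) : Prop :=
  InL ε j X.l x ∧ (X.m : ℝ) = |vl X.c| ∧ (X.n : ℝ) = |vl X.g1| + |vl X.g2| + |vl X.g3|

theorem cast_ab (u : ℕ) : (ab u : ℝ) = |vl u| := by
  unfold ab vl
  simp only [Nat.add_eq, Nat.sub_eq]
  rcases le_total u 4503599627370496 with h | h
  · rw [Nat.sub_eq_zero_of_le h, Nat.cast_add, Nat.cast_sub h, abs_of_nonpos]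
    · push_cast; ring
    · have : (u : ℝ) ≤ 4503599627370496 := by exact_mod_cast h
      linarith
  · rw [Nat.sub_eq_zero_of_le h, Nat.cast_add, Nat.cast_sub h, abs_of_nonneg]
    · push_cast; ring
    · have : (4503599627370496 : ℝ) ≤ u := by exact_mod_cast h
      linarith

theorem shr_bd (n s : ℕ) : ((Nat.shiftRight n s : ℕ) : ℝ) * 2 ^ s ≤ n ∧
    (n : ℝ) ≤ ((Nat.shiftRight n s : ℕ) : ℝ) * 2 ^ s + 2 ^ s := by
  have h : Nat.shiftRight n s = n / 2 ^ s := Nat.shiftRight_eq_div_pow n s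
  rw [h]
  have h1 := Nat.div_add_mod n (2 ^ s)
  have h2 : n % 2 ^ s < 2 ^ s := Nat.mod_lt _ (by positivity)
  have h3 : ((2 ^ s * (n / 2 ^ s) + n % 2 ^ s : ℕ) : ℝ) = n := by rw [h1]
  have h4 : ((n % 2 ^ s : ℕ) : ℝ) < 2 ^ s := by exact_mod_cast h2
  have h5 : (0 : ℝ) ≤ ((n % 2 ^ s : ℕ) : ℝ) := Nat.cast_nonneg _
  rw [Nat.cast_add, Nat.cast_mul, Nat.cast_pow] at h3
  push_cast at h3 ⊢
  constructor <;> nlinarith

theorem div_bd (n d : ℕ) (hd : 0 < d) : ((Nat.div n d : ℕ) : ℝ) * d ≤ n ∧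
    (n : ℝ) ≤ ((Nat.div n d : ℕ) : ℝ) * d + d := by
  have h : Nat.div n d = n / d := rfl
  rw [h]
  have h1 := Nat.div_add_mod n d
  have h2 : n % d < d := Nat.mod_lt _ hd
  have h3 : ((d * (n / d) + n % d : ℕ) : ℝ) = n := by rw [h1]
  have h4 : ((n % d : ℕ) : ℝ) < d := by exact_mod_cast h2
  have h5 : (0 : ℝ) ≤ ((n % d : ℕ) : ℝ) := Nat.cast_nonneg _
  rw [Nat.cast_add, Nat.cast_mul] at h3
  constructor <;> nlinarith

theorem cast_sub' {a b : ℕ} (h : (b : ℝ) ≤ a) : ((Nat.sub a b : ℕ) : ℝ) = a - b := by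
  have : b ≤ a := by exact_mod_cast h
  rw [Nat.sub_eq, Nat.cast_sub this]

/-- the shifted difference stores `t / 2^s` -/
theorem shr_sub {a b s : ℕ} {t : ℝ} (h : (a : ℝ) - b = t + 4503599627370496 * 2 ^ s)
    (ht : |t| ≤ 4503599627370496 * 2 ^ s) :
    |vl (Nat.shiftRight (Nat.sub a b) s) * 2 ^ s - t| ≤ 2 ^ s := by
  have h0 := abs_le.1 ht
  have h1 : ((Nat.sub a b : ℕ) : ℝ) = a - b := cast_sub' (by linarith)
  have h2 := shr_bd (Nat.sub a b) s
  rw [h1, h] at h2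
  unfold vl
  rw [abs_le]
  constructor <;> nlinarith [h2.1, h2.2]

theorem dot1_s (a b : ℕ) (h : |vl a * vl b| ≤ 2 ^ 84) :
    |vl (dot1 a b) * 2 ^ 32 - vl a * vl b| ≤ 2 ^ 32 := by
  apply shr_sub
  · simp only [Nat.add_eq, Nat.mul_eq, vl]; push_cast; ring
  · norm_num at h ⊢; exact h

theorem dot2_s (a b c d : ℕ) (h : |vl a * vl b + vl c * vl d| ≤ 2 ^ 84) :
    |vl (dot2 a b c d) * 2 ^ 32 - (vl a * vl b + vl c * vl d)| ≤ 2 ^ 32 := by
  apply shr_sub
  · simp only [Nat.add_eq, Nat.mul_eq, vl]; push_cast; ring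
  · norm_num at h ⊢; exact h

theorem dotd_s (a b : ℕ) (h : |vl a * vl b| ≤ 2 ^ 83) :
    |vl (dotd a b) * 2 ^ 31 - vl a * vl b| ≤ 2 ^ 31 := by
  apply shr_sub
  · simp only [Nat.add_eq, Nat.mul_eq, vl]; push_cast; ring
  · norm_num at h ⊢; exact h

theorem vl_ad (a b : ℕ) (h : |vl a + vl b| ≤ 2 ^ 52) : vl (ad a b) = vl a + vl b := by
  have := abs_le.1 h
  unfold ad vl at *
  rw [cast_sub'] <;> simp only [Nat.add_eq] <;> push_cast <;> norm_num at this ⊢ <;> linarith [this.1]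

theorem vl_sb (a b : ℕ) (h : |vl a - vl b| ≤ 2 ^ 52) : vl (sb a b) = vl a - vl b := by
  have := abs_le.1 h
  unfold sb vl at *
  rw [cast_sub'] <;> simp only [Nat.add_eq] <;> push_cast <;> norm_num at this ⊢ <;> linarith [this.1]

theorem vl_ng (a : ℕ) (h : |vl a| ≤ 2 ^ 52) : vl (ng a) = - vl a := by
  have := abs_le.1 h
  unfold ng vl at *
  rw [cast_sub'] <;> push_cast <;> linarith [this.2]

theorem vl_hf (a : ℕ) : |vl (hf a) * 2 - vl a| ≤ 2 := by
  have := shr_bd (Nat.add a 4503599627370496) 1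
  unfold hf vl
  simp only [Nat.add_eq] at this ⊢
  push_cast at this
  rw [abs_le]; constructor <;> linarith [this.1, this.2]

theorem vl_add (a b : ℕ) : vl (Nat.add a b) = vl a + b := by
  simp only [vl, Nat.add_eq]; push_cast; ring

theorem vl_add' (a : ℕ) : vl (Nat.add a 4503599627370496) = a := by
  simp only [vl, Nat.add_eq]; push_cast; ring

theorem vl_B : vl 4503599627370496 = 0 := by simp [vl]

end Pool.Agent.Work.MP_c2ab8b_gt
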