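import Pool.Agent.Work.MP_c2ab8b_gt.AA

/- Soundness of the affine arithmetic operations. -/

noncomputable section
namespace Pool.Agent.Work.MP_c2ab8b_gt

variable {ε : Ns} {i j : ℝ} {x y : ℝ}

attribute [local irreducible] ad sb ng hf dot1 dot2 dotd ab vl

theorem lin_bd (ε : Ns) (a b c : ℝ) : |a * ε.e1 + b * ε.e2 + c * ε.e3| ≤ |a| + |b| + |c| := by
  have h : ∀ u v : ℝ, |v| ≤ 1 → |u * v| ≤ |u| := fun u v hv => by
    rw [abs_mul]; exact mul_le_of_le_one_right (abs_nonneg _) hv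
  linarith only [h, abs_add_three (a * ε.e1) (b * ε.e2) (c * ε.e3), h a _ ε.h1, h b _ ε.h2, h c _ ε.h3]

theorem cond_s {b u v : Bool} (h : cond b u v = true) : (b = true ∧ u = true) ∨ (b = false ∧ v = true) := by
  cases b
  · exact Or.inr ⟨rfl, h⟩
  · exact Or.inl ⟨rfl, h⟩

theorem InL.mono {X : L} (h : InL ε i X x) (hij : i ≤ j) : InL ε j X x := by
  obtain ⟨h1, h2, h3, h4, h5⟩ := h
  have : i * 2 ^ 44 ≤ j * 2 ^ 44 := by linarith only [hij]
  exact ⟨h1.trans this, h2.trans this, h3.trans this, h4.trans this, h5⟩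

theorem InL.congr {X : L} (h : InL ε i X x) (hxy : x = y) : InL ε i X y := hxy ▸ h
theorem InE.congr {X : E} (h : InE ε i X x) (hxy : x = y) : InE ε i X y := hxy ▸ h

theorem ext_s {X : L} {k : E → Bool} (hx : InL ε i X x) (h : ext X k = true) :
    ∃ Z, InE ε i Z x ∧ k Z = true := by
  obtain ⟨c, g1, g2, g3, r⟩ := X
  simp only [ext, fN_eq] at h
  refine ⟨⟨c, g1, g2, g3, r, _, _⟩, ⟨hx, cast_ab c, ?_⟩, h⟩
  simp only [Nat.add_eq, Nat.cast_add, cast_ab]

theorem rnd_bd {u t B : ℝ} (h : |u * 2 ^ 32 - t| ≤ 2 ^ 32) (ht : |t| ≤ B) : |u| * 2 ^ 32 ≤ B + 2 ^ 32 := by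
  have : |u * 2 ^ 32| ≤ B + 2 ^ 32 := by
    calc |u * 2 ^ 32| = |(u * 2 ^ 32 - t) + t| := by ring_nf
      _ ≤ _ := abs_add_le _ _
      _ ≤ _ := by linarith
  rwa [abs_mul, abs_of_pos (by positivity : (0 : ℝ) < 2 ^ 32)] at this

/-- assembling a result from rounded coefficients -/
theorem asm (ε : Ns) {z C G1 G2 G3 c g1 g2 g3 T R : ℝ}
    (h0 : |C * 2 ^ 32 - c| ≤ 2 ^ 32) (h1 : |G1 * 2 ^ 32 - g1| ≤ 2 ^ 32)
    (h2 : |G2 * 2 ^ 32 - g2| ≤ 2 ^ 32) (h3 : |G3 * 2 ^ 32 - g3| ≤ 2 ^ 32)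
    (hz : |z * 2 ^ 32 - (c + g1 * ε.e1 + g2 * ε.e2 + g3 * ε.e3)| ≤ T)
    (hR : T + 4 * 2 ^ 32 ≤ R * 2 ^ 32) :
    |z - (C + G1 * ε.e1 + G2 * ε.e2 + G3 * ε.e3)| ≤ R := by
  have hl := lin_bd ε (G1 * 2 ^ 32 - g1) (G2 * 2 ^ 32 - g2) (G3 * 2 ^ 32 - g3)
  have a1 := abs_le.1 h0
  have a2 := abs_le.1 hz
  have a3 := abs_le.1 (hl.trans (add_le_add (add_le_add h1 h2) h3))
  rw [abs_le]
  constructor <;> linarith only [hR, a1, a2, a3, a1.1, a1.2, a2.1, a2.2, a3.1, a3.2]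

theorem prod_bd {a b A B : ℝ} (ha : |a| ≤ A) (hb : |b| ≤ B) : |a * b| ≤ A * B := by
  rw [abs_mul]; exact mul_le_mul ha hb (abs_nonneg _) ((abs_nonneg _).trans ha)

theorem mul_s {X Y : E} {k : L → Bool} (hx : InE ε i X x) (hy : InE ε j Y y) (h : mul X Y k = true) :
    ∃ Z, InL ε 1 Z (x * y) ∧ k Z = true := by
  obtain ⟨c, a1, a2, a3, r, m, n⟩ := X
  obtain ⟨d, b1, b2, b3, s, m', n'⟩ := Y
  simp only [mul, fN_eq, mkL_eq, Bool.and_eq_true, Nat.ble_eq] at h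
  obtain ⟨hc, h⟩ := h
  obtain ⟨⟨-, -, -, -, hx⟩, hm, hn⟩ := hx
  obtain ⟨⟨-, -, -, -, hy⟩, hm', hn'⟩ := hy
  simp only [E.l] at hx hy hm hn hm' hn'
  have hc' : ((m : ℝ) + n) * (m' + n') ≤ 2 ^ 75 := by
    simp only [Nat.add_eq, Nat.mul_eq] at hc
    have : (((m + n) * (m' + n') : ℕ) : ℝ) ≤ (37778931862957161709568 : ℕ) := Nat.cast_le.2 hc
    push_cast at this; norm_num; exact this
  have p0 := abs_nonneg (vl c); have p1 := abs_nonneg (vl a1); have p2 := abs_nonneg (vl a2)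
  have p3 := abs_nonneg (vl a3); have q0 := abs_nonneg (vl d); have q1 := abs_nonneg (vl b1)
  have q2 := abs_nonneg (vl b2); have q3 := abs_nonneg (vl b3)
  have hmn : (0 : ℝ) ≤ (m : ℝ) * m' ∧ (0 : ℝ) ≤ (n : ℝ) * n' ∧ (0 : ℝ) ≤ (m : ℝ) * n' ∧
      (0 : ℝ) ≤ (n : ℝ) * m' := ⟨by positivity, by positivity, by positivity, by positivity⟩
  have t0 : |vl c * vl d| ≤ 2 ^ 75 := by
    have := prod_bd hm.ge hm'.ge; linarith only [this, hc', hmn.2.1, hmn.2.2.1, hmn.2.2.2]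
  have tg : ∀ a b : ℕ, |vl a| ≤ n → |vl b| ≤ n' → |vl c * vl b + vl d * vl a| ≤ 2 ^ 75 := by
    intro a b ha hb
    have u1 := prod_bd hm.ge hb
    have u2 := prod_bd hm'.ge ha
    have := abs_add_le (vl c * vl b) (vl d * vl a)
    linarith only [this, u1, u2, hc', hmn.1, hmn.2.1]
  have t1 := tg a1 b1 (by linarith only [hn, p2, p3]) (by linarith only [hn', q2, q3])
  have t2 := tg a2 b2 (by linarith only [hn, p1, p3]) (by linarith only [hn', q1, q3])
  have t3 := tg a3 b3 (by linarith only [hn, p1, p2]) (by linarith only [hn', q1, q2])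
  have d0 := dot1_s c d (t0.trans (by norm_num))
  have d1 := dot2_s c b1 d a1 (t1.trans (by norm_num))
  have d2 := dot2_s c b2 d a2 (t2.trans (by norm_num))
  have d3 := dot2_s c b3 d a3 (t3.trans (by norm_num))
  refine ⟨_, ⟨?_, ?_, ?_, ?_, ?_⟩, h⟩
  · have := rnd_bd d0 t0; dsimp only; linarith only [this]
  · have := rnd_bd d1 t1; dsimp only; linarith only [this]
  · have := rnd_bd d2 t2; dsimp only; linarith only [this]
  · have := rnd_bd d3 t3; dsimp only; linarith only [this]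
  dsimp only
  have la := (lin_bd ε (vl a1) (vl a2) (vl a3)).trans hn.ge
  have lb := (lin_bd ε (vl b1) (vl b2) (vl b3)).trans hn'.ge
  set La := vl a1 * ε.e1 + vl a2 * ε.e2 + vl a3 * ε.e3 with hLa
  set Lb := vl b1 * ε.e1 + vl b2 * ε.e2 + vl b3 * ε.e3 with hLb
  set ex := x * 2 ^ 32 - (vl c + vl a1 * ε.e1 + vl a2 * ε.e2 + vl a3 * ε.e3) with hex
  set ey := y * 2 ^ 32 - (vl d + vl b1 * ε.e1 + vl b2 * ε.e2 + vl b3 * ε.e3) with hey
  refine asm ε d0 d1 d2 d3 (T := ((m : ℝ) + n + r) * s + (m' + n') * r + n * n') ?_ ?_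
  · have e : x * y * 2 ^ 32 * 2 ^ 32 - (vl c * vl d + (vl c * vl b1 + vl d * vl a1) * ε.e1 +
        (vl c * vl b2 + vl d * vl a2) * ε.e2 + (vl c * vl b3 + vl d * vl a3) * ε.e3) =
        (vl c + La + ex) * ey + (vl d + Lb) * ex + La * Lb := by
      rw [hex, hey, hLa, hLb]; ring
    rw [e]
    have u1 : |vl c + La + ex| ≤ (m : ℝ) + n + r := (abs_add_three _ _ _).trans (by linarith only [hm, la, hx])
    have u2 : |vl d + Lb| ≤ (m' : ℝ) + n' := (abs_add_le _ _).trans (by linarith only [hm', lb])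
    exact (abs_add_three _ _ _).trans
      (add_le_add (add_le_add (prod_bd u1 hy) (prod_bd u2 hx)) (prod_bd la lb))
  · have := (shr_bd (Nat.add (Nat.add (Nat.mul (Nat.add (Nat.add m n) r) s) (Nat.mul (Nat.add m' n') r))
      (Nat.mul n n')) 32).2
    simp only [Nat.add_eq, Nat.mul_eq] at this ⊢
    push_cast at this ⊢
    linarith only [this]

theorem sq_s {X : E} {k : L → Bool} (hx : InE ε i X x) (h : sq X k = true) :
    ∃ Z, InL ε 1 Z (x ^ 2) ∧ k Z = true := by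
  obtain ⟨c, a1, a2, a3, r, m, n⟩ := X
  simp only [sq, fN_eq, mkL_eq, Bool.and_eq_true, Nat.ble_eq] at h
  obtain ⟨hc, h⟩ := h
  obtain ⟨⟨-, -, -, -, hx⟩, hm, hn⟩ := hx
  simp only [E.l] at hx hm hn
  have hc' : ((m : ℝ) + (n + r)) * (m + (n + r)) ≤ 2 ^ 74 := by
    simp only [Nat.add_eq, Nat.mul_eq] at hc
    have : (((m + (n + r)) * (m + (n + r)) : ℕ) : ℝ) ≤ (18889465931478580854784 : ℕ) := Nat.cast_le.2 hc
    push_cast at this; norm_num; exact this
  have hq := shr_bd (Nat.mul (Nat.add n r) (Nat.add n r)) 1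
  set q := Nat.shiftRight (Nat.mul (Nat.add n r) (Nat.add n r)) 1 with hqd
  simp only [Nat.add_eq, Nat.mul_eq] at hq
  push_cast at hq
  have p0 := abs_nonneg (vl c); have p1 := abs_nonneg (vl a1); have p2 := abs_nonneg (vl a2)
  have p3 := abs_nonneg (vl a3)
  have hm0 : (0 : ℝ) ≤ m := by positivity
  have hn0 : (0 : ℝ) ≤ n := by positivity
  have hr0 : (0 : ℝ) ≤ r := by positivity
  have hq0 : (0 : ℝ) ≤ q := by positivity
  have cc : vl c * vl c = (m : ℝ) * m := by rw [hm, abs_mul_abs_self]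
  have t0 : |vl c * vl c + q| ≤ 2 ^ 75 := by
    rw [cc, abs_of_nonneg (add_nonneg (mul_nonneg hm0 hm0) hq0)]
    linarith only [hq.1, hc', hq0, mul_nonneg hm0 hn0, mul_nonneg hm0 hr0, mul_nonneg hm0 hm0]
  have tg : ∀ a : ℕ, |vl a| ≤ n → |vl c * vl a| ≤ 2 ^ 74 := by
    intro a ha
    have u1 := prod_bd hm.ge ha
    linarith only [u1, hc', mul_nonneg hm0 hn0, mul_nonneg hm0 hr0, mul_nonneg hm0 hm0, sq_nonneg ((n : ℝ) + r)]
  have dd : ∀ a : ℕ, |vl a| ≤ n → |vl (dotd c a) * 2 ^ 32 - 2 * (vl c * vl a)| ≤ 2 ^ 32 ∧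
      |vl (dotd c a)| ≤ 1 * 2 ^ 44 := by
    intro a ha
    have u := dotd_s c a ((tg a ha).trans (by norm_num))
    have u1 : |vl (dotd c a) * 2 ^ 32 - 2 * (vl c * vl a)| ≤ 2 ^ 32 := by
      have v := abs_le.1 u
      rw [abs_le]; constructor <;> linarith only [v, v.1, v.2]
    refine ⟨u1, ?_⟩
    have u2 : |2 * (vl c * vl a)| ≤ 2 ^ 75 := by
      rw [abs_mul, abs_two]; linarith only [tg, ha, tg a ha]
    have := rnd_bd u1 u2; linarith only [this]
  have d0 : |vl (Nat.shiftRight (Nat.sub (Nat.add (Nat.add (Nat.mul c c) q)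
      20282428946464784258014046584832) (Nat.mul 9007199254740992 c)) 32) * 2 ^ 32 -
      (vl c * vl c + q)| ≤ 2 ^ 32 := by
    apply shr_sub
    · simp only [Nat.add_eq, Nat.mul_eq, vl]; push_cast; ring
    · exact t0.trans (by norm_num)
  have d1 := dd a1 (by linarith only [hn, p2, p3])
  have d2 := dd a2 (by linarith only [hn, p1, p3])
  have d3 := dd a3 (by linarith only [hn, p1, p2])
  refine ⟨_, ⟨?_, d1.2, d2.2, d3.2, ?_⟩, h⟩
  · have := rnd_bd d0 t0; dsimp only; linarith only [this]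
  dsimp only
  have la := (lin_bd ε (vl a1) (vl a2) (vl a3)).trans hn.ge
  set La := vl a1 * ε.e1 + vl a2 * ε.e2 + vl a3 * ε.e3 with hLa
  set ex := x * 2 ^ 32 - (vl c + vl a1 * ε.e1 + vl a2 * ε.e2 + vl a3 * ε.e3) with hex
  refine asm ε d0 d1.1 d2.1 d3.1 (T := 2 * m * r + q + 2) ?_ ?_
  · have e : x ^ 2 * 2 ^ 32 * 2 ^ 32 - (vl c * vl c + q + 2 * (vl c * vl a1) * ε.e1 +
        2 * (vl c * vl a2) * ε.e2 + 2 * (vl c * vl a3) * ε.e3) =
        2 * (vl c * ex) + ((La + ex) * (La + ex) - q) := by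
      rw [hex, hLa]; ring
    rw [e]
    have u1 : |La + ex| ≤ (n : ℝ) + r := (abs_add_le _ _).trans (by linarith only [la, hx])
    have u2 := abs_le.1 (prod_bd hm.ge hx)
    have u3 := abs_le.1 (prod_bd u1 u1)
    rw [abs_le]
    constructor <;> linarith only [mul_self_nonneg (La + ex), hq.2, u2.1, u2.2, u3.2]
  · have := (shr_bd (Nat.add (Nat.mul (Nat.mul 2 m) r) q) 32).2
    simp only [Nat.add_eq, Nat.mul_eq] at this ⊢
    push_cast at this ⊢
    linarith only [this]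

theorem smul_core {c a1 a2 a3 r t tm : ℕ} {M : ℝ} (ht : |vl t| ≤ tm)
    (b0 : |vl t * vl c| ≤ M) (b1 : |vl t * vl a1| ≤ M) (b2 : |vl t * vl a2| ≤ M)
    (b3 : |vl t * vl a3| ≤ M) (hM : M ≤ 2 ^ 84) (hj : M + 2 ^ 32 ≤ j * 2 ^ 76)
    (hx : |x * 2 ^ 32 - (vl c + vl a1 * ε.e1 + vl a2 * ε.e2 + vl a3 * ε.e3)| ≤ (r : ℝ)) :
    InL ε j ⟨dot1 t c, dot1 t a1, dot1 t a2, dot1 t a3,
      Nat.add (Nat.shiftRight (Nat.mul tm r) 32) 5⟩ (vl t / 2 ^ 32 * x) := by
  have d0 := dot1_s t c (b0.trans hM)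
  have d1 := dot1_s t a1 (b1.trans hM)
  have d2 := dot1_s t a2 (b2.trans hM)
  have d3 := dot1_s t a3 (b3.trans hM)
  refine ⟨?_, ?_, ?_, ?_, ?_⟩
  · have := rnd_bd d0 b0; dsimp only; linarith only [hj, this]
  · have := rnd_bd d1 b1; dsimp only; linarith
  · have := rnd_bd d2 b2; dsimp only; linarith
  · have := rnd_bd d3 b3; dsimp only; linarith
  dsimp only
  refine asm ε d0 d1 d2 d3 (T := (tm : ℝ) * r) ?_ ?_
  · refine le_trans (le_of_eq ?_) (prod_bd ht hx)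
    congr 1; field_simp
  · have := (shr_bd (Nat.mul tm r) 32).2
    simp only [Nat.add_eq, Nat.mul_eq] at this ⊢
    push_cast at this ⊢
    linarith only [this]

theorem smul_s {X : L} {t tm : ℕ} {k : L → Bool} (hx : InL ε i X x) (ht : |vl t| ≤ tm)
    (htm : (tm : ℝ) ≤ 2 ^ 35) (hi : 1 ≤ i ∧ i ≤ 32) (h : smul t tm X k = true) :
    ∃ Z, InL ε (9 * i) Z (vl t / 2 ^ 32 * x) ∧ k Z = true := by
  obtain ⟨c, a1, a2, a3, r⟩ := X
  simp only [smul, mkL_eq] at h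
  obtain ⟨h0, h1, h2, h3, hx⟩ := hx
  have ht' := ht.trans htm
  exact ⟨_, smul_core ht (prod_bd ht' h0) (prod_bd ht' h1) (prod_bd ht' h2) (prod_bd ht' h3)
    (by linarith only [hi, hi.2]) (by linarith [hi.1]) hx, h⟩

theorem smulE_s {X : E} {t tm : ℕ} {k : L → Bool} (hx : InE ε i X x) (ht : |vl t| ≤ tm)
    (h : smulE t tm X k = true) : ∃ Z, InL ε 1 Z (vl t / 2 ^ 32 * x) ∧ k Z = true := by
  obtain ⟨c, a1, a2, a3, r, m, n⟩ := X
  simp only [smulE, mkL_eq, Bool.and_eq_true, Nat.ble_eq] at h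
  obtain ⟨hc, h⟩ := h
  obtain ⟨⟨-, -, -, -, hx⟩, hm, hn⟩ := hx
  simp only [E.l] at hx hm hn
  have hc' : (tm : ℝ) * (m + n) ≤ 2 ^ 75 := by
    simp only [Nat.add_eq, Nat.mul_eq] at hc
    have : ((tm * (m + n) : ℕ) : ℝ) ≤ (37778931862957161709568 : ℕ) := Nat.cast_le.2 hc
    push_cast at this; norm_num; exact this
  have p0 := abs_nonneg (vl c); have p1 := abs_nonneg (vl a1); have p2 := abs_nonneg (vl a2)
  have p3 := abs_nonneg (vl a3)
  have b : ∀ a : ℕ, |vl a| ≤ (m : ℝ) + n → |vl t * vl a| ≤ 2 ^ 75 := fun a ha =>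
    (prod_bd ht ha).trans hc'
  exact ⟨_, smul_core ht (b c (by linarith)) (b a1 (by linarith)) (b a2 (by linarith))
    (b a3 (by linarith)) (by norm_num) (by norm_num) hx, h⟩

theorem add_s {X Y : L} {k : L → Bool} (hx : InL ε i X x) (hy : InL ε j Y y) (hij : i + j ≤ 256)
    (h : add X Y k = true) : ∃ Z, InL ε (i + j) Z (x + y) ∧ k Z = true := by
  obtain ⟨c, a1, a2, a3, r⟩ := X
  obtain ⟨d, b1, b2, b3, s⟩ := Y
  simp only [add, mkL_eq] at h
  obtain ⟨h0, h1, h2, h3, hx⟩ := hx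
  obtain ⟨k0, k1, k2, k3, hy⟩ := hy
  dsimp only at *
  have u : ∀ a b : ℕ, |vl a| ≤ i * 2 ^ 44 → |vl b| ≤ j * 2 ^ 44 →
      vl (ad a b) = vl a + vl b ∧ |vl (ad a b)| ≤ (i + j) * 2 ^ 44 := by
    intro a b ha hb
    have := abs_add_le (vl a) (vl b)
    have e := vl_ad a b (by linarith only [hij, ha, hb, this])
    exact ⟨e, by rw [e]; linarith only [ha, hb, this]⟩
  refine ⟨_, ⟨(u _ _ h0 k0).2, (u _ _ h1 k1).2, (u _ _ h2 k2).2, (u _ _ h3 k3).2, ?_⟩, h⟩
  dsimp only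
  rw [(u _ _ h0 k0).1, (u _ _ h1 k1).1, (u _ _ h2 k2).1, (u _ _ h3 k3).1]
  have a := abs_le.1 hx; have b := abs_le.1 hy
  simp only [Nat.add_eq]; push_cast
  rw [abs_le]; constructor <;> linarith only [a, b, a.1, a.2, b.1, b.2]

theorem sub_s {X Y : L} {k : L → Bool} (hx : InL ε i X x) (hy : InL ε j Y y) (hij : i + j ≤ 256)
    (h : sub X Y k = true) : ∃ Z, InL ε (i + j) Z (x - y) ∧ k Z = true := by
  obtain ⟨c, a1, a2, a3, r⟩ := X
  obtain ⟨d, b1, b2, b3, s⟩ := Y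
  simp only [sub, mkL_eq] at h
  obtain ⟨h0, h1, h2, h3, hx⟩ := hx
  obtain ⟨k0, k1, k2, k3, hy⟩ := hy
  dsimp only at *
  have u : ∀ a b : ℕ, |vl a| ≤ i * 2 ^ 44 → |vl b| ≤ j * 2 ^ 44 →
      vl (sb a b) = vl a - vl b ∧ |vl (sb a b)| ≤ (i + j) * 2 ^ 44 := by
    intro a b ha hb
    have := abs_sub (vl a) (vl b)
    have e := vl_sb a b (by linarith only [hij, ha, hb, this])
    exact ⟨e, by rw [e]; linarith only [ha, hb, this]⟩
  refine ⟨_, ⟨(u _ _ h0 k0).2, (u _ _ h1 k1).2, (u _ _ h2 k2).2, (u _ _ h3 k3).2, ?_⟩, h⟩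
  dsimp only
  rw [(u _ _ h0 k0).1, (u _ _ h1 k1).1, (u _ _ h2 k2).1, (u _ _ h3 k3).1]
  have a := abs_le.1 hx; have b := abs_le.1 hy
  simp only [Nat.add_eq]; push_cast
  rw [abs_le]; constructor <;> linarith only [a, b, a.1, a.2, b.1, b.2]

theorem addc_s {X : L} {t e : ℕ} {k : L → Bool} (hx : InL ε i X x) (ht : |vl t| ≤ j * 2 ^ 44)
    (hy : |y * 2 ^ 32 - vl t| ≤ (e : ℝ)) (hij : i + j ≤ 256) (h : addc X t e k = true) :
    ∃ Z, InL ε (i + j) Z (x + y) ∧ k Z = true := by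
  obtain ⟨c, a1, a2, a3, r⟩ := X
  simp only [addc, fN_eq] at h
  obtain ⟨h0, h1, h2, h3, hx⟩ := hx
  dsimp only at *
  have hj : 0 ≤ j * 2 ^ 44 := (abs_nonneg _).trans ht
  have := abs_add_le (vl c) (vl t)
  have e := vl_ad c t (by linarith only [ht, hij, h0, this])
  refine ⟨_, ⟨by rw [e]; linarith, by linarith, by linarith, by linarith, ?_⟩, h⟩
  dsimp only
  rw [e]
  have a := abs_le.1 hx; have b := abs_le.1 hy
  simp only [Nat.add_eq]; push_cast
  rw [abs_le]; constructor <;> linarith only [a, b, a.1, a.2, b.1, b.2]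

theorem addE_s {X : E} {t : ℕ} {k : E → Bool} (hx : InE ε i X x) (ht : |vl t| ≤ 2 ^ 44)
    (hij : i ≤ 255) (h : addE X t k = true) :
    ∃ Z, InE ε (i + 1) Z (x + vl t / 2 ^ 32) ∧ k Z = true := by
  obtain ⟨c, a1, a2, a3, r, m, n⟩ := X
  simp only [addE, fN_eq] at h
  obtain ⟨⟨h0, h1, h2, h3, hx⟩, hm, hn⟩ := hx
  simp only [E.l] at *
  have := abs_add_le (vl c) (vl t)
  have e := vl_ad c t (by linarith only [ht, hij, h0, this])
  refine ⟨_, ⟨⟨?_, ?_, ?_, ?_, ?_⟩, cast_ab _, hn⟩, h⟩ <;> simp only [E.l]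
  · rw [e]; linarith only [ht, h0, this]
  · linarith only [h1]
  · linarith
  · linarith
  · rw [e]; refine le_trans (le_of_eq ?_) hx; congr 1; field_simp; ring

theorem rsub_s {X : E} {t : ℕ} {k : E → Bool} (hx : InE ε i X x) (ht : |vl t| ≤ 2 ^ 44)
    (hij : i ≤ 255) (h : rsub t X k = true) :
    ∃ Z, InE ε (i + 1) Z (vl t / 2 ^ 32 - x) ∧ k Z = true := by
  obtain ⟨c, a1, a2, a3, r, m, n⟩ := X
  simp only [rsub, fN_eq] at h
  obtain ⟨⟨h0, h1, h2, h3, hx⟩, hm, hn⟩ := hx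
  simp only [E.l] at *
  have := abs_sub (vl t) (vl c)
  have e := vl_sb t c (by linarith only [ht, hij, h0, this])
  have e1 := vl_ng a1 (by linarith only [hij, h1])
  have e2 := vl_ng a2 (by linarith only [hij, h2])
  have e3 := vl_ng a3 (by linarith only [hij, h3])
  refine ⟨_, ⟨⟨?_, ?_, ?_, ?_, ?_⟩, cast_ab _, ?_⟩, h⟩ <;> simp only [E.l]
  · rw [e]; linarith only [ht, h0, this]
  · rw [e1, abs_neg]; linarith
  · rw [e2, abs_neg]; linarith only [h2]
  · rw [e3, abs_neg]; linarith only [h3]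
  · rw [e, e1, e2, e3, ← abs_neg]; refine le_trans (le_of_eq ?_) hx; congr 1; field_simp; ring
  · rw [e1, e2, e3, abs_neg, abs_neg, abs_neg]; exact hn

theorem InE.rng {X : E} (hx : InE ε i X x) : |x * 2 ^ 32 - vl X.c| ≤ (X.n : ℝ) + X.r := by
  obtain ⟨c, a1, a2, a3, r, m, n⟩ := X
  obtain ⟨⟨h0, h1, h2, h3, hx⟩, hm, hn⟩ := hx
  simp only [E.l] at *
  have a := abs_le.1 hx
  have b := abs_le.1 ((lin_bd ε (vl a1) (vl a2) (vl a3)).trans hn.ge)
  rw [abs_le]; constructor <;> linarith only [a, b, a.1, a.2, b.1, b.2]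

theorem InE.mag {X : E} (hx : InE ε i X x) : |x| * 2 ^ 32 ≤ (X.m : ℝ) + X.n + X.r := by
  have a := hx.rng
  have : |x * 2 ^ 32| ≤ |vl X.c| + |x * 2 ^ 32 - vl X.c| := by
    calc |x * 2 ^ 32| = |vl X.c + (x * 2 ^ 32 - vl X.c)| := by ring_nf
      _ ≤ _ := abs_add_le _ _
  rw [abs_mul, abs_of_pos (by positivity : (0 : ℝ) < 2 ^ 32)] at this
  linarith only [a, this, hx, hx.2.1]

theorem hiLe_s {X : E} {t : ℕ} (hx : InE ε i X x) (h : hiLe X t = true) : x * 2 ^ 32 ≤ vl t := by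
  have a := abs_le.1 hx.rng
  obtain ⟨c, a1, a2, a3, r, m, n⟩ := X
  simp only [hiLe, Nat.ble_eq, Nat.add_eq] at h
  have : ((c + n + r : ℕ) : ℝ) ≤ t := Nat.cast_le.2 h
  push_cast at this
  unfold vl at *
  linarith only [a, this, a.2]

theorem loGe_s {X : E} {t : ℕ} (hx : InE ε i X x) (h : loGe X t = true) : vl t ≤ x * 2 ^ 32 := by
  have a := abs_le.1 hx.rng
  obtain ⟨c, a1, a2, a3, r, m, n⟩ := X
  simp only [loGe, Nat.ble_eq, Nat.add_eq] at h
  have : ((t + n + r : ℕ) : ℝ) ≤ c := Nat.cast_le.2 h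
  push_cast at this
  unfold vl at *
  linarith only [a, this, a.1]

theorem cst_s (ε : Ns) {c r : ℕ} (hc : |vl c| ≤ i * 2 ^ 44) (h : |x * 2 ^ 32 - vl c| ≤ (r : ℝ)) :
    InL ε i ⟨c, 4503599627370496, 4503599627370496, 4503599627370496, r⟩ x := by
  have : 0 ≤ i * 2 ^ 44 := (abs_nonneg _).trans hc
  refine ⟨hc, ?_, ?_, ?_, ?_⟩ <;> simp only [vl_B, abs_zero, zero_mul, add_zero] <;> assumption

theorem zeroL_s (ε : Ns) (hi : 0 ≤ i) : InL ε i zeroL 0 :=
  cst_s ε (by rw [vl_B, abs_zero]; positivity) (by simp [vl_B])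

theorem pos_s {X : E} {k : L → Bool} (hx : InE ε i X x) (h : pos X k = true) :
    ∃ Z, InL ε (i + 1) Z (max x 0) ∧ k Z = true := by
  have hi : 0 ≤ i := by
    have := (abs_nonneg _).trans hx.1.1
    by_contra hn; nlinarith
  unfold pos at h
  cases h1 : loGe X 4503599627370496
  · cases h2 : hiLe X 4503599627370496
    · rw [h1, h2] at h
      have mg := hx.mag
      obtain ⟨c, a1, a2, a3, r, m, n⟩ := X
      simp only [cond_false, fN_eq, mkL_eq, Bool.and_eq_true, Nat.ble_eq] at h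
      obtain ⟨hc, h⟩ := h
      obtain ⟨⟨h0, h1, h2, h3, hx⟩, hm, hn⟩ := hx
      simp only [E.l] at h0 h1 h2 h3 hx hm hn mg
      have hq := shr_bd (Nat.add (Nat.add m n) r) 2
      have hr := shr_bd r 1
      set q := Nat.shiftRight (Nat.add (Nat.add m n) r) 2
      have hc' : (q : ℝ) ≤ 8796093022208 := by exact_mod_cast hc
      simp only [Nat.add_eq] at hq; push_cast at hq
      have hq0 : (0 : ℝ) ≤ q := by positivity
      have u : ∀ a : ℕ, |vl a| ≤ i * 2 ^ 44 → |vl (hf a)| ≤ i * 2 ^ 43 + 1 := by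
        intro a ha
        have v := abs_le.1 (vl_hf a); have w := abs_le.1 ha
        rw [abs_le]; constructor <;> linarith only [v, w, v.1, v.2, w.1, w.2]
      refine ⟨_, ⟨?_, ?_, ?_, ?_, ?_⟩, h⟩ <;> dsimp only
      · rw [vl_add]
        have := abs_add_le (vl (hf c)) q
        rw [abs_of_nonneg hq0] at this
        linarith only [hi, hc', this, u, h0, u c h0]
      · linarith only [hi, u, h1, u a1 h1]
      · linarith only [hi, u, h2, u a2 h2]
      · linarith only [hi, u, h3, u a3 h3]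
      · rw [vl_add]
        have v0 := abs_le.1 (vl_hf c)
        have v := abs_le.1 ((lin_bd ε (vl (hf a1) * 2 - vl a1) (vl (hf a2) * 2 - vl a2)
          (vl (hf a3) * 2 - vl a3)).trans (add_le_add (add_le_add (vl_hf a1) (vl_hf a2)) (vl_hf a3)))
        have w := abs_le.1 hx
        have e : max x 0 = (x + |x|) / 2 := by
          rcases le_total x 0 with h | h
          · rw [max_eq_right h, abs_of_nonpos h]; ring
          · rw [max_eq_left h, abs_of_nonneg h]; ring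
        have := abs_nonneg x
        simp only [Nat.add_eq]; push_cast
        rw [e, abs_le]
        constructor <;> linarith only [hr, v0, v, w, this, mg, hq, v0.1, v0.2, v.1, v.2, w.1, w.2, hq.2, hr.2]
    · rw [h1, h2] at h
      have := hiLe_s hx h2
      rw [vl_B] at this
      have hx0 : x ≤ 0 := by by_contra hn; nlinarith
      exact ⟨_, (zeroL_s ε (by linarith)).congr (max_eq_right hx0).symm, h⟩
  · rw [h1] at h
    have := loGe_s hx h1
    rw [vl_B] at this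
    have hx0 : 0 ≤ x := by by_contra hn; nlinarith
    exact ⟨_, (hx.1.mono (by linarith)).congr (max_eq_left hx0).symm, h⟩

theorem le_sub' (a b : ℕ) : (a : ℝ) - b ≤ ((Nat.sub a b : ℕ) : ℝ) := by
  have h0 : a ≤ Nat.sub a b + b := by rw [Nat.sub_eq]; exact le_tsub_add
  have : (a : ℝ) ≤ ((Nat.sub a b + b : ℕ) : ℝ) := Nat.cast_le.2 h0
  rw [Nat.cast_add] at this; linarith only [this]

theorem pos2_s {X : E} {k : L → Bool} (hx : InE ε i X x) (h : pos2 X k = true) :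
    ∃ Z, InL ε 1 Z (max x 0 ^ 2) ∧ k Z = true := by
  unfold pos2 at h
  cases h1 : loGe X 4503599627370496
  · rw [h1, cond_false] at h
    have a := abs_le.1 hx.rng
    obtain ⟨c, a1, a2, a3, r, m, n⟩ := X
    simp only [fN_eq, Bool.and_eq_true, Nat.ble_eq] at h
    obtain ⟨hc, h⟩ := h
    have hp := le_sub' (Nat.add (Nat.add c n) r) 4503599627370496
    generalize Nat.sub (Nat.add (Nat.add c n) r) 4503599627370496 = p at hp hc h
    simp only [Nat.add_eq] at hp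
    push_cast at hp
    have hp1 : max x 0 * 2 ^ 32 ≤ p := by
      have p0 : (0 : ℝ) ≤ p := by positivity
      unfold vl at a
      rcases le_total x 0 with h | h
      · rw [max_eq_right h]; linarith
      · rw [max_eq_left h]; linarith [a.2]
    have hq := (shr_bd (Nat.mul p p) 33).2
    generalize Nat.shiftRight (Nat.mul p p) 33 = q0 at hq hc h
    have hc' : ((Nat.add q0 1 : ℕ) : ℝ) ≤ 8796093022208 := by exact_mod_cast hc
    refine ⟨_, cst_s ε ?_ ?_, h⟩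
    · rw [vl_add', abs_of_nonneg (by positivity)]; linarith
    · rw [vl_add']
      simp only [Nat.add_eq, Nat.mul_eq] at hq ⊢
      push_cast at hq ⊢
      have m0 : 0 ≤ max x 0 * 2 ^ 32 := mul_nonneg (le_max_right _ _) (by positivity)
      have := mul_le_mul hp1 hp1 m0 (by positivity)
      rw [abs_le]
      constructor <;> linarith only [hq, this, sq_nonneg (max x 0), sq_nonneg (max x (0 : ℝ))]
  · rw [h1] at h
    have := loGe_s hx h1
    rw [vl_B] at this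
    have hx0 : 0 ≤ x := by by_contra hn; nlinarith
    rw [max_eq_left hx0]
    exact sq_s hx h

theorem inv_s {X : E} {k : L → Bool} {z : Bool} (hx : InE ε i X x) (h : inv X k z = true) :
    z = true ∨ (0 < x ∧ ∃ Z, InL ε 3 Z x⁻¹ ∧ k Z = true) := by
  have a := abs_le.1 hx.rng
  obtain ⟨c, a1, a2, a3, r, m, n⟩ := X
  simp only [inv, fN_eq] at h
  set l := Nat.sub c (Nat.add (Nat.add 4503599627370496 n) r) with hl
  cases h1 : Nat.ble 8388608 l
  · rw [h1] at h; exact Or.inl h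
  rw [h1, cond_true] at h
  have hl1 : 8388608 ≤ l := Nat.le_of_ble_eq_true h1
  have hl2 : l + (4503599627370496 + n + r) = c := by
    rw [hl] at hl1 ⊢; simp only [Nat.add_eq, Nat.sub_eq] at hl1 ⊢; omega
  have hl3 : (l : ℝ) + (4503599627370496 + n + r) = c := by exact_mod_cast hl2
  have hl4 : (8388608 : ℝ) ≤ l := by exact_mod_cast hl1
  have hxl : (l : ℝ) ≤ x * 2 ^ 32 := by unfold vl at a; linarith only [a, hl3, a.1]
  have hx0 : 0 < x := by linarith only [hxl, hl4]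
  set q := Nat.div 18446744073709551616 (Nat.sub c 4503599627370496) with hq
  have hq1 : (q : ℝ) ≤ 2 ^ 41 := by
    have : q ≤ 18446744073709551616 / 8388608 := by
      rw [hq]; apply Nat.div_le_div_left _ (by norm_num)
      simp only [Nat.sub_eq]; omega
    have : (q : ℝ) ≤ ((18446744073709551616 / 8388608 : ℕ) : ℝ) := Nat.cast_le.2 this
    norm_num at this ⊢; exact this
  have q0 : (0 : ℝ) ≤ q := by positivity
  have hv : |vl (Nat.add q 4503599627370496)| ≤ q := by rw [vl_add', abs_of_nonneg q0]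
  obtain ⟨Y, hY, h⟩ := smulE_s hx hv h
  obtain ⟨Y, hY, h⟩ := ext_s hY h
  obtain ⟨e, he, h⟩ := rsub_s hY (by unfold vl; norm_num) (by norm_num) h
  have mg := he.mag
  have one : vl 4503603922337792 / 2 ^ 32 = 1 := by unfold vl; norm_num
  rw [one, vl_add'] at he mg
  obtain ⟨ec, e1, e2, e3, er, em, en⟩ := e
  dsimp only at h mg
  set M := Nat.add (Nat.add em en) er with hM
  set t := Nat.add (Nat.shiftRight (Nat.div (Nat.mul M M) l) 1) 2 with ht
  cases h2 : Nat.ble t 8796093022208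
  · rw [h2] at h; exact Or.inl h
  rw [h2, cond_true] at h
  have ht1 : (t : ℝ) ≤ 8796093022208 := by exact_mod_cast Nat.le_of_ble_eq_true h2
  obtain ⟨W, hW, h⟩ := smulE_s he hv h
  rw [vl_add'] at hW
  have t0 : (0 : ℝ) ≤ t := by positivity
  have hd := (div_bd (Nat.mul M M) l (by omega)).2
  have hs := (shr_bd (Nat.div (Nat.mul M M) l) 1).2
  have hM' : |1 - (q : ℝ) / 2 ^ 32 * x| * 2 ^ 32 ≤ (M : ℝ) := by
    rw [hM]; simp only [Nat.add_eq]; push_cast; exact mg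
  set w := 1 - (q : ℝ) / 2 ^ 32 * x with hw
  have key : w ^ 2 / x * 2 ^ 32 ≤ 2 * t := by
    have h1 : (|w| * 2 ^ 32) * (|w| * 2 ^ 32) ≤ (M : ℝ) * M :=
      mul_le_mul hM' hM' (by positivity) (by positivity)
    have h2 : (|w| * 2 ^ 32) * (|w| * 2 ^ 32) = w ^ 2 * 2 ^ 64 := by
      rw [← sq_abs w]; ring
    have h3 : (M : ℝ) * M ≤ 2 * t * l := by
      rw [ht]
      simp only [Nat.add_eq, Nat.mul_eq] at hd hs ⊢
      push_cast at hd hs ⊢
      linarith only [hd, hl4, mul_le_mul_of_nonneg_right hs (Nat.cast_nonneg (α := ℝ) l)]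
    rw [div_mul_eq_mul_div, div_le_iff₀ hx0]
    linarith only [h1, h2, h3, mul_le_mul_of_nonneg_left hxl t0]
  obtain ⟨Z, hZ, h⟩ := addc_s (j := 2) (y := q / 2 ^ 32 + w ^ 2 / x) hW
    (by rw [vl_add, vl_add', abs_of_nonneg (by positivity)]; linarith only [hq1, ht1])
    (by
      rw [vl_add, vl_add']
      have : 0 ≤ w ^ 2 / x * 2 ^ 32 := by positivity
      have e : (q / 2 ^ 32 + w ^ 2 / x) * 2 ^ 32 - (q + t) = w ^ 2 / x * 2 ^ 32 - t := by ring
      rw [e, abs_le]; constructor <;> linarith only [this, key])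
    (by norm_num) h
  refine Or.inr ⟨hx0, Z, (hZ.mono (by norm_num)).congr ?_, h⟩
  rw [hw]; field_simp; ring

end Pool.Agent.Work.MP_c2ab8b_gt
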