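import Pool.Agent.Work.MP_c2ab8b_gt.AAs
import Mathlib.Analysis.SpecialFunctions.Trigonometric.ArctanDeriv
import Mathlib.Analysis.Real.Pi.Bounds
import Mathlib.Analysis.Calculus.Deriv.MeanValue

/- Affine enclosure of the arctangent of a quotient. -/

noncomputable section
namespace Pool.Agent.Work.MP_c2ab8b_gt
open Real

def atanK (t : ℕ) (k : ℕ → Bool) : Bool :=
  fN (Nat.mul t t) fun s => fN (Nat.mul s s) fun u =>
  fN (Nat.div (Nat.mul t (Nat.sub
    (Nat.add 1004537067467811919410476429591445444036887838720 (Nat.mul u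
      (Nat.add 713766516091007417380237448577024 (Nat.mul u (Nat.add 1408782258436833280 (Nat.mul u 3465))))))
    (Nat.mul s (Nat.add 19958358356710511831650663010109373808640 (Nat.mul u
      (Nat.add 30388428317266166950133760 (Nat.mul u 68702699520)))))))
    958001201122104567919231824485249942814720) k

def piL : L := ⟨4503599627370496, 4503599627370496, 4503599627370496, 4503599627370496, 6746518853⟩

def core (U V : L) (b : ℕ) (k : L → Bool) : Bool :=
  fN (Nat.div (Nat.mul (ab V.c) 4096) (Nat.sub U.c 4503599627370496)) fun t =>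
  bif Nat.ble t 2048 then
    fN (Nat.mul t 1048576) fun tm =>
    fN (bif Nat.ble 4503599627370496 V.c then Nat.add tm 4503599627370496
      else Nat.sub 4503599627370496 tm) fun tq =>
    smul tq tm U fun tU => sub V tU fun N => smul tq tm V fun tV => add U tV fun D => ext D fun D =>
    inv D (fun I => ext I fun I => ext N fun N => mul N I fun T => ext T fun T =>
      fN (Nat.add (Nat.add T.m T.n) T.r) fun M =>
      fN (Nat.add (Nat.div (Nat.mul (Nat.mul M M) M) 55340232221128654848) 1) fun cub =>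
      bif Nat.ble (Nat.add (Nat.add T.n T.r) cub) 6746518853 then
        atanK t fun a =>
          addc T.l (bif Nat.ble 4503599627370496 V.c then Nat.add b a else Nat.sub b a)
            (Nat.add (Nat.add cub (Nat.div (Nat.pow t 15) 5352178847647349553968572385435606761435299840)) 3) k
      else k piL) (k piL)
  else k piL

def arg (X : L) (Y : E) (k : L → Bool) : Bool :=
  fN (Nat.sub X.c 4503599627370496) fun x =>
  bif Nat.ble (Nat.mul 5 Y.m) (Nat.mul 2 x) then core X Y.l 4503599627370496 k else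
  bif Nat.ble 4503599627370496 Y.c then
    bif Nat.ble (Nat.mul 5 x) (Nat.mul 2 Y.m) then sub zeroL X fun V => core Y.l V 4503606373889348 k
    else add X Y.l fun U => sub Y.l X fun V => core U V 4503603000629922 k
  else
    bif Nat.ble (Nat.mul 5 x) (Nat.mul 2 Y.m) then sub zeroL Y.l fun U => core U X 4503592880851644 k
    else sub X Y.l fun U => add X Y.l fun V => core U V 4503596254111070 k

attribute [local irreducible] ad sb ng hf dot1 dot2 dotd ab vl

theorem abs_le_of_deriv {f f' : ℝ → ℝ} (n : ℕ) (hf : ∀ x, HasDerivAt f (f' x) x) (h0 : f 0 = 0)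
    (hb : ∀ x, |f' x| ≤ x ^ (2 * n)) (t : ℝ) : |f t| ≤ |t| ^ (2 * n + 1) / (2 * n + 1) := by
  have key : ∀ s : ℝ, s = 1 ∨ s = -1 → Monotone fun x => x ^ (2 * n + 1) / (2 * n + 1) + s * f x := by
    intro s hs
    have hd : ∀ x, HasDerivAt (fun x => x ^ (2 * n + 1) / (2 * n + 1) + s * f x)
        (x ^ (2 * n) + s * f' x) x := by
      intro x
      have h1 := ((hasDerivAt_pow (2 * n + 1) x).div_const (2 * n + 1 : ℝ)).add ((hf x).const_mul s)
      refine h1.congr_deriv ?_
      have : (2 * n + 1 : ℝ) ≠ 0 := by positivity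
      simp only [Nat.add_sub_cancel]; push_cast; field_simp
    apply monotone_of_deriv_nonneg (fun x => (hd x).differentiableAt)
    intro x
    rw [(hd x).deriv]
    have := abs_le.1 (hb x)
    rcases hs with rfl | rfl <;> linarith [this.1, this.2]
  have z : (0 : ℝ) ^ (2 * n + 1) = 0 := by simp
  rcases le_total 0 t with h | h
  · have a := key 1 (Or.inl rfl) h
    have b := key (-1) (Or.inr rfl) h
    simp only [z, h0, zero_div] at a b
    rw [abs_of_nonneg h, abs_le]; constructor <;> linarith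
  · have a := key 1 (Or.inl rfl) h
    have b := key (-1) (Or.inr rfl) h
    simp only [z, h0, zero_div] at a b
    rw [abs_of_nonpos h, Odd.neg_pow ⟨n, rfl⟩, abs_le, neg_div]; constructor <;> linarith

theorem atan1 (t : ℝ) : |arctan t - t| ≤ |t| ^ 3 / 3 := by
  have := abs_le_of_deriv (f := fun x => arctan x - x) (f' := fun x => -x ^ 2 / (1 + x ^ 2)) 1
    (fun x => by
      refine ((hasDerivAt_arctan x).sub (hasDerivAt_id x)).congr_deriv ?_
      field_simp; ring)
    (by simp) (fun x => by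
      rw [abs_div, abs_neg, abs_of_nonneg (sq_nonneg x), abs_of_pos (by positivity)]
      exact div_le_self (sq_nonneg x) (by nlinarith [sq_nonneg x])) t
  norm_num at this ⊢; exact this

theorem atan7 (t : ℝ) : |arctan t - (t - t ^ 3 / 3 + t ^ 5 / 5 - t ^ 7 / 7 + t ^ 9 / 9 - t ^ 11 / 11 +
    t ^ 13 / 13)| ≤ |t| ^ 15 / 15 := by
  have := abs_le_of_deriv (f := fun t => arctan t - (t - t ^ 3 / 3 + t ^ 5 / 5 - t ^ 7 / 7 + t ^ 9 / 9 -
      t ^ 11 / 11 + t ^ 13 / 13)) (f' := fun x => -x ^ 14 / (1 + x ^ 2)) 7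
    (fun x => by
      have p := fun n : ℕ => (hasDerivAt_pow n x).div_const (n : ℝ)
      refine ((hasDerivAt_arctan x).sub (((((((hasDerivAt_id x).sub (p 3)).add (p 5)).sub (p 7)).add
        (p 9)).sub (p 11)).add (p 13))).congr_deriv ?_
      push_cast; field_simp; ring)
    (by simp) (fun x => by
      have : 0 ≤ x ^ 14 := by positivity
      rw [abs_div, abs_neg, abs_of_nonneg this, abs_of_pos (by positivity)]
      exact div_le_self this (by nlinarith [sq_nonneg x])) t
  norm_num at this ⊢; exact this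

theorem atanK_s {t : ℕ} {k : ℕ → Bool} (ht : t ≤ 2048) (h : atanK t k = true) :
    ∃ a : ℕ, |arctan (t / 4096) * 2 ^ 32 - a| ≤
      ((Nat.div (Nat.pow t 15) 5352178847647349553968572385435606761435299840 : ℕ) : ℝ) + 2 ∧
      (a : ℝ) ≤ 2 ^ 32 ∧ k a = true := by
  simp only [atanK, fN_eq] at h
  have t0 : (0 : ℝ) ≤ t := by positivity
  have t1 : (t : ℝ) ≤ 2048 := by exact_mod_cast ht
  have hd := div_bd (Nat.pow t 15) 5352178847647349553968572385435606761435299840 (by norm_num)
  generalize Nat.div (Nat.pow t 15) 5352178847647349553968572385435606761435299840 = w at hd ⊢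
  generalize hp : Nat.add 1004537067467811919410476429591445444036887838720 _ = p at h
  generalize hq : Nat.mul (Nat.mul t t) (Nat.add 19958358356710511831650663010109373808640 _) = q at h
  have hp' : (p : ℝ) = 1004537067467811919410476429591445444036887838720 + t ^ 4 *
      (713766516091007417380237448577024 + t ^ 4 * (1408782258436833280 + t ^ 4 * 3465)) := by
    rw [← hp]; simp only [Nat.add_eq, Nat.mul_eq]; push_cast; ring
  have hq' : (q : ℝ) = t ^ 2 * (19958358356710511831650663010109373808640 + t ^ 4 *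
      (30388428317266166950133760 + t ^ 4 * 68702699520)) := by
    rw [← hq]; simp only [Nat.add_eq, Nat.mul_eq]; push_cast; ring
  have t2 : (t : ℝ) ^ 2 ≤ 2048 ^ 2 := pow_le_pow_left₀ t0 t1 2
  have t4 : (t : ℝ) ^ 4 ≤ 2048 ^ 4 := pow_le_pow_left₀ t0 t1 4
  have t40 : 0 ≤ (t : ℝ) ^ 4 := by positivity
  have hq1 : (q : ℝ) ≤ 2048 ^ 2 * (19958358356710511831650663010109373808640 + 2048 ^ 4 *
      (30388428317266166950133760 + 2048 ^ 4 * 68702699520)) := by
    rw [hq']; gcongr
  have hp1 : (p : ℝ) ≤ 1004537067467811919410476429591445444036887838720 + 2048 ^ 4 *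
      (713766516091007417380237448577024 + 2048 ^ 4 * (1408782258436833280 + 2048 ^ 4 * 3465)) := by
    rw [hp']; gcongr
  have hp0 : (1004537067467811919410476429591445444036887838720 : ℝ) ≤ p := by
    rw [hp']; exact le_add_of_nonneg_right (by positivity)
  have hs : ((Nat.sub p q : ℕ) : ℝ) = p - q := cast_sub' (by linarith)
  have ha := div_bd (Nat.mul t (Nat.sub p q)) 958001201122104567919231824485249942814720 (by norm_num)
  generalize Nat.div (Nat.mul t (Nat.sub p q)) 958001201122104567919231824485249942814720 = a at ha h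
  rw [Nat.mul_eq, Nat.cast_mul, hs] at ha
  have q0 : (0 : ℝ) ≤ q := by positivity
  refine ⟨a, ?_, ?_, h⟩
  · have h7 := abs_le.1 (atan7 (t / 4096))
    rw [abs_of_nonneg (by positivity : (0 : ℝ) ≤ t / 4096)] at h7
    have e : (t : ℝ) * (p - q) = (t / 4096 - (t / 4096) ^ 3 / 3 + (t / 4096) ^ 5 / 5 - (t / 4096) ^ 7 / 7 +
        (t / 4096) ^ 9 / 9 - (t / 4096) ^ 11 / 11 + (t / 4096) ^ 13 / 13) * 2 ^ 32 *
        958001201122104567919231824485249942814720 := by
      rw [hp', hq']; ring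
    have e2 : ((Nat.pow t 15 : ℕ) : ℝ) = (t / 4096) ^ 15 / 15 * 2 ^ 32 *
        5352178847647349553968572385435606761435299840 := by
      rw [Nat.pow_eq, Nat.cast_pow]; ring
    rw [e] at ha; rw [e2] at hd
    push_cast at ha hd
    rw [abs_le]; constructor <;> linarith [h7.1, h7.2, ha.1, ha.2, hd.2]
  · have : (t : ℝ) * (p - q) ≤ 2048 * p := by nlinarith
    have := ha.1
    push_cast at this
    linarith

theorem rot_atan {ρ θ u v τ : ℝ} (hρ : 0 < ρ) (hθ : |θ| ≤ π) (hu : u = ρ * cos θ) (hv : v = ρ * sin θ)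
    (hD : 0 < u + τ * v) : θ = arctan τ + arctan ((v - τ * u) * (u + τ * v)⁻¹) := by
  set α := arctan τ
  have hc : 0 < cos α := cos_arctan_pos τ
  have ht : τ = sin α / cos α := by rw [← tan_eq_sin_div_cos, tan_arctan]
  have e1 : (u + τ * v) * cos α = ρ * cos (θ - α) := by
    rw [hu, hv, ht, cos_sub]; field_simp
  have e2 : (v - τ * u) * cos α = ρ * sin (θ - α) := by
    rw [hu, hv, ht, sin_sub]; field_simp
  have hc2 : 0 < cos (θ - α) := by
    by_contra hn
    nlinarith [mul_pos hD hc, mul_nonneg hρ.le (neg_nonneg.2 (not_lt.1 hn))]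
  have a1 := arctan_lt_pi_div_two τ
  have a2 := neg_pi_div_two_lt_arctan τ
  have b := abs_le.1 hθ
  have c1 : θ - α < π / 2 := by
    by_contra hn
    have := cos_nonpos_of_pi_div_two_le_of_le (not_lt.1 hn) (by linarith [b.2])
    linarith
  have c2 : -(π / 2) < θ - α := by
    by_contra hn
    have := cos_nonpos_of_pi_div_two_le_of_le (x := -(θ - α)) (by linarith) (by linarith [b.1])
    rw [cos_neg] at this; linarith
  have : (v - τ * u) * (u + τ * v)⁻¹ = tan (θ - α) := by
    rw [tan_eq_sin_div_cos, ← mul_div_mul_left _ _ hρ.ne', ← e1, ← e2]; field_simp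
  rw [this, arctan_tan c2 c1]; ring

variable {ε : Ns}

theorem piL_s (ε : Ns) {x : ℝ} (h : |x| ≤ π / 2) : InL ε 2 piL x := by
  refine cst_s ε (by rw [vl_B, abs_zero]; positivity) ?_
  rw [vl_B, sub_zero, abs_mul, abs_of_pos (by positivity : (0 : ℝ) < 2 ^ 32)]
  have := pi_lt_d20
  push_cast; linarith

theorem core_s {U V : L} {b : ℕ} {k : L → Bool} {u v ρ θ β : ℝ} (hU : InL ε 3 U u) (hV : InL ε 3 V v)
    (hρ : 0 < ρ) (hθ : |θ| ≤ π) (hu : u = ρ * cos θ) (hv : v = ρ * sin θ)
    (hb : |β * 2 ^ 32 - vl b| ≤ 1) (hb2 : |vl b| ≤ 2 ^ 33) (hf : |β + θ| ≤ π / 2)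
    (h : core U V b k = true) : ∃ Z, InL ε 2 Z (β + θ) ∧ k Z = true := by
  unfold core at h
  rw [fN_eq] at h
  generalize Nat.div (Nat.mul (ab V.c) 4096) (Nat.sub U.c 4503599627370496) = t at h
  rcases cond_s h with ⟨ht, h⟩ | ⟨-, h⟩
  swap; · exact ⟨_, piL_s ε hf, h⟩
  have ht' : t ≤ 2048 := Nat.le_of_ble_eq_true ht
  have t1 : (t : ℝ) ≤ 2048 := by exact_mod_cast ht'
  have t0 : (0 : ℝ) ≤ t := by positivity
  rw [fN_eq, fN_eq] at h
  have htm : ((Nat.mul t 1048576 : ℕ) : ℝ) = t * 1048576 := by rw [Nat.mul_eq]; push_cast; ring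
  generalize Nat.mul t 1048576 = tm at h htm
  obtain ⟨s, hs, hq, hab⟩ : ∃ s : ℝ, (s = 1 ∨ s = -1) ∧
      vl (bif Nat.ble 4503599627370496 V.c then Nat.add tm 4503599627370496
        else Nat.sub 4503599627370496 tm) = s * tm ∧ ∀ a : ℕ, (a : ℝ) ≤ 2 ^ 32 →
        vl (bif Nat.ble 4503599627370496 V.c then Nat.add b a else Nat.sub b a) = vl b + s * a := by
    cases Nat.ble 4503599627370496 V.c
    · refine ⟨-1, Or.inr rfl, ?_, fun a ha => ?_⟩
      · rw [cond_false]; unfold vl; rw [cast_sub' (by push_cast; linarith)]; push_cast; ring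
      · have := abs_le.1 hb2
        rw [cond_false]; unfold vl at *; rw [cast_sub' (by linarith [this.1])]; ring
    · exact ⟨1, Or.inl rfl, by rw [cond_true, vl_add', one_mul], fun a _ => by
        rw [cond_true, vl_add, one_mul]⟩
  generalize (bif Nat.ble 4503599627370496 V.c then Nat.add tm 4503599627370496
        else Nat.sub 4503599627370496 tm) = tq at h hq
  have s1 : |s| = 1 := by rcases hs with rfl | rfl <;> simp
  have hq1 : |vl tq| ≤ tm := by rw [hq, abs_mul, s1, one_mul, abs_of_nonneg (by positivity)]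
  have hq2 : (tm : ℝ) ≤ 2 ^ 35 := by linarith
  obtain ⟨tU, h1, h⟩ := smul_s hU hq1 hq2 (by norm_num) h
  obtain ⟨N, h2, h⟩ := sub_s hV h1 (by norm_num) h
  obtain ⟨tV, h3, h⟩ := smul_s hV hq1 hq2 (by norm_num) h
  obtain ⟨D, h4, h⟩ := add_s hU h3 (by norm_num) h
  obtain ⟨D, h4, h⟩ := ext_s h4 h
  rcases inv_s h4 h with h | ⟨hD, I, h5, h⟩
  · exact ⟨_, piL_s ε hf, h⟩
  obtain ⟨I, h5, h⟩ := ext_s h5 h
  obtain ⟨N, h2, h⟩ := ext_s h2 h
  obtain ⟨T, h6, h⟩ := mul_s h2 h5 h
  obtain ⟨T, h6, h⟩ := ext_s h6 h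
  have mg := h6.mag
  rw [fN_eq, fN_eq] at h
  have hM : ((Nat.add (Nat.add T.m T.n) T.r : ℕ) : ℝ) = T.m + T.n + T.r := by
    simp only [Nat.add_eq]; push_cast; ring
  generalize Nat.add (Nat.add T.m T.n) T.r = M at h hM
  have hc := (div_bd (Nat.mul (Nat.mul M M) M) 55340232221128654848 (by norm_num)).2
  generalize Nat.div (Nat.mul (Nat.mul M M) M) 55340232221128654848 = cb at h hc
  rcases cond_s h with ⟨-, h⟩ | ⟨-, h⟩
  swap; · exact ⟨_, piL_s ε hf, h⟩
  obtain ⟨a, ha, ha2, h⟩ := atanK_s ht' h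
  generalize Nat.div (Nat.pow t 15) 5352178847647349553968572385435606761435299840 = tl at h ha
  have hr := rot_atan hρ hθ hu hv hD
  set w := (v - vl tq / 2 ^ 32 * u) * (u + vl tq / 2 ^ 32 * v)⁻¹
  have hτ : arctan (vl tq / 2 ^ 32) = s * arctan (t / 4096) := by
    rw [hq, htm]
    rcases hs with rfl | rfl
    · rw [one_mul, one_mul]; congr 1; ring
    · rw [neg_one_mul, neg_one_mul, ← arctan_neg]; congr 1; ring
  have a0 : (0 : ℝ) ≤ a := by positivity
  have hw : |arctan w - w| * 2 ^ 32 ≤ cb + 1 := by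
    have h1 := atan1 w
    have h2 : (|w| * 2 ^ 32) ^ 3 ≤ (M : ℝ) ^ 3 := pow_le_pow_left₀ (by positivity) (by linarith) 3
    simp only [Nat.mul_eq] at hc
    push_cast at hc
    nlinarith
  obtain ⟨Z, hZ, h⟩ := addc_s (j := 1) (y := β + θ - w) h6.1
    (by
      rw [hab a ha2]
      have := abs_add_le (vl b) (s * a)
      rw [abs_mul, s1, abs_of_nonneg a0] at this
      linarith)
    (by
      rw [hab a ha2]
      have e : (β + θ - w) * 2 ^ 32 - (vl b + s * a) = (β * 2 ^ 32 - vl b) +
          s * (arctan (t / 4096) * 2 ^ 32 - a) + (arctan w - w) * 2 ^ 32 := by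
        rw [hr, hτ]; ring
      rw [e]
      have := abs_add_three (β * 2 ^ 32 - vl b) (s * (arctan (t / 4096) * 2 ^ 32 - a))
        ((arctan w - w) * 2 ^ 32)
      rw [abs_mul s, s1, one_mul, abs_mul (arctan w - w),
        abs_of_pos (by positivity : (0 : ℝ) < 2 ^ 32)] at this
      refine (this.trans (add_le_add (add_le_add hb ha) hw)).trans (le_of_eq ?_)
      simp only [Nat.add_eq]
      push_cast
      ring)
    (by norm_num) h
  exact ⟨Z, (hZ.mono (by norm_num)).congr (by ring), h⟩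

theorem arg_s {X : L} {Y : E} {k : L → Bool} {x y : ℝ} (hX : InL ε 1 X x) (hY : InE ε 2 Y y)
    (hx : 0 < x) (h : arg X Y k = true) : ∃ Z, InL ε 2 Z (arctan (y / x)) ∧ k Z = true := by
  set φ := arctan (y / x)
  have hc : 0 < cos φ := cos_arctan_pos _
  have a1 : φ < π / 2 := arctan_lt_pi_div_two _
  have a2 : -(π / 2) < φ := neg_pi_div_two_lt_arctan _
  have p1 := pi_gt_d20
  have p2 := pi_lt_d20
  set ρ := x / cos φ with hρ
  have ρ0 : 0 < ρ := div_pos hx hc
  have ex : x = ρ * cos φ := by rw [hρ]; field_simp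
  have ey : y = ρ * sin φ := by
    have : sin φ / cos φ = y / x := by rw [← tan_eq_sin_div_cos, tan_arctan]
    rw [hρ]; field_simp at this ⊢; linarith
  have s2 : (√2 : ℝ) * √2 = 2 := mul_self_sqrt (by norm_num)
  have ρ2 : 0 < ρ * √2 := by positivity
  have gen : ∀ {U V : L} {b : ℕ} {u v ρ β : ℝ}, InL ε 3 U u → InL ε 3 V v → 0 < ρ → |β| ≤ π / 2 →
      u = ρ * cos (φ - β) → v = ρ * sin (φ - β) → |β * 2 ^ 32 - vl b| ≤ 1 → core U V b k = true →
      ∃ Z, InL ε 2 Z φ ∧ k Z = true := by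
    intro U V b u v ρ β hU hV hρ hβ hu hv hb h
    have b1 := abs_le.1 hβ
    have b2 := abs_le.1 hb
    obtain ⟨Z, hZ, h⟩ := core_s hU hV hρ (by rw [abs_le]; constructor <;> linarith) hu hv hb
      (by rw [abs_le]; constructor <;> linarith) (by rw [abs_le]; constructor <;> linarith) h
    exact ⟨Z, hZ.congr (by ring), h⟩
  unfold arg at h
  rw [fN_eq] at h
  generalize Nat.sub X.c 4503599627370496 = xc at h
  rcases cond_s h with ⟨-, h⟩ | ⟨-, h⟩
  · exact gen (β := 0) (hX.mono (by norm_num)) (hY.1.mono (by norm_num)) ρ0 (by simp; positivity)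
      (by simpa using ex) (by simpa using ey) (by simp [vl_B]) h
  rcases cond_s h with ⟨-, h⟩ | ⟨-, h⟩ <;> rcases cond_s h with ⟨-, h⟩ | ⟨-, h⟩
  · obtain ⟨V, hV, h⟩ := sub_s (zeroL_s ε le_rfl) hX (by norm_num) h
    refine gen (β := π / 2) (hY.1.mono (by norm_num)) (hV.mono (by norm_num)) ρ0
      (by rw [abs_of_pos (by positivity)]) (by rw [cos_sub_pi_div_two]; exact ey)
      (by rw [sin_sub_pi_div_two]; linarith) ?_ h
    unfold vl; push_cast; rw [abs_le]; constructor <;> linarith
  · obtain ⟨U, hU, h⟩ := add_s hX hY.1 (by norm_num) h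
    obtain ⟨V, hV, h⟩ := sub_s hY.1 hX (by norm_num) h
    refine gen (β := π / 4) (hU.mono (by norm_num)) (hV.mono (by norm_num)) ρ2
      (by rw [abs_of_pos (by positivity)]; linarith) ?_ ?_ ?_ h
    · rw [cos_sub, cos_pi_div_four, sin_pi_div_four]
      linear_combination ex + ey - (ρ * cos φ + ρ * sin φ) / 2 * s2
    · rw [sin_sub, cos_pi_div_four, sin_pi_div_four]
      linear_combination ey - ex - (ρ * sin φ - ρ * cos φ) / 2 * s2
    · unfold vl; push_cast; rw [abs_le]; constructor <;> linarith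
  · obtain ⟨U, hU, h⟩ := sub_s (zeroL_s ε le_rfl) hY.1 (by norm_num) h
    refine gen (β := -(π / 2)) (hU.mono (by norm_num)) (hX.mono (by norm_num)) ρ0
      (by rw [abs_neg, abs_of_pos (by positivity)]) (by rw [sub_neg_eq_add, cos_add_pi_div_two]; linarith)
      (by rw [sub_neg_eq_add, sin_add_pi_div_two]; exact ex) ?_ h
    unfold vl; push_cast; rw [abs_le]; constructor <;> linarith
  · obtain ⟨U, hU, h⟩ := sub_s hX hY.1 (by norm_num) h
    obtain ⟨V, hV, h⟩ := add_s hX hY.1 (by norm_num) h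
    refine gen (β := -(π / 4)) (hU.mono (by norm_num)) (hV.mono (by norm_num)) ρ2
      (by rw [abs_neg, abs_of_pos (by positivity)]; linarith) ?_ ?_ ?_ h
    · rw [sub_neg_eq_add, cos_add, cos_pi_div_four, sin_pi_div_four]
      linear_combination ex - ey - (ρ * cos φ - ρ * sin φ) / 2 * s2
    · rw [sub_neg_eq_add, sin_add, cos_pi_div_four, sin_pi_div_four]
      linear_combination ey + ex - (ρ * sin φ + ρ * cos φ) / 2 * s2
    · unfold vl; push_cast; rw [abs_le]; constructor <;> linarith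

end Pool.Agent.Work.MP_c2ab8b_gt
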