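import Pool.Agent.Work.MP_c2ab8b_gt.Pert

/- The regular pentagonal bipyramid: its area and its characterisation. -/

noncomputable section
namespace Pool.Agent.Work.MP_c2ab8b_gt
open Real MeasureTheory Set

def BP : Fin 7 → V :=
  ![!₂[1, 0, 0], !₂[κ - 1 / 2, 2 * σ * κ, 0], !₂[-κ, σ, 0], !₂[-κ, -σ, 0], !₂[κ - 1 / 2, -(2 * σ * κ), 0],
    !₂[0, 0, 1], !₂[0, 0, -1]]

theorem kap : κ ^ 2 = κ / 2 + 1 / 4 ∧ σ ^ 2 = 3 / 4 - κ / 2 ∧ σ ^ 2 * κ = κ / 2 - 1 / 8 ∧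
    σ ^ 2 * κ ^ 2 = κ / 8 + 1 / 8 ∧ σ * κ ^ 2 = σ * κ / 2 + σ / 4 ∧ 0.4755 ≤ σ * κ ∧ σ * κ ≤ 0.4756 := by
  have h : κ = (1 + √5) / 4 := cos_pi_div_five
  have k : κ ^ 2 = κ / 2 + 1 / 4 := by rw [h]; linarith only [sq_sqrt (by norm_num : (0 : ℝ) ≤ 5)]
  have s : σ ^ 2 = 3 / 4 - κ / 2 := by linarith only [k, κσ]
  have := κ_bd; have := σ_bd
  refine ⟨k, s, by rw [s]; linarith only [k], by rw [s, k]; linarith only [k], by rw [k]; ring, by nlinarith, by nlinarith⟩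

theorem BP_u (i : Fin 7) : dt (BP i) (BP i) = 1 := by
  obtain ⟨h1, h2, h3, h4, -⟩ := kap
  fin_cases i <;> simp [BP, dt] <;> linarith only [h1, h4, h2]

theorem BP_fc : Hd (Fc BP) ty0 := by
  obtain ⟨h1, h2, h3, h4, h5, h6, h7⟩ := kap
  have := σ_bd
  have p1 : 0 < σ * κ := by linarith only [h6]
  have p2 : 0 < σ := by linarith only [this.1]
  have p3 : σ < 4 * (σ * κ) := by linarith only [h6, this.2]
  have p4 : 4 * (σ * κ ^ 2) = 2 * (σ * κ) + σ := by linarith only [h5]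
  have e0 : BP 0 0 = 1 ∧ BP 0 1 = 0 ∧ BP 0 2 = 0 := ⟨rfl, rfl, rfl⟩
  have e1 : BP 1 0 = κ - 1 / 2 ∧ BP 1 1 = 2 * σ * κ ∧ BP 1 2 = 0 := ⟨rfl, rfl, rfl⟩
  have e2 : BP 2 0 = -κ ∧ BP 2 1 = σ ∧ BP 2 2 = 0 := ⟨rfl, rfl, rfl⟩
  have e3 : BP 3 0 = -κ ∧ BP 3 1 = -σ ∧ BP 3 2 = 0 := ⟨rfl, rfl, rfl⟩
  have e4 : BP 4 0 = κ - 1 / 2 ∧ BP 4 1 = -(2 * σ * κ) ∧ BP 4 2 = 0 := ⟨rfl, rfl, rfl⟩
  have e5 : BP 5 0 = 0 ∧ BP 5 1 = 0 ∧ BP 5 2 = 1 := ⟨rfl, rfl, rfl⟩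
  have e6 : BP 6 0 = 0 ∧ BP 6 1 = 0 ∧ BP 6 2 = -1 := ⟨rfl, rfl, rfl⟩
  have al : ∀ l : Fin 7, l = 0 ∨ l = 1 ∨ l = 2 ∨ l = 3 ∨ l = 4 ∨ l = 5 ∨ l = 6 := by decide
  intro t ht
  simp only [ty0, List.mem_cons, List.not_mem_nil, or_false] at ht
  rcases ht with rfl | rfl | rfl | rfl | rfl | rfl | rfl | rfl | rfl | rfl <;>
    refine ⟨by
      simp only [dv, e0, e1, e2, e3, e4, e5, e6, mul_zero, zero_mul, mul_one, one_mul, sub_zero,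
        add_zero, zero_add, sub_self]
      linarith only [p4, p1],
      fun l a b c => ?_⟩ <;>
    rcases al l with rfl | rfl | rfl | rfl | rfl | rfl | rfl <;>
    first
      | exact absurd rfl a
      | exact absurd rfl b
      | exact absurd rfl c
      | (simp only [d4, dv, e0, e1, e2, e3, e4, e5, e6, mul_zero, zero_mul, mul_one, one_mul, sub_zero,
          add_zero, zero_add, sub_self]; linarith only [p1, p2, p3, p4])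

theorem ar_eq {p a b : V} (h1 : dt p a = 0) (h2 : dt b p = 0) (h3 : dt a b = κ - 1 / 2) : ar p a b = σ * γ := by
  have := σγ_bd
  unfold ar Tt
  rw [h1, h2, h3, div_eq_iff two_ne_zero, sqrt_eq_iff_mul_self_eq (by linarith only [κ_bd, mul_nonneg_of_nonpos_of_nonpos (Mathlib.Tactic.Linarith.sub_nonpos_of_le κ_bd.left) (Mathlib.Tactic.Linarith.sub_nonpos_of_le κ_bd.right)]) (by linarith only [this])]
  obtain ⟨h1, h2, -⟩ := kap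
  have := γ2
  rw [show σ * γ * 2 * (σ * γ * 2) = 4 * σ ^ 2 * γ ^ 2 by ring, this, h2, h1]
  linarith only []

theorem BP_sar : sar BP ty0 = 10 * (σ * γ) := by
  obtain ⟨h1, h2, h3, h4, -⟩ := kap
  simp only [sar, ty0, List.map_cons, List.map_nil, List.sum_cons, List.sum_nil]
  iterate 10 rw [ar_eq (by simp [BP, dt]) (by simp [BP, dt]) (by simp [BP, dt] <;> linarith only [h1, h3, h2])]
  ring

theorem BP_int : 0 ∈ interior (Hu BP) := by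
  have s := σ_bd; have k := κ_bd
  refine mem_interior_iff_mem_nhds.2 (Filter.mem_of_superset (Metric.ball_mem_nhds 0 (by norm_num : (0 : ℝ) < 1 / 10))
    fun x hx => ?_)
  have b : ∀ i, -(1 / 10) ≤ x i ∧ x i ≤ 1 / 10 := fun i =>
    abs_le.1 ((PiLp.norm_apply_le x i).trans (mem_ball_zero_iff.1 hx).le)
  have p := σ_pos
  have c : -(1 / 5) ≤ x 1 / (2 * σ) ∧ x 1 / (2 * σ) ≤ 1 / 5 := by
    rw [le_div_iff₀ (by positivity), div_le_iff₀ (by positivity)]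
    constructor <;> linarith only [s, p, b, b 1]
  have := (Hu.cv BP).sum_mem (t := Finset.univ) (z := BP)
    (w := ![x 0 + 2 * κ / 5, 0, 1 / 5 + x 1 / (2 * σ), 1 / 5 - x 1 / (2 * σ), 0,
      (3 / 5 - (x 0 + 2 * κ / 5) + x 2) / 2, (3 / 5 - (x 0 + 2 * κ / 5) - x 2) / 2])
    (by intro l _; fin_cases l <;> simp <;> linarith only [k, b, c, s, p, b 0, b 2]) (by simp [Fin.sum_univ_seven]; ring)
    (fun l _ => Hu.mem BP l)
  convert this using 1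
  ext i
  fin_cases i <;> simp [Fin.sum_univ_seven, BP] <;> field_simp <;> ring

theorem BP_area : μHE[2] (frontier (Hu BP)) = ENNReal.ofReal (10 * (σ * γ)) := by
  obtain ⟨s, s0, e, h⟩ := main_bd BP_u BP_int
  refine le_antisymm ?_ ?_
  · rw [e]
    refine ENNReal.ofReal_le_ofReal ?_
    rcases h with h | ⟨p, -, -, h⟩
    · linarith only [h, σγ_bd.1]
    · have : 0 ≤ Phi (BP ∘ p) := by unfold Phi; positivity
      linarith only [h, this]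
  · rw [← BP_sar, ← Un_eq BP_u BP_fc (by decide)]
    exact measure_mono (Un_sub BP_fc)

theorem step {a b : V} (ua : dt a a = 1) (ub : dt b b = 1) (a2 : a 2 = 0) (b2 : b 2 = 0)
    (h : dt a b = κ - 1 / 2) (o : 0 ≤ a 0 * b 1 - a 1 * b 0) :
    b 0 = (κ - 1 / 2) * a 0 - 2 * σ * κ * a 1 ∧ b 1 = 2 * σ * κ * a 0 + (κ - 1 / 2) * a 1 := by
  obtain ⟨h1, -, -, h4, -, h6, -⟩ := kap
  simp only [dt, a2, b2, mul_zero, add_zero] at ua ub h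
  have e : a 0 * b 1 - a 1 * b 0 = 2 * σ * κ := by
    refine (pow_left_inj₀ o (by linarith only [h6]) two_ne_zero).1 ?_
    linear_combination (b 0 * b 0 + b 1 * b 1) * ua + ub - (a 0 * b 0 + a 1 * b 1 + (κ - 1 / 2)) * h - h1 - 4 * h4
  exact ⟨by linear_combination -b 0 * ua + a 0 * h - a 1 * e, by linear_combination -b 1 * ua + a 1 * h + a 0 * e⟩

theorem rigid0 {X : Fin 7 → V} (u : ∀ i, dt (X i) (X i) = 1) (h5 : X 5 = BP 5) (h0 : X 0 = BP 0)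
    (p5 : ∀ i : Fin 5, dt (X 5) (X (i.castAdd 2)) = 0) (p6 : ∀ i : Fin 5, dt (X 6) (X (i.castAdd 2)) = 0)
    (e1 : dt (X 0) (X 1) = κ - 1 / 2) (e2 : dt (X 1) (X 2) = κ - 1 / 2) (e3 : dt (X 2) (X 3) = κ - 1 / 2)
    (e4 : dt (X 3) (X 4) = κ - 1 / 2) (o : Ori X) : X = BP := by
  obtain ⟨k1, k2, k3, k4, k5, k6, k7⟩ := kap
  have z : ∀ i : Fin 5, X (i.castAdd 2) 2 = 0 := fun i => by simpa [h5, BP, dt] using p5 i
  have d : ∀ a b, dv (X 5) a b = a 0 * b 1 - a 1 * b 0 := fun a b => by simp [h5, BP, dv]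
  have x0 : X 0 0 = 1 ∧ X 0 1 = 0 := by simp [h0, BP]
  have x1 := step (u 0) (u 1) (z 0) (z 1) e1 (d _ _ ▸ o (5, 0, 1) (by decide))
  have x2 := step (u 1) (u 2) (z 1) (z 2) e2 (d _ _ ▸ o (5, 1, 2) (by decide))
  have x3 := step (u 2) (u 3) (z 2) (z 3) e3 (d _ _ ▸ o (5, 2, 3) (by decide))
  have x4 := step (u 3) (u 4) (z 3) (z 4) e4 (d _ _ ▸ o (5, 3, 4) (by decide))
  rw [x0.1, x0.2] at x1
  have y1 : X 1 0 = κ - 1 / 2 ∧ X 1 1 = 2 * σ * κ := ⟨by linarith only [x1.1], by linarith only [x1.2]⟩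
  rw [y1.1, y1.2] at x2
  have y2 : X 2 0 = -κ ∧ X 2 1 = σ := ⟨by linarith only [x2.1, k1, k2, k3, k4], by linarith only [x2.2, k5]⟩
  rw [y2.1, y2.2] at x3
  have y3 : X 3 0 = -κ ∧ X 3 1 = -σ := ⟨by linarith only [x3.1, k1, k2, k3, k4], by linarith only [x3.2, k5]⟩
  rw [y3.1, y3.2] at x4
  have y4 : X 4 0 = κ - 1 / 2 ∧ X 4 1 = -(2 * σ * κ) := ⟨by linarith only [x4.1, k1, k2, k3, k4], by linarith only [x4.2, k5]⟩
  have z1 : X 1 2 = 0 := z 1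
  have z2 : X 2 2 = 0 := z 2
  have z3 : X 3 2 = 0 := z 3
  have z4 : X 4 2 = 0 := z 4
  have s0 : X 6 0 = 0 := by simpa [h0, BP, dt] using (show dt (X 6) (X 0) = 0 from p6 0)
  have s1 : X 6 1 = 0 := by
    have : dt (X 6) (X 1) = 0 := p6 1
    simp only [dt, s0, y1.2, z1, zero_mul, mul_zero, zero_add, add_zero] at this
    exact (mul_eq_zero.1 this).resolve_right (by intro q; linarith only [q, k6])
  have s2 : X 6 2 = -1 := by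
    have a := u 6
    have b : 0 ≤ dv (X 6) (X 1) (X 0) := o (6, 1, 0) (by decide)
    simp only [dt, dv, s0, s1, x0.1, x0.2, y1.2, zero_mul, mul_zero, zero_add, mul_one] at a b
    rcases mul_self_eq_one_iff.1 a with h | h
    · rw [h] at b; linarith only [b, k6]
    · exact h
  funext i
  fin_cases i
  · exact h0
  · ext j; fin_cases j <;> simp [BP, y1.1, y1.2, z1]
  · ext j; fin_cases j <;> simp [BP, y2.1, y2.2, z2]
  · ext j; fin_cases j <;> simp [BP, y3.1, y3.2, z3]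
  · ext j; fin_cases j <;> simp [BP, y4.1, y4.2, z4]
  · exact h5
  · ext j; fin_cases j <;> simp [BP, s0, s1, s2]

theorem sp_nn {a0 a1 a2 a3 a4 a5 a6 a7 a8 a9 b0 b1 b2 b3 b4 : ℝ} (h0 : 0 ≤ a0) (h1 : 0 ≤ a1) (h2 : 0 ≤ a2)
    (h3 : 0 ≤ a3) (h4 : 0 ≤ a4) (h5 : 0 ≤ a5) (h6 : 0 ≤ a6) (h7 : 0 ≤ a7) (h8 : 0 ≤ a8) (h9 : 0 ≤ a9)
    (g0 : 0 ≤ b0) (g1 : 0 ≤ b1) (g2 : 0 ≤ b2) (g3 : 0 ≤ b3) (g4 : 0 ≤ b4)
    (h : a0 + a5 + b0 + a1 + a6 + b1 + a2 + a7 + b2 + a3 + a8 + b3 + a4 + a9 + b4 ≤ 0) :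
    (a0 ≤ 0 ∧ a1 ≤ 0 ∧ a2 ≤ 0 ∧ a3 ≤ 0 ∧ a4 ≤ 0) ∧ (a5 ≤ 0 ∧ a6 ≤ 0 ∧ a7 ≤ 0 ∧ a8 ≤ 0 ∧ a9 ≤ 0) ∧
      b0 ≤ 0 ∧ b1 ≤ 0 ∧ b2 ≤ 0 ∧ b3 ≤ 0 := by
  refine ⟨⟨?_, ?_, ?_, ?_, ?_⟩, ⟨?_, ?_, ?_, ?_, ?_⟩, ?_, ?_, ?_, ?_⟩ <;> linarith only [h1, h2, h3, h4, h5, h6, h7, h8, h9, g0, g1, g2, g3, g4, h, h0]

theorem sp_q {a b : V} {c : ℝ} (h : (yy a b - c) ^ 2 ≤ 0) : dt a b = 1 - 2 * c := by
  have := pow_eq_zero_iff two_ne_zero |>.1 (le_antisymm h (sq_nonneg _))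
  unfold yy at this; linarith only [this]

theorem sp_q0 {a b : V} (h : (yy a b - 1 / 2) ^ 2 ≤ 0) : dt a b = 0 := by
  rw [sp_q h]; norm_num

theorem sp_q1 {a b : V} (h : (yy a b - σ ^ 2) ^ 2 ≤ 0) : dt a b = κ - 1 / 2 := by
  rw [sp_q h, kap.2.1]; ring

theorem sp_all {X : Fin 7 → V} (h : Phi X ≤ 0) :
    (∀ i : Fin 5, dt (X 5) (X (i.castAdd 2)) = 0) ∧ (∀ i : Fin 5, dt (X 6) (X (i.castAdd 2)) = 0) ∧
      dt (X 0) (X 1) = κ - 1 / 2 ∧ dt (X 1) (X 2) = κ - 1 / 2 ∧ dt (X 2) (X 3) = κ - 1 / 2 ∧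
      dt (X 3) (X 4) = κ - 1 / 2 := by
  obtain ⟨⟨a0, a1, a2, a3, a4⟩, ⟨a5, a6, a7, a8, a9⟩, b0, b1, b2, b3⟩ :=
    sp_nn (sq_nonneg _) (sq_nonneg _) (sq_nonneg _) (sq_nonneg _) (sq_nonneg _) (sq_nonneg _) (sq_nonneg _)
      (sq_nonneg _) (sq_nonneg _) (sq_nonneg _) (sq_nonneg _) (sq_nonneg _) (sq_nonneg _) (sq_nonneg _)
      (sq_nonneg _) (show _ ≤ (0 : ℝ) by unfold Phi at h; exact h)
  refine ⟨fun i => ?_, fun i => ?_, sp_q1 b0, sp_q1 b1, sp_q1 b2, sp_q1 b3⟩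
  · fin_cases i
    exacts [sp_q0 a0, sp_q0 a1, sp_q0 a2, sp_q0 a3, sp_q0 a4]
  · fin_cases i
    exacts [sp_q0 a5, sp_q0 a6, sp_q0 a7, sp_q0 a8, sp_q0 a9]

theorem rigid {X : Fin 7 → V} (u : ∀ i, dt (X i) (X i) = 1) (h : Phi X ≤ 0) (o : Ori X) :
    ∃ T : V ≃ₗᵢ[ℝ] V, X = T ∘ BP := by
  obtain ⟨p5, p6, e1, e2, e3, e4⟩ := sp_all h
  have o50 : dt (X 5) (X 0) = 0 := p5 0
  have u0 := u 0
  have u5 := u 5
  set w := cr (X 5) (X 0) with hw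
  have w0 : dt w (X 0) = 0 := by rw [hw, dt_cr, dv_abb]
  have w5 : dt w (X 5) = 0 := by rw [hw, dt_cr, dv_aba]
  have ww : dt w w = 1 := by
    have : dt w w = dt (X 5) (X 5) * dt (X 0) (X 0) - dt (X 5) (X 0) ^ 2 := by simp [hw, dt, cr]; ring
    rw [this, u0, u5, o50]; ring
  let A : V →ₗ[ℝ] V :=
    { toFun := fun x => x 0 • X 0 + x 1 • w + x 2 • X 5
      map_add' := fun x y => by simp only [PiLp.add_apply, add_smul]; abel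
      map_smul' := fun t x => by simp only [PiLp.smul_apply, smul_eq_mul, mul_smul, smul_add, RingHom.id_apply] }
  have hA : ∀ x y, dt (A x) (A y) = dt x y := fun x y => by
    have : dt (A x) (A y) = x 0 * y 0 * dt (X 0) (X 0) + x 1 * y 1 * dt w w + x 2 * y 2 * dt (X 5) (X 5) +
        (x 0 * y 1 + x 1 * y 0) * dt w (X 0) + (x 0 * y 2 + x 2 * y 0) * dt (X 5) (X 0) +
        (x 1 * y 2 + x 2 * y 1) * dt w (X 5) := by simp [A, dt]; ring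
    rw [this, u0, u5, ww, w0, w5, o50]; unfold dt; ring
  have hD : ∀ x y z, dv (A x) (A y) (A z) = dv x y z := fun x y z => by
    have : dv (A x) (A y) (A z) = dv x y z * dv (X 5) (X 0) w := by simp [A, dv]; ring
    rw [this, ← dt_cr (X 5), ← hw, ww, mul_one]
  let T := (A.isometryOfInner fun x y => by rw [inner_dt, inner_dt, hA]).toLinearIsometryEquiv rfl
  have hT : ∀ x, T x = A x := fun _ => rfl
  have gA : ∀ x y, dt (T.symm x) (T.symm y) = dt x y := fun x y => by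
    rw [← hA, ← hT, ← hT, T.apply_symm_apply, T.apply_symm_apply]
  have key : T.symm ∘ X = BP := rigid0 (X := T.symm ∘ X) (fun i => (gA _ _).trans (u i))
    (T.symm_apply_eq.2 (by simp [hT, A, BP])) (T.symm_apply_eq.2 (by simp [hT, A, BP]))
    (fun i => (gA _ _).trans (p5 i)) (fun i => (gA _ _).trans (p6 i))
    ((gA _ _).trans e1) ((gA _ _).trans e2) ((gA _ _).trans e3) ((gA _ _).trans e4)
    (fun t ht => by
      rw [← hD, ← hT, ← hT, ← hT]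
      simpa using o t ht)
  refine ⟨T, ?_⟩
  funext i
  exact ((T.apply_symm_apply (X i)).symm.trans (congrArg T (congrFun key i)))

end Pool.Agent.Work.MP_c2ab8b_gt
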