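import Pool.Agent.Work.MP_c2ab8b_gt.Local
import Mathlib.Analysis.InnerProductSpace.PiL2

/- From three unit vectors to the parameters of the face function. -/

noncomputable section
namespace Pool.Agent.Work.MP_c2ab8b_gt
open Real

structure Tg (h s1 c1 s2 c2 s3 c3 : ℝ) : Prop where
  h0 : 0 < h
  h1 : h ≤ 1
  p1 : 0 < s1
  p2 : 0 < s2
  p3 : 0 < s3
  u1 : s1 ^ 2 + c1 ^ 2 = 1
  u2 : s2 ^ 2 + c2 ^ 2 = 1
  e3 : s3 = s1 * c2 + c1 * s2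
  f3 : c3 = s1 * s2 - c1 * c2

variable {h s1 c1 s2 c2 s3 c3 : ℝ}

theorem Tg.u3 (T : Tg h s1 c1 s2 c2 s3 c3) : s3 ^ 2 + c3 ^ 2 = 1 := by
  rw [T.e3, T.f3]; linear_combination (s2 ^ 2 + c2 ^ 2) * T.u1 + T.u2

theorem Tg.s12 (T : Tg h s1 c1 s2 c2 s3 c3) : Tg h s2 c2 s1 c1 s3 c3 :=
  ⟨T.h0, T.h1, T.p2, T.p1, T.p3, T.u2, T.u1, by rw [T.e3]; ring, by rw [T.f3]; ring⟩

theorem Tg.s23 (T : Tg h s1 c1 s2 c2 s3 c3) : Tg h s1 c1 s3 c3 s2 c2 :=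
  ⟨T.h0, T.h1, T.p1, T.p3, T.p2, T.u1, T.u3, by rw [T.e3, T.f3]; linear_combination (-s2) * T.u1,
    by rw [T.e3, T.f3]; linear_combination (-c2) * T.u1⟩

theorem tau_a {a b : ℝ} (ha : |a| ≤ 1) (hb : |b| ≤ 1) (h : 0 < sn a * cn b + cn a * sn b) : a + b ≤ 0 := by
  have e : sn a * cn b + cn a * sn b = -2 * ((a + b) * (1 - a * b)) / ((a ^ 2 + 1) * (b ^ 2 + 1)) := by
    unfold sn cn; field_simp; ring
  rw [e, lt_div_iff₀ (by positivity), zero_mul] at h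
  have : a * b ≤ 1 := (le_abs_self _).trans (by rw [abs_mul]; exact mul_le_one₀ ha (abs_nonneg _) hb)
  by_contra hn
  linarith [mul_nonneg (not_le.1 hn).le (sub_nonneg.2 this)]

theorem tau_b {a b : ℝ} (ha : |a| ≤ 1) (hb : |b| ≤ 1) (h : cn a ≤ cn b) : b ≤ a := by
  have e : cn b - cn a = -2 * ((b - a) * (1 - a * b)) / ((a ^ 2 + 1) * (b ^ 2 + 1)) := by
    unfold cn; field_simp; ring
  rw [← sub_nonneg, e, le_div_iff₀ (by positivity), zero_mul] at h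
  by_contra hn
  have hn := sub_pos.2 (not_le.1 hn)
  have a1 := abs_le.1 ha
  have b1 := abs_le.1 hb
  have : 0 < 1 - a * b := by nlinarith [a1.1, a1.2, b1.1, b1.2]
  linarith [mul_pos hn this]

theorem Tg.cl {q : Q} (H : Root q.Good) (T : Tg h s1 c1 s2 c2 s3 c3) (o1 : c1 ≤ c3) (o2 : c2 ≤ c3)
    (o : q.sym = true → c1 ≤ c2) : q.Cl h s1 c1 s2 c2 s3 c3 := by
  obtain ⟨a1, a2, a3⟩ := tau T.p1.le T.u1
  obtain ⟨b1, b2, b3⟩ := tau T.p2.le T.u2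
  have := H.at T.h0.le T.h1 a3 b3
  unfold Q.Good at this
  rw [a1, a2, b1, b2, ← T.e3, ← T.f3] at this
  exact this T.h0 T.p1 T.p2 T.p3 (tau_a a3 b3 (by rw [a1, a2, b1, b2, ← T.e3]; exact T.p3))
    (fun hs => tau_b a3 b3 (by rw [a2, b2]; exact o hs)) o1 o2

def Q.sw (q : Q) : Q := ⟨q.p1, q.p3, q.p2, false, q.useL, q.cA, q.cB, q.cM, q.h0, q.h1⟩

theorem Q.cl12 {q : Q} (e : q.p1 = q.p2) (H : q.Cl h s2 c2 s1 c1 s3 c3) : q.Cl h s1 c1 s2 c2 s3 c3 := by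
  have f : q.F h s1 c1 s2 c2 s3 c3 = q.F h s2 c2 s1 c1 s3 c3 := by unfold Q.F; rw [e]; ring
  unfold Q.Cl Q.NB at *
  rw [f]; rw [e] at *
  exact ⟨fun a b c d => H.1 b a c (by tauto), fun a b => H.2 a (by tauto)⟩

theorem Q.cl23 {q : Q} (H : q.sw.Cl h s1 c1 s3 c3 s2 c2) : q.Cl h s1 c1 s2 c2 s3 c3 := by
  have f : q.F h s1 c1 s2 c2 s3 c3 = q.sw.F h s1 c1 s3 c3 s2 c2 := by unfold Q.F Q.sw; ring
  unfold Q.Cl Q.NB at *
  rw [f]
  exact ⟨fun a b c d => H.1 a c b (by simp only [Q.sw]; tauto), fun a b => H.2 a (by simp only [Q.sw]; tauto)⟩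

theorem Tg.sym {q : Q} (H : Root q.Good) (H' : Root q.sw.Good) (e : q.p1 = q.p2)
    (T : Tg h s1 c1 s2 c2 s3 c3) : q.Cl h s1 c1 s2 c2 s3 c3 := by
  have key : ∀ {s1 c1 s2 c2}, Tg h s1 c1 s2 c2 s3 c3 → c1 ≤ c2 → q.Cl h s1 c1 s2 c2 s3 c3 := by
    intro s1 c1 s2 c2 T o
    rcases le_total c2 c3 with g | g
    · exact T.cl H (o.trans g) g fun _ => o
    · exact Q.cl23 (T.s23.cl H' o g fun x => absurd x (by simp [Q.sw]))
  rcases le_total c1 c2 with o | o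
  · exact key T o
  · exact Q.cl12 e (key T.s12 o)

theorem Tg.sym3 {q : Q} (H : Root q.Good) (e : q.p1 = q.p2) (e' : q.p2 = q.p3)
    (T : Tg h s1 c1 s2 c2 s3 c3) : q.Cl h s1 c1 s2 c2 s3 c3 := by
  have c23 : ∀ {s1 c1 s2 c2 s3 c3}, q.Cl h s1 c1 s3 c3 s2 c2 → q.Cl h s1 c1 s2 c2 s3 c3 := by
    intro s1 c1 s2 c2 s3 c3 H
    apply Q.cl23
    unfold Q.Cl Q.NB Q.F at *
    simp only [Q.sw]
    rw [e'] at *
    exact H
  have key : ∀ {s1 c1 s2 c2 s3 c3}, Tg h s1 c1 s2 c2 s3 c3 → c1 ≤ c3 → c2 ≤ c3 → q.Cl h s1 c1 s2 c2 s3 c3 := by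
    intro s1 c1 s2 c2 s3 c3 T o1 o2
    rcases le_total c1 c2 with o | o
    · exact T.cl H o1 o2 fun _ => o
    · exact Q.cl12 e (T.s12.cl H o2 o1 fun _ => o)
  rcases le_total c1 c2 with o | o
  · rcases le_total c2 c3 with g | g
    · exact key T (o.trans g) g
    · exact c23 (key T.s23 o g)
  · rcases le_total c1 c3 with g | g
    · exact key T g (o.trans g)
    · exact Q.cl12 e (c23 (key T.s12.s23 o g))

theorem chart {D T1 T2 T3 : ℝ} (hD : 0 < D) (p1 : 0 < T2 + T3) (p2 : 0 < T1 + T3) (p3 : 0 < T1 + T2)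
    (e : 4 * D ^ 2 = 4 * (T1 * T2 + T1 * T3 + T2 * T3) - (T2 + T3) * (T1 + T3) * (T1 + T2)) :
    ∃ h s1 c1 s2 c2 s3 c3, Tg h s1 c1 s2 c2 s3 c3 ∧ (1 - h ^ 2) * s1 ^ 2 = (T2 + T3) / 4 ∧
      (1 - h ^ 2) * s2 ^ 2 = (T1 + T3) / 4 ∧ (1 - h ^ 2) * s3 ^ 2 = (T1 + T2) / 4 ∧
      2 * (s1 * s2 * ((1 - h ^ 2) * s3)) = √(T1 * T2 + T1 * T3 + T2 * T3) / 2 ∧
      c1 / (h * s1) = T1 / D ∧ c2 / (h * s2) = T2 / D ∧ c3 / (h * s3) = T3 / D := by
  have pp : 0 < (T2 + T3) * (T1 + T3) * (T1 + T2) := by positivity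
  have e0 : D ^ 2 < T1 * T2 + T1 * T3 + T2 * T3 := by linarith
  have e1 : 0 < T1 * T2 + T1 * T3 + T2 * T3 := lt_trans (by positivity) e0
  have n0 := sqrt_pos.2 e1
  have n2 := sq_sqrt e1.le
  have n1 : D ≤ √(T1 * T2 + T1 * T3 + T2 * T3) := le_sqrt_of_sq_le e0.le
  generalize √(T1 * T2 + T1 * T3 + T2 * T3) = ν at *
  have a0 := sqrt_pos.2 p1; have a2 := sq_sqrt p1.le
  have b0 := sqrt_pos.2 p2; have b2 := sq_sqrt p2.le
  have c0 := sqrt_pos.2 p3; have c2 := sq_sqrt p3.le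
  generalize √(T2 + T3) = a at *
  generalize √(T1 + T3) = b at *
  generalize √(T1 + T2) = c at *
  have r : 1 - (D / ν) ^ 2 = (a * b * c) ^ 2 / (4 * ν ^ 2) := by
    field_simp; rw [a2, b2, c2]; linarith
  refine ⟨D / ν, ν / (b * c), T1 / (b * c), ν / (a * c), T2 / (a * c), ν / (a * b), T3 / (a * b),
    ⟨by positivity, (div_le_one n0).2 n1, by positivity, by positivity, by positivity, ?_, ?_, ?_, ?_⟩,
    ?_, ?_, ?_, ?_, ?_, ?_, ?_⟩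
  · field_simp; rw [n2, b2, c2]; ring
  · field_simp; rw [n2, a2, c2]; ring
  · field_simp; rw [c2]; ring
  · field_simp; rw [n2, c2]; ring
  · rw [r, ← a2]; field_simp
  · rw [r, ← b2]; field_simp
  · rw [r, ← c2]; field_simp
  · rw [r]; field_simp; norm_num
  · field_simp
  · field_simp
  · field_simp

abbrev V := EuclideanSpace ℝ (Fin 3)

def dt (a b : V) : ℝ := a 0 * b 0 + a 1 * b 1 + a 2 * b 2
def dv (a b c : V) : ℝ :=
  a 0 * (b 1 * c 2 - b 2 * c 1) + a 1 * (b 2 * c 0 - b 0 * c 2) + a 2 * (b 0 * c 1 - b 1 * c 0)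
def Tt (a b c : V) : ℝ := 1 + dt a b - dt b c - dt c a
def An (a b c : V) : ℝ := arctan (Tt a b c / dv a b c)
def yy (a b : V) : ℝ := (1 - dt a b) / 2
def ar (a b c : V) : ℝ := √(Tt a b c * Tt c a b + Tt a b c * Tt b c a + Tt c a b * Tt b c a) / 2

theorem dt_comm (a b : V) : dt a b = dt b a := by unfold dt; ring
theorem yy_comm (a b : V) : yy a b = yy b a := by unfold yy dt; ring
theorem dv_rot (a b c : V) : dv a b c = dv b c a := by unfold dv; ring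
theorem dv_swap (a b c : V) : dv a b c = -dv b a c := by unfold dv; ring
theorem ar_rot (a b c : V) : ar a b c = ar b c a := by unfold ar; congr 2; ring

theorem gram (a b c : V) : dv a b c ^ 2 = dt a a * dt b b * dt c c + 2 * dt a b * dt b c * dt c a -
    dt a a * dt b c ^ 2 - dt b b * dt c a ^ 2 - dt c c * dt a b ^ 2 := by unfold dv dt; ring

theorem dt_bd {a b : V} (ha : dt a a = 1) (hb : dt b b = 1) : -1 ≤ dt a b ∧ dt a b ≤ 1 := by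
  unfold dt at *
  constructor
  · linarith [sq_nonneg (a 0 + b 0), sq_nonneg (a 1 + b 1), sq_nonneg (a 2 + b 2)]
  · linarith [sq_nonneg (a 0 - b 0), sq_nonneg (a 1 - b 1), sq_nonneg (a 2 - b 2)]

theorem yy_bd {a b : V} (ha : dt a a = 1) (hb : dt b b = 1) : 0 ≤ yy a b ∧ yy a b ≤ 1 := by
  have := dt_bd ha hb
  unfold yy; constructor <;> linarith [this.1, this.2]

/-- three unit vectors, positively oriented -/
structure Ps (a b c : V) : Prop where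
  ua : dt a a = 1
  ub : dt b b = 1
  uc : dt c c = 1
  d : 0 < dv a b c

theorem Ps.rot {a b c : V} (h : Ps a b c) : Ps b c a := ⟨h.ub, h.uc, h.ua, dv_rot a b c ▸ h.d⟩

theorem Ps.gram {a b c : V} (h : Ps a b c) : dv a b c ^ 2 = 1 + 2 * dt a b * dt b c * dt c a -
    dt b c ^ 2 - dt c a ^ 2 - dt a b ^ 2 := by rw [MP_c2ab8b_gt.gram, h.ua, h.ub, h.uc]; ring

theorem Ps.sq_lt {a b c : V} (h : Ps a b c) : dt a b ^ 2 < 1 := by
  have g := h.gram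
  have p := pow_pos h.d 2
  have u := dt_bd h.ub h.uc
  have : 0 ≤ 1 - dt b c ^ 2 := by nlinarith [u.1, u.2]
  by_contra hn
  nlinarith [sq_nonneg (dt c a - dt a b * dt b c), mul_nonneg this (sub_nonneg.2 (not_lt.1 hn))]

theorem Ps.lt {a b c : V} (h : Ps a b c) : -1 < dt a b ∧ dt a b < 1 := by
  have := h.sq_lt
  constructor <;> nlinarith

theorem Ps.chart {a b c : V} (H : Ps a b c) :
    ∃ h s1 c1 s2 c2 s3 c3, Tg h s1 c1 s2 c2 s3 c3 ∧ (1 - h ^ 2) * s1 ^ 2 = yy a b ∧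
      (1 - h ^ 2) * s2 ^ 2 = yy c a ∧ (1 - h ^ 2) * s3 ^ 2 = yy b c ∧
      2 * (s1 * s2 * ((1 - h ^ 2) * s3)) = ar a b c ∧ arctan (c1 / (h * s1)) = An a b c ∧
      arctan (c2 / (h * s2)) = An c a b ∧ arctan (c3 / (h * s3)) = An b c a := by
  obtain ⟨h, s1, c1, s2, c2, s3, c3, T, e1, e2, e3, e4, e5, e6, e7⟩ :=
    MP_c2ab8b_gt.chart (D := dv a b c) (T1 := Tt a b c) (T2 := Tt c a b) (T3 := Tt b c a) H.d
      (by unfold Tt; linarith [H.lt.2]) (by unfold Tt; linarith [H.rot.rot.lt.2])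
      (by unfold Tt; linarith [H.rot.lt.2]) (by rw [H.gram]; unfold Tt; ring)
  refine ⟨h, s1, c1, s2, c2, s3, c3, T, ?_, ?_, ?_, e4, by rw [e5]; rfl, ?_, ?_⟩
  · rw [e1]; unfold Tt yy; ring
  · rw [e2]; unfold Tt yy; ring
  · rw [e3]; unfold Tt yy; ring
  · rw [e6, dv_rot a, dv_rot b]; rfl
  · rw [e7, dv_rot a]; rfl

end Pool.Agent.Work.MP_c2ab8b_gt
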