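import Mathlib.Tactic

/- Classification of the oriented triangulated surfaces on seven vertices. -/

namespace Pool.Agent.Work.MP_c2ab8b_gt

abbrev T3 := Fin 7 × Fin 7 × Fin 7

structure Ax (f : Fin 7 → Fin 7 → Fin 7 → Prop) : Prop where
  rot : ∀ {a b c}, f a b c → f b c a
  anti : ∀ {a b c}, f a b c → f a c b → False
  uniq : ∀ {a b c d}, f a b c → f a b d → c = d
  nxt : ∀ {a b c}, f a b c → ∃ d, f b a d
  vert : ∀ a, ∃ b c, f a b c
  three : ∀ {v a b c d e}, f v a b → f v b c → f v c a → f v d e → d = a ∨ d = b ∨ d = c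

def ad3 (L : List T3) (a b c : Fin 7) : List T3 := (a, b, c) :: (b, c, a) :: (c, a, b) :: L

def eqf (a b : Fin 7) : Bool := Nat.beq a.1 b.1

theorem eqf_iff {a b : Fin 7} : eqf a b = true ↔ a = b := by simp [eqf, Fin.ext_iff]

def bad1 (S : List T3) : Bool :=
  S.any fun p => eqf p.2.1 p.1 || S.any fun q => (eqf p.2.1 q.2.1 && !eqf p.2.2 q.2.2) ||
    (eqf p.2.1 q.2.2 && eqf p.2.2 q.2.1) || (eqf p.2.2 q.2.1 && S.any fun r => eqf r.2.1 q.2.2 && eqf r.2.2 p.2.1 &&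
      S.any fun s => !eqf s.2.1 p.2.1 && !eqf s.2.1 q.2.1 && !eqf s.2.1 r.2.1)

def bad (L : List T3) : Bool := (L.take 3).any fun t => bad1 (L.filter fun p => eqf p.1 t.1)

def opn (L : List T3) : Option T3 := L.find? fun t => !L.any fun s => eqf s.1 t.2.1 && eqf s.2.1 t.1

def mem (L : List T3) (a b c : Fin 7) : Bool := L.any fun s => eqf s.1 a && eqf s.2.1 b && eqf s.2.2 c

theorem mem_iff {L : List T3} {a b c : Fin 7} : mem L a b c = true ↔ (a, b, c) ∈ L := by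
  simp only [mem, List.any_eq_true, Bool.and_eq_true, eqf_iff]
  exact ⟨fun ⟨s, h, ⟨h1, h2⟩, h3⟩ => by rw [← h1, ← h2, ← h3]; exact h, fun h => ⟨_, h, ⟨rfl, rfl⟩, rfl⟩⟩

def ty0 : List T3 :=
  [(5, 0, 1), (5, 1, 2), (5, 2, 3), (5, 3, 4), (5, 4, 0), (6, 1, 0), (6, 2, 1), (6, 3, 2), (6, 4, 3), (6, 0, 4)]
def ty1 : List T3 :=
  [(0, 1, 2), (0, 2, 3), (0, 3, 1), (1, 3, 4), (1, 4, 5), (1, 5, 2), (2, 5, 6), (2, 6, 3), (3, 6, 4), (4, 6, 5)]
def ty2 : List T3 :=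
  [(0, 1, 2), (0, 2, 3), (0, 3, 1), (1, 3, 4), (1, 4, 5), (1, 5, 2), (2, 4, 6), (2, 5, 4), (2, 6, 3), (3, 6, 4)]
def ty3 : List T3 :=
  [(0, 1, 2), (0, 2, 3), (0, 3, 1), (1, 3, 4), (1, 4, 2), (2, 4, 5), (2, 5, 6), (2, 6, 3), (3, 5, 4), (3, 6, 5)]
def ty4 : List T3 :=
  [(0, 1, 2), (0, 2, 3), (0, 3, 1), (1, 3, 4), (1, 4, 2), (2, 4, 5), (2, 5, 3), (3, 5, 6), (3, 6, 4), (4, 6, 5)]
def ty5 : List T3 :=
  [(0, 1, 2), (0, 2, 3), (0, 3, 1), (1, 3, 4), (1, 4, 2), (2, 4, 5), (2, 5, 6), (2, 6, 3), (3, 6, 4), (4, 6, 5)]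
def ty6 : List T3 :=
  [(0, 1, 2), (0, 2, 3), (0, 3, 4), (0, 4, 5), (0, 5, 6), (0, 6, 1), (1, 3, 5), (1, 4, 3), (1, 5, 2), (1, 6, 4), (2, 4, 6), (2, 5, 4), (2, 6, 3), (3, 6, 5)]
def ty7 : List T3 :=
  [(0, 1, 2), (0, 2, 3), (0, 3, 4), (0, 4, 5), (0, 5, 6), (0, 6, 1), (1, 3, 5), (1, 4, 2), (1, 5, 4), (1, 6, 3), (2, 4, 6), (2, 5, 3), (2, 6, 5), (3, 6, 4)]

def tys : List (List T3) := [ty0, ty1, ty2, ty3, ty4, ty5, ty6, ty7]

def cert : List (List T3 × List (Fin 7)) :=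
  [(ty5, [0, 2, 3, 1, 4, 6, 5]), (ty4, [0, 2, 3, 1, 4, 6, 5]), (ty3, [0, 2, 3, 1, 4, 5, 6]),
   (ty4, [0, 1, 2, 3, 5, 4, 6]), (ty2, [0, 3, 1, 2, 4, 6, 5]), (ty1, [0, 1, 2, 3, 6, 5, 4]),
   (ty2, [0, 2, 3, 1, 5, 4, 6]), (ty5, [0, 3, 1, 2, 4, 6, 5]), (ty5, [0, 1, 2, 3, 6, 5, 4]),
   (ty3, [0, 1, 2, 3, 6, 5, 4]), (ty4, [0, 3, 1, 2, 4, 6, 5]), (ty2, [0, 1, 2, 3, 5, 6, 4]),
   (ty3, [0, 3, 1, 2, 4, 5, 6]), (ty4, [2, 0, 1, 4, 3, 5, 6]), (ty3, [2, 0, 1, 4, 3, 6, 5]),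
   (ty5, [2, 0, 1, 4, 3, 6, 5]), (ty4, [4, 0, 2, 3, 1, 5, 6]), (ty3, [4, 0, 2, 3, 1, 6, 5]),
   (ty5, [4, 0, 2, 3, 1, 6, 5]), (ty1, [6, 3, 4, 5, 1, 0, 2]), (ty3, [5, 2, 1, 4, 0, 3, 6]),
   (ty0, [0, 2, 5, 6, 3, 4, 1]), (ty1, [6, 1, 3, 5, 2, 0, 4]), (ty3, [3, 0, 4, 1, 2, 5, 6]),
   (ty5, [1, 0, 3, 2, 4, 6, 5]), (ty3, [5, 4, 2, 3, 0, 1, 6]), (ty1, [5, 2, 6, 4, 0, 1, 3]),
   (ty0, [0, 1, 6, 5, 4, 2, 3]), (ty5, [3, 0, 4, 1, 2, 5, 6]), (ty1, [6, 1, 5, 2, 0, 3, 4]),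
   (ty4, [3, 0, 4, 1, 2, 5, 6]), (ty4, [1, 0, 3, 2, 4, 6, 5]), (ty3, [1, 0, 3, 2, 4, 5, 6]),
   (ty5, [2, 1, 5, 0, 3, 6, 4]), (ty4, [2, 5, 0, 1, 4, 3, 6]), (ty1, [2, 0, 1, 5, 4, 3, 6]),
   (ty2, [2, 1, 5, 0, 3, 6, 4]), (ty2, [2, 0, 1, 5, 4, 3, 6]), (ty4, [1, 2, 0, 3, 5, 4, 6]),
   (ty5, [4, 5, 3, 0, 2, 6, 1]), (ty5, [5, 2, 4, 0, 1, 6, 3]), (ty4, [5, 4, 0, 2, 3, 1, 6]),
   (ty1, [5, 0, 2, 4, 3, 1, 6]), (ty2, [3, 0, 4, 1, 2, 5, 6]), (ty2, [1, 3, 2, 0, 4, 6, 5]),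
   (ty0, [1, 2, 5, 4, 3, 0, 6]), (ty1, [4, 0, 5, 3, 1, 2, 6]), (ty1, [3, 0, 4, 1, 2, 5, 6]),
   (ty4, [4, 3, 0, 5, 1, 2, 6]), (ty5, [3, 4, 1, 0, 5, 6, 2]), (ty1, [1, 0, 3, 2, 5, 4, 6]),
   (ty2, [1, 0, 3, 2, 5, 4, 6]), (ty4, [3, 1, 0, 4, 2, 5, 6]), (ty5, [1, 3, 2, 0, 4, 6, 5]),
   (ty3, [2, 1, 6, 0, 3, 4, 5]), (ty4, [2, 1, 6, 0, 3, 5, 4]), (ty2, [2, 6, 0, 1, 4, 5, 3]),
   (ty5, [2, 6, 0, 1, 5, 4, 3]), (ty3, [2, 6, 0, 1, 5, 4, 3]), (ty5, [1, 2, 0, 3, 6, 5, 4]),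
   (ty3, [1, 2, 0, 3, 6, 5, 4]), (ty6, [0, 1, 2, 6, 5, 4, 3]), (ty3, [3, 1, 0, 4, 2, 6, 5]),
   (ty4, [1, 3, 2, 0, 4, 6, 5]), (ty7, [0, 1, 2, 6, 5, 4, 3]), (ty3, [4, 3, 0, 5, 1, 2, 6]),
   (ty4, [3, 4, 1, 0, 5, 2, 6]), (ty2, [1, 2, 0, 3, 5, 6, 4]), (ty5, [3, 1, 0, 4, 2, 6, 5]),
   (ty3, [1, 3, 2, 0, 4, 5, 6])]

def lab (p : List (Fin 7)) (a : Fin 7) : Fin 7 := p.getD a 0

def go : ℕ → List T3 → ℕ → Bool
  | 0, _, _ => false
  | n + 1, L, m => bad L || match opn L with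
    | some t => (List.finRange 7).all fun d => Nat.blt m d.1 || go n (ad3 L t.2.1 t.1 d) (bif Nat.beq d.1 m then m + 1 else m)
    | none => if h : m < 7 then
        (List.finRange 7).all fun b => (List.finRange 7).all fun c => go n (ad3 L ⟨m, h⟩ b c) 7
      else cert.any fun c => c.1.all fun t => mem L (lab c.2 t.1) (lab c.2 t.2.1) (lab c.2 t.2.2)

def Hd (f : Fin 7 → Fin 7 → Fin 7 → Prop) (L : List T3) : Prop := ∀ t ∈ L, f t.1 t.2.1 t.2.2

def Con (f : Fin 7 → Fin 7 → Fin 7 → Prop) : Prop :=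
  ∃ σ : Fin 7 → Fin 7, Function.Injective σ ∧ ∃ T ∈ tys, Hd (fun a b c => f (σ a) (σ b) (σ c)) T

variable {f : Fin 7 → Fin 7 → Fin 7 → Prop} {L : List T3}

theorem Ax.comp (A : Ax f) {σ : Fin 7 → Fin 7} (h : Function.Injective σ) :
    Ax fun a b c => f (σ a) (σ b) (σ c) := by
  have s := Finite.injective_iff_surjective.1 h
  refine ⟨A.rot, A.anti, fun x y => h (A.uniq x y), fun x => ?_, fun a => ?_, fun x y z w => ?_⟩
  · obtain ⟨d, hd⟩ := A.nxt x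
    obtain ⟨d, rfl⟩ := s d
    exact ⟨d, hd⟩
  · obtain ⟨b, c, hd⟩ := A.vert (σ a)
    obtain ⟨b, rfl⟩ := s b
    obtain ⟨c, rfl⟩ := s c
    exact ⟨b, c, hd⟩
  · simpa only [h.eq_iff] using A.three x y z w

theorem Ax.ad (A : Ax f) (H : Hd f L) {a b c : Fin 7} (h : f a b c) : Hd f (ad3 L a b c) := by
  intro t ht
  simp only [ad3, List.mem_cons] at ht
  rcases ht with rfl | rfl | rfl | ht
  exacts [h, A.rot h, A.rot (A.rot h), H t ht]

theorem Ax.bad (A : Ax f) (H : Hd f L) (h : bad L = true) : False := by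
  simp only [MP_c2ab8b_gt.bad, bad1, List.any_eq_true, List.mem_filter, Bool.or_eq_true, Bool.and_eq_true,
    Bool.not_eq_true', ← Bool.not_eq_true, eqf_iff] at h
  obtain ⟨⟨v, w⟩, -, ⟨p1, p2, p3⟩, ⟨hp, rfl⟩, h⟩ := h
  have P := H _ hp
  rcases h with h | ⟨⟨q1, q2, q3⟩, ⟨hq, rfl⟩, h⟩
  · simp only at h P
    subst h
    exact A.anti P (A.rot P)
  have Q := H _ hq
  rcases h with (⟨h1, h2⟩ | ⟨h1, h2⟩) | ⟨h1, ⟨r1, r2, r3⟩, ⟨hr, rfl⟩, ⟨h2, h3⟩, ⟨s1, s2, s3⟩, ⟨hs, rfl⟩, h4⟩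
  · simp only at h1 h2 P Q
    subst h1
    exact h2 (A.uniq P Q)
  · simp only at h1 h2 P Q
    subst h1 h2
    exact A.anti P Q
  · have R := H _ hr
    have S := H _ hs
    simp only at h1 h2 h3 h4 P Q R S
    subst h1 h2 h3
    have := A.three P Q R S
    tauto

theorem go_s (n : ℕ) : ∀ (L : List T3) (m : ℕ) (f : Fin 7 → Fin 7 → Fin 7 → Prop), Ax f → Hd f L →
    (∀ t ∈ L, t.1.1 < m ∧ t.2.1.1 < m ∧ t.2.2.1 < m) → go n L m = true → Con f := by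
  induction n with
  | zero => intro L m f _ _ _ h; simp [go] at h
  | succ n ih =>
    intro L m f A H B h
    rw [go, Bool.or_eq_true] at h
    rcases h with h | h
    · exact (A.bad H h).elim
    split at h
    · rename_i t ht
      have tm := List.mem_of_find?_eq_some ht
      have bt := B t tm
      obtain ⟨d, hd⟩ := A.nxt (H t tm)
      simp only [List.all_eq_true, List.mem_finRange, true_imp_iff, Bool.or_eq_true, Nat.blt_eq, Bool.cond_eq_ite, Nat.beq_eq] at h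
      have nb : ∀ (e : Fin 7) (k : ℕ), m ≤ k → e.1 < k →
          ∀ s ∈ ad3 L t.2.1 t.1 e, s.1.1 < k ∧ s.2.1.1 < k ∧ s.2.2.1 < k := by
        intro e k h1 h2 s hs
        simp only [ad3, List.mem_cons] at hs
        rcases hs with rfl | rfl | rfl | hs
        · simp only; omega
        · simp only; omega
        · simp only; omega
        · have := B s hs; omega
      by_cases hm : d.1 < m
      · have := (h d).resolve_left (by omega)
        rw [if_neg (by omega)] at this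
        exact ih _ _ f A (A.ad H hd) (nb d m le_rfl hm) this
      · have m7 : m < 7 := by omega
        have := (h ⟨m, m7⟩).resolve_left (by simp)
        rw [if_pos rfl] at this
        have fx : ∀ a : Fin 7, a.1 < m → Equiv.swap d ⟨m, m7⟩ a = a := fun a ha =>
          Equiv.swap_apply_of_ne_of_ne (by rintro rfl; omega) (by rintro rfl; simp at ha)
        have A' := A.comp (Equiv.swap d ⟨m, m7⟩).injective
        obtain ⟨σ, h1, T, h2, h3⟩ := ih _ _ _ A' (A'.ad (fun s hs => by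
          simp only [fx _ (B s hs).1, fx _ (B s hs).2.1, fx _ (B s hs).2.2]; exact H s hs)
          (by simp only [fx _ bt.1, fx _ bt.2.1, Equiv.swap_apply_right]; exact hd))
          (nb _ (m + 1) (by omega) (by simp)) this
        exact ⟨_, (Equiv.swap d ⟨m, m7⟩).injective.comp h1, T, h2, h3⟩
    · split at h
      · rename_i hm
        obtain ⟨b, c, hd⟩ := A.vert ⟨m, hm⟩
        simp only [List.all_eq_true, List.mem_finRange, true_imp_iff] at h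
        exact ih _ _ f A (A.ad H hd) (fun s _ => ⟨s.1.2, s.2.1.2, s.2.2.2⟩) (h b c)
      · simp only [List.any_eq_true, List.all_eq_true, mem_iff] at h
        obtain ⟨c, hc, h⟩ := h
        have := (by decide +kernel : ∀ c ∈ cert, Function.Injective (lab c.2) ∧ c.1 ∈ tys) c hc
        exact ⟨_, this.1, c.1, this.2, fun t ht => H _ (h t ht)⟩

private def f7 : List (Fin 7) :=
  [⟨0, by decide⟩, ⟨1, by decide⟩, ⟨2, by decide⟩, ⟨3, by decide⟩, ⟨4, by decide⟩, ⟨5, by decide⟩, ⟨6, by decide⟩]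

private theorem f7_eq : f7 = List.finRange 7 := by decide

private def frc (a : Fin 7) (k : Fin 7 → Bool) : Bool :=
  bif Nat.ble a.1 2 then (bif Nat.beq a.1 0 then k ⟨0, by decide⟩ else bif Nat.beq a.1 1 then k ⟨1, by decide⟩ else k ⟨2, by decide⟩)
  else bif Nat.ble a.1 4 then (bif Nat.beq a.1 3 then k ⟨3, by decide⟩ else k ⟨4, by decide⟩)
  else bif Nat.beq a.1 5 then k ⟨5, by decide⟩ else k ⟨6, by decide⟩

private theorem frc_eq (a : Fin 7) (k : Fin 7 → Bool) : frc a k = k a := by fin_cases a <;> rfl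

private def anyR {α : Type} (l : List α) (p : α → Bool) : Bool :=
  l.rec false fun a _ ih => (p a).rec ih true

private theorem anyR_eq {α : Type} (l : List α) (p : α → Bool) : anyR l p = l.any p := by
  induction l with
  | nil => rfl
  | cons a l ih => rw [List.any_cons, ← ih]; cases h : p a <;> simp [anyR, h]

private def qk (L : List T3) : Bool :=
  anyR (L.take 3) (fun t => eqf t.2.1 t.1) || anyR (L.take 3) fun t => anyR L fun q =>
    (Nat.beq q.1.1 t.1.1).rec false ((Nat.beq t.2.1.1 q.2.1.1).rec false !eqf t.2.2 q.2.2)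

private theorem qk_eq (L : List T3) : (qk L || bad L) = bad L := by
  refine Bool.or_eq_right_iff_imp.2 fun h => ?_
  simp only [qk, anyR_eq, bad, bad1, List.any_eq_true, Bool.or_eq_true, List.mem_filter] at h ⊢
  rcases h with ⟨t, h, k⟩ | ⟨t, h, q, hq, k⟩
  · exact ⟨t, h, t, ⟨List.mem_of_mem_take h, eqf_iff.2 rfl⟩, .inl k⟩
  · refine ⟨t, h, t, ⟨List.mem_of_mem_take h, eqf_iff.2 rfl⟩, .inr ⟨q, ⟨hq, ?_⟩, .inl (.inl ?_)⟩⟩
    · unfold eqf; revert k; cases Nat.beq q.1.1 t.1.1 <;> simp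
    · unfold eqf at k ⊢; revert k; cases Nat.beq q.1.1 t.1.1 <;> cases Nat.beq t.2.1.1 q.2.1.1 <;> simp

private def an (a b : Bool) : Bool := a.rec false b
private def ou (a b : Bool) : Bool := a.rec b true
private theorem an_eq (a b : Bool) : an a b = (a && b) := by cases a <;> rfl
private theorem ou_eq (a b : Bool) : ou a b = (a || b) := by cases a <;> rfl

private def filR {α : Type} (l : List α) (p : α → Bool) : List α :=
  l.rec [] fun a _ ih => (p a).rec ih (a :: ih)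

private theorem filR_eq {α : Type} (l : List α) (p : α → Bool) : filR l p = l.filter p := by
  induction l with
  | nil => rfl
  | cons a l ih => rw [List.filter_cons, ← ih]; cases h : p a <;> simp [filR, h]

private def bad1F (S : List T3) : Bool :=
  anyR S fun p => ou (eqf p.2.1 p.1) (anyR S fun q => ou (ou (an (eqf p.2.1 q.2.1) !eqf p.2.2 q.2.2)
    (an (eqf p.2.1 q.2.2) (eqf p.2.2 q.2.1))) (an (eqf p.2.2 q.2.1) (anyR S fun r =>
      an (an (eqf r.2.1 q.2.2) (eqf r.2.2 p.2.1))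
        (anyR S fun s => an (an (!eqf s.2.1 p.2.1) !eqf s.2.1 q.2.1) !eqf s.2.1 r.2.1))))

private def badF (L : List T3) : Bool := anyR (L.take 3) fun t => bad1F (filR L fun p => eqf p.1 t.1)

private theorem badF_eq (L : List T3) : badF L = bad L := by
  simp only [badF, bad1F, an_eq, ou_eq, anyR_eq, filR_eq, bad, bad1]

private def opnF (L : List T3) : Option T3 :=
  L.find? fun t => !anyR L fun s => an (eqf s.1 t.2.1) (eqf s.2.1 t.1)

private theorem opnF_eq (L : List T3) : opnF L = opn L := by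
  simp only [opnF, an_eq, anyR_eq, opn]

private def memF (L : List T3) (a b c : Fin 7) : Bool :=
  anyR L fun s => an (an (eqf s.1 a) (eqf s.2.1 b)) (eqf s.2.2 c)

private theorem memF_eq (L : List T3) (a b c : Fin 7) : memF L a b c = mem L a b c := by
  simp only [memF, an_eq, anyR_eq, mem]

private def goF : ℕ → List T3 → ℕ → Bool
  | 0, _, _ => false
  | n + 1, L, m => qk L || badF L || match opnF L with
    | some t => frc t.1 fun x => frc t.2.1 fun y => f7.all fun d => Nat.blt m d.1 ||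
        bif Nat.beq d.1 m then goF n ((y, x, d) :: (x, d, y) :: (d, y, x) :: L) (m + 1)
        else goF n ((y, x, d) :: (x, d, y) :: (d, y, x) :: L) m
    | none => if h : m < 7 then frc ⟨m, h⟩ fun x =>
        f7.all fun b => f7.all fun c => goF n ((x, b, c) :: (b, c, x) :: (c, x, b) :: L) 7
      else cert.any fun c => c.1.all fun t => frc (lab c.2 t.1) fun x => frc (lab c.2 t.2.1) fun y =>
        frc (lab c.2 t.2.2) fun z => memF L x y z

private theorem goF_eq (n : ℕ) : ∀ L m, goF n L m = go n L m := by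
  induction n with
  | zero => intro L m; rfl
  | succ n ih =>
    intro L m
    simp only [goF, go, frc_eq, ih, f7_eq, ad3, Bool.apply_cond (go n _), badF_eq, opnF_eq, memF_eq, qk_eq]

theorem Ax.con (A : Ax f) : Con f := by
  obtain ⟨b, c, h⟩ := A.vert 0
  have n1 : ∀ {a b c}, f a b c → a ≠ b := by
    rintro a b c h rfl; exact A.anti h (A.rot h)
  obtain ⟨σ, h0, h1, h2, h3⟩ := (by decide +kernel : ∀ b c : Fin 7, 0 ≠ b → b ≠ c → c ≠ 0 →
    ∃ d : Fin 7, Equiv.swap 1 b d = c ∧ d ≠ 0 ∧ d ≠ 1 ∧ Equiv.swap 1 b 0 = 0) b c (n1 h) (n1 (A.rot h))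
      (n1 (A.rot (A.rot h)))
  have i := (Equiv.swap 1 b).injective.comp (Equiv.swap 2 σ).injective
  have A' := A.comp i
  obtain ⟨τ, h4, T, h5, h6⟩ := go_s 20 (ad3 [] 0 1 2) 3 _ A' (A'.ad (by simp [Hd]) (by
    simp only [Function.comp, Equiv.swap_apply_left, h0]
    rw [Equiv.swap_apply_of_ne_of_ne (by decide) h1.symm, Equiv.swap_apply_of_ne_of_ne (x := 1) (by decide) h2.symm,
      h3, Equiv.swap_apply_left]
    exact h)) (by decide +kernel) ((goF_eq 20 _ 3).symm.trans (by decide +kernel))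
  exact ⟨_, i.comp h4, T, h5, h6⟩

def full (T : List T3) : List T3 := T.flatMap fun t => ad3 [] t.1 t.2.1 t.2.2

theorem Ax.only (A : Ax f) {T : List T3} (hT : T ∈ tys) (H : Hd f T) {a b c : Fin 7} (h : f a b c) :
    (a, b, c) ∈ T ∨ (b, c, a) ∈ T ∨ (c, a, b) ∈ T := by
  have H' : Hd f (full T) := by
    intro t ht
    obtain ⟨s, hs, ht⟩ := List.mem_flatMap.1 ht
    exact A.ad (L := []) (by simp [Hd]) (H s hs) t ht
  have := (by decide +kernel : (tys.all fun T => f7.all fun a => f7.all fun b =>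
    f7.all fun c => memF T a b c || memF T b c a || memF T c a b ||
      (qk (ad3 (full T) a b c) || badF (ad3 (full T) a b c))) = true)
  simp only [memF_eq, badF_eq, qk_eq, f7_eq] at this
  simp only [List.all_eq_true, List.mem_finRange, true_imp_iff, Bool.or_eq_true, mem_iff, or_assoc] at this
  rcases this T hT a b c with h | h | h | h
  exacts [Or.inl h, Or.inr (Or.inl h), Or.inr (Or.inr h), (A.bad (A.ad H' ‹_›) h).elim]

end Pool.Agent.Work.MP_c2ab8b_gt
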