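import Pool.Agent.Work.MP_c2ab8b_gt.Hess
import Mathlib.Analysis.SpecialFunctions.Trigonometric.Inverse
import Mathlib.Analysis.SpecialFunctions.Trigonometric.Bounds

/- The face function near the optimal face. -/

noncomputable section
namespace Pool.Agent.Work.MP_c2ab8b_gt
open Real

abbrev Root (G : ℝ → ℝ → ℝ → Prop) : Prop :=
  Cov G 4503599627370496 2147483648 4503595332403200 4294967296 4503595332403200 4294967296

theorem tau {s c : ℝ} (hs : 0 ≤ s) (h : s ^ 2 + c ^ 2 = 1) :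
    sn (-c / (1 + s)) = s ∧ cn (-c / (1 + s)) = c ∧ |-c / (1 + s)| ≤ 1 := by
  have p : 0 < 1 + s := by linarith
  have e : ((-c / (1 + s)) ^ 2 + 1)⁻¹ = (1 + s) / 2 := by
    rw [inv_eq_iff_eq_inv]; field_simp; nlinarith
  refine ⟨?_, ?_, ?_⟩
  · unfold sn; rw [e]; ring
  · unfold cn; rw [e]; field_simp; ring
  · rw [abs_div, abs_of_pos p, div_le_one p, abs_le]; constructor <;> (refine le_of_not_gt fun h_nl => ?_; linarith only [h_nl, hs, h, sq_nonneg s, mul_nonneg_of_nonpos_of_nonpos (Mathlib.Tactic.Linarith.sub_nonpos_of_le hs) (le_of_lt (Mathlib.Tactic.Linarith.sub_neg_of_lt h_nl)), mul_pos_of_neg_of_neg (Mathlib.Tactic.Linarith.sub_neg_of_lt h_nl) (Mathlib.Tactic.Linarith.sub_neg_of_lt h_nl)])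

theorem Root.at {G : ℝ → ℝ → ℝ → Prop} (H : Root G) {h t1 t2 : ℝ} (h0 : 0 ≤ h) (h1 : h ≤ 1)
    (a : |t1| ≤ 1) (b : |t2| ≤ 1) : G h t1 t2 := by
  have a := abs_le.1 a
  have b := abs_le.1 b
  refine H h t1 t2 ?_ ?_ ?_ <;> unfold Bx vl <;> push_cast <;> constructor <;> linarith only [h0, h1, a, b, a.1, a.2, b.1, b.2]

theorem HC.of {w1 w3 : ℝ} (H : Root (HG w1 w3)) {h s1 c1 s2 c2 : ℝ} (h0 : 0 ≤ h) (h1 : h ≤ 1)
    (p1 : 0 ≤ s1) (u1 : s1 ^ 2 + c1 ^ 2 = 1) (p2 : 0 ≤ s2) (u2 : s2 ^ 2 + c2 ^ 2 = 1) :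
    HC w1 w3 h s1 c1 s2 c2 (s1 * c2 + c1 * s2) (s1 * s2 - c1 * c2) := by
  obtain ⟨a1, a2, a3⟩ := tau p1 u1
  obtain ⟨b1, b2, b3⟩ := tau p2 u2
  have := H.at h0 h1 a3 b3
  unfold HG at this
  rwa [a1, a2, b1, b2] at this

def gf (w h B : ℝ) : ℝ := (1 - h ^ 2) * (sin B * cos B) - w * arctan (cos B / (h * sin B))

def g1 (w h s c x d : ℝ) : ℝ :=
  (-2 * h * (s * c) + w * (s * c) * (c ^ 2 + (h * s) ^ 2)⁻¹) * x +
    ((1 - h ^ 2) * (c ^ 2 - s ^ 2) + w * h * (c ^ 2 + (h * s) ^ 2)⁻¹) * d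

section
variable (w h0 x B0 d t : ℝ)

theorem dh : HasDerivAt (fun t => h0 + t * x) x t := by
  simpa using ((hasDerivAt_id t).mul_const x).const_add h0

theorem ds : HasDerivAt (fun t => sin (B0 + t * d)) (cos (B0 + t * d) * d) t := (dh B0 d t).sin
theorem dc : HasDerivAt (fun t => cos (B0 + t * d)) (-sin (B0 + t * d) * d) t := (dh B0 d t).cos

theorem gf_d (hh : 0 < h0 + t * x) (hs : 0 < sin (B0 + t * d)) :
    HasDerivAt (fun t => gf w (h0 + t * x) (B0 + t * d))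
      (g1 w (h0 + t * x) (sin (B0 + t * d)) (cos (B0 + t * d)) x d) t := by
  have a := dh h0 x t
  have b := ds B0 d t
  have c := dc B0 d t
  refine ((((a.fun_pow 2).const_sub 1).fun_mul (b.fun_mul c)).fun_sub
    ((c.fun_div (a.fun_mul b) (by positivity)).arctan.const_mul w)).congr_deriv ?_
  have u := sin_sq_add_cos_sq (B0 + t * d)
  generalize sin (B0 + t * d) = s at *
  generalize cos (B0 + t * d) = c at *
  generalize h0 + t * x = h at *
  have : (-(↑2 * h ^ (2 - 1) * x) * (s * c) + (1 - h ^ 2) * (c * d * c + s * (-s * d)) -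
      w * (1 / (1 + (c / (h * s)) ^ 2) * ((-s * d * (h * s) - c * (x * s + h * (c * d))) / (h * s) ^ 2))) =
      g1 w h s c x d + w * h * d * (c ^ 2 + (h * s) ^ 2)⁻¹ * (s ^ 2 + c ^ 2 - 1) := by
    unfold g1; field_simp; ring
  rw [u, sub_self, mul_zero, add_zero] at this
  exact_mod_cast this

theorem g1_d (hh : 0 < h0 + t * x) (hs : 0 < sin (B0 + t * d)) :
    HasDerivAt (fun t => g1 w (h0 + t * x) (sin (B0 + t * d)) (cos (B0 + t * d)) x d)
      (-2 * (Pf w (h0 + t * x) (sin (B0 + t * d)) (cos (B0 + t * d)) * x ^ 2 +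
        Qf w (h0 + t * x) (sin (B0 + t * d)) (cos (B0 + t * d)) * x * d +
        Rf w (h0 + t * x) (sin (B0 + t * d)) (cos (B0 + t * d)) * d ^ 2)) t := by
  have a := dh h0 x t
  have b := ds B0 d t
  have c := dc B0 d t
  have r := ((c.fun_pow 2).fun_add ((a.fun_mul b).fun_pow 2)).fun_inv (by positivity)
  refine (((((a.const_mul (-2)).fun_mul (b.fun_mul c)).fun_add
    (((b.fun_mul c).const_mul w).fun_mul r)).mul_const x).fun_add
    (((((a.fun_pow 2).const_sub 1).fun_mul ((c.fun_pow 2).fun_sub (b.fun_pow 2))).fun_add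
      ((a.const_mul w).fun_mul r)).mul_const d)).congr_deriv ?_
  have u := sin_sq_add_cos_sq (B0 + t * d)
  generalize sin (B0 + t * d) = s at *
  generalize cos (B0 + t * d) = c at *
  generalize h0 + t * x = h at *
  have e : w * x * d * ((c ^ 2 + (h * s) ^ 2)⁻¹) ^ 2 * (c ^ 2 - (h * s) ^ 2) * (s ^ 2 + c ^ 2 - 1) = 0 := by
    rw [u, sub_self, mul_zero]
  rw [← sub_eq_zero, ← e]
  unfold Pf Qf Rf
  push_cast
  field_simp
  ring

end

theorem taylor2 {φ ψ χ : ℝ → ℝ} {K : ℝ} (h1 : ∀ t, 0 ≤ t → t ≤ 1 → HasDerivAt φ (ψ t) t)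
    (h2 : ∀ t, 0 ≤ t → t ≤ 1 → HasDerivAt ψ (χ t) t) (h3 : ∀ t, 0 ≤ t → t ≤ 1 → χ t ≤ -2 * K)
    (h0 : ψ 0 = 0) : φ 1 ≤ φ 0 - K := by
  have d : ∀ t, 0 ≤ t → t ≤ 1 → HasDerivAt (fun t => φ t + K * t ^ 2) (ψ t + K * (2 * t)) t := fun t a b => by
    simpa using (h1 t a b).fun_add ((hasDerivAt_pow 2 t).const_mul K)
  obtain ⟨ξ, ⟨a, b⟩, e⟩ := exists_hasDerivAt_eq_slope (fun t => φ t + K * t ^ 2) (fun t => ψ t + K * (2 * t))
    zero_lt_one (fun t ht => (d t ht.1 ht.2).continuousAt.continuousWithinAt)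
    (fun t ht => d t ht.1.le ht.2.le)
  obtain ⟨ζ, ⟨a', b'⟩, e'⟩ := exists_hasDerivAt_eq_slope ψ χ a
    (fun t ht => (h2 t ht.1 (by linarith only [b, ht, ht.2])).continuousAt.continuousWithinAt)
    (fun t ht => h2 t ht.1.le (by linarith [ht.2]))
  have := h3 ζ a'.le (by linarith only [b, b'])
  rw [h0, sub_zero, sub_zero, eq_div_iff a.ne'] at e'
  simp only [one_pow, mul_one, sub_zero, div_one] at e
  linarith only [e', e, a, this, mul_nonneg_of_nonpos_of_nonpos (le_of_lt (Mathlib.Tactic.Linarith.sub_neg_of_lt a)) (Mathlib.Tactic.Linarith.sub_nonpos_of_le this)]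

def κ : ℝ := cos (π / 5)
def σ : ℝ := sin (π / 5)
def γ : ℝ := √(1 + κ ^ 2)
def wa : ℝ := κ / γ * κ ^ 2
def wb : ℝ := κ / γ / 2
def c0 : ℝ := σ * γ - 2 * ((wa + wb) * (π / 5)) - (wb + wb) * (3 * π / 10)

theorem κσ : σ ^ 2 + κ ^ 2 = 1 := sin_sq_add_cos_sq _
theorem γ2 : γ ^ 2 = 1 + κ ^ 2 := sq_sqrt (by positivity)

theorem κ_bd : 0.80901699437494 ≤ κ ∧ κ ≤ 0.80901699437495 := by
  have h : κ = (1 + √5) / 4 := cos_pi_div_five
  have a : (2.23606797749976 : ℝ) ≤ √5 := le_sqrt_of_sq_le (by norm_num)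
  have b : √5 ≤ (2.2360679774998 : ℝ) := sqrt_le_iff.2 (by norm_num)
  constructor <;> linarith only [h, a, b]

theorem σ_pos : 0 < σ := sin_pos_of_pos_of_lt_pi (by positivity) (by linarith only [pi_pos])

theorem σ_bd : 0.5877852522924 ≤ σ ∧ σ ≤ 0.5877852522925 := by
  have := κσ; have := κ_bd; have := σ_pos
  constructor
  · exact le_of_sq_le_sq (by nlinarith [κ_bd.1, κ_bd.2]) σ_pos.le
  · exact le_of_sq_le_sq (by nlinarith [κ_bd.1, κ_bd.2]) (by norm_num)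

theorem γ_bd : 1.2862769908489 ≤ γ ∧ γ ≤ 1.286276990849 := by
  have := κ_bd
  exact ⟨le_sqrt_of_sq_le (by linarith only [this, mul_nonneg_of_nonpos_of_nonpos (Mathlib.Tactic.Linarith.sub_nonpos_of_le this.left) (Mathlib.Tactic.Linarith.sub_nonpos_of_le this.left)]), sqrt_le_iff.2 ⟨by norm_num, by linarith only [this, mul_nonneg_of_nonpos_of_nonpos (Mathlib.Tactic.Linarith.sub_nonpos_of_le this.left) (Mathlib.Tactic.Linarith.sub_nonpos_of_le this.right)]⟩⟩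

theorem h_bd : 0.6289601696450 ≤ κ / γ ∧ κ / γ ≤ 0.6289601696452 := by
  have := κ_bd; have := γ_bd
  rw [le_div_iff₀ (by linarith only [this]), div_le_iff₀ (by linarith only [this])]
  constructor <;> linarith

theorem κ2_bd : 0.6545084971874 ≤ κ ^ 2 ∧ κ ^ 2 ≤ 0.6545084971875 := by
  have := κ_bd
  constructor <;> linarith only [this, mul_nonneg_of_nonpos_of_nonpos (Mathlib.Tactic.Linarith.sub_nonpos_of_le this.left) (Mathlib.Tactic.Linarith.sub_nonpos_of_le this.left), mul_nonneg_of_nonpos_of_nonpos (Mathlib.Tactic.Linarith.sub_nonpos_of_le this.left) (Mathlib.Tactic.Linarith.sub_nonpos_of_le this.right)]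

theorem wa_bd : 0.411659775425 ≤ wa ∧ wa ≤ 0.4116597754253 := by
  have := h_bd; have := κ2_bd
  unfold wa; constructor <;> nlinarith

theorem wb_bd : 0.3144800848225 ≤ wb ∧ wb ≤ 0.3144800848226 := by
  have := h_bd
  unfold wb; constructor <;> linarith only [this]

theorem σγ_bd : 0.756054645584 ≤ σ * γ ∧ σ * γ ≤ 0.7560546455843 := by
  have := σ_bd; have := γ_bd
  constructor <;> nlinarith

theorem c0_bd : -0.749220609098 ≤ c0 := by
  have := σγ_bd; have := wa_bd; have := wb_bd; have := pi_lt_d20; have := pi_gt_d20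
  unfold c0; nlinarith

theorem btw {a b t lo hi : ℝ} (a0 : 0 ≤ a) (a1 : a ≤ π) (b0 : 0 ≤ b) (b1 : b ≤ π) (t0 : 0 ≤ t) (t1 : t ≤ 1)
    (h1 : lo ≤ cos a * 2 ^ 32) (h2 : cos a * 2 ^ 32 ≤ hi) (h3 : lo ≤ cos b * 2 ^ 32)
    (h4 : cos b * 2 ^ 32 ≤ hi) (l : 0 < lo) (u : hi < 2 ^ 32) :
    lo ≤ cos (a + t * (b - a)) * 2 ^ 32 ∧ cos (a + t * (b - a)) * 2 ^ 32 ≤ hi ∧ 0 < sin (a + t * (b - a)) := by
  have key : ∀ z, 0 ≤ z → z ≤ π → (a ≤ z ∧ z ≤ b ∨ b ≤ z ∧ z ≤ a) →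
      lo ≤ cos z * 2 ^ 32 ∧ cos z * 2 ^ 32 ≤ hi ∧ 0 < sin z := by
    intro z z0 z1 hz
    have : lo ≤ cos z * 2 ^ 32 ∧ cos z * 2 ^ 32 ≤ hi := by
      rcases hz with ⟨p, q⟩ | ⟨p, q⟩
      · constructor <;> linarith only [h3, z0, b1, q, h2, a0, z1, p, cos_le_cos_of_nonneg_of_le_pi a0 z1 p, cos_le_cos_of_nonneg_of_le_pi z0 b1 q]
      · constructor <;> linarith only [h1, z0, a1, q, h4, b0, z1, p, cos_le_cos_of_nonneg_of_le_pi b0 z1 p, cos_le_cos_of_nonneg_of_le_pi z0 a1 q]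
    refine ⟨this.1, this.2, (sin_nonneg_of_nonneg_of_le_pi z0 z1).lt_of_ne fun h => ?_⟩
    have e := sin_sq_add_cos_sq z
    rw [← h] at e
    have c1 : cos z < 1 := by linarith [this.2]
    have c2 : 0 < cos z := by linarith [this.1]
    linarith only [u, e, h1, this, h2, l, mul_nonneg_of_nonpos_of_nonpos (Mathlib.Tactic.Linarith.sub_nonpos_of_le h1) (le_of_lt (Mathlib.Tactic.Linarith.sub_neg_of_lt u)), mul_nonneg_of_nonpos_of_nonpos (Mathlib.Tactic.Linarith.sub_nonpos_of_le h1) (Mathlib.Tactic.Linarith.sub_nonpos_of_le this.right), mul_nonneg_of_nonpos_of_nonpos (Mathlib.Tactic.Linarith.sub_nonpos_of_le h2) (le_of_lt (Mathlib.Tactic.Linarith.sub_neg_of_lt u)), mul_nonneg_of_nonpos_of_nonpos (Mathlib.Tactic.Linarith.sub_nonpos_of_le h2) (Mathlib.Tactic.Linarith.sub_nonpos_of_le this.right), mul_pos_of_neg_of_neg (Mathlib.Tactic.Linarith.sub_neg_of_lt l) (Mathlib.Tactic.Linarith.sub_neg_of_lt u), mul_nonneg_of_nonpos_of_nonpos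 (le_of_lt (Mathlib.Tactic.Linarith.sub_neg_of_lt l)) (Mathlib.Tactic.Linarith.sub_nonpos_of_le this.right), mul_nonneg_of_nonpos_of_nonpos (Mathlib.Tactic.Linarith.sub_nonpos_of_le this.left) (Mathlib.Tactic.Linarith.sub_nonpos_of_le this.right)]
  rcases le_total a b with h | h
  · exact key _ (by linarith only [a0, t1, b0, t0, mul_nonneg_of_nonpos_of_nonpos (Mathlib.Tactic.Linarith.sub_nonpos_of_le a0) (Mathlib.Tactic.Linarith.sub_nonpos_of_le t1), mul_nonneg_of_nonpos_of_nonpos (Mathlib.Tactic.Linarith.sub_nonpos_of_le b0) (Mathlib.Tactic.Linarith.sub_nonpos_of_le t0)]) (by linarith only [a1, t1, b1, t0, mul_nonneg_of_nonpos_of_nonpos (Mathlib.Tactic.Linarith.sub_nonpos_of_le a1) (Mathlib.Tactic.Linarith.sub_nonpos_of_le t1), mul_nonneg_of_nonpos_of_nonpos (Mathlib.Tactic.Linarith.sub_nonpos_of_le b1) (Mathlib.Tactic.Linarith.sub_nonpos_of_le t0)]) (Or.inl ⟨by linarith only [t0, h, mul_nonneg_of_nonpos_of_nonpos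 (Mathlib.Tactic.Linarith.sub_nonpos_of_le t0) (Mathlib.Tactic.Linarith.sub_nonpos_of_le h)], by linarith only [t1, h, mul_nonneg_of_nonpos_of_nonpos (Mathlib.Tactic.Linarith.sub_nonpos_of_le t1) (Mathlib.Tactic.Linarith.sub_nonpos_of_le h)]⟩)
  · exact key _ (by linarith only [a0, t1, b0, t0, mul_nonneg_of_nonpos_of_nonpos (Mathlib.Tactic.Linarith.sub_nonpos_of_le a0) (Mathlib.Tactic.Linarith.sub_nonpos_of_le t1), mul_nonneg_of_nonpos_of_nonpos (Mathlib.Tactic.Linarith.sub_nonpos_of_le b0) (Mathlib.Tactic.Linarith.sub_nonpos_of_le t0)]) (by linarith only [a1, t1, b1, t0, mul_nonneg_of_nonpos_of_nonpos (Mathlib.Tactic.Linarith.sub_nonpos_of_le a1) (Mathlib.Tactic.Linarith.sub_nonpos_of_le t1), mul_nonneg_of_nonpos_of_nonpos (Mathlib.Tactic.Linarith.sub_nonpos_of_le b1) (Mathlib.Tactic.Linarith.sub_nonpos_of_le t0)]) (Or.inr ⟨by linarith only [t1, h, mul_nonneg_of_nonpos_of_nonpos (Mathlib.Tactic.Linarith.sub_nonpos_of_le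 t1) (Mathlib.Tactic.Linarith.sub_nonpos_of_le h)], by linarith only [t0, h, mul_nonneg_of_nonpos_of_nonpos (Mathlib.Tactic.Linarith.sub_nonpos_of_le t0) (Mathlib.Tactic.Linarith.sub_nonpos_of_le h)]⟩)

theorem ylip (h k a b : ℝ) (h0 : 0 ≤ h) (h1 : h ≤ 1) (k0 : 0 ≤ k) (k1 : k ≤ 1) :
    ((1 - h ^ 2) * sin a ^ 2 - (1 - k ^ 2) * sin b ^ 2) ^ 2 ≤ 8 * ((h - k) ^ 2 + (a - b) ^ 2) := by
  have e : (1 - h ^ 2) * sin a ^ 2 - (1 - k ^ 2) * sin b ^ 2 =
      (h - k) * (-(h + k) * sin a ^ 2) + (sin a - sin b) * ((1 - k ^ 2) * (sin a + sin b)) := by ring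
  have s1 := sin_sq_le_one a
  have l := sq_le_sq' (abs_le.1 (abs_sin_sub_sin_le a b)).1 (abs_le.1 (abs_sin_sub_sin_le a b)).2
  rw [sq_abs] at l
  have u : (-(h + k) * sin a ^ 2) ^ 2 ≤ 2 ^ 2 := by
    apply sq_le_sq' <;> linarith only [s1, h1, k1, h0, k0, sq_nonneg (sin a), mul_nonneg_of_nonpos_of_nonpos (Mathlib.Tactic.Linarith.sub_nonpos_of_le (sq_nonneg (sin a))) (Mathlib.Tactic.Linarith.sub_nonpos_of_le h1), mul_nonneg_of_nonpos_of_nonpos (Mathlib.Tactic.Linarith.sub_nonpos_of_le (sq_nonneg (sin a))) (Mathlib.Tactic.Linarith.sub_nonpos_of_le k1), mul_nonneg_of_nonpos_of_nonpos (Mathlib.Tactic.Linarith.sub_nonpos_of_le (sq_nonneg (sin a))) (Mathlib.Tactic.Linarith.sub_nonpos_of_le h0), mul_nonneg_of_nonpos_of_nonpos (Mathlib.Tactic.Linarith.sub_nonpos_of_le (sq_nonneg (sin a))) (Mathlib.Tactic.Linarith.sub_nonpos_of_le k0)]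
  have v : ((1 - k ^ 2) * (sin a + sin b)) ^ 2 ≤ 2 ^ 2 := by
    have r : (sin a + sin b) ^ 2 ≤ 2 ^ 2 := by
      apply sq_le_sq' <;> linarith only [sin_le_one a, sin_le_one b, neg_one_le_sin a, neg_one_le_sin b]
    have r2 : (1 - k ^ 2) ^ 2 ≤ 1 ^ 2 := by apply sq_le_sq' <;> linarith only [k1, k0, mul_nonneg_of_nonpos_of_nonpos (Mathlib.Tactic.Linarith.sub_nonpos_of_le k0) (Mathlib.Tactic.Linarith.sub_nonpos_of_le k1), sq_nonneg k]
    rw [mul_pow]
    linarith only [r2, r, mul_le_mul r2 r (sq_nonneg _) (sq_nonneg _)]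
  rw [e]
  generalize -(h + k) * sin a ^ 2 = p at *
  generalize (1 - k ^ 2) * (sin a + sin b) = q at *
  have := mul_le_mul_of_nonneg_left u (sq_nonneg (h - k))
  have := mul_le_mul l v (sq_nonneg _) (sq_nonneg _)
  nlinarith [sq_nonneg ((h - k) * p - (sin a - sin b) * q)]

theorem exβ : ∃ β, 0 < β ∧ β < π / 2 ∧ sin β * cos β = σ * γ / 2 ∧ cos β ^ 2 = σ ^ 2 / 2 ∧
    sin β ^ 2 = γ ^ 2 / 2 ∧ cos (π - β - β) = κ ^ 2 ∧ sin (π - β - β) = σ * γ ∧
    arctan (cos β / (κ / γ * sin β)) = π / 5 ∧ arctan (κ ^ 2 / (κ / γ * (σ * γ))) = 3 * π / 10 := by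
  have k := κ2_bd; have k1 := κ_bd; have s := σ_bd; have g := γ_bd; have u := κσ; have g2 := γ2
  have a0 : 0 < arccos (κ ^ 2) := arccos_pos.2 (by linarith only [k.2])
  have a1 : arccos (κ ^ 2) < π / 2 := arccos_lt_pi_div_two.2 (by linarith only [k.1])
  have c : cos (arccos (κ ^ 2)) = κ ^ 2 :=
    cos_arccos (by linarith only [k.1]) (by linarith only [k.2])
  have sn : sin (arccos (κ ^ 2)) = σ * γ := by
    rw [sin_arccos, sqrt_eq_iff_mul_self_eq
      (sub_nonneg.2 (pow_le_one₀ (sq_nonneg κ) (by linarith only [k.2])))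
      (mul_nonneg σ_pos.le (by linarith only [g.1]))]
    linear_combination -γ ^ 2 * u - (1 - κ ^ 2) * g2
  set β := (π - arccos (κ ^ 2)) / 2 with hβ
  have e : π - β - β = arccos (κ ^ 2) := by rw [hβ]; ring
  have e2 : 2 * β = π - arccos (κ ^ 2) := by rw [hβ]; ring
  have p1 : sin β * cos β = σ * γ / 2 := by
    have := sin_two_mul β
    rw [e2, sin_pi_sub, sn] at this; linarith only [this]
  have p2 : cos β ^ 2 = σ ^ 2 / 2 := by
    have := cos_two_mul β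
    rw [e2, cos_pi_sub, c] at this; linarith only [this, u]
  have p3 : sin β ^ 2 = γ ^ 2 / 2 := by linarith only [sin_sq_add_cos_sq β, p2, u, g2]
  have b0 : 0 < β := by linarith only [e2, a0, a1]
  have sp : 0 < sin β := sin_pos_of_pos_of_lt_pi b0 (by linarith only [e2, a0, b0])
  have kp : 0 < κ := by linarith only [k1.1]
  have gp : 0 < γ := by linarith only [g.1]
  refine ⟨β, b0, by linarith only [e2, a0], p1, p2, p3, by rw [e, c], by rw [e, sn], ?_, ?_⟩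
  · have : cos β / (κ / γ * sin β) = tan (π / 5) := by
      rw [tan_eq_sin_div_cos]
      show _ = σ / κ
      field_simp
      apply mul_left_cancel₀ sp.ne'
      linear_combination γ * p1 - σ * p3
    rw [this, arctan_tan (by linarith only [pi_pos]) (by linarith only [pi_pos])]
  · have : κ ^ 2 / (κ / γ * (σ * γ)) = tan (3 * π / 10) := by
      rw [show 3 * π / 10 = π / 2 - π / 5 by ring, tan_eq_sin_div_cos, sin_pi_div_two_sub, cos_pi_div_two_sub]
      show _ = κ / σ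
      have := σ_pos
      field_simp
    rw [this, arctan_tan (by linarith only [pi_pos]) (by linarith only [pi_pos])]

theorem exB {s c : ℝ} (p : 0 < s) (u : s ^ 2 + c ^ 2 = 1) (c0 : 0 ≤ c) :
    ∃ B, 0 ≤ B ∧ B ≤ π / 2 ∧ sin B = s ∧ cos B = c :=
  ⟨arccos c, arccos_nonneg c, arccos_le_pi_div_two.2 c0, by
    rw [sin_arccos, sqrt_eq_iff_mul_self_eq (by linarith only [u, sq_nonneg s]) p.le]; linarith,
    cos_arccos (by linarith) (by nlinarith)⟩

theorem lbt {a b t lo hi : ℝ} (h1 : lo ≤ a * 2 ^ 32) (h2 : a * 2 ^ 32 ≤ hi) (h3 : lo ≤ b * 2 ^ 32)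
    (h4 : b * 2 ^ 32 ≤ hi) (t0 : 0 ≤ t) (t1 : t ≤ 1) :
    lo ≤ (a + t * (b - a)) * 2 ^ 32 ∧ (a + t * (b - a)) * 2 ^ 32 ≤ hi := by
  constructor <;> linarith only [h1, t1, h3, t0, h2, h4, mul_nonneg_of_nonpos_of_nonpos (Mathlib.Tactic.Linarith.sub_nonpos_of_le h1) (Mathlib.Tactic.Linarith.sub_nonpos_of_le t1), mul_nonneg_of_nonpos_of_nonpos (Mathlib.Tactic.Linarith.sub_nonpos_of_le h3) (Mathlib.Tactic.Linarith.sub_nonpos_of_le t0), mul_nonneg_of_nonpos_of_nonpos (Mathlib.Tactic.Linarith.sub_nonpos_of_le h2) (Mathlib.Tactic.Linarith.sub_nonpos_of_le t1), mul_nonneg_of_nonpos_of_nonpos (Mathlib.Tactic.Linarith.sub_nonpos_of_le h4) (Mathlib.Tactic.Linarith.sub_nonpos_of_le t0)]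

theorem loc (H : Root (HG (wa + wb) (wb + wb))) {h s1 c1 s2 c2 : ℝ} (p1 : 0 < s1) (u1 : s1 ^ 2 + c1 ^ 2 = 1)
    (p2 : 0 < s2) (u2 : s2 ^ 2 + c2 ^ 2 = 1) {s3 c3 : ℝ} (e3 : s3 = s1 * c2 + c1 * s2)
    (f3 : c3 = s1 * s2 - c1 * c2) (nb : NBr h c1 c2 c3) :
    2 * (s1 * s2 * ((1 - h ^ 2) * s3)) - (wa + wb) * arctan (c1 / (h * s1)) - (wa + wb) * arctan (c2 / (h * s2)) -
      (wb + wb) * arctan (c3 / (h * s3)) ≤ c0 - (((1 - h ^ 2) * s1 ^ 2 - 1 / 2) ^ 2 +
        ((1 - h ^ 2) * s2 ^ 2 - 1 / 2) ^ 2 + ((1 - h ^ 2) * s3 ^ 2 - σ ^ 2) ^ 2) / 24576 := by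
  obtain ⟨β, b0, b1, q1, q2, q3, q4, q5, q6, q7⟩ := exβ
  obtain ⟨n1, n2, n3, n4, n5, n6, n7, n8⟩ := nb
  have hb := h_bd; have k := κ2_bd; have s := σ_bd; have g := γ_bd; have u := κσ; have g2 := γ2
  have kp : 0 < κ := by linarith only [κ_bd.1]
  have gp : 0 < γ := by linarith only [g.1]
  obtain ⟨B1, a1, a2, rfl, rfl⟩ := exB p1 u1 (by linarith only [n3])
  obtain ⟨B2, a3, a4, rfl, rfl⟩ := exB p2 u2 (by linarith only [n5])
  have e3' : sin (π - B1 - B2) = s3 := by rw [sub_sub, sin_pi_sub, sin_add, e3]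
  have f3' : cos (π - B1 - B2) = c3 := by rw [sub_sub, cos_pi_sub, cos_add, f3]; ring
  have cb : 0 < cos β := cos_pos_of_mem_Ioo ⟨by linarith only [b0, b1], b1⟩
  have cb1 : 1288490189 ≤ cos β * 2 ^ 32 := le_of_sq_le_sq (by rw [mul_pow]; linarith only [q2, u, k.2])
    (mul_pos cb (by norm_num)).le
  have cb2 : cos β * 2 ^ 32 ≤ 2276332667 := le_of_sq_le_sq (by rw [mul_pow]; linarith only [q2, u, k.1])
    (by norm_num)
  have pp := pi_pos
  set x := h - κ / γ with hx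
  set d := B1 - β with hd
  set e := B2 - β with he
  have I : ∀ t, 0 ≤ t → t ≤ 1 → NBr (κ / γ + t * x) (cos (β + t * d)) (cos (β + t * e))
      (cos (π - β - β + t * (-d - e))) ∧ 0 < sin (β + t * d) ∧ 0 < sin (β + t * e) ∧
      0 < sin (π - β - β + t * (-d - e)) := by
    intro t t0 t1
    have r1 := btw b0.le (by linarith only [b1, pp]) a1 (by linarith only [a2, pp]) t0 t1 cb1 cb2 n3 n4
      (by norm_num) (by norm_num)
    have r2 := btw b0.le (by linarith only [b1, pp]) a3 (by linarith only [a4, pp]) t0 t1 cb1 cb2 n5 n6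
      (by norm_num) (by norm_num)
    have r3 := btw (a := π - β - β) (b := π - B1 - B2) (lo := 2714419331) (hi := 2899102925)
      (by linarith only [b1]) (by linarith only [b0]) (by linarith only [a2, a4]) (by linarith only [a1, a3]) t0 t1
      (by rw [q4]; linarith only [k.1]) (by rw [q4]; linarith only [k.2])
      (by rw [f3']; exact n7) (by rw [f3']; exact n8) (by norm_num) (by norm_num)
    rw [show π - B1 - B2 - (π - β - β) = -d - e by rw [hd, he]; ring] at r3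
    have r0 := lbt (a := κ / γ) (by linarith only [hb.1]) (by linarith only [hb.2]) n1 n2 t0 t1
    exact ⟨⟨r0.1, r0.2, r1.1, r1.2.1, r2.1, r2.2.1, r3.1, r3.2.1⟩, r1.2.2, r2.2.2, r3.2.2⟩
  have T := taylor2 (K := (x ^ 2 + d ^ 2 + e ^ 2) / 1024)
    (fun t t0 t1 => ((gf_d (wa + wb) (κ / γ) x β d t (by linarith only [(I t t0 t1).1.1]) (I t t0 t1).2.1).fun_add
      (gf_d (wa + wb) (κ / γ) x β e t (by linarith only [(I t t0 t1).1.1]) (I t t0 t1).2.2.1)).fun_add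
      (gf_d (wb + wb) (κ / γ) x (π - β - β) (-d - e) t (by linarith only [(I t t0 t1).1.1]) (I t t0 t1).2.2.2))
    (fun t t0 t1 => ((g1_d (wa + wb) (κ / γ) x β d t (by linarith only [(I t t0 t1).1.1]) (I t t0 t1).2.1).fun_add
      (g1_d (wa + wb) (κ / γ) x β e t (by linarith only [(I t t0 t1).1.1]) (I t t0 t1).2.2.1)).fun_add
      (g1_d (wb + wb) (κ / γ) x (π - β - β) (-d - e) t (by linarith only [(I t t0 t1).1.1]) (I t t0 t1).2.2.2))
    (fun t t0 t1 => by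
      obtain ⟨nb, i1, i2, -⟩ := I t t0 t1
      have z := HC.of H (h := κ / γ + t * x) (by linarith only [nb.1]) (by linarith only [nb.2.1]) i1.le
        (sin_sq_add_cos_sq _) i2.le (sin_sq_add_cos_sq _)
      have r : π - β - β + t * (-d - e) = π - (β + t * d + (β + t * e)) := by ring
      have r1 : sin (π - β - β + t * (-d - e)) =
          sin (β + t * d) * cos (β + t * e) + cos (β + t * d) * sin (β + t * e) := by
        rw [r, sin_pi_sub, sin_add]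
      have r2 : cos (π - β - β + t * (-d - e)) =
          sin (β + t * d) * sin (β + t * e) - cos (β + t * d) * cos (β + t * e) := by
        rw [r, cos_pi_sub, cos_add]; ring
      rw [← r1, ← r2] at z
      linarith only [z nb x d e])
    (by
      simp only [zero_mul, add_zero, g1, mul_pow]
      rw [q1, q2, q3, q4, q5]
      have r1 : σ ^ 2 / 2 + (κ / γ) ^ 2 * (γ ^ 2 / 2) = 2⁻¹ := by field_simp; linarith only [u]
      have r2 : (κ ^ 2) ^ 2 + (κ / γ) ^ 2 * (σ * γ) ^ 2 = κ ^ 2 := by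
        field_simp; linear_combination u
      have r3 : 1 - (κ / γ) ^ 2 = (γ ^ 2)⁻¹ := by field_simp; linarith only [g2]
      have r4 : σ ^ 2 = 1 - κ ^ 2 := by linarith only [u]
      rw [r1, r2, r3, mul_pow, r4]
      unfold wa wb
      field_simp
      rw [g2]; ring)
  simp only [zero_mul, add_zero, one_mul, gf] at T
  rw [show κ / γ + x = h by rw [hx]; ring, show β + d = B1 by rw [hd]; ring, show β + e = B2 by rw [he]; ring,
    show π - β - β + (-d - e) = π - B1 - B2 by rw [hd, he]; ring, e3', f3', q1, q4, q5, q6, q7] at T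
  have r3 : (1 - (κ / γ) ^ 2) * γ ^ 2 = 1 := by field_simp; linarith only [g2]
  have w1 : 0 ≤ h := by linarith only [n1]
  have w2 : h ≤ 1 := by linarith only [n2]
  have w3 : 0 ≤ κ / γ := by linarith only [hb.1]
  have w4 : κ / γ ≤ 1 := by linarith only [hb.2]
  have y1 := ylip h (κ / γ) B1 β w1 w2 w3 w4
  have y2 := ylip h (κ / γ) B2 β w1 w2 w3 w4
  have y3 := ylip h (κ / γ) (π - B1 - B2) (π - β - β) w1 w2 w3 w4
  rw [q3, show (1 - (κ / γ) ^ 2) * (γ ^ 2 / 2) = 1 / 2 by linarith only [r3], ← hx] at y1 y2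
  rw [e3', q5, show (1 - (κ / γ) ^ 2) * (σ * γ) ^ 2 = σ ^ 2 by linear_combination σ ^ 2 * r3, ← hx,
    show π - B1 - B2 - (π - β - β) = -d - e by rw [hd, he]; ring] at y3
  have A : 2 * (sin B1 * sin B2 * ((1 - h ^ 2) * s3)) =
      (1 - h ^ 2) * (sin B1 * cos B1) + (1 - h ^ 2) * (sin B2 * cos B2) + (1 - h ^ 2) * (s3 * c3) := by
    rw [e3, f3]
    linear_combination (1 - h ^ 2) * (sin B1 * cos B1 * u2 + sin B2 * cos B2 * u1)
  have A0 : (1 - (κ / γ) ^ 2) * (σ * γ / 2) + (1 - (κ / γ) ^ 2) * (σ * γ / 2) +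
      (1 - (κ / γ) ^ 2) * (σ * γ * κ ^ 2) = σ * γ := by
    linear_combination σ * γ * r3 - (1 - (κ / γ) ^ 2) * σ * γ * g2
  unfold c0
  rw [← hd] at y1
  rw [← he] at y2
  have : (-d - e) ^ 2 = 2 * d ^ 2 + 2 * e ^ 2 - (d - e) ^ 2 := by ring
  linarith only [sq_nonneg (d - e), sq_nonneg x, T, y1, y2, y3, A, A0, this]

end Pool.Agent.Work.MP_c2ab8b_gt
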