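import Pool.Agent.Work.MP_c2ab8b_gt.Run0
import Pool.Agent.Work.MP_c2ab8b_gt.Run1
import Pool.Agent.Work.MP_c2ab8b_gt.Run2
import Pool.Agent.Work.MP_c2ab8b_gt.Run3
import Pool.Agent.Work.MP_c2ab8b_gt.Run4
import Pool.Agent.Work.MP_c2ab8b_gt.Run5
import Pool.Agent.Work.MP_c2ab8b_gt.Run6
import Pool.Agent.Work.MP_c2ab8b_gt.Run7
import Pool.Agent.Work.MP_c2ab8b_gt.Run8
import Pool.Agent.Work.MP_c2ab8b_gt.Run9
import Pool.Agent.Work.MP_c2ab8b_gt.Run10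
import Pool.Agent.Work.MP_c2ab8b_gt.Run11
import Pool.Agent.Work.MP_c2ab8b_gt.Local

/- The certificates cover the whole parameter box. -/

noncomputable section
namespace Pool.Agent.Work.MP_c2ab8b_gt

theorem ss0_cov : Root ss0.Good :=
  have w : ss0.wf = true := by decide +kernel
  (sp2 (sp3 (sp2 (cov_of w ss0_0) (sp3 (cov_of w ss0_1) (sp2 (cov_of w ss0_2) (sp1 (cov_of w ss0_3) (sp3 (sp3 (cov_of w ss0_4) (sp2 (sp2 (cov_of w ss0_5) (sp1 (sp3 (cov_of w ss0_6) (sp1 (cov_of w ss0_7) (cov_of w ss0_8))) (cov_of w ss0_9))) (sp3 (cov_of w ss0_10) (cov_of w ss0_11)))) (sp2 (sp3 (sp2 (sp3 (sp3 (sp1 (sp1 (cov_of w ss0_12) (cov_of w ss0_13)) (cov_of w ss0_14)) (cov_of w ss0_15)) (cov_of w ss0_16)) (cov_of w ss0_17)) (cov_of w ss0_18)) (cov_of w ss0_19))))))) (cov_of w ss0_20)) (sp3 (sp2 (sp1 (sp1 (cov_of w ss0_21) (sp2 (cov_of w ss0_22) (cov_of w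 ss0_23))) (sp3 (cov_of w ss0_24) (cov_of w ss0_25))) (cov_of w ss0_26)) (cov_of w ss0_27)))

theorem ss1_cov : Root ss1.Good :=
  have w : ss1.wf = true := by decide +kernel
  (sp2 (sp3 (sp2 (cov_of w ss1_0) (sp3 (cov_of w ss1_1) (sp2 (cov_of w ss1_2) (sp1 (cov_of w ss1_3) (sp3 (cov_of w ss1_4) (cov_of w ss1_5)))))) (cov_of w ss1_6)) (sp3 (sp2 (sp1 (sp1 (cov_of w ss1_7) (cov_of w ss1_8)) (cov_of w ss1_9)) (cov_of w ss1_10)) (cov_of w ss1_11)))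

theorem pp0_cov : Root pp0.Good :=
  have w : pp0.wf = true := by decide +kernel
  (sp2 (sp3 (sp2 (cov_of w pp0_0) (sp3 (cov_of w pp0_1) (sp2 (cov_of w pp0_2) (sp3 (sp1 (sp2 (cov_of w pp0_3) (cov_of w pp0_4)) (sp3 (cov_of w pp0_5) (sp2 (sp2 (cov_of w pp0_6) (cov_of w pp0_7)) (sp3 (sp2 (cov_of w pp0_8) (cov_of w pp0_9)) (cov_of w pp0_10))))) (sp1 (sp2 (cov_of w pp0_11) (sp1 (sp1 (cov_of w pp0_12) (cov_of w pp0_13)) (cov_of w pp0_14))) (sp3 (sp2 (cov_of w pp0_15) (cov_of w pp0_16)) (cov_of w pp0_17))))))) (cov_of w pp0_18)) (sp3 (sp2 (sp3 (sp2 (cov_of w pp0_19) (cov_of w pp0_20)) (sp2 (sp1 (sp1 (cov_of w pp0_21) (sp3 (sp3 (sp2 (cov_of w pp0_22) (cov_of w pp0_23)) (cov_of w pp0_24)) (cov_of w pp0_25))) (sp3 (sp2 (cov_of w pp0_26) (cov_of w pp0_27)) (cov_of w pp0_28))) (cov_of w pp0_29))) (cov_of w pp0_30)) (cov_of w pp0_31)))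

theorem pp1_cov : Root pp1.Good :=
  have w : pp1.wf = true := by decide +kernel
  (sp2 (sp3 (sp2 (cov_of w pp1_0) (sp3 (cov_of w pp1_1) (sp2 (cov_of w pp1_2) (sp3 (sp3 (cov_of w pp1_3) (sp2 (cov_of w pp1_4) (sp1 (cov_of w pp1_5) (cov_of w pp1_6)))) (sp1 (cov_of w pp1_7) (cov_of w pp1_8)))))) (sp2 (cov_of w pp1_9) (cov_of w pp1_10))) (sp3 (sp2 (sp3 (sp2 (cov_of w pp1_11) (cov_of w pp1_12)) (sp2 (sp1 (sp1 (cov_of w pp1_13) (sp3 (sp2 (cov_of w pp1_14) (cov_of w pp1_15)) (cov_of w pp1_16))) (cov_of w pp1_17)) (cov_of w pp1_18))) (cov_of w pp1_19)) (cov_of w pp1_20)))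

theorem ta0_cov : Root ta0.Good :=
  have w : ta0.wf = true := by decide +kernel
  (sp2 (sp3 (sp2 (cov_of w ta0_0) (sp3 (cov_of w ta0_1) (sp2 (cov_of w ta0_2) (sp3 (sp3 (cov_of w ta0_3) (cov_of w ta0_4)) (cov_of w ta0_5))))) (cov_of w ta0_6)) (sp3 (sp2 (sp3 (cov_of w ta0_7) (cov_of w ta0_8)) (cov_of w ta0_9)) (cov_of w ta0_10)))

theorem ta1_cov : Root ta1.Good :=
  have w : ta1.wf = true := by decide +kernel
  (sp2 (sp3 (sp2 (cov_of w ta1_0) (sp3 (cov_of w ta1_1) (sp2 (sp3 (cov_of w ta1_2) (sp2 (cov_of w ta1_3) (sp3 (sp1 (cov_of w ta1_4) (sp2 (cov_of w ta1_5) (cov_of w ta1_6))) (sp1 (cov_of w ta1_7) (cov_of w ta1_8))))) (sp3 (sp1 (cov_of w ta1_9) (cov_of w ta1_10)) (sp1 (sp1 (sp1 (cov_of w ta1_11) (cov_of w ta1_12)) (cov_of w ta1_13)) (cov_of w ta1_14)))))) (sp2 (sp3 (sp2 (cov_of w ta1_15) (sp1 (sp3 (cov_of w ta1_16) (cov_of w ta1_17))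 (cov_of w ta1_18))) (cov_of w ta1_19)) (sp3 (sp2 (sp1 (sp3 (sp1 (cov_of w ta1_20) (sp2 (cov_of w ta1_21) (cov_of w ta1_22))) (cov_of w ta1_23)) (sp3 (sp2 (cov_of w ta1_24) (cov_of w ta1_25)) (cov_of w ta1_26))) (cov_of w ta1_27)) (cov_of w ta1_28)))) (sp3 (sp2 (sp3 (cov_of w ta1_29) (sp2 (cov_of w ta1_30) (cov_of w ta1_31))) (cov_of w ta1_32)) (cov_of w ta1_33)))

theorem tb0_cov : Root tb0.Good :=
  have w : tb0.wf = true := by decide +kernel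
  (sp2 (sp3 (sp2 (cov_of w tb0_0) (sp3 (cov_of w tb0_1) (sp2 (cov_of w tb0_2) (sp3 (sp1 (cov_of w tb0_3) (cov_of w tb0_4)) (cov_of w tb0_5))))) (cov_of w tb0_6)) (sp3 (sp2 (sp3 (cov_of w tb0_7) (cov_of w tb0_8)) (cov_of w tb0_9)) (cov_of w tb0_10)))

theorem tc0_cov : Root tc0.Good :=
  have w : tc0.wf = true := by decide +kernel
  (sp2 (sp3 (sp2 (cov_of w tc0_0) (sp3 (cov_of w tc0_1) (sp2 (cov_of w tc0_2) (sp3 (sp1 (cov_of w tc0_3) (cov_of w tc0_4)) (sp1 (cov_of w tc0_5) (cov_of w tc0_6)))))) (cov_of w tc0_7)) (sp3 (sp2 (sp3 (cov_of w tc0_8) (sp2 (cov_of w tc0_9) (cov_of w tc0_10))) (cov_of w tc0_11)) (cov_of w tc0_12)))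

theorem tc1_cov : Root tc1.Good :=
  have w : tc1.wf = true := by decide +kernel
  (sp2 (sp3 (sp2 (cov_of w tc1_0) (sp3 (cov_of w tc1_1) (sp2 (sp3 (cov_of w tc1_2) (sp2 (cov_of w tc1_3) (sp3 (cov_of w tc1_4) (cov_of w tc1_5)))) (sp3 (sp3 (cov_of w tc1_6) (sp2 (cov_of w tc1_7) (cov_of w tc1_8))) (sp1 (cov_of w tc1_9) (cov_of w tc1_10)))))) (sp2 (cov_of w tc1_11) (cov_of w tc1_12))) (sp3 (sp2 (sp3 (cov_of w tc1_13) (sp2 (sp1 (cov_of w tc1_14) (cov_of w tc1_15)) (cov_of w tc1_16))) (cov_of w tc1_17)) (cov_of w tc1_18)))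

theorem td0_cov : Root td0.Good :=
  have w : td0.wf = true := by decide +kernel
  (sp2 (sp3 (sp2 (cov_of w td0_0) (sp3 (cov_of w td0_1) (sp2 (cov_of w td0_2) (sp3 (sp3 (cov_of w td0_3) (sp2 (cov_of w td0_4) (cov_of w td0_5))) (sp1 (sp2 (cov_of w td0_6) (cov_of w td0_7)) (cov_of w td0_8)))))) (cov_of w td0_9)) (sp3 (sp2 (sp3 (cov_of w td0_10) (sp2 (cov_of w td0_11) (cov_of w td0_12))) (cov_of w td0_13)) (cov_of w td0_14)))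

theorem td1_cov : Root td1.Good :=
  have w : td1.wf = true := by decide +kernel
  (sp2 (sp3 (sp2 (cov_of w td1_0) (sp3 (cov_of w td1_1) (sp2 (sp3 (cov_of w td1_2) (sp2 (cov_of w td1_3) (sp3 (sp1 (cov_of w td1_4) (cov_of w td1_5)) (sp1 (cov_of w td1_6) (cov_of w td1_7))))) (sp3 (sp3 (cov_of w td1_8) (sp1 (cov_of w td1_9) (cov_of w td1_10))) (sp1 (sp1 (sp1 (cov_of w td1_11) (sp3 (cov_of w td1_12) (cov_of w td1_13))) (cov_of w td1_14)) (cov_of w td1_15)))))) (sp2 (cov_of w td1_16) (sp3 (sp2 (sp1 (sp3 (sp1 (cov_of w td1_17) (cov_of w td1_18)) (cov_of w td1_19)) (cov_of w td1_20)) (cov_of w td1_21)) (cov_of w td1_22)))) (sp3 (sp2 (sp3 (cov_of w td1_23) (sp2 (cov_of w td1_24) (cov_of w td1_25))) (cov_of w td1_26)) (cov_of w td1_27)))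

theorem ja0_cov : Root ja0.Good :=
  have w : ja0.wf = true := by decide +kernel
  (sp2 (sp3 (sp2 (cov_of w ja0_0) (sp3 (cov_of w ja0_1) (sp2 (cov_of w ja0_2) (sp3 (sp3 (cov_of w ja0_3) (sp1 (cov_of w ja0_4) (cov_of w ja0_5))) (sp3 (cov_of w ja0_6) (cov_of w ja0_7)))))) (cov_of w ja0_8)) (sp3 (sp2 (sp3 (cov_of w ja0_9) (sp2 (sp1 (cov_of w ja0_10) (cov_of w ja0_11)) (cov_of w ja0_12))) (cov_of w ja0_13)) (cov_of w ja0_14)))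

theorem jb0_cov : Root jb0.Good :=
  have w : jb0.wf = true := by decide +kernel
  (sp2 (sp3 (sp2 (cov_of w jb0_0) (sp3 (cov_of w jb0_1) (sp2 (cov_of w jb0_2) (sp3 (sp3 (cov_of w jb0_3) (sp1 (cov_of w jb0_4) (cov_of w jb0_5))) (sp3 (cov_of w jb0_6) (cov_of w jb0_7)))))) (cov_of w jb0_8)) (sp3 (sp2 (sp3 (cov_of w jb0_9) (cov_of w jb0_10)) (cov_of w jb0_11)) (cov_of w jb0_12)))

theorem jb1_cov : Root jb1.Good :=
  have w : jb1.wf = true := by decide +kernel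
  (sp2 (sp3 (sp2 (cov_of w jb1_0) (sp3 (cov_of w jb1_1) (sp2 (sp3 (cov_of w jb1_2) (sp2 (cov_of w jb1_3) (sp1 (sp3 (cov_of w jb1_4) (cov_of w jb1_5)) (sp3 (cov_of w jb1_6) (cov_of w jb1_7))))) (sp3 (sp3 (cov_of w jb1_8) (sp1 (cov_of w jb1_9) (cov_of w jb1_10))) (sp1 (sp1 (sp1 (cov_of w jb1_11) (cov_of w jb1_12)) (cov_of w jb1_13)) (cov_of w jb1_14)))))) (sp2 (cov_of w jb1_15) (sp3 (sp2 (sp1 (sp1 (cov_of w jb1_16) (sp3 (sp2 (cov_of w jb1_17) (cov_of w jb1_18)) (cov_of w jb1_19))) (cov_of w jb1_20)) (cov_of w jb1_21)) (cov_of w jb1_22)))) (sp3 (sp2 (sp3 (cov_of w jb1_23) (cov_of w jb1_24)) (cov_of w jb1_25)) (cov_of w jb1_26)))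

theorem hh_cov {w1 w3 : ℝ} (h1 : |w1 * 2 ^ 32 - 3118746952| ≤ 1) (h3 : |w3 * 2 ^ 32 - 2701363359| ≤ 1) :
    Root (HG w1 w3) :=
  have b := fun {c a1 r1 a2 r2 a3 r3} h =>
    bb_s (fun _ _ _ _ _ _ e => hleaf_s h1 h3 e) 80 c a1 r1 a2 r2 a3 r3 h
  (b hh_0)


end Pool.Agent.Work.MP_c2ab8b_gt
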