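import Pool.Agent.Work.MP_c2ab8b_gt.Chart
import Pool.Agent.Work.MP_c2ab8b_gt.Cover

/- The face inequalities for three unit vectors. -/

noncomputable section
namespace Pool.Agent.Work.MP_c2ab8b_gt
open Real

def P.ψ (q : P) (y A : ℝ) : ℝ :=
  pc 0 (vl q.k2 / 2 ^ 32) (vl q.ny0 / 2 ^ 32) 0 (vl q.k3 / 2 ^ 32) (vl q.ny1 / 2 ^ 32) (vl q.na0 / 2 ^ 32) y A

theorem Pf_eq (q : P) (y A : ℝ) : q.f y A = q.ψ y A + vl q.nw / 2 ^ 32 * A + vl q.p / 2 ^ 32 * y := by
  unfold P.f P.ψ pc; ring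

theorem P.ψ_add (q : P) (hk : 4503599627370496 ≤ q.k2) (hl : 4503599627370496 ≤ q.k3) {y A A' : ℝ}
    (hy : y ≤ 1) (h : 0 ≤ A + A') : 0 ≤ q.ψ y A + q.ψ y A' := by
  have k : 0 ≤ vl q.k2 / 2 ^ 32 := div_nonneg (sub_nonneg.2 (by exact_mod_cast hk)) (by positivity)
  have l : 0 ≤ vl q.k3 / 2 ^ 32 := div_nonneg (sub_nonneg.2 (by exact_mod_cast hl)) (by positivity)
  unfold P.ψ pc
  generalize vl q.k2 / 2 ^ 32 = k2 at *
  generalize vl q.k3 / 2 ^ 32 = k3 at *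
  generalize vl q.na0 / 2 ^ 32 = b
  have m1 : max (b - A') 0 ≤ max (A + b) 0 := max_le_max_right _ (by linarith)
  have m2 : max (b - A) 0 ≤ max (A' + b) 0 := max_le_max_right _ (by linarith)
  have a1 := mul_nonneg (mul_nonneg k (sq_nonneg (max (y + vl q.ny0 / 2 ^ 32) 0))) h
  have a2 := mul_nonneg l (mul_nonneg (mul_nonneg (le_max_right (y + vl q.ny1 / 2 ^ 32) 0) (sub_nonneg.2 hy))
    (add_nonneg (sub_nonneg.2 m1) (sub_nonneg.2 m2)))
  linarith

variable {a b c : V}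

theorem Ps.cl {q : Q} (H : ∀ {h s1 c1 s2 c2 s3 c3}, Tg h s1 c1 s2 c2 s3 c3 → q.Cl h s1 c1 s2 c2 s3 c3)
    (h0 : vl q.h0 = 8589934592) (P : Ps a b c) :
    (yy a b * 2 ^ 32 ≤ vl q.p1.t → yy c a * 2 ^ 32 ≤ vl q.p2.t → yy b c * 2 ^ 32 ≤ vl q.p3.t →
      (ar a b c + q.p1.f (yy a b) (An a b c) + q.p2.f (yy c a) (An c a b) + q.p3.f (yy b c) (An b c a)) * 2 ^ 32 ≤
        vl q.cB) ∧
    (q.useL = true → vl q.p1.t ≤ yy a b * 2 ^ 32 ∨ vl q.p2.t ≤ yy c a * 2 ^ 32 ∨ vl q.p3.t ≤ yy b c * 2 ^ 32 →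
      (ar a b c + q.p1.f (yy a b) (An a b c) + q.p2.f (yy c a) (An c a b) + q.p3.f (yy b c) (An b c a)) * 2 ^ 32 ≤
        vl q.cA) := by
  obtain ⟨h, s1, c1, s2, c2, s3, c3, T, e1, e2, e3, e4, e5, e6, e7⟩ := P.chart
  have := H T
  unfold Q.Cl Q.F at this
  rw [e1, e2, e3, e4, e5, e6, e7] at this
  refine ⟨fun x y z => this.1 x y z fun nb => ?_, this.2⟩
  have := nb.1
  rw [h0] at this
  linarith [T.h1]

theorem vl_of {u : ℕ} {z : ℤ} (h : (u : ℤ) = z + 4503599627370496) : vl u = z := by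
  have : ((u : ℤ) : ℝ) = ((z + 4503599627370496 : ℤ) : ℝ) := by rw [h]
  unfold vl; push_cast at this; linarith

def e35 : ℝ → ℝ → ℝ := ta0.p1.ψ
theorem e35_add {y A A' : ℝ} (hy : y ≤ 1) (h : 0 ≤ A + A') : 0 ≤ e35 y A + e35 y A' :=
  ta0.p1.ψ_add (by decide) (by decide) hy h

def e55 : ℝ → ℝ → ℝ := ta0.p3.ψ
theorem e55_add {y A A' : ℝ} (hy : y ≤ 1) (h : 0 ≤ A + A') : 0 ≤ e55 y A + e55 y A' :=
  ta0.p3.ψ_add (by decide) (by decide) hy h

def e44 : ℝ → ℝ → ℝ := tb0.p1.ψ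
theorem e44_add {y A A' : ℝ} (hy : y ≤ 1) (h : 0 ≤ A + A') : 0 ≤ e44 y A + e44 y A' :=
  tb0.p1.ψ_add (by decide) (by decide) hy h

def e45 : ℝ → ℝ → ℝ := tc0.p1.ψ
theorem e45_add {y A A' : ℝ} (hy : y ≤ 1) (h : 0 ≤ A + A') : 0 ≤ e45 y A + e45 y A' :=
  tc0.p1.ψ_add (by decide) (by decide) hy h

def ej : ℝ → ℝ → ℝ := ja0.p1.ψ
theorem ej_add {y A A' : ℝ} (hy : y ≤ 1) (h : 0 ≤ A + A') : 0 ≤ ej y A + ej y A' :=
  ja0.p1.ψ_add (by decide) (by decide) hy h

def es : ℝ → ℝ → ℝ := ss0.p1.ψ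
theorem es_add {y A A' : ℝ} (hy : y ≤ 1) (h : 0 ≤ A + A') : 0 ≤ es y A + es y A' :=
  ss0.p1.ψ_add (by decide) (by decide) hy h

def ee : ℝ → ℝ → ℝ := ss0.p3.ψ
theorem ee_add {y A A' : ℝ} (hy : y ≤ 1) (h : 0 ≤ A + A') : 0 ≤ ee y A + ee y A' :=
  ss0.p3.ψ_add (by decide) (by decide) hy h

def ep : ℝ → ℝ → ℝ := pp0.p1.ψ
theorem ep_add {y A A' : ℝ} (hy : y ≤ 1) (h : 0 ≤ A + A') : 0 ≤ ep y A + ep y A' :=
  pp0.p1.ψ_add (by decide) (by decide) hy h

theorem f_ta (P : Ps a b c) : ar a b c +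
    (e35 (yy a b) (An a b c) - 2959700619 / 2 ^ 32 * An a b c) +
    (e35 (yy c a) (An c a b) - 2959700619 / 2 ^ 32 * An c a b) +
    (e55 (yy b c) (An b c a) - 3102031540 / 2 ^ 32 * An b c a + 30782031 / 2 ^ 32 * yy b c) ≤ -3294205556 / 2 ^ 32 := by
  have w0 : vl ta0.p1.nw = (-2959700619 : ℤ) := vl_of (by decide)
  have p0 : vl ta0.p1.p = (0 : ℤ) := vl_of (by decide)
  have t0 : vl ta0.p1.t = (8589934592 : ℤ) := vl_of (by decide)
  have e0 : ta0.p1.ψ = e35 := rfl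
  have w1 : vl ta0.p2.nw = (-2959700619 : ℤ) := vl_of (by decide)
  have p1 : vl ta0.p2.p = (0 : ℤ) := vl_of (by decide)
  have t1 : vl ta0.p2.t = (8589934592 : ℤ) := vl_of (by decide)
  have e1 : ta0.p2.ψ = e35 := rfl
  have w2 : vl ta0.p3.nw = (-3102031540 : ℤ) := vl_of (by decide)
  have p2 : vl ta0.p3.p = (30782031 : ℤ) := vl_of (by decide)
  have t2 : vl ta0.p3.t = (8589934592 : ℤ) := vl_of (by decide)
  have e2 : ta0.p3.ψ = e55 := rfl
  have cB : vl ta0.cB = (-3294205556 : ℤ) := vl_of (by decide)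
  have := (P.cl (Tg.sym ta0_cov ta1_cov rfl) (by rw [vl_of (z := 8589934592) (by decide)]; norm_num)).1
  simp only [Pf_eq, w0, w1, w2, p0, p1, p2, t0, t1, t2, e0, e1, e2, cB] at this
  push_cast at this
  linarith [this (by linarith [(yy_bd P.ua P.ub).2]) (by linarith [(yy_bd P.uc P.ua).2])
    (by linarith [(yy_bd P.ub P.uc).2])]

theorem f_tb (P : Ps a b c) : ar a b c +
    (e44 (yy a b) (An a b c) - 2633579456 / 2 ^ 32 * An a b c - 250478198 / 2 ^ 32 * yy a b) +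
    (e44 (yy c a) (An c a b) - 2633579456 / 2 ^ 32 * An c a b - 250478198 / 2 ^ 32 * yy c a) +
    (e44 (yy b c) (An b c a) - 2633579456 / 2 ^ 32 * An b c a - 250478198 / 2 ^ 32 * yy b c) ≤ -2827510115 / 2 ^ 32 := by
  have w0 : vl tb0.p1.nw = (-2633579456 : ℤ) := vl_of (by decide)
  have p0 : vl tb0.p1.p = (-250478198 : ℤ) := vl_of (by decide)
  have t0 : vl tb0.p1.t = (8589934592 : ℤ) := vl_of (by decide)
  have e0 : tb0.p1.ψ = e44 := rfl
  have w1 : vl tb0.p2.nw = (-2633579456 : ℤ) := vl_of (by decide)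
  have p1 : vl tb0.p2.p = (-250478198 : ℤ) := vl_of (by decide)
  have t1 : vl tb0.p2.t = (8589934592 : ℤ) := vl_of (by decide)
  have e1 : tb0.p2.ψ = e44 := rfl
  have w2 : vl tb0.p3.nw = (-2633579456 : ℤ) := vl_of (by decide)
  have p2 : vl tb0.p3.p = (-250478198 : ℤ) := vl_of (by decide)
  have t2 : vl tb0.p3.t = (8589934592 : ℤ) := vl_of (by decide)
  have e2 : tb0.p3.ψ = e44 := rfl
  have cB : vl tb0.cB = (-2827510115 : ℤ) := vl_of (by decide)
  have := (P.cl (Tg.sym3 tb0_cov rfl rfl) (by rw [vl_of (z := 8589934592) (by decide)]; norm_num)).1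
  simp only [Pf_eq, w0, w1, w2, p0, p1, p2, t0, t1, t2, e0, e1, e2, cB] at this
  push_cast at this
  linarith [this (by linarith [(yy_bd P.ua P.ub).2]) (by linarith [(yy_bd P.uc P.ua).2])
    (by linarith [(yy_bd P.ub P.uc).2])]

theorem f_tc (P : Ps a b c) : ar a b c +
    (e45 (yy a b) (An a b c) - 2867805498 / 2 ^ 32 * An a b c - 298087910 / 2 ^ 32 * yy a b) +
    (e45 (yy c a) (An c a b) - 2867805498 / 2 ^ 32 * An c a b - 298087910 / 2 ^ 32 * yy c a) +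
    (e44 (yy b c) (An b c a) - 2633579456 / 2 ^ 32 * An b c a + 250478198 / 2 ^ 32 * yy b c) ≤ -2991320168 / 2 ^ 32 := by
  have w0 : vl tc0.p1.nw = (-2867805498 : ℤ) := vl_of (by decide)
  have p0 : vl tc0.p1.p = (-298087910 : ℤ) := vl_of (by decide)
  have t0 : vl tc0.p1.t = (8589934592 : ℤ) := vl_of (by decide)
  have e0 : tc0.p1.ψ = e45 := rfl
  have w1 : vl tc0.p2.nw = (-2867805498 : ℤ) := vl_of (by decide)
  have p1 : vl tc0.p2.p = (-298087910 : ℤ) := vl_of (by decide)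
  have t1 : vl tc0.p2.t = (8589934592 : ℤ) := vl_of (by decide)
  have e1 : tc0.p2.ψ = e45 := rfl
  have w2 : vl tc0.p3.nw = (-2633579456 : ℤ) := vl_of (by decide)
  have p2 : vl tc0.p3.p = (250478198 : ℤ) := vl_of (by decide)
  have t2 : vl tc0.p3.t = (8589934592 : ℤ) := vl_of (by decide)
  have e2 : tc0.p3.ψ = e44 := rfl
  have cB : vl tc0.cB = (-2991320168 : ℤ) := vl_of (by decide)
  have := (P.cl (Tg.sym tc0_cov tc1_cov rfl) (by rw [vl_of (z := 8589934592) (by decide)]; norm_num)).1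
  simp only [Pf_eq, w0, w1, w2, p0, p1, p2, t0, t1, t2, e0, e1, e2, cB] at this
  push_cast at this
  linarith [this (by linarith [(yy_bd P.ua P.ub).2]) (by linarith [(yy_bd P.uc P.ua).2])
    (by linarith [(yy_bd P.ub P.uc).2])]

theorem f_td (P : Ps a b c) : ar a b c +
    (e45 (yy a b) (An a b c) - 2867805498 / 2 ^ 32 * An a b c + 298087910 / 2 ^ 32 * yy a b) +
    (e45 (yy c a) (An c a b) - 2867805498 / 2 ^ 32 * An c a b + 298087910 / 2 ^ 32 * yy c a) +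
    (e55 (yy b c) (An b c a) - 3102031540 / 2 ^ 32 * An b c a - 30782031 / 2 ^ 32 * yy b c) ≤ -2917472500 / 2 ^ 32 := by
  have w0 : vl td0.p1.nw = (-2867805498 : ℤ) := vl_of (by decide)
  have p0 : vl td0.p1.p = (298087910 : ℤ) := vl_of (by decide)
  have t0 : vl td0.p1.t = (8589934592 : ℤ) := vl_of (by decide)
  have e0 : td0.p1.ψ = e45 := rfl
  have w1 : vl td0.p2.nw = (-2867805498 : ℤ) := vl_of (by decide)
  have p1 : vl td0.p2.p = (298087910 : ℤ) := vl_of (by decide)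
  have t1 : vl td0.p2.t = (8589934592 : ℤ) := vl_of (by decide)
  have e1 : td0.p2.ψ = e45 := rfl
  have w2 : vl td0.p3.nw = (-3102031540 : ℤ) := vl_of (by decide)
  have p2 : vl td0.p3.p = (-30782031 : ℤ) := vl_of (by decide)
  have t2 : vl td0.p3.t = (8589934592 : ℤ) := vl_of (by decide)
  have e2 : td0.p3.ψ = e55 := rfl
  have cB : vl td0.cB = (-2917472500 : ℤ) := vl_of (by decide)
  have := (P.cl (Tg.sym td0_cov td1_cov rfl) (by rw [vl_of (z := 8589934592) (by decide)]; norm_num)).1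
  simp only [Pf_eq, w0, w1, w2, p0, p1, p2, t0, t1, t2, e0, e1, e2, cB] at this
  push_cast at this
  linarith [this (by linarith [(yy_bd P.ua P.ub).2]) (by linarith [(yy_bd P.uc P.ua).2])
    (by linarith [(yy_bd P.ub P.uc).2])]

theorem f_ja (P : Ps a b c) : ar a b c +
    (ej (yy a b) (An a b c) - 2880497126 / 2 ^ 32 * An a b c) +
    (ej (yy c a) (An c a b) - 2880497126 / 2 ^ 32 * An c a b) +
    (ej (yy b c) (An b c a) - 2880497126 / 2 ^ 32 * An b c a) ≤ -3034025027 / 2 ^ 32 := by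
  have w0 : vl ja0.p1.nw = (-2880497126 : ℤ) := vl_of (by decide)
  have p0 : vl ja0.p1.p = (0 : ℤ) := vl_of (by decide)
  have t0 : vl ja0.p1.t = (8589934592 : ℤ) := vl_of (by decide)
  have e0 : ja0.p1.ψ = ej := rfl
  have w1 : vl ja0.p2.nw = (-2880497126 : ℤ) := vl_of (by decide)
  have p1 : vl ja0.p2.p = (0 : ℤ) := vl_of (by decide)
  have t1 : vl ja0.p2.t = (8589934592 : ℤ) := vl_of (by decide)
  have e1 : ja0.p2.ψ = ej := rfl
  have w2 : vl ja0.p3.nw = (-2880497126 : ℤ) := vl_of (by decide)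
  have p2 : vl ja0.p3.p = (0 : ℤ) := vl_of (by decide)
  have t2 : vl ja0.p3.t = (8589934592 : ℤ) := vl_of (by decide)
  have e2 : ja0.p3.ψ = ej := rfl
  have cB : vl ja0.cB = (-3034025027 : ℤ) := vl_of (by decide)
  have := (P.cl (Tg.sym3 ja0_cov rfl rfl) (by rw [vl_of (z := 8589934592) (by decide)]; norm_num)).1
  simp only [Pf_eq, w0, w1, w2, p0, p1, p2, t0, t1, t2, e0, e1, e2, cB] at this
  push_cast at this
  linarith [this (by linarith [(yy_bd P.ua P.ub).2]) (by linarith [(yy_bd P.uc P.ua).2])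
    (by linarith [(yy_bd P.ub P.uc).2])]

theorem f_jb (P : Ps a b c) : ar a b c +
    (ej (yy a b) (An a b c) - 2709969745 / 2 ^ 32 * An a b c) +
    (ej (yy c a) (An c a b) - 2709969745 / 2 ^ 32 * An c a b) +
    (ej (yy b c) (An b c a) - 2880497126 / 2 ^ 32 * An b c a) ≤ -2765830090 / 2 ^ 32 := by
  have w0 : vl jb0.p1.nw = (-2709969745 : ℤ) := vl_of (by decide)
  have p0 : vl jb0.p1.p = (0 : ℤ) := vl_of (by decide)
  have t0 : vl jb0.p1.t = (8589934592 : ℤ) := vl_of (by decide)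
  have e0 : jb0.p1.ψ = ej := rfl
  have w1 : vl jb0.p2.nw = (-2709969745 : ℤ) := vl_of (by decide)
  have p1 : vl jb0.p2.p = (0 : ℤ) := vl_of (by decide)
  have t1 : vl jb0.p2.t = (8589934592 : ℤ) := vl_of (by decide)
  have e1 : jb0.p2.ψ = ej := rfl
  have w2 : vl jb0.p3.nw = (-2880497126 : ℤ) := vl_of (by decide)
  have p2 : vl jb0.p3.p = (0 : ℤ) := vl_of (by decide)
  have t2 : vl jb0.p3.t = (8589934592 : ℤ) := vl_of (by decide)
  have e2 : jb0.p3.ψ = ej := rfl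
  have cB : vl jb0.cB = (-2765830090 : ℤ) := vl_of (by decide)
  have := (P.cl (Tg.sym jb0_cov jb1_cov rfl) (by rw [vl_of (z := 8589934592) (by decide)]; norm_num)).1
  simp only [Pf_eq, w0, w1, w2, p0, p1, p2, t0, t1, t2, e0, e1, e2, cB] at this
  push_cast at this
  linarith [this (by linarith [(yy_bd P.ua P.ub).2]) (by linarith [(yy_bd P.uc P.ua).2])
    (by linarith [(yy_bd P.ub P.uc).2])]

theorem f_pp (P : Ps a b c) : ar a b c +
    (ep (yy a b) (An a b c) - 2949616400 / 2 ^ 32 * An a b c) +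
    (ep (yy c a) (An c a b) - 2949616400 / 2 ^ 32 * An c a b) +
    (ee (yy b c) (An b c a) - 2701363359 / 2 ^ 32 * An b c a) ≤ -2992488399 / 2 ^ 32 ∧
    (2748779069 ≤ yy a b * 2 ^ 32 ∨ 2748779069 ≤ yy c a * 2 ^ 32 → ar a b c +
    (ep (yy a b) (An a b c) - 2949616400 / 2 ^ 32 * An a b c) +
    (ep (yy c a) (An c a b) - 2949616400 / 2 ^ 32 * An c a b) +
    (ee (yy b c) (An b c a) - 2701363359 / 2 ^ 32 * An b c a) ≤ -3024842387 / 2 ^ 32) := by
  have w0 : vl pp0.p1.nw = (-2949616400 : ℤ) := vl_of (by decide)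
  have p0 : vl pp0.p1.p = (0 : ℤ) := vl_of (by decide)
  have t0 : vl pp0.p1.t = (2748779069 : ℤ) := vl_of (by decide)
  have e0 : pp0.p1.ψ = ep := rfl
  have w1 : vl pp0.p2.nw = (-2949616400 : ℤ) := vl_of (by decide)
  have p1 : vl pp0.p2.p = (0 : ℤ) := vl_of (by decide)
  have t1 : vl pp0.p2.t = (2748779069 : ℤ) := vl_of (by decide)
  have e1 : pp0.p2.ψ = ep := rfl
  have w2 : vl pp0.p3.nw = (-2701363359 : ℤ) := vl_of (by decide)
  have p2 : vl pp0.p3.p = (0 : ℤ) := vl_of (by decide)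
  have t2 : vl pp0.p3.t = (8589934592 : ℤ) := vl_of (by decide)
  have e2 : pp0.p3.ψ = ee := rfl
  have cB : vl pp0.cB = (-2992488399 : ℤ) := vl_of (by decide)
  have cA : vl pp0.cA = (-3024842387 : ℤ) := vl_of (by decide)
  have := P.cl (Tg.sym pp0_cov pp1_cov rfl) (by rw [vl_of (z := 8589934592) (by decide)]; norm_num)
  simp only [Pf_eq, w0, w1, w2, p0, p1, p2, t0, t1, t2, e0, e1, e2, cB, cA] at this
  push_cast at this
  refine ⟨?_, fun x => by linarith [this.2 rfl (by tauto)]⟩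
  rcases le_total (yy a b * 2 ^ 32) 2748779069 with x | x
  · rcases le_total (yy c a * 2 ^ 32) 2748779069 with y | y
    · linarith [this.1 x y (by linarith [(yy_bd P.ub P.uc).2])]
    · linarith [this.2 rfl (by tauto)]
  · linarith [this.2 rfl (by tauto)]

theorem An_bd (a b c : V) : -2 ≤ An a b c ∧ An a b c ≤ 2 := by
  unfold An
  constructor <;> linarith [arctan_lt_pi_div_two (Tt a b c / dv a b c), pi_le_four,
    neg_pi_div_two_lt_arctan (Tt a b c / dv a b c)]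

theorem wA {w r A : ℝ} (h1 : -1 ≤ w * 2 ^ 32 - r) (h2 : w * 2 ^ 32 - r ≤ 1) (h : -2 ≤ A ∧ A ≤ 2) :
    r / 2 ^ 32 * A ≤ w * A + 2 / 2 ^ 32 := by
  nlinarith [h.1, h.2]

theorem y_nb (h : ℝ) {s c : ℝ} (u : s ^ 2 + c ^ 2 = 1) (n : 2714419331 ≤ c * 2 ^ 32) :
    (1 - h ^ 2) * s ^ 2 ≤ 0.65 := by
  have : s ^ 2 ≤ 0.65 := by nlinarith
  nlinarith [sq_nonneg h, sq_nonneg s]

theorem atan_nb {h s c : ℝ} (h1 : 2658584756 ≤ h * 2 ^ 32) (p : 0 < s) (u : s ^ 2 + c ^ 2 = 1)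
    (c0 : 1288490189 ≤ c * 2 ^ 32) (c1 : c * 2 ^ 32 ≤ 2276332667) :
    0 ≤ arctan (c / (h * s)) ∧ arctan (c / (h * s)) ≤ 0.91 := by
  have h0 : 0 < h := by linarith
  have s1 : 0.8479 ≤ s := le_of_sq_le_sq (by nlinarith) p.le
  refine ⟨arctan_nonneg.2 (div_nonneg (by linarith) (by positivity)), ?_⟩
  have : c / (h * s) ≤ (100 / 101)⁻¹ := by rw [div_le_iff₀ (by positivity)]; nlinarith
  have := arctan_le_arctan_iff.2 this
  rw [arctan_inv_of_pos (by norm_num)] at this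
  have b := abs_le.1 (atan1 (100 / 101))
  rw [abs_of_pos (by norm_num)] at b
  linarith [b.1, pi_lt_d2]

theorem f_ss (P : Ps a b c) (y1 : yy a b * 2 ^ 32 ≤ 2748779069) (y2 : yy c a * 2 ^ 32 ≤ 2748779069) :
    ar a b c + (es (yy a b) (An a b c) - (wa + wb) * An a b c) + (es (yy c a) (An c a b) - (wa + wb) * An c a b) +
    (ee (yy b c) (An b c a) - (wb + wb) * An b c a) ≤
    c0 - ((yy a b - 1 / 2) ^ 2 + (yy c a - 1 / 2) ^ 2 + (yy b c - σ ^ 2) ^ 2) / 10 ^ 7 := by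
  have w0 : vl ss0.p1.nw = (-3118746952 : ℤ) := vl_of (by decide)
  have p0 : vl ss0.p1.p = (0 : ℤ) := vl_of (by decide)
  have t0 : vl ss0.p1.t = (2748779069 : ℤ) := vl_of (by decide)
  have e0 : ss0.p1.ψ = es := rfl
  have w1 : vl ss0.p2.nw = (-3118746952 : ℤ) := vl_of (by decide)
  have p1 : vl ss0.p2.p = (0 : ℤ) := vl_of (by decide)
  have t1 : vl ss0.p2.t = (2748779069 : ℤ) := vl_of (by decide)
  have e1 : ss0.p2.ψ = es := rfl
  have w2 : vl ss0.p3.nw = (-2701363359 : ℤ) := vl_of (by decide)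
  have p2 : vl ss0.p3.p = (0 : ℤ) := vl_of (by decide)
  have t2 : vl ss0.p3.t = (8589934592 : ℤ) := vl_of (by decide)
  have e2 : ss0.p3.ψ = ee := rfl
  have cB : vl ss0.cB = (-3217886603 : ℤ) := vl_of (by decide)
  have wa1 := wa_bd; have wb1 := wb_bd
  obtain ⟨h, s1, c1, s2, c2, s3, c3, T, f1, f2, f3, f4, f5, f6, f7⟩ := P.chart
  by_cases nb : NBr h c1 c2 c3
  · have L := loc (hh_cov (by rw [abs_le]; constructor <;> linarith) (by rw [abs_le]; constructor <;> linarith))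
      T.p1 T.u1 T.p2 T.u2 T.e3 T.f3 nb
    obtain ⟨n1, n2, n3, n4, n5, n6, n7, n8⟩ := nb
    have g1 := atan_nb n1 T.p1 T.u1 n3 n4
    have g2 := atan_nb n1 T.p2 T.u2 n5 n6
    have z : ∀ y A, 0 ≤ A ∧ A ≤ 0.91 → es y A = 0 := by
      intro y A g
      have k : vl ss0.p1.k2 = (0 : ℤ) := vl_of (by decide)
      have n : vl ss0.p1.na0 = (-3951369912 : ℤ) := vl_of (by decide)
      unfold es MP_c2ab8b_gt.P.ψ pc
      rw [k, n]
      push_cast
      rw [max_eq_right (a := A + _) (by linarith [g.2]), max_eq_right (a := _ - A) (by linarith [g.1])]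
      ring
    have z' : ∀ A, ee (yy b c) A = 0 := by
      intro A
      have k : vl ss0.p3.k3 = (0 : ℤ) := vl_of (by decide)
      have n : vl ss0.p3.ny0 = (-2834678415 : ℤ) := vl_of (by decide)
      have : yy b c ≤ 0.65 := f3 ▸ y_nb h T.u3 n7
      unfold ee MP_c2ab8b_gt.P.ψ pc
      rw [k, n]
      push_cast
      rw [max_eq_right (a := yy b c + _) (by linarith)]
      ring
    rw [f1, f2, f3, f4, f5, f6, f7] at L
    rw [f5] at g1
    rw [f6] at g2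
    rw [z _ _ g1, z _ _ g2, z']
    linarith [sq_nonneg (yy a b - 1 / 2), sq_nonneg (yy c a - 1 / 2), sq_nonneg (yy b c - σ ^ 2)]
  · have := (Tg.sym ss0_cov ss1_cov rfl T).1
    unfold Q.F at this
    rw [f1, f2, f3, f4, f5, f6, f7] at this
    simp only [Pf_eq, w0, w1, w2, p0, p1, p2, t0, t1, t2, e0, e1, e2, cB] at this
    push_cast at this
    have y3 := yy_bd P.ub P.uc
    have := this y1 y2 (by linarith) (fun x => nb (by
      unfold Q.NB at x
      rw [vl_of (z := 2658584756) (by decide), vl_of (z := 2770253906) (by decide),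
        vl_of (z := 1288490189) (by decide), vl_of (z := 2276332667) (by decide),
        vl_of (u := ss0.p2.nl) (z := 1288490189) (by decide), vl_of (u := ss0.p2.nh) (z := 2276332667) (by decide),
        vl_of (u := ss0.p3.nl) (z := 2714419331) (by decide),
        vl_of (u := ss0.p3.nh) (z := 2899102925) (by decide)] at x
      push_cast at x
      exact x))
    have a1 := wA (w := wa + wb) (r := 3118746952) (by linarith) (by linarith) (An_bd a b c)
    have a2 := wA (w := wa + wb) (r := 3118746952) (by linarith) (by linarith) (An_bd c a b)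
    have a3 := wA (w := wb + wb) (r := 2701363359) (by linarith) (by linarith) (An_bd b c a)
    have b1 : (yy a b - 1 / 2) ^ 2 ≤ 1 ^ 2 := by apply sq_le_sq' <;> linarith [yy_bd P.ua P.ub]
    have b2 : (yy c a - 1 / 2) ^ 2 ≤ 1 ^ 2 := by apply sq_le_sq' <;> linarith [yy_bd P.uc P.ua]
    have b3 : (yy b c - σ ^ 2) ^ 2 ≤ 1 ^ 2 := by
      apply sq_le_sq' <;> linarith [κσ, κ2_bd]
    linarith [c0_bd]

end Pool.Agent.Work.MP_c2ab8b_gt
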