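import Pool.Agent.Work.MP_c2ab8b_gt.Leafs

/- The second derivative test near the optimal face. -/

noncomputable section
namespace Pool.Agent.Work.MP_c2ab8b_gt
open Real

attribute [local irreducible] ad sb ng hf dot1 dot2 dotd ab vl

def hs (w : ℕ) (H R S C : E) (k : E → E → E → Bool) : Bool :=
  ext ⟨w, 4503599627370496, 4503599627370496, 4503599627370496, 1⟩ fun W =>
  mul S C fun sc => ext sc fun sc => sq S fun s2 => sq C fun c2 => mul H S fun X => ext X fun X =>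
  sq X fun x2 => add c2 x2 fun ρ => ext ρ fun ρ =>
  inv ρ (fun I => ext I fun I => sq I fun I => ext I fun I => mul W I fun wI => ext wI fun wI =>
    mul wI H fun wh => ext wh fun wh => ext s2 fun s2 => mul wh s2 fun t =>
    addc t 4503603922337792 0 fun t => ext t fun t => mul sc t fun P => ext P fun P =>
    sub c2 s2.l fun u => ext u fun u => mul H u fun a => add a a fun a => sub x2 c2 fun v => ext v fun v =>
    mul wI v fun b => add a b fun Q => ext Q fun Q => mul sc R fun r => ext r fun r =>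
    rsub 4503608217305088 wh fun z => mul r z fun Z => ext Z fun Z => k P Q Z) false

def hleaf (a1 r1 a2 r2 a3 r3 : ℕ) : Bool :=
  geo a1 r1 a2 r2 a3 r3 fun H S1 C1 S2 C2 S3 C3 _ =>
  (hiLt H 4503602285955252 || loGt H 4503602397624402 || hiLt C1 4503600915860685 ||
    loGt C1 4503601903703163 || hiLt C2 4503600915860685 || loGt C2 4503601903703163 ||
    hiLt C3 4503602341789827 || loGt C3 4503602526473421) ||
  sq H fun R => ext R fun R => rsub 4503603922337792 R fun R =>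
  hs 4503602746117448 H R S1 C1 fun P1 Q1 R1 => hs 4503602746117448 H R S2 C2 fun P2 Q2 R2 =>
  hs 4503602328733855 H R S3 C3 fun P3 Q3 R3 =>
  add R1.l R3.l fun a => addc a 4503599623176192 0 fun a => ext a fun a =>
  add R2.l R3.l fun d => addc d 4503599623176192 0 fun d => ext d fun d =>
  sub Q1.l Q3.l fun c => ext c fun c => sub Q2.l Q3.l fun e => ext e fun e =>
  add P1.l P2.l fun f => add f P3.l fun f => addc f 4503599623176192 0 fun f => ext f fun f =>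
  loGt a 4503599627370496 &&
  mul a d fun m => sq R3 fun b => sub m b fun m => ext m fun m => loGt m 4503599627370496 &&
  mul f m fun g => add g g fun g => add g g fun g =>
  sq c fun u => ext u fun u => mul d u fun u => sq e fun v => ext v fun v => mul a v fun v =>
  mul c e fun x => ext x fun x => mul R3 x fun x => add x x fun x => add g x fun g => add u v fun u =>
  sub g u fun D => ext D fun D => loGe D 4503599627370496

def Pf (w h s c : ℝ) : ℝ := s * c * (w * (c ^ 2 + (h * s) ^ 2)⁻¹ ^ 2 * h * s ^ 2 + 1)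
def Qf (w h s c : ℝ) : ℝ :=
  h * (c ^ 2 - s ^ 2) + h * (c ^ 2 - s ^ 2) + w * (c ^ 2 + (h * s) ^ 2)⁻¹ ^ 2 * ((h * s) ^ 2 - c ^ 2)
def Rf (w h s c : ℝ) : ℝ := s * c * (1 - h ^ 2) * (2 - w * (c ^ 2 + (h * s) ^ 2)⁻¹ ^ 2 * h)

/-- the neighbourhood of the optimal face -/
def NBr (h c1 c2 c3 : ℝ) : Prop :=
  2658584756 ≤ h * 2 ^ 32 ∧ h * 2 ^ 32 ≤ 2770253906 ∧ 1288490189 ≤ c1 * 2 ^ 32 ∧ c1 * 2 ^ 32 ≤ 2276332667 ∧
    1288490189 ≤ c2 * 2 ^ 32 ∧ c2 * 2 ^ 32 ≤ 2276332667 ∧ 2714419331 ≤ c3 * 2 ^ 32 ∧ c3 * 2 ^ 32 ≤ 2899102925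

def HC (w1 w3 h s1 c1 s2 c2 s3 c3 : ℝ) : Prop :=
  NBr h c1 c2 c3 → ∀ x d e : ℝ, (x ^ 2 + d ^ 2 + e ^ 2) / 1024 ≤
    (Pf w1 h s1 c1 * x ^ 2 + Qf w1 h s1 c1 * x * d + Rf w1 h s1 c1 * d ^ 2) +
    (Pf w1 h s2 c2 * x ^ 2 + Qf w1 h s2 c2 * x * e + Rf w1 h s2 c2 * e ^ 2) +
    (Pf w3 h s3 c3 * x ^ 2 + Qf w3 h s3 c3 * x * (-d - e) + Rf w3 h s3 c3 * (-d - e) ^ 2)

def HG (w1 w3 h t1 t2 : ℝ) : Prop :=
  HC w1 w3 h (sn t1) (cn t1) (sn t2) (cn t2) (sn t1 * cn t2 + cn t1 * sn t2) (sn t1 * sn t2 - cn t1 * cn t2)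

variable {ε : Ns}

theorem hs_s {w : ℕ} {H R S C : E} {k : E → E → E → Bool} {ω h s c i j l m : ℝ}
    (hw : |vl w| ≤ 1 * 2 ^ 44) (hω : |ω * 2 ^ 32 - vl w| ≤ 1) (hH : InE ε i H h) (hR : InE ε j R (1 - h ^ 2))
    (hS : InE ε l S s) (hC : InE ε m C c) (e : hs w H R S C k = true) :
    ∃ P Q Z, InE ε 1 P (Pf ω h s c) ∧ InE ε 3 Q (Qf ω h s c) ∧ InE ε 1 Z (Rf ω h s c) ∧ k P Q Z = true := by
  unfold hs at e
  obtain ⟨W, hW, e⟩ := ext_s (cst_s (r := 1) ε hw (by rw [Nat.cast_one]; exact hω)) e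
  obtain ⟨sc, hsc, e⟩ := mul_s hS hC e
  obtain ⟨sc, hsc, e⟩ := ext_s hsc e
  obtain ⟨s2, hs2, e⟩ := sq_s hS e
  obtain ⟨c2, hc2, e⟩ := sq_s hC e
  obtain ⟨X, hX, e⟩ := mul_s hH hS e
  obtain ⟨X, hX, e⟩ := ext_s hX e
  obtain ⟨x2, hx2, e⟩ := sq_s hX e
  obtain ⟨ρ, hρ, e⟩ := add_s hc2 hx2 (by norm_num) e
  obtain ⟨ρ, hρ, e⟩ := ext_s hρ e
  rcases inv_s hρ e with e | ⟨-, I, hI, e⟩
  · exact absurd e (by simp)
  obtain ⟨I, hI, e⟩ := ext_s hI e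
  obtain ⟨I, hI, e⟩ := sq_s hI e
  obtain ⟨I, hI, e⟩ := ext_s hI e
  obtain ⟨wI, hwI, e⟩ := mul_s hW hI e
  obtain ⟨wI, hwI, e⟩ := ext_s hwI e
  obtain ⟨wh, hwh, e⟩ := mul_s hwI hH e
  obtain ⟨wh, hwh, e⟩ := ext_s hwh e
  obtain ⟨s2, hs2, e⟩ := ext_s hs2 e
  obtain ⟨t, ht, e⟩ := mul_s hwh hs2 e
  obtain ⟨t, ht, e⟩ := addc_s (j := 1) (y := 1) ht (by rw [vl_one]; norm_num)
    (by rw [vl_one]; norm_num) (by norm_num) e
  obtain ⟨t, ht, e⟩ := ext_s ht e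
  obtain ⟨P, hP, e⟩ := mul_s hsc ht e
  obtain ⟨P, hP, e⟩ := ext_s hP e
  obtain ⟨u, hu, e⟩ := sub_s hc2 hs2.1 (by norm_num) e
  obtain ⟨u, hu, e⟩ := ext_s hu e
  obtain ⟨a, ha, e⟩ := mul_s hH hu e
  obtain ⟨a, ha, e⟩ := add_s ha ha (by norm_num) e
  obtain ⟨v, hv, e⟩ := sub_s hx2 hc2 (by norm_num) e
  obtain ⟨v, hv, e⟩ := ext_s hv e
  obtain ⟨b, hb, e⟩ := mul_s hwI hv e
  obtain ⟨Q, hQ, e⟩ := add_s ha hb (by norm_num) e
  obtain ⟨Q, hQ, e⟩ := ext_s hQ e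
  obtain ⟨r, hr, e⟩ := mul_s hsc hR e
  obtain ⟨r, hr, e⟩ := ext_s hr e
  have two : vl 4503608217305088 = 2 ^ 33 := by unfold vl; norm_num
  obtain ⟨z, hz, e⟩ := rsub_s hwh (by rw [two]; norm_num) (by norm_num) e
  obtain ⟨Z, hZ, e⟩ := mul_s hr hz e
  obtain ⟨Z, hZ, e⟩ := ext_s hZ e
  refine ⟨P, Q, Z, hP, ⟨hQ.1.mono (by norm_num), hQ.2⟩, hZ.congr ?_, e⟩
  rw [two]; unfold Rf; norm_num

theorem sylv {a b c d e f : ℝ} (ha : 0 < a) (hm : 0 < a * d - b ^ 2)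
    (hD : 0 ≤ 4 * f * (a * d - b ^ 2) + 2 * b * (c * e) - (d * c ^ 2 + a * e ^ 2)) (x y z : ℝ) :
    0 ≤ a * x ^ 2 + 2 * b * x * y + d * y ^ 2 + c * x * z + e * y * z + f * z ^ 2 := by
  have : 4 * (a * (a * d - b ^ 2)) * (a * x ^ 2 + 2 * b * x * y + d * y ^ 2 + c * x * z + e * y * z + f * z ^ 2) =
      (a * d - b ^ 2) * (2 * a * x + 2 * b * y + c * z) ^ 2 + (2 * (a * d - b ^ 2) * y + (a * e - b * c) * z) ^ 2 +
      a * (4 * f * (a * d - b ^ 2) + 2 * b * (c * e) - (d * c ^ 2 + a * e ^ 2)) * z ^ 2 := by ring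
  exact nonneg_of_mul_nonneg_right (by rw [this]; positivity) (by positivity)

theorem hleaf_s {w1 w3 : ℝ} (h1 : |w1 * 2 ^ 32 - 3118746952| ≤ 1) (h3 : |w3 * 2 ^ 32 - 2701363359| ≤ 1)
    {a1 r1 a2 r2 a3 r3 : ℕ} (e : hleaf a1 r1 a2 r2 a3 r3 = true) : Cov (HG w1 w3) a1 r1 a2 r2 a3 r3 := by
  intro h t1 t2 b1 b2 b3 nb x y z
  unfold hleaf at e
  obtain ⟨ε, H, S1, C1, S2, C2, S3, C3, W, hH, hS1, hC1, hS2, hC2, hS3, hC3, -, e⟩ := geo_s b1 b2 b3 e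
  rw [Bool.or_eq_true] at e
  obtain ⟨n1, n2, n3, n4, n5, n6, n7, n8⟩ := nb
  rcases e with e | e
  · exfalso
    simp only [Bool.or_eq_true] at e
    rcases e with ((((((e | e) | e) | e) | e) | e) | e) | e
    · have := hiLt_s hH e; unfold vl at this; push_cast at this; linarith
    · have := loGt_s hH e; unfold vl at this; push_cast at this; linarith
    · have := hiLt_s hC1 e; unfold vl at this; push_cast at this; linarith
    · have := loGt_s hC1 e; unfold vl at this; push_cast at this; linarith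
    · have := hiLt_s hC2 e; unfold vl at this; push_cast at this; linarith
    · have := loGt_s hC2 e; unfold vl at this; push_cast at this; linarith
    · have := hiLt_s hC3 e; unfold vl at this; push_cast at this; linarith
    · have := loGt_s hC3 e; unfold vl at this; push_cast at this; linarith
  have v1 : vl 4503602746117448 = 3118746952 := by unfold vl; norm_num
  have v3 : vl 4503602328733855 = 2701363359 := by unfold vl; norm_num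
  have v4 : vl 4503599623176192 = -4194304 := by unfold vl; norm_num
  have ac : ∀ {X : L} {x i : ℝ} {k : L → Bool}, InL ε i X x → i ≤ 200 →
      addc X 4503599623176192 0 k = true → ∃ Z, InL ε (i + 1) Z (x + -(1 / 1024)) ∧ k Z = true :=
    fun hX hi e => addc_s hX (by rw [v4]; norm_num) (by rw [v4]; norm_num) (by linarith) e
  obtain ⟨R, hR, e⟩ := sq_s hH e
  obtain ⟨R, hR, e⟩ := ext_s hR e
  obtain ⟨R, hR, e⟩ := rsub1_s hR (by norm_num) e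
  obtain ⟨P1, Q1, R1, hP1, hQ1, hR1, e⟩ := hs_s (ω := w1) (by rw [v1]; norm_num) (by rw [v1]; exact h1)
    hH hR hS1 hC1 e
  obtain ⟨P2, Q2, R2, hP2, hQ2, hR2, e⟩ := hs_s (ω := w1) (by rw [v1]; norm_num) (by rw [v1]; exact h1)
    hH hR hS2 hC2 e
  obtain ⟨P3, Q3, R3, hP3, hQ3, hR3, e⟩ := hs_s (ω := w3) (by rw [v3]; norm_num) (by rw [v3]; exact h3)
    hH hR hS3 hC3 e
  obtain ⟨a, ha, e⟩ := add_s hR1.1 hR3.1 (by norm_num) e
  obtain ⟨a, ha, e⟩ := ac ha (by norm_num) e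
  obtain ⟨a, ha, e⟩ := ext_s ha e
  obtain ⟨d, hd, e⟩ := add_s hR2.1 hR3.1 (by norm_num) e
  obtain ⟨d, hd, e⟩ := ac hd (by norm_num) e
  obtain ⟨d, hd, e⟩ := ext_s hd e
  obtain ⟨c, hc, e⟩ := sub_s hQ1.1 hQ3.1 (by norm_num) e
  obtain ⟨c, hc, e⟩ := ext_s hc e
  obtain ⟨e', he, e⟩ := sub_s hQ2.1 hQ3.1 (by norm_num) e
  obtain ⟨e', he, e⟩ := ext_s he e
  obtain ⟨f, hf, e⟩ := add_s hP1.1 hP2.1 (by norm_num) e
  obtain ⟨f, hf, e⟩ := add_s hf hP3.1 (by norm_num) e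
  obtain ⟨f, hf, e⟩ := ac hf (by norm_num) e
  obtain ⟨f, hf, e⟩ := ext_s hf e
  rw [Bool.and_eq_true] at e
  have pa := loGt_s ha e.1
  obtain ⟨m, hm, e⟩ := mul_s ha hd e.2
  obtain ⟨b, hb, e⟩ := sq_s hR3 e
  obtain ⟨m, hm, e⟩ := sub_s hm hb (by norm_num) e
  obtain ⟨m, hm, e⟩ := ext_s hm e
  rw [Bool.and_eq_true] at e
  have pm := loGt_s hm e.1
  obtain ⟨g, hg, e⟩ := mul_s hf hm e.2
  obtain ⟨g, hg, e⟩ := add_s hg hg (by norm_num) e
  obtain ⟨g, hg, e⟩ := add_s hg hg (by norm_num) e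
  obtain ⟨u, hu, e⟩ := sq_s hc e
  obtain ⟨u, hu, e⟩ := ext_s hu e
  obtain ⟨u, hu, e⟩ := mul_s hd hu e
  obtain ⟨v, hv, e⟩ := sq_s he e
  obtain ⟨v, hv, e⟩ := ext_s hv e
  obtain ⟨v, hv, e⟩ := mul_s ha hv e
  obtain ⟨X, hX, e⟩ := mul_s hc he e
  obtain ⟨X, hX, e⟩ := ext_s hX e
  obtain ⟨X, hX, e⟩ := mul_s hR3 hX e
  obtain ⟨X, hX, e⟩ := add_s hX hX (by norm_num) e
  obtain ⟨g, hg, e⟩ := add_s hg hX (by norm_num) e
  obtain ⟨u, hu, e⟩ := add_s hu hv (by norm_num) e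
  obtain ⟨D, hD, e⟩ := sub_s hg hu (by norm_num) e
  obtain ⟨D, hD, e⟩ := ext_s hD e
  have pD := loGe_s hD e
  rw [vl_B] at pa pm pD
  generalize Pf w1 h (sn t1) (cn t1) = p1 at *
  generalize Pf w1 h (sn t2) (cn t2) = p2 at *
  generalize Qf w1 h (sn t1) (cn t1) = q1 at *
  generalize Qf w1 h (sn t2) (cn t2) = q2 at *
  generalize Rf w1 h (sn t1) (cn t1) = o1 at *
  generalize Rf w1 h (sn t2) (cn t2) = o2 at *
  generalize Pf w3 h _ _ = p3 at *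
  generalize Qf w3 h _ _ = q3 at *
  generalize Rf w3 h _ _ = o3 at *
  have := sylv (a := o1 + o3 + -(1 / 1024)) (b := o3) (c := q1 - q3) (d := o2 + o3 + -(1 / 1024))
    (e := q2 - q3) (f := p1 + p2 + p3 + -(1 / 1024)) (by linarith) (by linarith) (by linarith) y z x
  linarith

end Pool.Agent.Work.MP_c2ab8b_gt
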