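import Pool.Agent.Work.MP_c2ab8b_gt.Arg

/- The face function, its affine enclosure on a box, and the subdivision. -/

noncomputable section
namespace Pool.Agent.Work.MP_c2ab8b_gt
open Real

structure P where
  nw : ℕ
  wm : ℕ
  p : ℕ
  pm : ℕ
  k2 : ℕ
  k2m : ℕ
  ny0 : ℕ
  k3 : ℕ
  k3m : ℕ
  ny1 : ℕ
  na0 : ℕ
  pa0 : ℕ
  t : ℕ
  nl : ℕ
  nh : ℕ

def P.wf (q : P) : Bool :=
  Nat.ble (ab q.nw) q.wm && Nat.ble q.wm 34359738368 && Nat.ble (ab q.p) q.pm && Nat.ble q.pm 34359738368 &&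
  Nat.ble (ab q.k2) q.k2m && Nat.ble q.k2m 34359738368 && Nat.ble (ab q.k3) q.k3m &&
  Nat.ble q.k3m 34359738368 && Nat.ble (ab q.ny0) 34359738368 && Nat.ble (ab q.ny1) 34359738368 &&
  Nat.ble (ab q.na0) 34359738368 && Nat.beq (Nat.add q.pa0 q.na0) 9007199254740992

def pc (p k m u l n b y A : ℝ) : ℝ :=
  (k * max (y + m) 0 ^ 2 + u) * A + l * (max (y + n) 0 * (1 - y) * (max (A + b) 0 - max (b - A) 0)) + p * y

def P.f (q : P) (y A : ℝ) : ℝ :=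
  pc (vl q.p / 2 ^ 32) (vl q.k2 / 2 ^ 32) (vl q.ny0 / 2 ^ 32) (vl q.nw / 2 ^ 32) (vl q.k3 / 2 ^ 32)
    (vl q.ny1 / 2 ^ 32) (vl q.na0 / 2 ^ 32) y A

def st1 (q : P) (Y A : E) (F : L) (k : L → Bool) : Bool :=
  addE Y q.ny0 fun u => bif hiLe u 4503599627370496 then smul q.nw q.wm A.l fun T => add F T k else
    pos2 u fun u2 => smul q.k2 q.k2m u2 fun K => addc K q.nw 0 fun K => ext K fun K =>
      mul K A fun T => add F T k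

def st2 (q : P) (Y A : E) (F : L) (k : L → Bool) : Bool :=
  bif Nat.beq q.k3m 0 || (hiLe A q.pa0 && loGe A q.na0) then k F else
  addE Y q.ny1 fun v => bif hiLe v 4503599627370496 then k F else
    pos v fun v => ext v fun v => rsub 4503603922337792 Y fun z => mul v z fun W => ext W fun W =>
    addE A q.na0 fun a1 => pos a1 fun r1 => rsub q.na0 A fun a2 => pos a2 fun r2 =>
    sub r1 r2 fun R => ext R fun R => mul W R fun T => smul q.k3 q.k3m T fun T => add F T k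

def st3 (q : P) (Y : E) (F : L) (k : L → Bool) : Bool :=
  bif Nat.beq q.pm 0 then k F else smul q.p q.pm Y.l fun T => add F T k

def slot (q : P) (H S C Y : E) (F : L) (k : L → Bool) : Bool :=
  mul H S fun X => arg X C fun A => ext A fun A =>
    st1 q Y A F fun F => st2 q Y A F fun F => st3 q Y F k

def trig (T : E) (k : E → E → Bool) : Bool :=
  sq T fun D => addc D 4503603922337792 0 fun D => ext D fun D =>
  inv D (fun I => ext I fun I => add I.l I.l fun S => addc S 4503595332403200 0 fun S => ext S fun S =>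
    mul T I fun M => add M M fun M => sub zeroL M fun C => ext C fun C => k S C) false

/-- the six trigonometric forms and the product of the first two sines -/
def geo (a1 r1 a2 r2 a3 r3 : ℕ) (k : E → E → E → E → E → E → E → L → Bool) : Bool :=
  Nat.ble (Nat.add (Nat.add (Nat.add (ab (Nat.add a1 r1)) r1) (Nat.add (ab (Nat.add a2 r2)) r2))
    (Nat.add (ab (Nat.add a3 r3)) r3)) 17592186044416 &&
  mkL (Nat.add a1 r1) (Nat.add r1 4503599627370496) 4503599627370496 4503599627370496 0 fun H =>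
  mkL (Nat.add a2 r2) 4503599627370496 (Nat.add r2 4503599627370496) 4503599627370496 0 fun T1 =>
  mkL (Nat.add a3 r3) 4503599627370496 4503599627370496 (Nat.add r3 4503599627370496) 0 fun T2 =>
  ext H fun H => ext T1 fun T1 => ext T2 fun T2 => trig T1 fun S1 C1 => trig T2 fun S2 C2 =>
  mul S1 S2 fun W => mul S1 C2 fun U => mul C1 S2 fun V => add U V fun S3 => ext S3 fun S3 =>
  mul C1 C2 fun U => sub W U fun C3 => ext C3 fun C3 => k H S1 C1 S2 C2 S3 C3 W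

def hiLt (X : E) (t : ℕ) : Bool := hiLe X (Nat.pred t) && Nat.ble 1 t
def loGt (X : E) (t : ℕ) : Bool := loGe X (Nat.succ t)

structure Q where
  p1 : P
  p2 : P
  p3 : P
  sym : Bool
  useL : Bool
  cA : ℕ
  cB : ℕ
  cM : ℕ
  h0 : ℕ
  h1 : ℕ

def Q.wf (q : Q) : Bool := q.p1.wf && q.p2.wf && q.p3.wf && Nat.ble q.cM q.cA && Nat.ble q.cM q.cB

def body (q : Q) (H S1 C1 S2 C2 S3 C3 : E) (W : L) (R Y1 Y2 Y3 : E) (tg : ℕ) : Bool :=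
  mul R S3 fun U => ext U fun U => ext W fun W => mul W U fun F => add F F fun F =>
  slot q.p1 H S1 C1 Y1 F fun F => slot q.p2 H S2 C2 Y2 F fun F => slot q.p3 H S3 C3 Y3 F fun F =>
  ext F fun F => hiLe F tg

def ysq (R S : E) (k : E → Bool) : Bool := sq S fun U => ext U fun U => mul R U fun Y => ext Y k

def leaf (q : Q) (a1 r1 a2 r2 a3 r3 : ℕ) : Bool :=
  Nat.ble 9007199254740993 (Nat.add a2 a3) ||
  (q.sym && Nat.ble (Nat.succ (Nat.add a2 (Nat.mul 2 r2))) a3) ||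
  geo a1 r1 a2 r2 a3 r3 fun H S1 C1 S2 C2 S3 C3 W =>
  sub C1.l C3.l fun U => ext U fun U => loGt U 4503599627370496 ||
  sub C2.l C3.l fun U => ext U fun U => loGt U 4503599627370496 ||
  sq H fun R => ext R fun R => rsub 4503603922337792 R fun R =>
  ysq R S1 fun Y1 => ysq R S2 fun Y2 => ysq R S3 fun Y3 =>
  bif loGt Y1 q.p1.t || loGt Y2 q.p2.t || loGt Y3 q.p3.t ||
      (loGe H q.h0 && hiLe H q.h1 && loGe C1 q.p1.nl && hiLe C1 q.p1.nh && loGe C2 q.p2.nl &&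
        hiLe C2 q.p2.nh && loGe C3 q.p3.nl && hiLe C3 q.p3.nh) then
    (!q.useL || (hiLt Y1 q.p1.t && hiLt Y2 q.p2.t && hiLt Y3 q.p3.t)) ||
      body q H S1 C1 S2 C2 S3 C3 W R Y1 Y2 Y3 q.cA
  else bif !q.useL || (hiLt Y1 q.p1.t && hiLt Y2 q.p2.t && hiLt Y3 q.p3.t) then
    body q H S1 C1 S2 C2 S3 C3 W R Y1 Y2 Y3 q.cB
  else body q H S1 C1 S2 C2 S3 C3 W R Y1 Y2 Y3 q.cM

def bb (lf : ℕ → ℕ → ℕ → ℕ → ℕ → ℕ → Bool) (fuel : ℕ) : ℕ → ℕ → ℕ → ℕ → ℕ → ℕ → ℕ → Bool :=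
  Nat.rec (fun _ _ _ _ _ _ _ => false) (fun _ ih code a1 r1 a2 r2 a3 r3 =>
    fN (Nat.land code 3) fun d => bif Nat.beq d 0 then lf a1 r1 a2 r2 a3 r3 else
    fN (Nat.land (Nat.shiftRight code 2) 31) fun w =>
    fN (Nat.land (Nat.shiftRight code 7) (Nat.pred (Nat.shiftLeft 1 w))) fun n =>
    fN (Nat.shiftRight code (Nat.add 7 w)) fun e =>
    fN (Nat.land e (Nat.pred (Nat.shiftLeft 1 n))) fun x => fN (Nat.shiftRight e n) fun z =>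
    bif Nat.beq d 1 then fN (Nat.sub r1 (Nat.shiftRight r1 1)) fun s => fN (Nat.add a1 r1) fun b =>
      ih x a1 s a2 r2 a3 r3 && ih z b s a2 r2 a3 r3
    else bif Nat.beq d 2 then fN (Nat.sub r2 (Nat.shiftRight r2 1)) fun s => fN (Nat.add a2 r2) fun b =>
      ih x a1 r1 a2 s a3 r3 && ih z a1 r1 b s a3 r3
    else fN (Nat.sub r3 (Nat.shiftRight r3 1)) fun s => fN (Nat.add a3 r3) fun b =>
      ih x a1 r1 a2 r2 a3 s && ih z a1 r1 a2 r2 b s) fuel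

def Bx (a r : ℕ) (x : ℝ) : Prop := vl a ≤ x * 2 ^ 32 ∧ x * 2 ^ 32 ≤ vl a + 2 * r

def sn (t : ℝ) : ℝ := (t ^ 2 + 1)⁻¹ + (t ^ 2 + 1)⁻¹ + -1
def cn (t : ℝ) : ℝ := 0 - (t * (t ^ 2 + 1)⁻¹ + t * (t ^ 2 + 1)⁻¹)

def Q.F (q : Q) (h s1 c1 s2 c2 s3 c3 : ℝ) : ℝ :=
  2 * (s1 * s2 * ((1 - h ^ 2) * s3)) + q.p1.f ((1 - h ^ 2) * s1 ^ 2) (arctan (c1 / (h * s1))) +
    q.p2.f ((1 - h ^ 2) * s2 ^ 2) (arctan (c2 / (h * s2))) +
    q.p3.f ((1 - h ^ 2) * s3 ^ 2) (arctan (c3 / (h * s3)))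

def Q.NB (q : Q) (h c1 c2 c3 : ℝ) : Prop :=
  vl q.h0 ≤ h * 2 ^ 32 ∧ h * 2 ^ 32 ≤ vl q.h1 ∧ vl q.p1.nl ≤ c1 * 2 ^ 32 ∧ c1 * 2 ^ 32 ≤ vl q.p1.nh ∧
    vl q.p2.nl ≤ c2 * 2 ^ 32 ∧ c2 * 2 ^ 32 ≤ vl q.p2.nh ∧ vl q.p3.nl ≤ c3 * 2 ^ 32 ∧ c3 * 2 ^ 32 ≤ vl q.p3.nh

def Q.Cl (q : Q) (h s1 c1 s2 c2 s3 c3 : ℝ) : Prop :=
  ((1 - h ^ 2) * s1 ^ 2 * 2 ^ 32 ≤ vl q.p1.t → (1 - h ^ 2) * s2 ^ 2 * 2 ^ 32 ≤ vl q.p2.t →
    (1 - h ^ 2) * s3 ^ 2 * 2 ^ 32 ≤ vl q.p3.t → ¬ q.NB h c1 c2 c3 →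
      q.F h s1 c1 s2 c2 s3 c3 * 2 ^ 32 ≤ vl q.cB) ∧
  (q.useL = true → vl q.p1.t ≤ (1 - h ^ 2) * s1 ^ 2 * 2 ^ 32 ∨ vl q.p2.t ≤ (1 - h ^ 2) * s2 ^ 2 * 2 ^ 32 ∨
    vl q.p3.t ≤ (1 - h ^ 2) * s3 ^ 2 * 2 ^ 32 → q.F h s1 c1 s2 c2 s3 c3 * 2 ^ 32 ≤ vl q.cA)

def Q.Good (q : Q) (h t1 t2 : ℝ) : Prop :=
  0 < h → 0 < sn t1 → 0 < sn t2 → 0 < sn t1 * cn t2 + cn t1 * sn t2 → t1 + t2 ≤ 0 →
    (q.sym = true → t2 ≤ t1) → cn t1 ≤ sn t1 * sn t2 - cn t1 * cn t2 →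
    cn t2 ≤ sn t1 * sn t2 - cn t1 * cn t2 →
    q.Cl h (sn t1) (cn t1) (sn t2) (cn t2) (sn t1 * cn t2 + cn t1 * sn t2) (sn t1 * sn t2 - cn t1 * cn t2)

end Pool.Agent.Work.MP_c2ab8b_gt
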