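import Pool.Agent.Work.MP_c2ab8b_gt.Leaf

/- Soundness of the box test and of the subdivision. -/

noncomputable section
namespace Pool.Agent.Work.MP_c2ab8b_gt
open Real

attribute [local irreducible] ad sb ng hf dot1 dot2 dotd ab vl

variable {ε : Ns} {i : ℝ}

theorem ble_r {a b : ℕ} (h : Nat.ble a b = true) : (a : ℝ) ≤ b := Nat.cast_le.2 (Nat.le_of_ble_eq_true h)

theorem P.wf_s {q : P} (h : q.wf = true) :
    (|vl q.nw| ≤ q.wm ∧ (q.wm : ℝ) ≤ 2 ^ 35) ∧ (|vl q.p| ≤ q.pm ∧ (q.pm : ℝ) ≤ 2 ^ 35) ∧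
    (|vl q.k2| ≤ q.k2m ∧ (q.k2m : ℝ) ≤ 2 ^ 35) ∧ (|vl q.k3| ≤ q.k3m ∧ (q.k3m : ℝ) ≤ 2 ^ 35) ∧
    |vl q.ny0| ≤ 2 ^ 44 ∧ |vl q.ny1| ≤ 2 ^ 44 ∧ |vl q.na0| ≤ 2 ^ 44 ∧ vl q.pa0 = -vl q.na0 := by
  unfold P.wf at h
  simp only [Bool.and_eq_true] at h
  obtain ⟨⟨⟨⟨⟨⟨⟨⟨⟨⟨⟨h1, h2⟩, h3⟩, h4⟩, h5⟩, h6⟩, h7⟩, h8⟩, h9⟩, h10⟩, h11⟩, h12⟩ := h
  have g1 := ble_r h1; have g2 := ble_r h2; have g3 := ble_r h3; have g4 := ble_r h4
  have g5 := ble_r h5; have g6 := ble_r h6; have g7 := ble_r h7; have g8 := ble_r h8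
  have g9 := ble_r h9; have g10 := ble_r h10; have g11 := ble_r h11
  have g12 : ((Nat.add q.pa0 q.na0 : ℕ) : ℝ) = ((9007199254740992 : ℕ) : ℝ) := by
    rw [Nat.eq_of_beq_eq_true h12]
  rw [cast_ab] at g1 g3 g5 g7 g9 g10 g11
  rw [Nat.add_eq] at g12
  push_cast at g2 g4 g6 g8 g9 g10 g11 g12
  refine ⟨⟨g1, by linarith⟩, ⟨g3, by linarith⟩, ⟨g5, by linarith⟩, ⟨g7, by linarith⟩, by linarith,
    by linarith, by linarith, ?_⟩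
  unfold vl; linarith

theorem vl_one : vl 4503603922337792 = 2 ^ 32 := by unfold vl; norm_num
theorem vl_mone : vl 4503595332403200 = -2 ^ 32 := by unfold vl; norm_num

theorem rsub1_s {X : E} {x : ℝ} {k : E → Bool} (hx : InE ε i X x) (hi : i ≤ 255)
    (h : rsub 4503603922337792 X k = true) : ∃ Z, InE ε (i + 1) Z (1 - x) ∧ k Z = true := by
  obtain ⟨Z, hZ, h⟩ := rsub_s hx (by rw [vl_one]; norm_num) hi h
  exact ⟨Z, hZ.congr (by rw [vl_one]; norm_num), h⟩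

theorem nonpos_of {x : ℝ} (h : x * 2 ^ 32 ≤ vl 4503599627370496) : x ≤ 0 := by
  rw [vl_B] at h; nlinarith

theorem st1_s {q : P} {Y A : E} {F : L} {k : L → Bool} {y a f : ℝ} (hq : q.wf = true)
    (hY : InE ε 1 Y y) (hA : InE ε 2 A a) (hF : InL ε i F f) (hi : i ≤ 200) (h : st1 q Y A F k = true) :
    ∃ Z, InL ε (i + 18) Z (f + (vl q.k2 / 2 ^ 32 * max (y + vl q.ny0 / 2 ^ 32) 0 ^ 2 + vl q.nw / 2 ^ 32) * a) ∧
      k Z = true := by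
  obtain ⟨w, -, k2, -, y0, -⟩ := P.wf_s hq
  unfold st1 at h
  obtain ⟨u, hu, h⟩ := addE_s hY y0 (by norm_num) h
  rcases cond_s h with ⟨h0, h⟩ | ⟨-, h⟩
  · obtain ⟨T, hT, h⟩ := smul_s hA.1 w.1 w.2 (by norm_num) h
    obtain ⟨Z, hZ, h⟩ := add_s hF hT (by linarith) h
    refine ⟨Z, (hZ.mono (by linarith)).congr ?_, h⟩
    rw [max_eq_right (nonpos_of (hiLe_s hu h0))]; ring
  · obtain ⟨u2, hu2, h⟩ := pos2_s hu h
    obtain ⟨K, hK, h⟩ := smul_s hu2 k2.1 k2.2 (by norm_num) h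
    obtain ⟨K, hK, h⟩ := addc_s (j := 1) (y := vl q.nw / 2 ^ 32) hK (by linarith [w.1, w.2])
      (by rw [div_mul_cancel₀ _ (by positivity), sub_self, abs_zero]; positivity) (by norm_num) h
    obtain ⟨K, hK, h⟩ := ext_s hK h
    obtain ⟨T, hT, h⟩ := mul_s hK hA h
    obtain ⟨Z, hZ, h⟩ := add_s hF hT (by linarith) h
    exact ⟨Z, hZ.mono (by linarith), h⟩

theorem st2_s {q : P} {Y A : E} {F : L} {k : L → Bool} {y a f : ℝ} (hq : q.wf = true)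
    (hY : InE ε 1 Y y) (hA : InE ε 2 A a) (hF : InL ε i F f) (hi : i ≤ 200) (h : st2 q Y A F k = true) :
    ∃ Z, InL ε (i + 9) Z (f + vl q.k3 / 2 ^ 32 * (max (y + vl q.ny1 / 2 ^ 32) 0 * (1 - y) *
      (max (a + vl q.na0 / 2 ^ 32) 0 - max (vl q.na0 / 2 ^ 32 - a) 0))) ∧ k Z = true := by
  obtain ⟨-, -, -, k3, -, y1, a0, pa⟩ := P.wf_s hq
  unfold st2 at h
  rcases cond_s h with ⟨h0, h⟩ | ⟨-, h⟩
  · refine ⟨F, (hF.mono (by linarith)).congr ?_, h⟩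
    rw [Bool.or_eq_true, Bool.and_eq_true] at h0
    rcases h0 with h0 | ⟨h1, h2⟩
    · have := k3.1
      rw [Nat.eq_of_beq_eq_true h0, Nat.cast_zero, abs_nonpos_iff] at this
      rw [this]; ring
    · have b1 := hiLe_s hA h1
      have b2 := loGe_s hA h2
      rw [pa] at b1
      rw [max_eq_right (a := a + _) (by linarith), max_eq_right (a := _ - a) (by linarith)]; ring
  obtain ⟨v, hv, h⟩ := addE_s hY y1 (by norm_num) h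
  rcases cond_s h with ⟨h0, h⟩ | ⟨-, h⟩
  · refine ⟨F, (hF.mono (by linarith)).congr ?_, h⟩
    rw [max_eq_right (nonpos_of (hiLe_s hv h0))]; ring
  obtain ⟨v, hv, h⟩ := pos_s hv h
  obtain ⟨v, hv, h⟩ := ext_s hv h
  obtain ⟨z, hz, h⟩ := rsub1_s hY (by norm_num) h
  obtain ⟨W, hW, h⟩ := mul_s hv hz h
  obtain ⟨W, hW, h⟩ := ext_s hW h
  obtain ⟨a1, ha1, h⟩ := addE_s hA a0 (by norm_num) h
  obtain ⟨r1, hr1, h⟩ := pos_s ha1 h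
  obtain ⟨a2, ha2, h⟩ := rsub_s hA a0 (by norm_num) h
  obtain ⟨r2, hr2, h⟩ := pos_s ha2 h
  obtain ⟨R, hR, h⟩ := sub_s hr1 hr2 (by norm_num) h
  obtain ⟨R, hR, h⟩ := ext_s hR h
  obtain ⟨T, hT, h⟩ := mul_s hW hR h
  obtain ⟨T, hT, h⟩ := smul_s hT k3.1 k3.2 (by norm_num) h
  obtain ⟨Z, hZ, h⟩ := add_s hF hT (by linarith) h
  exact ⟨Z, hZ.mono (by linarith), h⟩

theorem st3_s {q : P} {Y : E} {F : L} {k : L → Bool} {y f : ℝ} (hq : q.wf = true)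
    (hY : InE ε 1 Y y) (hF : InL ε i F f) (hi : i ≤ 200) (h : st3 q Y F k = true) :
    ∃ Z, InL ε (i + 9) Z (f + vl q.p / 2 ^ 32 * y) ∧ k Z = true := by
  obtain ⟨-, p, -⟩ := P.wf_s hq
  unfold st3 at h
  rcases cond_s h with ⟨h0, h⟩ | ⟨-, h⟩
  · refine ⟨F, (hF.mono (by linarith)).congr ?_, h⟩
    have := p.1
    rw [Nat.eq_of_beq_eq_true h0, Nat.cast_zero, abs_nonpos_iff] at this
    rw [this]; ring
  obtain ⟨T, hT, h⟩ := smul_s hY.1 p.1 p.2 (by norm_num) h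
  obtain ⟨Z, hZ, h⟩ := add_s hF hT (by linarith) h
  exact ⟨Z, hZ.mono (by linarith), h⟩

theorem slot_s {q : P} {H S C Y : E} {F : L} {k : L → Bool} {h s c y f j l : ℝ} (hq : q.wf = true)
    (hH : InE ε j H h) (hS : InE ε l S s) (hC : InE ε 2 C c) (hY : InE ε 1 Y y) (hF : InL ε i F f)
    (hi : i ≤ 160) (hp : 0 < h * s) (e : slot q H S C Y F k = true) :
    ∃ Z, InL ε (i + 36) Z (f + q.f y (arctan (c / (h * s)))) ∧ k Z = true := by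
  unfold slot at e
  obtain ⟨X, hX, e⟩ := mul_s hH hS e
  obtain ⟨A, hA, e⟩ := arg_s hX hC hp e
  obtain ⟨A, hA, e⟩ := ext_s hA e
  obtain ⟨F, hF, e⟩ := st1_s hq hY hA hF (by linarith) e
  obtain ⟨F, hF, e⟩ := st2_s hq hY hA hF (by linarith) e
  obtain ⟨F, hF, e⟩ := st3_s hq hY hF (by linarith) e
  refine ⟨F, (hF.mono (by linarith)).congr ?_, e⟩
  unfold P.f pc; ring

theorem trig_s {T : E} {t : ℝ} {k : E → E → Bool} (hT : InE ε i T t) (h : trig T k = true) :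
    ∃ S C, InE ε 7 S (sn t) ∧ InE ε 2 C (cn t) ∧ k S C = true := by
  unfold trig at h
  obtain ⟨D, hD, h⟩ := sq_s hT h
  obtain ⟨D, hD, h⟩ := addc_s (j := 1) (y := 1) hD (by rw [vl_one]; norm_num)
    (by rw [vl_one]; norm_num) (by norm_num) h
  obtain ⟨D, hD, h⟩ := ext_s hD h
  rcases inv_s hD h with h | ⟨-, I, hI, h⟩
  · exact absurd h (by simp)
  obtain ⟨I, hI, h⟩ := ext_s hI h
  obtain ⟨S, hS, h⟩ := add_s hI.1 hI.1 (by norm_num) h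
  obtain ⟨S, hS, h⟩ := addc_s (j := 1) (y := -1) hS (by rw [vl_mone]; norm_num)
    (by rw [vl_mone]; norm_num) (by norm_num) h
  obtain ⟨S, hS, h⟩ := ext_s hS h
  obtain ⟨M, hM, h⟩ := mul_s hT hI h
  obtain ⟨M, hM, h⟩ := add_s hM hM (by norm_num) h
  obtain ⟨C, hC, h⟩ := sub_s (zeroL_s ε le_rfl) hM (by norm_num) h
  obtain ⟨C, hC, h⟩ := ext_s hC h
  exact ⟨S, C, ⟨hS.1.mono (by norm_num), hS.2⟩, ⟨hC.1.mono (by norm_num), hC.2⟩, h⟩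

theorem Bx.noise {a r : ℕ} {x : ℝ} (h : Bx a r x) :
    ∃ e : ℝ, |e| ≤ 1 ∧ x * 2 ^ 32 = vl (Nat.add a r) + r * e := by
  rw [vl_add]
  obtain ⟨h1, h2⟩ := h
  rcases Nat.eq_zero_or_pos r with rfl | hr
  · exact ⟨0, by simp, by push_cast at h2 ⊢; linarith⟩
  · have : (0 : ℝ) < r := Nat.cast_pos.2 hr
    refine ⟨(x * 2 ^ 32 - vl a - r) / r, ?_, by field_simp; ring⟩
    rw [abs_div, abs_of_pos this, div_le_one this, abs_le]; constructor <;> linarith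

theorem geo_s {a1 r1 a2 r2 a3 r3 : ℕ} {h t1 t2 : ℝ} {k : E → E → E → E → E → E → E → L → Bool}
    (b1 : Bx a1 r1 h) (b2 : Bx a2 r2 t1) (b3 : Bx a3 r3 t2) (e : geo a1 r1 a2 r2 a3 r3 k = true) :
    ∃ ε H S1 C1 S2 C2 S3 C3 W, InE ε 1 H h ∧ InE ε 7 S1 (sn t1) ∧ InE ε 2 C1 (cn t1) ∧
      InE ε 7 S2 (sn t2) ∧ InE ε 2 C2 (cn t2) ∧ InE ε 2 S3 (sn t1 * cn t2 + cn t1 * sn t2) ∧
      InE ε 2 C3 (sn t1 * sn t2 - cn t1 * cn t2) ∧ InL ε 1 W (sn t1 * sn t2) ∧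
      k H S1 C1 S2 C2 S3 C3 W = true := by
  obtain ⟨e1, h1, g1⟩ := b1.noise
  obtain ⟨e2, h2, g2⟩ := b2.noise
  obtain ⟨e3, h3, g3⟩ := b3.noise
  let ε : Ns := ⟨e1, e2, e3, h1, h2, h3⟩
  unfold geo at e
  rw [Bool.and_eq_true, mkL_eq, mkL_eq, mkL_eq] at e
  obtain ⟨hb, e⟩ := e
  have hb := ble_r hb
  generalize Nat.add a1 r1 = c1 at *
  generalize Nat.add a2 r2 = c2 at *
  generalize Nat.add a3 r3 = c3 at *
  simp only [Nat.add_eq, Nat.cast_add, cast_ab] at hb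
  push_cast at hb
  have p1 := abs_nonneg (vl c1); have p2 := abs_nonneg (vl c2); have p3 := abs_nonneg (vl c3)
  have q1 : (0 : ℝ) ≤ r1 := Nat.cast_nonneg _
  have q2 : (0 : ℝ) ≤ r2 := Nat.cast_nonneg _
  have q3 : (0 : ℝ) ≤ r3 := Nat.cast_nonneg _
  have z : |vl 4503599627370496| ≤ 1 * 2 ^ 44 := by rw [vl_B]; norm_num
  have hH : InL ε 1 ⟨c1, Nat.add r1 4503599627370496, 4503599627370496, 4503599627370496, 0⟩ h :=
    ⟨by show |vl c1| ≤ _; linarith, by show |vl (Nat.add r1 _)| ≤ _; rw [vl_add', abs_of_nonneg q1]; linarith,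
      z, z, by
        show |h * 2 ^ 32 - (vl c1 + vl (Nat.add r1 _) * e1 + vl 4503599627370496 * e2 +
          vl 4503599627370496 * e3)| ≤ ((0 : ℕ) : ℝ)
        rw [vl_B, vl_add', g1]; simp⟩
  have hT1 : InL ε 1 ⟨c2, 4503599627370496, Nat.add r2 4503599627370496, 4503599627370496, 0⟩ t1 :=
    ⟨by show |vl c2| ≤ _; linarith, z,
      by show |vl (Nat.add r2 _)| ≤ _; rw [vl_add', abs_of_nonneg q2]; linarith, z, by
        show |t1 * 2 ^ 32 - (vl c2 + vl 4503599627370496 * e1 + vl (Nat.add r2 _) * e2 +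
          vl 4503599627370496 * e3)| ≤ ((0 : ℕ) : ℝ)
        rw [vl_B, vl_add', g2]; simp⟩
  have hT2 : InL ε 1 ⟨c3, 4503599627370496, 4503599627370496, Nat.add r3 4503599627370496, 0⟩ t2 :=
    ⟨by show |vl c3| ≤ _; linarith, z, z,
      by show |vl (Nat.add r3 _)| ≤ _; rw [vl_add', abs_of_nonneg q3]; linarith, by
        show |t2 * 2 ^ 32 - (vl c3 + vl 4503599627370496 * e1 + vl 4503599627370496 * e2 +
          vl (Nat.add r3 _) * e3)| ≤ ((0 : ℕ) : ℝ)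
        rw [vl_B, vl_add', g3]; simp⟩
  obtain ⟨H, hH, e⟩ := ext_s hH e
  obtain ⟨T1, hT1, e⟩ := ext_s hT1 e
  obtain ⟨T2, hT2, e⟩ := ext_s hT2 e
  obtain ⟨S1, C1, hS1, hC1, e⟩ := trig_s hT1 e
  obtain ⟨S2, C2, hS2, hC2, e⟩ := trig_s hT2 e
  obtain ⟨W, hW, e⟩ := mul_s hS1 hS2 e
  obtain ⟨U, hU, e⟩ := mul_s hS1 hC2 e
  obtain ⟨V, hV, e⟩ := mul_s hC1 hS2 e
  obtain ⟨S3, hS3, e⟩ := add_s hU hV (by norm_num) e
  obtain ⟨S3, hS3, e⟩ := ext_s hS3 e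
  obtain ⟨U, hU, e⟩ := mul_s hC1 hC2 e
  obtain ⟨C3, hC3, e⟩ := sub_s hW hU (by norm_num) e
  obtain ⟨C3, hC3, e⟩ := ext_s hC3 e
  exact ⟨ε, H, S1, C1, S2, C2, S3, C3, W, hH, hS1, hC1, hS2, hC2, ⟨hS3.1.mono (by norm_num), hS3.2⟩,
    ⟨hC3.1.mono (by norm_num), hC3.2⟩, hW, e⟩

theorem hiLt_s {X : E} {t : ℕ} {x : ℝ} (hx : InE ε i X x) (h : hiLt X t = true) : x * 2 ^ 32 < vl t := by
  unfold hiLt at h
  rw [Bool.and_eq_true] at h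
  have := hiLe_s hx h.1
  have h1 := Nat.le_of_ble_eq_true h.2
  obtain ⟨s, rfl⟩ : ∃ s, t = s + 1 := ⟨t - 1, by omega⟩
  rw [Nat.pred_succ] at this
  unfold vl at *; push_cast; linarith

theorem loGt_s {X : E} {t : ℕ} {x : ℝ} (hx : InE ε i X x) (h : loGt X t = true) : vl t < x * 2 ^ 32 := by
  have := loGe_s hx h
  unfold vl at *; push_cast at this; linarith

theorem ysq_s {R S : E} {r s j : ℝ} {k : E → Bool} (hR : InE ε i R r) (hS : InE ε j S s)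
    (h : ysq R S k = true) : ∃ Y, InE ε 1 Y (r * s ^ 2) ∧ k Y = true := by
  unfold ysq at h
  obtain ⟨U, hU, h⟩ := sq_s hS h
  obtain ⟨U, hU, h⟩ := ext_s hU h
  obtain ⟨Y, hY, h⟩ := mul_s hR hU h
  exact ext_s hY h

theorem body_s {q : Q} {H S1 C1 S2 C2 S3 C3 : E} {W : L} {R Y1 Y2 Y3 : E} {tg : ℕ}
    {h s1 c1 s2 c2 s3 c3 : ℝ} (hq : q.wf = true) (hH : InE ε 1 H h) (hS1 : InE ε 7 S1 s1)
    (hC1 : InE ε 2 C1 c1) (hS2 : InE ε 7 S2 s2) (hC2 : InE ε 2 C2 c2) (hS3 : InE ε 2 S3 s3)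
    (hC3 : InE ε 2 C3 c3) (hW : InL ε 1 W (s1 * s2)) (hR : InE ε i R (1 - h ^ 2))
    (hY1 : InE ε 1 Y1 ((1 - h ^ 2) * s1 ^ 2)) (hY2 : InE ε 1 Y2 ((1 - h ^ 2) * s2 ^ 2))
    (hY3 : InE ε 1 Y3 ((1 - h ^ 2) * s3 ^ 2)) (p0 : 0 < h) (p1 : 0 < s1) (p2 : 0 < s2) (p3 : 0 < s3)
    (e : body q H S1 C1 S2 C2 S3 C3 W R Y1 Y2 Y3 tg = true) :
    q.F h s1 c1 s2 c2 s3 c3 * 2 ^ 32 ≤ vl tg := by
  unfold Q.wf at hq
  simp only [Bool.and_eq_true] at hq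
  unfold body at e
  obtain ⟨U, hU, e⟩ := mul_s hR hS3 e
  obtain ⟨U, hU, e⟩ := ext_s hU e
  obtain ⟨W, hW, e⟩ := ext_s hW e
  obtain ⟨F, hF, e⟩ := mul_s hW hU e
  obtain ⟨F, hF, e⟩ := add_s hF hF (by norm_num) e
  obtain ⟨F, hF, e⟩ := slot_s hq.1.1.1.1 hH hS1 hC1 hY1 hF (by norm_num) (by positivity) e
  obtain ⟨F, hF, e⟩ := slot_s hq.1.1.1.2 hH hS2 hC2 hY2 hF (by norm_num) (by positivity) e
  obtain ⟨F, hF, e⟩ := slot_s hq.1.1.2 hH hS3 hC3 hY3 hF (by norm_num) (by positivity) e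
  obtain ⟨F, hF, e⟩ := ext_s hF e
  refine le_trans (le_of_eq ?_) (hiLe_s hF e)
  unfold Q.F; ring

theorem leaf_s {q : Q} (hq : q.wf = true) {a1 r1 a2 r2 a3 r3 : ℕ} {h t1 t2 : ℝ}
    (b1 : Bx a1 r1 h) (b2 : Bx a2 r2 t1) (b3 : Bx a3 r3 t2) (e : leaf q a1 r1 a2 r2 a3 r3 = true) :
    q.Good h t1 t2 := by
  intro p0 p1 p2 p3 ht hs o1 o2
  unfold leaf at e
  rw [Bool.or_eq_true, Bool.or_eq_true] at e
  rcases e with (e | e) | e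
  · have := ble_r e
    have u := b2.1; have v := b3.1
    rw [Nat.add_eq] at this; unfold vl at u v; push_cast at this
    exfalso; linarith
  · rw [Bool.and_eq_true] at e
    have := ble_r e.2
    have u := b2.2; have v := b3.1; have w := hs e.1
    rw [Nat.add_eq, Nat.mul_eq] at this; unfold vl at u v; push_cast at this
    exfalso; linarith
  obtain ⟨ε, H, S1, C1, S2, C2, S3, C3, W, hH, hS1, hC1, hS2, hC2, hS3, hC3, hW, e⟩ := geo_s b1 b2 b3 e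
  obtain ⟨U, hU, e⟩ := sub_s hC1.1 hC3.1 (by norm_num) e
  obtain ⟨U, hU, e⟩ := ext_s hU e
  rw [Bool.or_eq_true] at e
  rcases e with e | e
  · have := loGt_s hU e
    rw [vl_B] at this; exfalso; nlinarith
  obtain ⟨U, hU, e⟩ := sub_s hC2.1 hC3.1 (by norm_num) e
  obtain ⟨U, hU, e⟩ := ext_s hU e
  rw [Bool.or_eq_true] at e
  rcases e with e | e
  · have := loGt_s hU e
    rw [vl_B] at this; exfalso; nlinarith
  obtain ⟨R, hR, e⟩ := sq_s hH e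
  obtain ⟨R, hR, e⟩ := ext_s hR e
  obtain ⟨R, hR, e⟩ := rsub1_s hR (by norm_num) e
  obtain ⟨Y1, hY1, e⟩ := ysq_s hR hS1 e
  obtain ⟨Y2, hY2, e⟩ := ysq_s hR hS2 e
  obtain ⟨Y3, hY3, e⟩ := ysq_s hR hS3 e
  have bd := fun tg => body_s (tg := tg) hq hH hS1 hC1 hS2 hC2 hS3 hC3 hW hR hY1 hY2 hY3 p0 p1 p2 p3
  have nl : (!q.useL || (hiLt Y1 q.p1.t && hiLt Y2 q.p2.t && hiLt Y3 q.p3.t)) = true → q.useL = true →
      ¬ (vl q.p1.t ≤ (1 - h ^ 2) * sn t1 ^ 2 * 2 ^ 32 ∨ vl q.p2.t ≤ (1 - h ^ 2) * sn t2 ^ 2 * 2 ^ 32 ∨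
        vl q.p3.t ≤ (1 - h ^ 2) * (sn t1 * cn t2 + cn t1 * sn t2) ^ 2 * 2 ^ 32) := by
    intro g u
    rw [u, Bool.not_true, Bool.false_or, Bool.and_eq_true, Bool.and_eq_true] at g
    have g1 := hiLt_s hY1 g.1.1; have g2 := hiLt_s hY2 g.1.2; have g3 := hiLt_s hY3 g.2
    rintro (x | x | x) <;> linarith
  rcases cond_s e with ⟨c, e⟩ | ⟨-, e⟩
  · refine ⟨fun y1 y2 y3 nb => ?_, fun u hl => ?_⟩
    · exfalso
      simp only [Bool.or_eq_true, Bool.and_eq_true] at c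
      rcases c with ((c | c) | c) | ⟨⟨⟨⟨⟨⟨⟨n1, n2⟩, n3⟩, n4⟩, n5⟩, n6⟩, n7⟩, n8⟩
      · linarith [loGt_s hY1 c]
      · linarith [loGt_s hY2 c]
      · linarith [loGt_s hY3 c]
      · exact nb ⟨loGe_s hH n1, hiLe_s hH n2, loGe_s hC1 n3, hiLe_s hC1 n4, loGe_s hC2 n5, hiLe_s hC2 n6,
          loGe_s hC3 n7, hiLe_s hC3 n8⟩
    · rw [Bool.or_eq_true] at e
      rcases e with e | e
      · exact absurd hl (nl e u)
      · exact bd _ e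
  rcases cond_s e with ⟨c, e⟩ | ⟨-, e⟩
  · exact ⟨fun _ _ _ _ => bd _ e, fun u hl => absurd hl (nl c u)⟩
  · have := bd _ e
    unfold Q.wf at hq
    simp only [Bool.and_eq_true] at hq
    have g1 := ble_r hq.1.2; have g2 := ble_r hq.2
    have g3 : vl q.cM ≤ vl q.cA := by unfold vl; linarith
    have g4 : vl q.cM ≤ vl q.cB := by unfold vl; linarith
    exact ⟨fun _ _ _ _ => this.trans g4, fun _ _ => this.trans g3⟩

/-- the property holds on the box -/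
def Cov (G : ℝ → ℝ → ℝ → Prop) (a1 r1 a2 r2 a3 r3 : ℕ) : Prop :=
  ∀ x y z, Bx a1 r1 x → Bx a2 r2 y → Bx a3 r3 z → G x y z

theorem Bx.split {a r : ℕ} {x : ℝ} (h : Bx a r x) :
    Bx a (Nat.sub r (Nat.shiftRight r 1)) x ∨ Bx (Nat.add a r) (Nat.sub r (Nat.shiftRight r 1)) x := by
  have h1 := le_sub' r (Nat.shiftRight r 1)
  have h2 := (shr_bd r 1).1
  unfold Bx at *
  rw [vl_add]
  rcases le_total (x * 2 ^ 32) (vl a + r) with g | g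
  · exact Or.inl ⟨h.1, by linarith⟩
  · exact Or.inr ⟨g, by linarith [h.2]⟩

variable {G : ℝ → ℝ → ℝ → Prop} {a1 r1 a2 r2 a3 r3 : ℕ}

theorem sp1 (h1 : Cov G a1 (Nat.sub r1 (Nat.shiftRight r1 1)) a2 r2 a3 r3)
    (h2 : Cov G (Nat.add a1 r1) (Nat.sub r1 (Nat.shiftRight r1 1)) a2 r2 a3 r3) : Cov G a1 r1 a2 r2 a3 r3 :=
  fun x y z b1 b2 b3 => b1.split.elim (fun b => h1 x y z b b2 b3) fun b => h2 x y z b b2 b3

theorem sp2 (h1 : Cov G a1 r1 a2 (Nat.sub r2 (Nat.shiftRight r2 1)) a3 r3)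
    (h2 : Cov G a1 r1 (Nat.add a2 r2) (Nat.sub r2 (Nat.shiftRight r2 1)) a3 r3) : Cov G a1 r1 a2 r2 a3 r3 :=
  fun x y z b1 b2 b3 => b2.split.elim (fun b => h1 x y z b1 b b3) fun b => h2 x y z b1 b b3

theorem sp3 (h1 : Cov G a1 r1 a2 r2 a3 (Nat.sub r3 (Nat.shiftRight r3 1)))
    (h2 : Cov G a1 r1 a2 r2 (Nat.add a3 r3) (Nat.sub r3 (Nat.shiftRight r3 1))) : Cov G a1 r1 a2 r2 a3 r3 :=
  fun x y z b1 b2 b3 => b3.split.elim (fun b => h1 x y z b1 b2 b) fun b => h2 x y z b1 b2 b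

theorem bb_succ (lf : ℕ → ℕ → ℕ → ℕ → ℕ → ℕ → Bool) (f code a1 r1 a2 r2 a3 r3 : ℕ) :
    bb lf (f + 1) code a1 r1 a2 r2 a3 r3 =
    fN (Nat.land code 3) fun d => bif Nat.beq d 0 then lf a1 r1 a2 r2 a3 r3 else
    fN (Nat.land (Nat.shiftRight code 2) 31) fun w =>
    fN (Nat.land (Nat.shiftRight code 7) (Nat.pred (Nat.shiftLeft 1 w))) fun n =>
    fN (Nat.shiftRight code (Nat.add 7 w)) fun e =>
    fN (Nat.land e (Nat.pred (Nat.shiftLeft 1 n))) fun x => fN (Nat.shiftRight e n) fun z =>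
    bif Nat.beq d 1 then fN (Nat.sub r1 (Nat.shiftRight r1 1)) fun s => fN (Nat.add a1 r1) fun b =>
      bb lf f x a1 s a2 r2 a3 r3 && bb lf f z b s a2 r2 a3 r3
    else bif Nat.beq d 2 then fN (Nat.sub r2 (Nat.shiftRight r2 1)) fun s => fN (Nat.add a2 r2) fun b =>
      bb lf f x a1 r1 a2 s a3 r3 && bb lf f z a1 r1 b s a3 r3
    else fN (Nat.sub r3 (Nat.shiftRight r3 1)) fun s => fN (Nat.add a3 r3) fun b =>
      bb lf f x a1 r1 a2 r2 a3 s && bb lf f z a1 r1 a2 r2 b s := rfl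

theorem bb_s {lf : ℕ → ℕ → ℕ → ℕ → ℕ → ℕ → Bool}
    (hl : ∀ a1 r1 a2 r2 a3 r3, lf a1 r1 a2 r2 a3 r3 = true → Cov G a1 r1 a2 r2 a3 r3) (fuel : ℕ) :
    ∀ code a1 r1 a2 r2 a3 r3, bb lf fuel code a1 r1 a2 r2 a3 r3 = true → Cov G a1 r1 a2 r2 a3 r3 := by
  induction fuel with
  | zero => intro _ _ _ _ _ _ _ h; exact absurd h (by simp [bb])
  | succ n ih =>
    intro code a1 r1 a2 r2 a3 r3 h
    rw [bb_succ, fN_eq] at h
    rcases cond_s h with ⟨-, h⟩ | ⟨-, h⟩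
    · exact hl _ _ _ _ _ _ h
    rw [fN_eq, fN_eq, fN_eq, fN_eq, fN_eq] at h
    rcases cond_s h with ⟨-, h⟩ | ⟨-, h⟩
    · rw [fN_eq, fN_eq, Bool.and_eq_true] at h
      exact sp1 (ih _ _ _ _ _ _ _ h.1) (ih _ _ _ _ _ _ _ h.2)
    rcases cond_s h with ⟨-, h⟩ | ⟨-, h⟩
    · rw [fN_eq, fN_eq, Bool.and_eq_true] at h
      exact sp2 (ih _ _ _ _ _ _ _ h.1) (ih _ _ _ _ _ _ _ h.2)
    · rw [fN_eq, fN_eq, Bool.and_eq_true] at h
      exact sp3 (ih _ _ _ _ _ _ _ h.1) (ih _ _ _ _ _ _ _ h.2)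

theorem cov_of {q : Q} (hq : q.wf = true) {code : ℕ} (h : bb (leaf q) 80 code a1 r1 a2 r2 a3 r3 = true) :
    Cov q.Good a1 r1 a2 r2 a3 r3 :=
  bb_s (fun _ _ _ _ _ _ e _ _ _ b1 b2 b3 => leaf_s hq b1 b2 b3 e) 80 _ _ _ _ _ _ _ h

end Pool.Agent.Work.MP_c2ab8b_gt
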