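import Pool.Agent.Work.MP_c2ab8b_gt.Geo
import Pool.Agent.Work.MP_c2ab8b_gt.Cls
import Mathlib.Analysis.InnerProductSpace.NormDet
import Mathlib.Analysis.LocallyConvex.Separation
import Mathlib.Analysis.InnerProductSpace.Dual
import Mathlib.Analysis.SpecialFunctions.Integrals.Basic

/- Surface area of the hull as a sum over faces, and monotonicity of surface area. -/

noncomputable section
namespace Pool.Agent.Work.MP_c2ab8b_gt
open Real MeasureTheory Set

theorem inner_dt (a b : V) : inner ℝ a b = dt a b := by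
  simp [PiLp.inner_apply, Fin.sum_univ_three, dt]; ring

theorem dt_self (a : V) : dt a a = ‖a‖ ^ 2 := by rw [← inner_dt, real_inner_self_eq_norm_sq]

theorem vol_tri : volume {x : EuclideanSpace ℝ (Fin 2) | 0 ≤ x 0 ∧ 0 ≤ x 1 ∧ x 0 + x 1 ≤ 1} =
    ENNReal.ofReal (1 / 2) := by
  have m : MeasurableSet {p : ℝ × ℝ | 0 ≤ p.1 ∧ 0 ≤ p.2 ∧ p.1 + p.2 ≤ 1} := by measurability
  have := ((volume_preserving_finTwoArrow ℝ).comp (PiLp.volume_preserving_ofLp (Fin 2))).measure_preimage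
    m.nullMeasurableSet
  refine Eq.trans this ?_
  rw [Measure.volume_eq_prod, Measure.prod_apply m]
  have e : ∀ x : ℝ, volume (Prod.mk x ⁻¹' {p : ℝ × ℝ | 0 ≤ p.1 ∧ 0 ≤ p.2 ∧ p.1 + p.2 ≤ 1}) =
      (Ioc (0 : ℝ) 1 ∪ {0}).indicator (fun x => ENNReal.ofReal (1 - x)) x := by
    intro x
    rw [Ioc_union_left zero_le_one]
    by_cases h : x ∈ Icc (0 : ℝ) 1
    · rw [indicator_of_mem h, ← sub_zero (1 - x), ← volume_Icc]
      congr 1; ext y; simp [h.1, le_sub_iff_add_le']
    · rw [indicator_of_notMem h]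
      convert measure_empty (μ := (volume : Measure ℝ))
      ext y
      simp only [mem_preimage, mem_ofPred_eq, mem_empty_iff_false, iff_false]
      exact fun ⟨a, b, c⟩ => h ⟨a, by linarith⟩
  simp_rw [e, Ioc_union_left zero_le_one]
  rw [lintegral_indicator measurableSet_Icc, ← ofReal_integral_eq_lintegral_ofReal
    (by exact (continuous_const.sub continuous_id).integrableOn_Icc)
    ((ae_restrict_mem measurableSet_Icc).mono fun x hx => sub_nonneg.2 hx.2), integral_Icc_eq_integral_Ioc,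
    ← intervalIntegral.integral_of_le zero_le_one]
  congr 1
  rw [intervalIntegral.integral_sub (by simp) (by simp)]
  norm_num

def tri (a b c : V) : Set V := {x | ∃ s t : ℝ, 0 ≤ s ∧ 0 ≤ t ∧ s + t ≤ 1 ∧ x = a + (s • (b - a) + t • (c - a))}

theorem tri_meas (a b c : V) : μHE[2] (tri a b c) =
    ENNReal.ofReal (√(dt (b - a) (b - a) * dt (c - a) (c - a) - dt (b - a) (c - a) ^ 2) / 2) := by
  let A : EuclideanSpace ℝ (Fin 2) →ₗ[ℝ] V :=
    { toFun := fun x => x 0 • (b - a) + x 1 • (c - a)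
      map_add' := fun x y => by simp only [PiLp.add_apply, add_smul]; abel
      map_smul' := fun t x => by simp only [PiLp.smul_apply, smul_eq_mul, mul_smul, smul_add, RingHom.id_apply] }
  have e : tri a b c = (fun x => a + x) '' (A '' {x | 0 ≤ x 0 ∧ 0 ≤ x 1 ∧ x 0 + x 1 ≤ 1}) := by
    ext x
    constructor
    · rintro ⟨s, t, h1, h2, h3, rfl⟩
      exact ⟨_, ⟨!₂[s, t], ⟨h1, h2, h3⟩, rfl⟩, rfl⟩
    · rintro ⟨_, ⟨y, ⟨h1, h2, h3⟩, rfl⟩, rfl⟩
      exact ⟨y 0, y 1, h1, h2, h3, rfl⟩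
  have h := A.euclideanHausdorffMeasure_image_eq_normDet_mul_volume {x | 0 ≤ x 0 ∧ 0 ≤ x 1 ∧ x 0 + x 1 ≤ 1}
  have g := A.normDet_sq_eq_det_gram (EuclideanSpace.basisFun (Fin 2) ℝ)
  rw [finrank_euclideanSpace_fin] at h
  rw [e, (isometry_add_left a).euclideanHausdorffMeasure_image, h, vol_tri,
    ← ENNReal.ofReal_mul A.normDet_nonneg, ← sqrt_sq A.normDet_nonneg]
  congr 1
  have : A.normDet ^ 2 = dt (b - a) (b - a) * dt (c - a) (c - a) - dt (b - a) (c - a) ^ 2 := by
    refine Eq.trans g ?_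
    simp only [Matrix.det_fin_two, Matrix.gram_apply, inner_dt]
    simp [A, dt_comm (c - a) (b - a), pow_two]
  rw [this]; ring

theorem Ps.meas {a b c : V} (P : Ps a b c) : μHE[2] (tri a b c) = ENNReal.ofReal (ar a b c) := by
  rw [tri_meas]
  unfold ar
  congr 3
  have e : ∀ x y z w : V, dt (x - y) (z - w) = dt x z - dt x w - dt y z + dt y w := by
    intro x y z w; simp [dt]; ring
  simp only [e, P.ua, P.ub, P.uc, Tt, dt_comm b a, dt_comm a c]
  ring

theorem tri_null (a b : V) : μHE[2] (tri a b b) = 0 := by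
  rw [tri_meas, pow_two, sub_self]; simp

theorem tri_compact (a b c : V) : IsCompact (tri a b c) := by
  have : tri a b c = (fun p : ℝ × ℝ => a + (p.1 • (b - a) + p.2 • (c - a))) ''
      ((Icc 0 1 ×ˢ Icc 0 1) ∩ {p | p.1 + p.2 ≤ 1}) := by
    ext x
    constructor
    · rintro ⟨s, t, h1, h2, h3, rfl⟩
      exact ⟨(s, t), ⟨⟨⟨h1, by linarith⟩, ⟨h2, by linarith⟩⟩, h3⟩, rfl⟩
    · rintro ⟨⟨s, t⟩, ⟨⟨h1, h2⟩, h3⟩, rfl⟩
      exact ⟨s, t, h1.1, h2.1, h3, rfl⟩
  rw [this]
  exact ((isCompact_Icc.prod isCompact_Icc).inter_right (isClosed_le (by fun_prop) (by fun_prop))).image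
    (by fun_prop)

theorem tri_rot {a b c x : V} (h : x ∈ tri a b c) : x ∈ tri b c a := by
  obtain ⟨s, t, h1, h2, h3, rfl⟩ := h
  exact ⟨t, 1 - s - t, h2, by linarith, by linarith, by module⟩

theorem dt_tri (n a b c : V) (s t : ℝ) : dt n (a + (s • (b - a) + t • (c - a))) =
    (1 - s - t) * dt n a + s * dt n b + t * dt n c := by simp [dt]; ring

theorem support {K : Set V} (hK : Convex ℝ K) (h0 : 0 ∈ interior K) {x : V} (hx : x ∉ interior K) :
    ∃ a, dt a x = 1 ∧ ∀ y ∈ K, dt a y ≤ 1 := by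
  obtain ⟨f, hf⟩ := geometric_hahn_banach_open_point hK.interior isOpen_interior hx
  have p : 0 < f x := by simpa using hf 0 h0
  have e : ∀ y, dt ((f x)⁻¹ • (InnerProductSpace.toDual ℝ V).symm f) y = f y / f x := by
    intro y
    rw [← inner_dt, inner_smul_left, InnerProductSpace.toDual_symm_apply]; simp [div_eq_inv_mul]
  refine ⟨_, by rw [e, div_self p.ne'], fun y hy => ?_⟩
  rw [e, div_le_one p]
  refine closure_minimal (fun z hz => (hf z hz).le) (isClosed_Iic.preimage f.continuous) ?_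
  rw [hK.closure_interior_eq_closure_of_nonempty_interior ⟨0, h0⟩]
  exact subset_closure hy

theorem area_mono {K L : Set V} (hK : Convex ℝ K) (cK : IsCompact K) (h0 : 0 ∈ interior K) (cL : IsCompact L)
    (h : K ⊆ L) : μHE[2] (frontier K) ≤ μHE[2] (frontier L) := by
  have key : ∀ u v a b : V, a ∈ K → b ∈ K → (∀ w ∈ K, inner ℝ (u - a) (w - a) ≤ 0) →
      (∀ w ∈ K, inner ℝ (v - b) (w - b) ≤ 0) → ‖a - b‖ ≤ ‖u - v‖ := by
    intro u v a b ha hb h1 h2
    have e : ‖a - b‖ ^ 2 = inner ℝ (u - v) (a - b) + inner ℝ (u - a) (b - a) + inner ℝ (v - b) (a - b) := by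
      rw [← dt_self]; simp [inner_dt, dt]; ring
    have := real_inner_le_norm (u - v) (a - b)
    by_contra hn
    nlinarith [h1 b hb, h2 a ha, norm_nonneg (u - v), mul_pos (sub_pos.2 (not_le.1 hn))
      ((norm_nonneg _).trans_lt (not_le.1 hn))]
  choose p hp hp' using exists_norm_eq_iInf_of_complete_convex ⟨0, interior_subset h0⟩ cK.isComplete hK
  have vi := fun u => (norm_eq_iInf_iff_real_inner_le_zero hK (hp u)).1 (hp' u)
  have lip : LipschitzWith 1 p := LipschitzWith.mk_one fun u v => by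
    rw [dist_eq_norm, dist_eq_norm]; exact key u v _ _ (hp u) (hp v) (vi u) (vi v)
  have sub : frontier K ⊆ p '' frontier L := by
    intro x hx
    rw [cK.isClosed.frontier_eq] at hx
    obtain ⟨n, h1, h2⟩ := support hK h0 hx.2
    have n0 : 0 < ‖n‖ := norm_pos_iff.2 (by rintro rfl; simp [dt] at h1)
    have c : Continuous fun t : ℝ => x + t • n := by fun_prop
    obtain ⟨R, hR⟩ := cL.isBounded.exists_norm_le
    have bd : BddAbove ((fun t : ℝ => x + t • n) ⁻¹' L) := ⟨(R + ‖x‖) / ‖n‖, fun t ht => by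
      have := norm_sub_le (x + t • n) x
      rw [add_sub_cancel_left, norm_smul] at this
      rw [le_div_iff₀ n0]
      nlinarith [hR _ ht, le_abs_self t, Real.norm_eq_abs t]⟩
    have z0 : (0 : ℝ) ∈ (fun t : ℝ => x + t • n) ⁻¹' L := by simpa using h hx.1
    have m := (cL.isClosed.preimage c).csSup_mem ⟨0, z0⟩ bd
    have t0 := le_csSup bd z0
    have mx := fun t ht => le_csSup bd (a := t) ht
    generalize sSup ((fun t : ℝ => x + t • n) ⁻¹' L) = T at *
    refine ⟨x + T • n, ?_, ?_⟩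
    · rw [cL.isClosed.frontier_eq]
      refine ⟨m, fun hi => ?_⟩
      obtain ⟨t, ht, h3⟩ := (c.continuousAt.eventually (mem_interior_iff_mem_nhds.1 hi)).exists_gt
      exact absurd (mx t h3) (not_le.2 ht)
    · have := key _ (x + T • n) _ x (hp _) hx.1 (vi (x + T • n)) fun w hw => by
        rw [add_sub_cancel_left, inner_smul_left, inner_sub_right, inner_dt, inner_dt, h1]
        exact mul_nonpos_of_nonneg_of_nonpos t0 (sub_nonpos.2 (h2 w hw))
      rwa [sub_self, norm_zero, norm_le_zero_iff, sub_eq_zero] at this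
  refine (measure_mono sub).trans ?_
  have := lip.hausdorffMeasure_image_le (d := (2 : ℕ)) (by norm_num) (frontier L)
  simp only [ENNReal.coe_one, ENNReal.one_rpow, one_mul] at this
  simp only [Measure.euclideanHausdorffMeasure_def, Measure.smul_apply]
  gcongr

def Hu (X : Fin 7 → V) : Set V := convexHull ℝ (range X)

variable {X : Fin 7 → V}

theorem Hu.cv (X : Fin 7 → V) : Convex ℝ (Hu X) := convex_convexHull ℝ _
theorem Hu.cp (X : Fin 7 → V) : IsCompact (Hu X) := (finite_range X).isCompact_convexHull ℝ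
theorem Hu.mem (X : Fin 7 → V) (i : Fin 7) : X i ∈ Hu X := subset_convexHull ℝ _ ⟨i, rfl⟩

theorem Hu.rep {z : V} (h : z ∈ Hu X) :
    ∃ w : Fin 7 → ℝ, (∀ i, 0 ≤ w i) ∧ ∑ i, w i = 1 ∧ ∑ i, w i • X i = z := by
  refine convexHull_min (t := {z | ∃ w : Fin 7 → ℝ, (∀ i, 0 ≤ w i) ∧ ∑ i, w i = 1 ∧ ∑ i, w i • X i = z}) ?_ ?_ h
  · rintro _ ⟨i, rfl⟩
    exact ⟨Pi.single i 1, fun j => by rw [Pi.single_apply]; split_ifs <;> norm_num, by simp, by simp [Pi.single_apply]⟩
  · rintro _ ⟨u, h1, h2, rfl⟩ _ ⟨v, h3, h4, rfl⟩ a b ha hb hab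
    refine ⟨fun i => a * u i + b * v i, fun i => add_nonneg (mul_nonneg ha (h1 i)) (mul_nonneg hb (h3 i)), ?_, ?_⟩
    · rw [Finset.sum_add_distrib, ← Finset.mul_sum, ← Finset.mul_sum, h2, h4]; linarith
    · simp only [add_smul, mul_smul, Finset.sum_add_distrib, Finset.smul_sum]

theorem dt_sum (a : V) (w : Fin 7 → ℝ) : dt a (∑ i, w i • X i) = ∑ i, w i * dt a (X i) := by
  simp only [← inner_dt, inner_sum, inner_smul_right]

theorem Hu.le {a : V} {c : ℝ} (ha : ∀ l, dt a (X l) ≤ c) {z : V} (h : z ∈ Hu X) : dt a z ≤ c := by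
  obtain ⟨w, h1, h2, rfl⟩ := Hu.rep h
  rw [dt_sum]
  refine (Finset.sum_le_sum fun i _ => mul_le_mul_of_nonneg_left (ha i) (h1 i)).trans ?_
  rw [← Finset.sum_mul, h2, one_mul]

theorem Gen.front (G : Gen X) (h0 : 0 ∈ interior (Hu X)) {z : V} (hz : z ∈ frontier (Hu X)) :
    ∃ i j k, Fc X i j k ∧ z ∈ tri (X i) (X j) (X k) := by
  rw [(Hu.cp X).isClosed.frontier_eq] at hz
  obtain ⟨a, h1, h2⟩ := support (Hu.cv X) h0 hz.2
  have ha := fun l => h2 _ (Hu.mem X l)
  obtain ⟨w, w0, w1, rfl⟩ := Hu.rep hz.1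
  have t : ∀ l, w l ≠ 0 → dt a (X l) = 1 := by
    intro l hl
    have : ∑ i, w i * (1 - dt a (X i)) = 0 := by
      simp only [mul_sub, Finset.sum_sub_distrib, mul_one, w1, ← dt_sum, h1, sub_self]
    rw [Finset.sum_eq_zero_iff_of_nonneg fun i _ => mul_nonneg (w0 i) (sub_nonneg.2 (ha i))] at this
    linarith [(mul_eq_zero.1 (this l (Finset.mem_univ l))).resolve_left hl]
  obtain ⟨i, -, hi⟩ := Finset.exists_ne_zero_of_sum_ne_zero (w1 ▸ one_ne_zero : ∑ i, w i ≠ 0)
  obtain ⟨j, k, F, hF⟩ := G.ext1 ha (t i hi)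
  have s : ∀ {M : Type} [AddCommMonoid M] (g : Fin 7 → M), (∀ l, w l = 0 → g l = 0) → ∑ l, g l = g i + g j + g k := by
    intro M _ g hg
    rw [← Finset.sum_subset (Finset.subset_univ {i, j, k}) fun l _ hl => hg l (by
      by_contra x
      simp [hF l (t l x)] at hl), Finset.sum_insert (by simp [F.ne, F.rot.rot.ne.symm]),
      Finset.sum_pair F.rot.ne, add_assoc]
  rw [s _ fun l hl => hl] at w1
  refine ⟨i, j, k, F, w j, w k, w0 j, w0 k, by linarith [w0 i], ?_⟩
  rw [s _ fun l hl => by rw [hl, zero_smul], show w i = 1 - w j - w k by linarith]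
  module

def sar (X : Fin 7 → V) (T : List T3) : ℝ := (T.map fun t => ar (X t.1) (X t.2.1) (X t.2.2)).sum

def Un (X : Fin 7 → V) (T : List T3) : Set V := {z | ∃ t ∈ T, z ∈ tri (X t.1) (X t.2.1) (X t.2.2)}

theorem Un_cons (t : T3) (T : List T3) : Un X (t :: T) = tri (X t.1) (X t.2.1) (X t.2.2) ∪ Un X T := by
  ext z; simp [Un]

theorem sar_cons (t : T3) (T : List T3) : ENNReal.ofReal (sar X (t :: T)) =
    ENNReal.ofReal (ar (X t.1) (X t.2.1) (X t.2.2)) + ENNReal.ofReal (sar X T) := by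
  have : ∀ a b c, 0 ≤ ar a b c := fun a b c => by unfold ar; positivity
  unfold sar
  rw [← ENNReal.ofReal_add (this _ _ _) (List.sum_nonneg (by
    simp only [List.mem_map]; rintro _ ⟨_, -, rfl⟩; exact this _ _ _)), List.map_cons, List.sum_cons]

theorem Un_le (u : ∀ i, dt (X i) (X i) = 1) {T : List T3} (H : Hd (Fc X) T) :
    μHE[2] (Un X T) ≤ ENNReal.ofReal (sar X T) := by
  induction T with
  | nil => simp [Un]
  | cons t T ih =>
    rw [Un_cons, sar_cons, ← Ps.meas ⟨u _, u _, u _, (H t (by simp)).1⟩]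
    exact (measure_union_le _ _).trans (add_le_add le_rfl (ih fun s hs => H s (by simp [hs])))

theorem d4_tri (x y z a b c : V) (s t : ℝ) : d4 x y z (a + (s • (b - a) + t • (c - a))) =
    (1 - s - t) * d4 x y z a + s * d4 x y z b + t * d4 x y z c := by simp [d4, dv]; ring

theorem Fc.null {i j k p q r : Fin 7} (F : Fc X i j k) (h : r ≠ i ∧ r ≠ j ∧ r ≠ k) :
    μHE[2] (tri (X i) (X j) (X k) ∩ tri (X p) (X q) (X r)) = 0 := by
  refine measure_mono_null ?_ (tri_null (X p) (X q))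
  rintro z ⟨⟨s', t', -, -, -, e⟩, s, t, h1, h2, h3, rfl⟩
  have e1 := congrArg (d4 (X i) (X j) (X k)) e
  rw [d4_tri, d4_tri, show d4 (X i) (X j) (X k) (X i) = 0 by unfold d4 dv; ring,
    show d4 (X i) (X j) (X k) (X j) = 0 by unfold d4 dv; ring,
    show d4 (X i) (X j) (X k) (X k) = 0 by unfold d4 dv; ring] at e1
  have a := mul_nonpos_of_nonneg_of_nonpos (by linarith : 0 ≤ 1 - s - t) (F.le p)
  have b := mul_nonpos_of_nonneg_of_nonpos h1 (F.le q)
  have c := F.2 r h.1 h.2.1 h.2.2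
  obtain rfl : t = 0 := by
    by_contra x
    linarith [mul_neg_of_pos_of_neg (lt_of_le_of_ne h2 (Ne.symm x)) c]
  exact ⟨s, 0, h1, le_rfl, h3, by simp⟩

theorem Un_eq (u : ∀ i, dt (X i) (X i) = 1) {T : List T3} (H : Hd (Fc X) T)
    (P : T.Pairwise fun t s => ∃ r, (r = s.1 ∨ r = s.2.1 ∨ r = s.2.2) ∧ r ≠ t.1 ∧ r ≠ t.2.1 ∧ r ≠ t.2.2) :
    μHE[2] (Un X T) = ENNReal.ofReal (sar X T) := by
  induction T with
  | nil => simp [Un, sar]
  | cons t T ih =>
    rw [List.pairwise_cons] at P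
    have F := H t (by simp)
    rw [Un_cons, sar_cons, ← Ps.meas ⟨u _, u _, u _, F.1⟩, ← ih (fun s hs => H s (by simp [hs])) P.2]
    refine measure_union₀' (tri_compact _ _ _).measurableSet.nullMeasurableSet ?_
    have : tri (X t.1) (X t.2.1) (X t.2.2) ∩ Un X T =
        ⋃ s ∈ {s | s ∈ T}, tri (X t.1) (X t.2.1) (X t.2.2) ∩ tri (X s.1) (X s.2.1) (X s.2.2) := by
      ext z; simp [Un]
    unfold AEDisjoint
    rw [this, measure_biUnion_null_iff (to_countable _)]
    intro s hs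
    obtain ⟨r, rfl | rfl | rfl, h⟩ := P.1 s hs
    · exact measure_mono_null (inter_subset_inter_right _ fun _ => tri_rot) (F.null h)
    · exact measure_mono_null (inter_subset_inter_right _ fun _ x => tri_rot (tri_rot x)) (F.null h)
    · exact F.null h

theorem not_int {K : Set V} {a z : V} {c : ℝ} (ha : 0 < dt a a) (h : ∀ y ∈ K, dt a y ≤ c) (hz : c ≤ dt a z) :
    z ∉ interior K := by
  intro hi
  have c : Continuous fun t : ℝ => z + t • a := by fun_prop
  obtain ⟨t, ht, h3⟩ := ((c.continuousAt (x := 0)).eventually (p := (· ∈ K))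
    (by simp only [zero_smul, add_zero]; exact mem_interior_iff_mem_nhds.1 hi)).exists_gt
  have := h _ h3
  rw [dt_comm, dt_add_smul, dt_comm] at this
  linarith [mul_pos ht ha]

theorem Un_sub {T : List T3} (H : Hd (Fc X) T) : Un X T ⊆ frontier (Hu X) := by
  rintro _ ⟨⟨i, j, k⟩, ht, s, t, h1, h2, h3, rfl⟩
  have F : Fc X i j k := H _ ht
  rw [(Hu.cp X).isClosed.frontier_eq]
  refine ⟨?_, ?_⟩
  · have := (Hu.cv X).sum_mem (t := Finset.univ) (w := ![1 - s - t, s, t]) (z := ![X i, X j, X k])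
      (by intro l _; fin_cases l <;> simp <;> linarith) (by simp [Fin.sum_univ_three]; ring)
      (by intro l _; fin_cases l <;> exact Hu.mem X _)
    convert this using 1
    simp only [Fin.sum_univ_three]
    show _ = (1 - s - t) • X i + s • X j + t • X k
    module
  · set n := cr (X i) (X j) + cr (X j) (X k) + cr (X k) (X i)
    have e : ∀ x, dt n x = d4 (X i) (X j) (X k) x + dv (X i) (X j) (X k) := fun x => by
      simp [n, dt, cr, d4, dv]; ring
    have z : ∀ x, x = X i ∨ x = X j ∨ x = X k → dt n x = dv (X i) (X j) (X k) := by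
      rintro x (rfl | rfl | rfl) <;> rw [e] <;> unfold d4 dv <;> ring
    refine not_int (a := n) (c := dv (X i) (X j) (X k)) ?_
      (fun y => Hu.le fun l => by rw [e]; linarith [F.le l]) ?_
    · rw [dt_self]
      refine pow_pos (norm_pos_iff.2 fun x => ?_) 2
      have := z _ (Or.inl rfl)
      rw [x] at this
      simp only [dt, PiLp.zero_apply, zero_mul, add_zero] at this
      linarith [F.1]
    · rw [dt_tri, z _ (Or.inl rfl), z _ (Or.inr (Or.inl rfl)), z _ (Or.inr (Or.inr rfl))]; linarith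

end Pool.Agent.Work.MP_c2ab8b_gt
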