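import Pool.Agent.Work.MP_c2ab8b_gt.Sum
import Mathlib.Analysis.Analytic.IsolatedZeros

/- Perturbation into general position and the limit of the area bound. -/

noncomputable section
namespace Pool.Agent.Work.MP_c2ab8b_gt
open Real MeasureTheory Set Filter Topology
open scoped Pointwise

def sph (θ φ : ℝ) : V := !₂[cos φ * cos θ, cos φ * sin θ, sin φ]

theorem sph_unit (θ φ : ℝ) : dt (sph θ φ) (sph θ φ) = 1 := by
  simp only [dt, sph, PiLp.toLp_apply, Matrix.cons_val]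
  linear_combination cos φ ^ 2 * sin_sq_add_cos_sq θ + sin_sq_add_cos_sq φ

theorem sph_surj {x : V} (h : dt x x = 1) : ∃ θ φ, sph θ φ = x := by
  unfold dt at h
  have b : -1 ≤ x 2 ∧ x 2 ≤ 1 := by constructor <;> nlinarith [mul_self_nonneg (x 0), mul_self_nonneg (x 1)]
  let z : ℂ := ⟨x 0, x 1⟩
  have e : cos (arcsin (x 2)) = ‖z‖ := by
    rw [cos_arcsin, Complex.norm_def, Complex.normSq_mk]; congr 1; linarith
  refine ⟨z.arg, arcsin (x 2), ?_⟩
  ext i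
  fin_cases i
  · simp [sph, e, z]
  · simp [sph, e, z]
  · simp [sph, sin_arcsin b.1 b.2]

def Zi : Fin 7 → ℤ × ℤ × ℤ :=
  ![(-6, 3, -6), (4, -1, 8), (8, 1, -4), (-8, 4, 1), (-4, 4, 7), (-6, -3, -6), (3, 6, -6)]
def dvi (a b c : ℤ × ℤ × ℤ) : ℤ :=
  a.1 * (b.2.1 * c.2.2 - b.2.2 * c.2.1) + a.2.1 * (b.2.2 * c.1 - b.1 * c.2.2) + a.2.2 * (b.1 * c.2.1 - b.2.1 * c.1)
def Zr (i : Fin 7) : V := !₂[(Zi i).1 / 9, (Zi i).2.1 / 9, (Zi i).2.2 / 9]

theorem Zr_dv (i j k : Fin 7) : dv (Zr i) (Zr j) (Zr k) = dvi (Zi i) (Zi j) (Zi k) / 729 := by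
  simp only [dv, Zr, dvi, PiLp.toLp_apply, Matrix.cons_val]; push_cast; ring

theorem ana {f : ℝ → ℝ} (hf : ∀ t, AnalyticAt ℝ f t) (h1 : f 1 ≠ 0) : ∀ᶠ t in 𝓝[≠] 0, f t ≠ 0 :=
  (hf 0).eventually_eq_zero_or_eventually_ne_zero.resolve_left fun h =>
    h1 (AnalyticOnNhd.eqOn_zero_of_preconnected_of_eventuallyEq_zero (U := univ) (fun t _ => hf t)
      isPreconnected_univ (mem_univ 0) h (mem_univ 1))

theorem path {X : Fin 7 → V} (u : ∀ i, dt (X i) (X i) = 1) : ∃ Y : ℝ → Fin 7 → V, Continuous Y ∧ Y 0 = X ∧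
    (∀ t i, dt (Y t i) (Y t i) = 1) ∧ ∀ᶠ t in 𝓝[≠] 0,
      (∀ i j k, i ≠ j → j ≠ k → k ≠ i → dv (Y t i) (Y t j) (Y t k) ≠ 0) ∧
      ∀ i j k l, i ≠ j → j ≠ k → k ≠ i → l ≠ i → l ≠ j → l ≠ k → d4 (Y t i) (Y t j) (Y t k) (Y t l) ≠ 0 := by
  choose θ φ h using fun i => sph_surj (u i)
  choose θ' φ' h' using fun i => sph_surj (x := Zr i) (by
    have := (by decide : ∀ i, (Zi i).1 * (Zi i).1 + (Zi i).2.1 * (Zi i).2.1 + (Zi i).2.2 * (Zi i).2.2 = 81) i
    have : (((Zi i).1 * (Zi i).1 + (Zi i).2.1 * (Zi i).2.1 + (Zi i).2.2 * (Zi i).2.2 : ℤ) : ℝ) = (81 : ℤ) := by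
      rw [this]
    simp only [dt, Zr, PiLp.toLp_apply, Matrix.cons_val]
    push_cast at this; linarith)
  let Y : ℝ → Fin 7 → V := fun t i => sph (θ i + t * (θ' i - θ i)) (φ i + t * (φ' i - φ i))
  have y1 : ∀ i, Y 1 i = Zr i := fun i => by simp [Y, h']
  have an : ∀ i j k t, AnalyticAt ℝ (fun t => dv (Y t i) (Y t j) (Y t k)) t := by
    intro i j k t
    simp only [dv, Y, sph, PiLp.toLp_apply, Matrix.cons_val]
    fun_prop
  refine ⟨Y, ?_, by funext i; simp [Y, h], fun t i => sph_unit _ _, Eventually.and ?_ ?_⟩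
  · refine continuous_pi fun i => (PiLp.continuous_toLp 2 _).comp (continuous_pi fun j => ?_)
    fin_cases j <;> simp <;> fun_prop
  · simp only [eventually_all]
    intro i j k a b c
    refine ana (an i j k) ?_
    have := (by decide +kernel : ∀ i j k, i ≠ j → j ≠ k → k ≠ i → dvi (Zi i) (Zi j) (Zi k) ≠ 0) i j k a b c
    simp only [y1, Zr_dv]
    exact div_ne_zero (Int.cast_ne_zero.2 this) (by norm_num)
  · simp only [eventually_all]
    intro i j k l a b c d e f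
    refine ana (fun t => (((an j k l t).sub (an i k l t)).add (an i j l t)).sub (an i j k t)) ?_
    have := (by decide +kernel : ∀ i j k l, i ≠ j → j ≠ k → k ≠ i → l ≠ i → l ≠ j → l ≠ k →
      dvi (Zi j) (Zi k) (Zi l) - dvi (Zi i) (Zi k) (Zi l) + dvi (Zi i) (Zi j) (Zi l) - dvi (Zi i) (Zi j) (Zi k) ≠ 0)
      i j k l a b c d e f
    simp only [d4, y1, Zr_dv, ← sub_div, ← add_div]
    exact div_ne_zero (by exact_mod_cast this) (by norm_num)

theorem shrink {X Y : Fin 7 → V} {r : ℝ} (hr : 0 < r) (hb : Metric.closedBall 0 r ⊆ Hu X)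
    (hc : 0 ≤ 1 - ‖Y - X‖ / r) : (1 - ‖Y - X‖ / r) • Hu X ⊆ Hu Y := by
  rintro _ ⟨x, hx, rfl⟩
  by_contra hn
  obtain ⟨f, u, h1, h2⟩ := geometric_hahn_banach_closed_point (Hu.cv Y) (Hu.cp Y).isClosed hn
  set a := (InnerProductSpace.toDual ℝ V).symm f
  have e : ∀ y, f y = dt a y := fun y => by rw [← inner_dt, InnerProductSpace.toDual_symm_apply]
  obtain ⟨m, -, hm⟩ := Finset.exists_max_image Finset.univ (fun l => dt a (X l)) Finset.univ_nonempty
  have le := fun z hz => Hu.le (fun l => hm l (Finset.mem_univ l)) (z := z) hz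
  have g1 : r * ‖a‖ ≤ dt a (X m) := by
    rcases (norm_nonneg a).eq_or_lt with h | h
    · rw [← h, mul_zero]; simpa [dt] using le 0 (hb (by simp [hr.le]))
    · have := le ((r / ‖a‖) • a) (hb (by
        rw [mem_closedBall_zero_iff, norm_smul, Real.norm_eq_abs, abs_of_pos (by positivity)]
        exact le_of_eq (by field_simp)))
      rw [← inner_dt, inner_smul_right, real_inner_self_eq_norm_sq] at this
      refine le_trans (le_of_eq ?_) this
      field_simp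
  have g2 : dt a (X m) - dt a (Y m) ≤ ‖a‖ * ‖Y - X‖ := by
    rw [← inner_dt, ← inner_dt, ← inner_sub_right]
    refine (real_inner_le_norm _ _).trans (mul_le_mul_of_nonneg_left ?_ (norm_nonneg _))
    rw [norm_sub_rev]; exact norm_le_pi_norm (Y - X) m
  have g3 := h1 _ (Hu.mem Y m)
  have g4 := mul_le_mul_of_nonneg_left (le x hx) hc
  have g5 := mul_le_mul_of_nonneg_left g1 (div_nonneg (norm_nonneg (Y - X)) hr.le)
  rw [← mul_assoc, div_mul_cancel₀ _ hr.ne'] at g5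
  simp only [map_smul, smul_eq_mul] at h2
  rw [e] at h2 g3
  linarith

theorem Fc.comp {X : Fin 7 → V} {σ : Fin 7 → Fin 7} {i j k : Fin 7} (h : Function.Injective σ)
    (F : Fc X (σ i) (σ j) (σ k)) : Fc (X ∘ σ) i j k :=
  ⟨F.1, fun l a b c => F.2 (σ l) (h.ne a) (h.ne b) (h.ne c)⟩

theorem Hu_comp (X : Fin 7 → V) {σ : Fin 7 → Fin 7} (h : Function.Injective σ) : Hu (X ∘ σ) = Hu X := by
  unfold Hu; rw [(Finite.injective_iff_surjective.1 h).range_comp]

def Ori (X : Fin 7 → V) : Prop := ∀ t ∈ ty0, 0 ≤ dv (X t.1) (X t.2.1) (X t.2.2)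

def Bd (X : Fin 7 → V) (s : ℝ) : Prop :=
  s ≤ 7.5604 ∨ ∃ p : Fin 7 → Fin 7, Function.Injective p ∧ Ori (X ∘ p) ∧ s ≤ 10 * (σ * γ) - Phi (X ∘ p) / 10 ^ 7

theorem Gen.bd {X : Fin 7 → V} (G : Gen X) (h0 : 0 ∈ interior (Hu X)) :
    ∃ s, 0 ≤ s ∧ μHE[2] (frontier (Hu X)) ≤ ENNReal.ofReal s ∧ Bd X s := by
  obtain ⟨p, hp, T, hT, H⟩ := G.ax.con
  have G' : Gen (X ∘ p) := ⟨fun i => G.u _, fun i j k a b c => G.g3 _ _ _ (hp.ne a) (hp.ne b) (hp.ne c),
    fun i j k l a b c d e f => G.g4 _ _ _ _ (hp.ne a) (hp.ne b) (hp.ne c) (hp.ne d) (hp.ne e) (hp.ne f),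
    fun d hd => by
      obtain ⟨l, hl⟩ := G.ins d hd
      obtain ⟨l, rfl⟩ := Finite.injective_iff_surjective.1 hp l
      exact ⟨l, hl⟩⟩
  have H' : Hd (Fc (X ∘ p)) T := fun t ht => (H t ht).comp hp
  refine ⟨sar (X ∘ p) T, List.sum_nonneg ?_, le_trans (measure_mono fun z hz => ?_) (Un_le G'.u H'), ?_⟩
  · simp only [List.mem_map]; rintro _ ⟨_, -, rfl⟩; unfold ar; positivity
  · rw [← Hu_comp X hp] at h0 hz
    obtain ⟨i, j, k, F, hz⟩ := G'.front h0 hz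
    rcases G'.ax.only hT H' F with h | h | h
    exacts [⟨_, h, hz⟩, ⟨_, h, tri_rot hz⟩, ⟨_, h, tri_rot (tri_rot hz)⟩]
  · simp only [tys, List.mem_cons, List.not_mem_nil, or_false] at hT
    rcases hT with rfl | rfl | rfl | rfl | rfl | rfl | rfl | rfl
    exacts [Or.inr ⟨p, hp, fun t ht => (H' t ht).1.le, sum0 G' H'⟩, Or.inl (sum1 G' H'), Or.inl (sum2 G' H'),
      Or.inl (sum3 G' H'), Or.inl (sum4 G' H'), Or.inl (sum5 G' H'), Or.inl (sum6 G' H'), Or.inl (sum7 G' H')]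

theorem main_bd {X : Fin 7 → V} (u : ∀ i, dt (X i) (X i) = 1) (h0 : 0 ∈ interior (Hu X)) :
    ∃ s, 0 ≤ s ∧ μHE[2] (frontier (Hu X)) = ENNReal.ofReal s ∧ Bd X s := by
  obtain ⟨Y, cY, y0, yu, ev⟩ := path u
  obtain ⟨r, hr, hb⟩ := Metric.nhds_basis_closedBall.mem_iff.1 (mem_interior_iff_mem_nhds.1 h0)
  set c : ℝ → ℝ := fun t => 1 - ‖Y t - X‖ / r
  have cc : Continuous c := by fun_prop
  have c0 : c 0 = 1 := by simp [c, y0]
  have ev2 : ∀ᶠ t in 𝓝[≠] 0, 0 < c t :=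
    (cc.continuousAt.eventually (p := (0 < ·)) (by rw [c0]; exact lt_mem_nhds one_pos)).filter_mono nhdsWithin_le_nhds
  have key : ∀ᶠ t in 𝓝[≠] 0, 0 < c t ∧ ∃ s, 0 ≤ s ∧
      ENNReal.ofReal (c t ^ 2) * μHE[2] (frontier (Hu X)) ≤ ENNReal.ofReal s ∧ Bd (Y t) s := by
    filter_upwards [ev, ev2] with t g p
    have sh : c t • Hu X ⊆ Hu (Y t) := shrink hr hb p.le
    have i0 : 0 ∈ interior (c t • Hu X) := by
      rw [interior_smul₀ p.ne']; exact ⟨0, h0, smul_zero _⟩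
    have i1 := interior_mono sh i0
    have G : Gen (Y t) := ⟨yu t, g.1, g.2, fun d ⟨x, hx⟩ => by
      by_contra hn
      push Not at hn
      refine not_int (a := d) (c := 0) ?_ (fun y => Hu.le hn) (by simp [dt]) i1
      rw [dt_self]
      exact pow_pos (norm_pos_iff.2 (by rintro rfl; simp [dt] at hx)) 2⟩
    obtain ⟨s, s0, h1, h2⟩ := G.bd i1
    refine ⟨p, s, s0, le_trans (le_of_eq ?_) ((area_mono ((Hu.cv X).smul _) ((Hu.cp X).smul _) i0
      (Hu.cp _) sh).trans h1), h2⟩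
    have : frontier (c t • Hu X) = c t • frontier (Hu X) :=
      ((Homeomorph.smulOfNeZero _ p.ne').image_frontier _).symm
    rw [this, Measure.euclideanHausdorffMeasure_smul₀ 2 p.ne', ENNReal.smul_def, smul_eq_mul,
      ENNReal.ofReal_pow p.le, ENNReal.coe_pow, ← enorm_eq_nnnorm, Real.enorm_eq_ofReal p.le]
  obtain ⟨t, p, s, -, h, -⟩ := key.exists
  have fin : μHE[2] (frontier (Hu X)) ≠ ⊤ := fun x => by
    rw [x, ENNReal.mul_top (by simpa using p.ne')] at h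
    simp at h
  set A := (μHE[2] (frontier (Hu X))).toReal
  have eA : μHE[2] (frontier (Hu X)) = ENNReal.ofReal A := (ENNReal.ofReal_toReal fin).symm
  refine ⟨A, ENNReal.toReal_nonneg, eA, ?_⟩
  have cd : ∀ i j, Continuous fun t => dt (Y t i) (Y t j) := fun i j => by unfold dt; fun_prop
  have cl : IsClosed {t | Bd (Y t) (c t ^ 2 * A)} := by
    simp only [Bd, Ori, ofPred_or, ofPred_exists, ofPred_and, ofPred_forall]
    refine (isClosed_le (by fun_prop) continuous_const).union (isClosed_iUnion_of_finite fun p =>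
      isClosed_const.inter ((isClosed_iInter fun t => isClosed_iInter fun _ =>
        isClosed_le continuous_const ?_).inter (isClosed_le (by fun_prop) ?_)))
    · unfold dv; simp only [Function.comp]; fun_prop
    · unfold Phi yy; simp only [Function.comp]; fun_prop
  have := cl.mem_of_tendsto (f := id) (b := 𝓝[≠] 0) (x := 0) nhdsWithin_le_nhds (by
    filter_upwards [key] with t ⟨_, s, s0, h1, h2⟩
    rw [eA, ← ENNReal.ofReal_mul (sq_nonneg _), ENNReal.ofReal_le_ofReal_iff s0] at h1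
    exact h2.imp h1.trans fun ⟨p, a, b, c⟩ => ⟨p, a, b, h1.trans c⟩)
  simpa [c0, y0] using this

end Pool.Agent.Work.MP_c2ab8b_gt
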