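import Pool.Agent.Work.MP_c2ab8b_gt.Hess

/- The parameters of the face inequalities. -/

noncomputable section
namespace Pool.Agent.Work.MP_c2ab8b_gt

def ss0 : Q :=
  ⟨⟨4503596508623544, 3118746952, 4503599627370496, 0, 4503599627370496, 0, 4503596792692081, 4503612543896228, 12916525732, 4503597393987502, 4503595676000584, 4503603578740408, 4503602376149565, 4503600915860685, 4503601903703163⟩,
    ⟨4503596508623544, 3118746952, 4503599627370496, 0, 4503599627370496, 0, 4503596792692081, 4503612543896228, 12916525732, 4503597393987502, 4503595676000584, 4503603578740408, 4503602376149565, 4503600915860685, 4503601903703163⟩,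
    ⟨4503596926007137, 2701363359, 4503599627370496, 0, 4503617399086173, 17771715677, 4503596792692081, 4503599627370496, 0, 4503597393987502, 4503596191396659, 4503603063344333, 4503608217305088, 4503602341789827, 4503602526473421⟩,
    true, false, 4503599627370496, 4503596409483893, 4503596409483893, 4503602285955252, 4503602397624402⟩

def ss1 : Q :=
  ⟨⟨4503596508623544, 3118746952, 4503599627370496, 0, 4503599627370496, 0, 4503596792692081, 4503612543896228, 12916525732, 4503597393987502, 4503595676000584, 4503603578740408, 4503602376149565, 4503600915860685, 4503601903703163⟩,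
    ⟨4503596926007137, 2701363359, 4503599627370496, 0, 4503617399086173, 17771715677, 4503596792692081, 4503599627370496, 0, 4503597393987502, 4503596191396659, 4503603063344333, 4503608217305088, 4503602341789827, 4503602526473421⟩,
    ⟨4503596508623544, 3118746952, 4503599627370496, 0, 4503599627370496, 0, 4503596792692081, 4503612543896228, 12916525732, 4503597393987502, 4503595676000584, 4503603578740408, 4503602376149565, 4503600915860685, 4503601903703163⟩,
    false, false, 4503599627370496, 4503596409483893, 4503596409483893, 4503602285955252, 4503602397624402⟩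

def pp0 : Q :=
  ⟨⟨4503596677754096, 2949616400, 4503599627370496, 0, 4503622510857465, 22883486969, 4503596792692081, 4503608448052206, 8820681710, 4503597393987502, 4503596191396659, 4503603063344333, 4503602376149565, 4503599627370496, 4503599627370496⟩,
    ⟨4503596677754096, 2949616400, 4503599627370496, 0, 4503622510857465, 22883486969, 4503596792692081, 4503608448052206, 8820681710, 4503597393987502, 4503596191396659, 4503603063344333, 4503602376149565, 4503599627370496, 4503599627370496⟩,
    ⟨4503596926007137, 2701363359, 4503599627370496, 0, 4503617399086173, 17771715677, 4503596792692081, 4503599627370496, 0, 4503597393987502, 4503596191396659, 4503603063344333, 4503608217305088, 4503599627370496, 4503599627370496⟩,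
    true, true, 4503596602528109, 4503596634882097, 4503596602528109, 4503608217305088, 4503599627370496⟩

def pp1 : Q :=
  ⟨⟨4503596677754096, 2949616400, 4503599627370496, 0, 4503622510857465, 22883486969, 4503596792692081, 4503608448052206, 8820681710, 4503597393987502, 4503596191396659, 4503603063344333, 4503602376149565, 4503599627370496, 4503599627370496⟩,
    ⟨4503596926007137, 2701363359, 4503599627370496, 0, 4503617399086173, 17771715677, 4503596792692081, 4503599627370496, 0, 4503597393987502, 4503596191396659, 4503603063344333, 4503608217305088, 4503599627370496, 4503599627370496⟩,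
    ⟨4503596677754096, 2949616400, 4503599627370496, 0, 4503622510857465, 22883486969, 4503596792692081, 4503608448052206, 8820681710, 4503597393987502, 4503596191396659, 4503603063344333, 4503602376149565, 4503599627370496, 4503599627370496⟩,
    false, true, 4503596602528109, 4503596634882097, 4503596602528109, 4503608217305088, 4503599627370496⟩

def ta0 : Q :=
  ⟨⟨4503596667669877, 2959700619, 4503599627370496, 0, 4503618726746464, 19099375968, 4503596921541100, 4503599627370496, 0, 4503597393987502, 4503596191396659, 4503603063344333, 4503608217305088, 4503599627370496, 4503599627370496⟩,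
    ⟨4503596667669877, 2959700619, 4503599627370496, 0, 4503618726746464, 19099375968, 4503596921541100, 4503599627370496, 0, 4503597393987502, 4503596191396659, 4503603063344333, 4503608217305088, 4503599627370496, 4503599627370496⟩,
    ⟨4503596525338956, 3102031540, 4503599658152527, 30782031, 4503619436464040, 19809093544, 4503596921541100, 4503609342719664, 9715349168, 4503597393987502, 4503596191396659, 4503603063344333, 4503608217305088, 4503599627370496, 4503599627370496⟩,
    true, false, 4503599627370496, 4503596333164940, 4503596333164940, 4503608217305088, 4503599627370496⟩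

def ta1 : Q :=
  ⟨⟨4503596667669877, 2959700619, 4503599627370496, 0, 4503618726746464, 19099375968, 4503596921541100, 4503599627370496, 0, 4503597393987502, 4503596191396659, 4503603063344333, 4503608217305088, 4503599627370496, 4503599627370496⟩,
    ⟨4503596525338956, 3102031540, 4503599658152527, 30782031, 4503619436464040, 19809093544, 4503596921541100, 4503609342719664, 9715349168, 4503597393987502, 4503596191396659, 4503603063344333, 4503608217305088, 4503599627370496, 4503599627370496⟩,
    ⟨4503596667669877, 2959700619, 4503599627370496, 0, 4503618726746464, 19099375968, 4503596921541100, 4503599627370496, 0, 4503597393987502, 4503596191396659, 4503603063344333, 4503608217305088, 4503599627370496, 4503599627370496⟩,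
    false, false, 4503599627370496, 4503596333164940, 4503596333164940, 4503608217305088, 4503599627370496⟩

def tb0 : Q :=
  ⟨⟨4503596993791040, 2633579456, 4503599376892298, 250478198, 4503615049197897, 15421827401, 4503596921541100, 4503599627370496, 0, 4503597393987502, 4503596191396659, 4503603063344333, 4503608217305088, 4503599627370496, 4503599627370496⟩,
    ⟨4503596993791040, 2633579456, 4503599376892298, 250478198, 4503615049197897, 15421827401, 4503596921541100, 4503599627370496, 0, 4503597393987502, 4503596191396659, 4503603063344333, 4503608217305088, 4503599627370496, 4503599627370496⟩,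
    ⟨4503596993791040, 2633579456, 4503599376892298, 250478198, 4503615049197897, 15421827401, 4503596921541100, 4503599627370496, 0, 4503597393987502, 4503596191396659, 4503603063344333, 4503608217305088, 4503599627370496, 4503599627370496⟩,
    true, false, 4503599627370496, 4503596799860381, 4503596799860381, 4503608217305088, 4503599627370496⟩

def tc0 : Q :=
  ⟨⟨4503596759564998, 2867805498, 4503599329282586, 298087910, 4503618074744659, 18447374163, 4503596921541100, 4503603468840785, 3841470289, 4503597393987502, 4503596191396659, 4503603063344333, 4503608217305088, 4503599627370496, 4503599627370496⟩,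
    ⟨4503596759564998, 2867805498, 4503599329282586, 298087910, 4503618074744659, 18447374163, 4503596921541100, 4503603468840785, 3841470289, 4503597393987502, 4503596191396659, 4503603063344333, 4503608217305088, 4503599627370496, 4503599627370496⟩,
    ⟨4503596993791040, 2633579456, 4503599877848694, 250478198, 4503615049197897, 15421827401, 4503596921541100, 4503599627370496, 0, 4503597393987502, 4503596191396659, 4503603063344333, 4503608217305088, 4503599627370496, 4503599627370496⟩,
    true, false, 4503599627370496, 4503596636050328, 4503596636050328, 4503608217305088, 4503599627370496⟩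

def tc1 : Q :=
  ⟨⟨4503596759564998, 2867805498, 4503599329282586, 298087910, 4503618074744659, 18447374163, 4503596921541100, 4503603468840785, 3841470289, 4503597393987502, 4503596191396659, 4503603063344333, 4503608217305088, 4503599627370496, 4503599627370496⟩,
    ⟨4503596993791040, 2633579456, 4503599877848694, 250478198, 4503615049197897, 15421827401, 4503596921541100, 4503599627370496, 0, 4503597393987502, 4503596191396659, 4503603063344333, 4503608217305088, 4503599627370496, 4503599627370496⟩,
    ⟨4503596759564998, 2867805498, 4503599329282586, 298087910, 4503618074744659, 18447374163, 4503596921541100, 4503603468840785, 3841470289, 4503597393987502, 4503596191396659, 4503603063344333, 4503608217305088, 4503599627370496, 4503599627370496⟩,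
    false, false, 4503599627370496, 4503596636050328, 4503596636050328, 4503608217305088, 4503599627370496⟩

def td0 : Q :=
  ⟨⟨4503596759564998, 2867805498, 4503599925458406, 298087910, 4503618074744659, 18447374163, 4503596921541100, 4503603468840785, 3841470289, 4503597393987502, 4503596191396659, 4503603063344333, 4503608217305088, 4503599627370496, 4503599627370496⟩,
    ⟨4503596759564998, 2867805498, 4503599925458406, 298087910, 4503618074744659, 18447374163, 4503596921541100, 4503603468840785, 3841470289, 4503597393987502, 4503596191396659, 4503603063344333, 4503608217305088, 4503599627370496, 4503599627370496⟩,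
    ⟨4503596525338956, 3102031540, 4503599596588465, 30782031, 4503619436464040, 19809093544, 4503596921541100, 4503609342719664, 9715349168, 4503597393987502, 4503596191396659, 4503603063344333, 4503608217305088, 4503599627370496, 4503599627370496⟩,
    true, false, 4503599627370496, 4503596709897996, 4503596709897996, 4503608217305088, 4503599627370496⟩

def td1 : Q :=
  ⟨⟨4503596759564998, 2867805498, 4503599925458406, 298087910, 4503618074744659, 18447374163, 4503596921541100, 4503603468840785, 3841470289, 4503597393987502, 4503596191396659, 4503603063344333, 4503608217305088, 4503599627370496, 4503599627370496⟩,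
    ⟨4503596525338956, 3102031540, 4503599596588465, 30782031, 4503619436464040, 19809093544, 4503596921541100, 4503609342719664, 9715349168, 4503597393987502, 4503596191396659, 4503603063344333, 4503608217305088, 4503599627370496, 4503599627370496⟩,
    ⟨4503596759564998, 2867805498, 4503599925458406, 298087910, 4503618074744659, 18447374163, 4503596921541100, 4503603468840785, 3841470289, 4503597393987502, 4503596191396659, 4503603063344333, 4503608217305088, 4503599627370496, 4503599627370496⟩,
    false, false, 4503599627370496, 4503596709897996, 4503596709897996, 4503608217305088, 4503599627370496⟩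

def ja0 : Q :=
  ⟨⟨4503596746873370, 2880497126, 4503599627370496, 0, 4503619961717065, 20334346569, 4503596835641754, 4503609199336475, 9571965979, 4503597393987502, 4503596191396659, 4503603063344333, 4503608217305088, 4503599627370496, 4503599627370496⟩,
    ⟨4503596746873370, 2880497126, 4503599627370496, 0, 4503619961717065, 20334346569, 4503596835641754, 4503609199336475, 9571965979, 4503597393987502, 4503596191396659, 4503603063344333, 4503608217305088, 4503599627370496, 4503599627370496⟩,
    ⟨4503596746873370, 2880497126, 4503599627370496, 0, 4503619961717065, 20334346569, 4503596835641754, 4503609199336475, 9571965979, 4503597393987502, 4503596191396659, 4503603063344333, 4503608217305088, 4503599627370496, 4503599627370496⟩,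
    true, false, 4503599627370496, 4503596593345469, 4503596593345469, 4503608217305088, 4503599627370496⟩

def jb0 : Q :=
  ⟨⟨4503596917400751, 2709969745, 4503599627370496, 0, 4503619961717065, 20334346569, 4503596835641754, 4503609199336475, 9571965979, 4503597393987502, 4503596191396659, 4503603063344333, 4503608217305088, 4503599627370496, 4503599627370496⟩,
    ⟨4503596917400751, 2709969745, 4503599627370496, 0, 4503619961717065, 20334346569, 4503596835641754, 4503609199336475, 9571965979, 4503597393987502, 4503596191396659, 4503603063344333, 4503608217305088, 4503599627370496, 4503599627370496⟩,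
    ⟨4503596746873370, 2880497126, 4503599627370496, 0, 4503619961717065, 20334346569, 4503596835641754, 4503609199336475, 9571965979, 4503597393987502, 4503596191396659, 4503603063344333, 4503608217305088, 4503599627370496, 4503599627370496⟩,
    true, false, 4503599627370496, 4503596861540406, 4503596861540406, 4503608217305088, 4503599627370496⟩

def jb1 : Q :=
  ⟨⟨4503596917400751, 2709969745, 4503599627370496, 0, 4503619961717065, 20334346569, 4503596835641754, 4503609199336475, 9571965979, 4503597393987502, 4503596191396659, 4503603063344333, 4503608217305088, 4503599627370496, 4503599627370496⟩,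
    ⟨4503596746873370, 2880497126, 4503599627370496, 0, 4503619961717065, 20334346569, 4503596835641754, 4503609199336475, 9571965979, 4503597393987502, 4503596191396659, 4503603063344333, 4503608217305088, 4503599627370496, 4503599627370496⟩,
    ⟨4503596917400751, 2709969745, 4503599627370496, 0, 4503619961717065, 20334346569, 4503596835641754, 4503609199336475, 9571965979, 4503597393987502, 4503596191396659, 4503603063344333, 4503608217305088, 4503599627370496, 4503599627370496⟩,
    false, false, 4503599627370496, 4503596861540406, 4503596861540406, 4503608217305088, 4503599627370496⟩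

/- An equal copy of the checker that leaves intermediate values unforced; it evaluates faster in the kernel. -/

def fS (x : ℕ) (f : ℕ → Bool) : Bool := Nat.rec true (fun n _ => f n) (Nat.succ x)

def abF (u : ℕ) : ℕ := Nat.add (Nat.sub u (nat_lit 4503599627370496)) (Nat.sub (nat_lit 4503599627370496) u)

def dot1F (a b : ℕ) : ℕ :=
  Nat.shiftRight (Nat.sub (Nat.add (Nat.mul a b) (nat_lit 20282428946464784258014046584832))
    (Nat.mul (nat_lit 4503599627370496) (Nat.add a b))) (nat_lit 32)

def dot2F (a b c d : ℕ) : ℕ :=
  Nat.shiftRight (Nat.sub (Nat.add (Nat.add (Nat.mul a b) (Nat.mul c d)) (nat_lit 40564838550116454681961297870848))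
    (Nat.mul (nat_lit 4503599627370496) (Nat.add (Nat.add a b) (Nat.add c d)))) (nat_lit 32)

def dotdF (a b : ℕ) : ℕ :=
  Nat.shiftRight (Nat.sub (Nat.add (Nat.mul a b) (nat_lit 20282419275058227340980648935424))
    (Nat.mul (nat_lit 4503599627370496) (Nat.add a b))) (nat_lit 31)

def extF (X : L) (k : E → Bool) : Bool :=
  L.rec (fun c g1 g2 g3 r => k ⟨c, g1, g2, g3, r, (abF c), Nat.add (Nat.add ((abF g1)) ((abF g2))) ((abF g3))⟩) X

def mulF (X Y : E) (k : L → Bool) : Bool :=
  E.rec (fun c a1 a2 a3 r m n => E.rec (fun d b1 b2 b3 s m' n' =>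
    Bool.rec false (k ⟨(dot1F c d), (dot2F c b1 d a1), (dot2F c b2 d a2), (dot2F c b3 d a3),
      (Nat.add (Nat.shiftRight (Nat.add (Nat.add (Nat.mul (Nat.add (Nat.add m n) r) s) (Nat.mul (Nat.add m' n') r))
        (Nat.mul n n')) (nat_lit 32)) (nat_lit 5))⟩)
      (Nat.ble (Nat.mul (Nat.add m n) (Nat.add m' n')) (nat_lit 37778931862957161709568))) Y) X

def sqF (X : E) (k : L → Bool) : Bool :=
  E.rec (fun c a1 a2 a3 r m n =>
    Bool.rec false
      (k ⟨(Nat.shiftRight (Nat.sub (Nat.add (Nat.add (Nat.mul c c) (Nat.shiftRight (Nat.mul (Nat.add n r) (Nat.add n r)) (nat_lit 1))) (nat_lit 20282428946464784258014046584832))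
        (Nat.mul (nat_lit 9007199254740992) c)) (nat_lit 32)), (dotdF c a1), (dotdF c a2), (dotdF c a3),
      (Nat.add (Nat.shiftRight (Nat.add (Nat.mul (Nat.mul (nat_lit 2) m) r) (Nat.shiftRight (Nat.mul (Nat.add n r) (Nat.add n r)) (nat_lit 1))) (nat_lit 32)) (nat_lit 6))⟩)
      (Nat.ble (Nat.mul (Nat.add m (Nat.add n r)) (Nat.add m (Nat.add n r))) (nat_lit 18889465931478580854784))) X

def smulF (t tm : ℕ) (X : L) (k : L → Bool) : Bool :=
  L.rec (fun c a1 a2 a3 r =>
    k ⟨(dot1F t c), (dot1F t a1), (dot1F t a2), (dot1F t a3), (Nat.add (Nat.shiftRight (Nat.mul tm r) (nat_lit 32)) (nat_lit 5))⟩) X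

def smulEF (t tm : ℕ) (X : E) (k : L → Bool) : Bool :=
  E.rec (fun c a1 a2 a3 r m n =>
    Bool.rec false (k ⟨(dot1F t c), (dot1F t a1), (dot1F t a2), (dot1F t a3), (Nat.add (Nat.shiftRight (Nat.mul tm r) (nat_lit 32)) (nat_lit 5))⟩)
      (Nat.ble (Nat.mul tm (Nat.add m n)) (nat_lit 37778931862957161709568))) X

def addF (X Y : L) (k : L → Bool) : Bool :=
  L.rec (fun c a1 a2 a3 r => L.rec (fun d b1 b2 b3 s =>
    k ⟨(Nat.sub (Nat.add c d) (nat_lit 4503599627370496)), (Nat.sub (Nat.add a1 b1) (nat_lit 4503599627370496)), (Nat.sub (Nat.add a2 b2) (nat_lit 4503599627370496)), (Nat.sub (Nat.add a3 b3) (nat_lit 4503599627370496)), Nat.add r s⟩) Y) X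

def subF (X Y : L) (k : L → Bool) : Bool :=
  L.rec (fun c a1 a2 a3 r => L.rec (fun d b1 b2 b3 s =>
    k ⟨(Nat.sub (Nat.add c (nat_lit 4503599627370496)) d), (Nat.sub (Nat.add a1 (nat_lit 4503599627370496)) b1), (Nat.sub (Nat.add a2 (nat_lit 4503599627370496)) b2), (Nat.sub (Nat.add a3 (nat_lit 4503599627370496)) b3), Nat.add r s⟩) Y) X

def addcF (X : L) (t e : ℕ) (k : L → Bool) : Bool :=
  L.rec (fun c a1 a2 a3 r => k ⟨(Nat.sub (Nat.add c t) (nat_lit 4503599627370496)), a1, a2, a3, Nat.add r e⟩) X

def addEF (X : E) (t : ℕ) (k : E → Bool) : Bool :=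
  E.rec (fun c a1 a2 a3 r _ n => let c' := (Nat.sub (Nat.add c t) (nat_lit 4503599627370496)); k ⟨c', a1, a2, a3, r, (abF c'), n⟩) X

def rsubF (t : ℕ) (X : E) (k : E → Bool) : Bool :=
  E.rec (fun c a1 a2 a3 r _ n => let c' := (Nat.sub (Nat.add t (nat_lit 4503599627370496)) c); k ⟨c', (Nat.sub (nat_lit 9007199254740992) a1), (Nat.sub (nat_lit 9007199254740992) a2), (Nat.sub (nat_lit 9007199254740992) a3), r, (abF c'), n⟩) X

def hiLeF (X : E) (t : ℕ) : Bool := E.rec (fun c _ _ _ r _ n => Nat.ble (Nat.add (Nat.add c n) r) t) X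
def loGeF (X : E) (t : ℕ) : Bool := E.rec (fun c _ _ _ r _ n => Nat.ble (Nat.add (Nat.add t n) r) c) X

def zeroF : L := ⟨(nat_lit 4503599627370496), (nat_lit 4503599627370496), (nat_lit 4503599627370496), (nat_lit 4503599627370496), (nat_lit 0)⟩

def posF (X : E) (k : L → Bool) : Bool :=
  E.rec (fun c a1 a2 a3 r m n =>
  Bool.rec (Bool.rec
    (let q := (Nat.shiftRight (Nat.add (Nat.add m n) r) (nat_lit 2));
      Bool.rec false (k ⟨Nat.add ((Nat.shiftRight (Nat.add c (nat_lit 4503599627370496)) (nat_lit 1))) q, (Nat.shiftRight (Nat.add a1 (nat_lit 4503599627370496)) (nat_lit 1)), (Nat.shiftRight (Nat.add a2 (nat_lit 4503599627370496)) (nat_lit 1)), (Nat.shiftRight (Nat.add a3 (nat_lit 4503599627370496)) (nat_lit 1)), Nat.add (Nat.add (Nat.shiftRight r (nat_lit 1)) q) (nat_lit 7)⟩)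
        (Nat.ble q (nat_lit 8796093022208)))
    (k zeroF) (Nat.ble (Nat.add (Nat.add c n) r) (nat_lit 4503599627370496)))
    (k ⟨c, a1, a2, a3, r⟩) (Nat.ble (Nat.add (Nat.add (nat_lit 4503599627370496) n) r) c)) X

def pos2F (X : E) (k : L → Bool) : Bool :=
  bif loGeF X (nat_lit 4503599627370496) then sqF X k else
  E.rec (fun c _ _ _ r _ n => let p := (Nat.sub (Nat.add (Nat.add c n) r) (nat_lit 4503599627370496));
    let q := (Nat.add (Nat.shiftRight (Nat.mul p p) (nat_lit 33)) (nat_lit 1));
    Nat.ble q (nat_lit 8796093022208) &&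
      k ⟨Nat.add q (nat_lit 4503599627370496), (nat_lit 4503599627370496), (nat_lit 4503599627370496), (nat_lit 4503599627370496), q⟩) X

def invF (X : E) (k : L → Bool) (z : Bool) : Bool :=
  E.rec (fun c _ _ _ r _ n =>
    let l := (Nat.sub c (Nat.add (Nat.add (nat_lit 4503599627370496) n) r));
    Bool.rec z (
      let q := (Nat.div (nat_lit 18446744073709551616) (Nat.sub c (nat_lit 4503599627370496)));
      let qo := (Nat.add q (nat_lit 4503599627370496));
      smulEF qo q X fun Y => extF Y fun Y => rsubF (nat_lit 4503603922337792) Y fun e =>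
      E.rec (fun _ _ _ _ er em en => let M := (Nat.add (Nat.add em en) er);
        let t := (Nat.add (Nat.shiftRight (Nat.div (Nat.mul M M) l) (nat_lit 1)) (nat_lit 2));
        Bool.rec z (smulEF qo q e fun W => addcF W (Nat.add qo t) t k) (Nat.ble t (nat_lit 8796093022208))) e)
      (Nat.ble (nat_lit 8388608) l)) X

def atanF (t : ℕ) : ℕ :=
  let s := (Nat.mul t t); let u := (Nat.mul s s);
  (Nat.div (Nat.mul t (Nat.sub
    (Nat.add (nat_lit 1004537067467811919410476429591445444036887838720) (Nat.mul u
      (Nat.add (nat_lit 713766516091007417380237448577024) (Nat.mul u (Nat.add (nat_lit 1408782258436833280) (Nat.mul u (nat_lit 3465)))))))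
    (Nat.mul s (Nat.add (nat_lit 19958358356710511831650663010109373808640) (Nat.mul u
      (Nat.add (nat_lit 30388428317266166950133760) (Nat.mul u (nat_lit 68702699520))))))))
    (nat_lit 958001201122104567919231824485249942814720))

def piF : L := ⟨(nat_lit 4503599627370496), (nat_lit 4503599627370496), (nat_lit 4503599627370496), (nat_lit 4503599627370496), (nat_lit 6746518853)⟩

def coreF (U V : L) (b : ℕ) (k : L → Bool) : Bool :=
  let t := (Nat.div (Nat.mul (abF V.c) (nat_lit 4096)) (Nat.sub U.c (nat_lit 4503599627370496)));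
  bif Nat.ble t (nat_lit 2048) then
    let tm := (Nat.mul t (nat_lit 1048576));
    let tq : ℕ := bif Nat.ble (nat_lit 4503599627370496) V.c then Nat.add tm (nat_lit 4503599627370496)
      else Nat.sub (nat_lit 4503599627370496) tm;
    smulF tq tm U fun tU => subF V tU fun N => smulF tq tm V fun tV => addF U tV fun D => extF D fun D =>
    invF D (fun I => extF I fun I => extF N fun N => mulF N I fun T => extF T fun T =>
      let M := (Nat.add (Nat.add T.m T.n) T.r);
      let cub := (Nat.add (Nat.div (Nat.mul (Nat.mul M M) M) (nat_lit 55340232221128654848)) (nat_lit 1));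
      bif Nat.ble (Nat.add (Nat.add T.n T.r) cub) (nat_lit 6746518853) then
        addcF T.l (bif Nat.ble (nat_lit 4503599627370496) V.c then Nat.add b (atanF t) else Nat.sub b (atanF t))
          (Nat.add (Nat.add cub (Nat.div (Nat.pow t (nat_lit 15)) (nat_lit 5352178847647349553968572385435606761435299840))) (nat_lit 3)) k
      else k piF) (k piF)
  else k piF

def argF (X : L) (Y : E) (k : L → Bool) : Bool :=
  let x := (Nat.sub X.c (nat_lit 4503599627370496));
  bif Nat.ble (Nat.mul (nat_lit 5) Y.m) (Nat.mul (nat_lit 2) x) then coreF X Y.l (nat_lit 4503599627370496) k else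
  bif Nat.ble (nat_lit 4503599627370496) Y.c then
    bif Nat.ble (Nat.mul (nat_lit 5) x) (Nat.mul (nat_lit 2) Y.m) then subF zeroF X fun V => coreF Y.l V (nat_lit 4503606373889348) k
    else addF X Y.l fun U => subF Y.l X fun V => coreF U V (nat_lit 4503603000629922) k
  else
    bif Nat.ble (Nat.mul (nat_lit 5) x) (Nat.mul (nat_lit 2) Y.m) then subF zeroF Y.l fun U => coreF U X (nat_lit 4503592880851644) k
    else subF X Y.l fun U => addF X Y.l fun V => coreF U V (nat_lit 4503596254111070) k

def st1F (q : P) (Y A : E) (F : L) (k : L → Bool) : Bool :=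
  addEF Y q.ny0 fun u => Bool.rec
    (pos2F u fun u2 => smulF q.k2 q.k2m u2 fun K => addcF K q.nw (nat_lit 0) fun K => extF K fun K =>
      mulF K A fun T => addF F T k)
    (smulF q.nw q.wm A.l fun T => addF F T k) (hiLeF u (nat_lit 4503599627370496))

def st2F (q : P) (Y A : E) (F : L) (k : L → Bool) : Bool :=
  Bool.rec (addEF Y q.ny1 fun v => Bool.rec
    (posF v fun v => extF v fun v => rsubF (nat_lit 4503603922337792) Y fun z => mulF v z fun W => extF W fun W =>
    addEF A q.na0 fun a1 => posF a1 fun r1 => rsubF q.na0 A fun a2 => posF a2 fun r2 =>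
    subF r1 r2 fun R => extF R fun R => mulF W R fun T => smulF q.k3 q.k3m T fun T => addF F T k)
    (k F) (hiLeF v (nat_lit 4503599627370496))) (k F)
    (Bool.rec (Bool.rec false (loGeF A q.na0) (hiLeF A q.pa0)) true (Nat.beq q.k3m (nat_lit 0)))

def st3F (q : P) (Y : E) (F : L) (k : L → Bool) : Bool :=
  Bool.rec (smulF q.p q.pm Y.l fun T => addF F T k) (k F) (Nat.beq q.pm (nat_lit 0))

def slotF (q : P) (H S C Y : E) (F : L) (k : L → Bool) : Bool :=
  mulF H S fun X => argF X C fun A => extF A fun A =>
    st1F q Y A F fun F => st2F q Y A F fun F => st3F q Y F k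

def trigF (T : E) (k : E → E → Bool) : Bool :=
  sqF T fun D => addcF D (nat_lit 4503603922337792) (nat_lit 0) fun D => extF D fun D =>
  invF D (fun I => extF I fun I => addF I.l I.l fun S => addcF S (nat_lit 4503595332403200) (nat_lit 0) fun S => extF S fun S =>
    mulF T I fun M => addF M M fun M => subF zeroF M fun C => extF C fun C => k S C) false

def geoF (a1 r1 a2 r2 a3 r3 : ℕ) (k : E → E → E → E → E → E → E → L → Bool) : Bool :=
  Nat.ble (Nat.add (Nat.add (Nat.add (abF (Nat.add a1 r1)) r1) (Nat.add (abF (Nat.add a2 r2)) r2))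
    (Nat.add (abF (Nat.add a3 r3)) r3)) (nat_lit 17592186044416) &&
  extF ⟨(Nat.add a1 r1), (Nat.add r1 (nat_lit 4503599627370496)), (nat_lit 4503599627370496), (nat_lit 4503599627370496), (nat_lit 0)⟩ fun H =>
  extF ⟨(Nat.add a2 r2), (nat_lit 4503599627370496), (Nat.add r2 (nat_lit 4503599627370496)), (nat_lit 4503599627370496), (nat_lit 0)⟩ fun T1 =>
  extF ⟨(Nat.add a3 r3), (nat_lit 4503599627370496), (nat_lit 4503599627370496), (Nat.add r3 (nat_lit 4503599627370496)), (nat_lit 0)⟩ fun T2 =>
  trigF T1 fun S1 C1 => trigF T2 fun S2 C2 =>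
  mulF S1 S2 fun W => mulF S1 C2 fun U => mulF C1 S2 fun V => addF U V fun S3 => extF S3 fun S3 =>
  mulF C1 C2 fun U => subF W U fun C3 => extF C3 fun C3 => k H S1 C1 S2 C2 S3 C3 W

def hiLtF (X : E) (t : ℕ) : Bool := Bool.rec false (Nat.ble (nat_lit 1) t) (hiLeF X (Nat.pred t))
def loGtF (X : E) (t : ℕ) : Bool := loGeF X (Nat.succ t)

def bodyF (q : Q) (H S1 C1 S2 C2 S3 C3 : E) (W : L) (R Y1 Y2 Y3 : E) (tg : ℕ) : Bool :=
  mulF R S3 fun U => extF U fun U => extF W fun W => mulF W U fun F => addF F F fun F =>
  slotF q.p1 H S1 C1 Y1 F fun F => slotF q.p2 H S2 C2 Y2 F fun F => slotF q.p3 H S3 C3 Y3 F fun F =>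
  extF F fun F => hiLeF F tg

def ysqF (R S : E) (k : E → Bool) : Bool := sqF S fun U => extF U fun U => mulF R U fun Y => extF Y k

def leafF (q : Q) (a1 r1 a2 r2 a3 r3 : ℕ) : Bool :=
  Nat.ble (nat_lit 9007199254740993) (Nat.add a2 a3) ||
  (q.sym && Nat.ble (Nat.succ (Nat.add a2 (Nat.mul (nat_lit 2) r2))) a3) ||
  geoF a1 r1 a2 r2 a3 r3 fun H S1 C1 S2 C2 S3 C3 W =>
  subF C1.l C3.l fun U => extF U fun U => loGtF U (nat_lit 4503599627370496) ||
  subF C2.l C3.l fun U => extF U fun U => loGtF U (nat_lit 4503599627370496) ||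
  sqF H fun R => extF R fun R => rsubF (nat_lit 4503603922337792) R fun R =>
  ysqF R S1 fun Y1 => ysqF R S2 fun Y2 => ysqF R S3 fun Y3 =>
  bif loGtF Y1 q.p1.t || loGtF Y2 q.p2.t || loGtF Y3 q.p3.t ||
      (loGeF H q.h0 && hiLeF H q.h1 && loGeF C1 q.p1.nl && hiLeF C1 q.p1.nh && loGeF C2 q.p2.nl &&
        hiLeF C2 q.p2.nh && loGeF C3 q.p3.nl && hiLeF C3 q.p3.nh) then
    (!q.useL || (hiLtF Y1 q.p1.t && hiLtF Y2 q.p2.t && hiLtF Y3 q.p3.t)) ||
      bodyF q H S1 C1 S2 C2 S3 C3 W R Y1 Y2 Y3 q.cA
  else bif !q.useL || (hiLtF Y1 q.p1.t && hiLtF Y2 q.p2.t && hiLtF Y3 q.p3.t) then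
    bodyF q H S1 C1 S2 C2 S3 C3 W R Y1 Y2 Y3 q.cB
  else bodyF q H S1 C1 S2 C2 S3 C3 W R Y1 Y2 Y3 q.cM

def bbF (lf : ℕ → ℕ → ℕ → ℕ → ℕ → ℕ → Bool) (fuel : ℕ) : ℕ → ℕ → ℕ → ℕ → ℕ → ℕ → ℕ → Bool :=
  Nat.rec (fun _ _ _ _ _ _ _ => false) (fun _ ih code a1 r1 a2 r2 a3 r3 =>
    fN (Nat.land code 3) fun d => bif Nat.beq d 0 then lf a1 r1 a2 r2 a3 r3 else
    fN (Nat.land (Nat.shiftRight code 2) 31) fun w =>
    fN (Nat.land (Nat.shiftRight code 7) (Nat.pred (Nat.shiftLeft 1 w))) fun n =>
    fN (Nat.shiftRight code (Nat.add 7 w)) fun e =>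
    fS (Nat.land e (Nat.pred (Nat.shiftLeft 1 n))) fun x => fS (Nat.shiftRight e n) fun z =>
    bif Nat.beq d 1 then fS (Nat.sub r1 (Nat.shiftRight r1 1)) fun s => fS (Nat.add a1 r1) fun b =>
      ih x a1 s a2 r2 a3 r3 && ih z b s a2 r2 a3 r3
    else bif Nat.beq d 2 then fS (Nat.sub r2 (Nat.shiftRight r2 1)) fun s => fS (Nat.add a2 r2) fun b =>
      ih x a1 r1 a2 s a3 r3 && ih z a1 r1 b s a3 r3
    else fS (Nat.sub r3 (Nat.shiftRight r3 1)) fun s => fS (Nat.add a3 r3) fun b =>
      ih x a1 r1 a2 r2 a3 s && ih z a1 r1 a2 r2 b s) fuel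

theorem fS_eq (x : ℕ) (f : ℕ → Bool) : fS x f = f x := rfl
theorem and_rc (c a : Bool) : (c && a) = Bool.rec false a c := by cases c <;> rfl
theorem or_rc (c a : Bool) : (c || a) = Bool.rec a true c := by cases c <;> rfl
theorem cond_rc {α : Type} (c : Bool) (a b : α) : (bif c then a else b) = Bool.rec b a c := by cases c <;> rfl
theorem abF_eq : abF = ab := rfl
theorem dot1F_eq : dot1F = dot1 := rfl
theorem dot2F_eq : dot2F = dot2 := rfl
theorem dotdF_eq : dotdF = dotd := rfl
theorem zeroF_eq : zeroF = zeroL := rfl
theorem piF_eq : piF = piL := rfl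
theorem hiLeF_eq : hiLeF = hiLe := rfl
theorem loGeF_eq : loGeF = loGe := rfl
theorem loGtF_eq : loGtF = loGt := rfl
theorem hiLtF_eq : hiLtF = hiLt := by
  funext X t; simp only [hiLt, and_rc]; rfl
theorem extF_eq : extF = ext := by
  funext X k; cases X; simp only [ext, fN_eq]; rfl
theorem mulF_eq : mulF = mul := by
  funext X Y k; cases X; cases Y; simp only [mul, fN_eq, mkL_eq, and_rc]; rfl
theorem sqF_eq : sqF = sq := by
  funext X k; cases X; simp only [sq, fN_eq, mkL_eq, and_rc]; rfl
theorem smulF_eq : smulF = smul := by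
  funext t tm X k; cases X; simp only [smul, mkL_eq]; rfl
theorem smulEF_eq : smulEF = smulE := by
  funext t tm X k; cases X; simp only [smulE, mkL_eq, and_rc]; rfl
theorem addF_eq : addF = add := by
  funext X Y k; cases X; cases Y; simp only [add, mkL_eq]; rfl
theorem subF_eq : subF = sub := by
  funext X Y k; cases X; cases Y; simp only [sub, mkL_eq]; rfl
theorem addcF_eq : addcF = addc := by
  funext X t e k; cases X; simp only [addc, fN_eq]; rfl
theorem addEF_eq : addEF = addE := by
  funext X t k; cases X; simp only [addE, fN_eq]; rfl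
theorem rsubF_eq : rsubF = rsub := by
  funext t X k; cases X; simp only [rsub, fN_eq]; rfl
theorem posF_eq : posF = pos := by
  funext X k; cases X; simp only [pos, fN_eq, mkL_eq, and_rc, cond_rc]; rfl
theorem pos2F_eq : pos2F = pos2 := by
  funext X k; cases X; simp only [pos2, fN_eq, ← sqF_eq]; rfl
theorem invF_eq : invF = inv := by
  funext X k z; cases X; simp only [inv, fN_eq, cond_rc, ← smulEF_eq, ← extF_eq, ← rsubF_eq, ← addcF_eq]; rfl
theorem atanF_eq (t : ℕ) (k : ℕ → Bool) : atanK t k = k (atanF t) := by
  simp only [atanK, fN_eq]; rfl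
theorem coreF_eq : coreF = core := by
  funext U V b k
  simp only [core, fN_eq, atanF_eq, ← smulF_eq, ← subF_eq, ← addF_eq, ← extF_eq, ← invF_eq, ← mulF_eq,
    ← addcF_eq]
  rfl
theorem argF_eq : argF = arg := by
  funext X Y k; simp only [arg, fN_eq, ← subF_eq, ← addF_eq, ← coreF_eq]; rfl
theorem st1F_eq : st1F = st1 := by
  funext q Y A F k
  simp only [st1, cond_rc, ← addEF_eq, ← smulF_eq, ← addF_eq, ← pos2F_eq, ← addcF_eq, ← extF_eq, ← mulF_eq]; rfl
theorem st2F_eq : st2F = st2 := by
  funext q Y A F k
  simp only [st2, cond_rc, and_rc, or_rc, ← addEF_eq, ← smulF_eq, ← addF_eq, ← posF_eq, ← rsubF_eq, ← subF_eq,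
    ← extF_eq, ← mulF_eq]; rfl
theorem st3F_eq : st3F = st3 := by
  funext q Y F k; simp only [st3, cond_rc, ← smulF_eq, ← addF_eq]; rfl
theorem slotF_eq : slotF = slot := by
  funext q H S C Y F k
  simp only [slot, ← mulF_eq, ← argF_eq, ← extF_eq, ← st1F_eq, ← st2F_eq, ← st3F_eq]; rfl
theorem trigF_eq : trigF = trig := by
  funext T k
  simp only [trig, ← sqF_eq, ← addcF_eq, ← extF_eq, ← invF_eq, ← addF_eq, ← mulF_eq, ← subF_eq]; rfl
theorem geoF_eq : geoF = geo := by
  funext a1 r1 a2 r2 a3 r3 k
  simp only [geo, mkL_eq, ← extF_eq, ← trigF_eq, ← addF_eq, ← mulF_eq, ← subF_eq]; rfl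
theorem bodyF_eq : bodyF = body := by
  funext q H S1 C1 S2 C2 S3 C3 W R Y1 Y2 Y3 tg
  simp only [body, ← extF_eq, ← slotF_eq, ← addF_eq, ← mulF_eq]; rfl
theorem ysqF_eq : ysqF = ysq := by
  funext R S k; simp only [ysq, ← extF_eq, ← sqF_eq, ← mulF_eq]; rfl
theorem leafF_eq : leafF = leaf := by
  funext q a1 r1 a2 r2 a3 r3
  simp only [leaf, ← geoF_eq, ← subF_eq, ← extF_eq, ← sqF_eq, ← rsubF_eq, ← ysqF_eq, ← bodyF_eq, ← hiLtF_eq]; rfl
theorem bbF_eq : bbF = bb := by
  funext lf fuel; simp only [bbF, bb, fS_eq, fN_eq]
theorem ofF {q : Q} {f c a1 r1 a2 r2 a3 r3 : ℕ} (h : bbF (leafF q) f c a1 r1 a2 r2 a3 r3 = true) :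
    bb (leaf q) f c a1 r1 a2 r2 a3 r3 = true := by rw [← bbF_eq, ← leafF_eq]; exact h

end Pool.Agent.Work.MP_c2ab8b_gt
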