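import Pool.Agent.Work.MP_c2ab8b_gt.Faces
import Pool.Agent.Work.MP_c2ab8b_gt.Meas

/- Summing the face inequalities over each combinatorial type. -/

noncomputable section
namespace Pool.Agent.Work.MP_c2ab8b_gt
open Real

variable {X : Fin 7 → V}

theorem Gen.ax (G : Gen X) : Ax (Fc X) :=
  ⟨Fc.rot, Fc.anti, Fc.uniq, Fc.nxt G, G.vert, Fc.three⟩

theorem Gen.cyc3 (G : Gen X) {v a b c : Fin 7} (h : Function.Injective ![a, b, c])
    (h0 : Fc X v a b) (h1 : Fc X v b c) (h2 : Fc X v c a) :
    (An (X v) (X a) (X b) + An (X b) (X v) (X a)) +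
    (An (X v) (X b) (X c) + An (X c) (X v) (X b)) +
    (An (X v) (X c) (X a) + An (X a) (X v) (X c)) = 2 * π := by
  have := G.cyc (v := v) (finRotate 3) h (by intro t; fin_cases t <;> assumption)
  simp only [Fin.sum_univ_succ, Fin.sum_univ_zero] at this
  rw [← this]; simp only [add_assoc, add_zero]; rfl

theorem Gen.cyc4 (G : Gen X) {v a b c d : Fin 7} (h : Function.Injective ![a, b, c, d])
    (h0 : Fc X v a b) (h1 : Fc X v b c) (h2 : Fc X v c d) (h3 : Fc X v d a) :
    (An (X v) (X a) (X b) + An (X b) (X v) (X a)) +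
    (An (X v) (X b) (X c) + An (X c) (X v) (X b)) +
    (An (X v) (X c) (X d) + An (X d) (X v) (X c)) +
    (An (X v) (X d) (X a) + An (X a) (X v) (X d)) = 2 * π := by
  have := G.cyc (v := v) (finRotate 4) h (by intro t; fin_cases t <;> assumption)
  simp only [Fin.sum_univ_succ, Fin.sum_univ_zero] at this
  rw [← this]; simp only [add_assoc, add_zero]; rfl

theorem Gen.cyc5 (G : Gen X) {v a b c d e : Fin 7} (h : Function.Injective ![a, b, c, d, e])
    (h0 : Fc X v a b) (h1 : Fc X v b c) (h2 : Fc X v c d) (h3 : Fc X v d e) (h4 : Fc X v e a) :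
    (An (X v) (X a) (X b) + An (X b) (X v) (X a)) +
    (An (X v) (X b) (X c) + An (X c) (X v) (X b)) +
    (An (X v) (X c) (X d) + An (X d) (X v) (X c)) +
    (An (X v) (X d) (X e) + An (X e) (X v) (X d)) +
    (An (X v) (X e) (X a) + An (X a) (X v) (X e)) = 2 * π := by
  have := G.cyc (v := v) (finRotate 5) h (by intro t; fin_cases t <;> assumption)
  simp only [Fin.sum_univ_succ, Fin.sum_univ_zero] at this
  rw [← this]; simp only [add_assoc, add_zero]; rfl

theorem Gen.cyc6 (G : Gen X) {v a b c d e f : Fin 7} (h : Function.Injective ![a, b, c, d, e, f])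
    (h0 : Fc X v a b) (h1 : Fc X v b c) (h2 : Fc X v c d) (h3 : Fc X v d e) (h4 : Fc X v e f) (h5 : Fc X v f a) :
    (An (X v) (X a) (X b) + An (X b) (X v) (X a)) +
    (An (X v) (X b) (X c) + An (X c) (X v) (X b)) +
    (An (X v) (X c) (X d) + An (X d) (X v) (X c)) +
    (An (X v) (X d) (X e) + An (X e) (X v) (X d)) +
    (An (X v) (X e) (X f) + An (X f) (X v) (X e)) +
    (An (X v) (X f) (X a) + An (X a) (X v) (X f)) = 2 * π := by
  have := G.cyc (v := v) (finRotate 6) h (by intro t; fin_cases t <;> assumption)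
  simp only [Fin.sum_univ_succ, Fin.sum_univ_zero] at this
  rw [← this]; simp only [add_assoc, add_zero]; rfl

theorem Fc.edge (G : Gen X) {e : ℝ → ℝ → ℝ} (he : ∀ {y A A' : ℝ}, y ≤ 1 → 0 ≤ A + A' → 0 ≤ e y A + e y A')
    {i j k l : Fin 7} (h : Fc X i j k) (h' : Fc X j i l) :
    0 ≤ e (yy (X i) (X j)) (An (X i) (X j) (X k)) + e (yy (X j) (X i)) (An (X j) (X i) (X l)) := by
  rw [yy_comm (X j)]
  exact he (yy_bd (G.u i) (G.u j)).2 (h.del G h')

theorem sum1 (G : Gen X) (H : Hd (Fc X) ty1) : sar X ty1 ≤ 7.5604 := by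
  have f012 : Fc X 0 1 2 := H (0, 1, 2) (by decide)
  have f120 := f012.rot
  have f201 := f120.rot
  have f023 : Fc X 0 2 3 := H (0, 2, 3) (by decide)
  have f230 := f023.rot
  have f302 := f230.rot
  have f031 : Fc X 0 3 1 := H (0, 3, 1) (by decide)
  have f310 := f031.rot
  have f103 := f310.rot
  have f134 : Fc X 1 3 4 := H (1, 3, 4) (by decide)
  have f341 := f134.rot
  have f413 := f341.rot
  have f145 : Fc X 1 4 5 := H (1, 4, 5) (by decide)
  have f451 := f145.rot
  have f514 := f451.rot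
  have f152 : Fc X 1 5 2 := H (1, 5, 2) (by decide)
  have f521 := f152.rot
  have f215 := f521.rot
  have f256 : Fc X 2 5 6 := H (2, 5, 6) (by decide)
  have f562 := f256.rot
  have f625 := f562.rot
  have f263 : Fc X 2 6 3 := H (2, 6, 3) (by decide)
  have f632 := f263.rot
  have f326 := f632.rot
  have f364 : Fc X 3 6 4 := H (3, 6, 4) (by decide)
  have f643 := f364.rot
  have f436 := f643.rot
  have f465 : Fc X 4 6 5 := H (4, 6, 5) (by decide)
  have f654 := f465.rot
  have f546 := f654.rot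
  simp only [sar, ty1, List.map_cons, List.map_nil, List.sum_cons, List.sum_nil]
  linarith [pi_lt_d6,
    G.cyc3 (by decide) f012 f023 f031,
    G.cyc5 (by decide) f120 f103 f134 f145 f152,
    G.cyc5 (by decide) f201 f215 f256 f263 f230,
    G.cyc5 (by decide) f302 f326 f364 f341 f310,
    G.cyc4 (by decide) f413 f436 f465 f451,
    G.cyc4 (by decide) f514 f546 f562 f521,
    G.cyc4 (by decide) f625 f654 f643 f632,
    f012.edge G e35_add f103,
    yy_comm (X 0) (X 1),
    f120.edge G e55_add f215,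
    yy_comm (X 1) (X 2),
    f023.edge G e35_add f201,
    yy_comm (X 0) (X 2),
    f230.edge G e55_add f326,
    yy_comm (X 2) (X 3),
    f031.edge G e35_add f302,
    yy_comm (X 0) (X 3),
    f134.edge G e55_add f310,
    yy_comm (X 1) (X 3),
    f341.edge G e45_add f436,
    yy_comm (X 3) (X 4),
    f145.edge G e45_add f413,
    yy_comm (X 1) (X 4),
    f451.edge G e44_add f546,
    yy_comm (X 4) (X 5),
    f152.edge G e45_add f514,
    yy_comm (X 1) (X 5),
    f256.edge G e45_add f521,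
    yy_comm (X 2) (X 5),
    f562.edge G e44_add f654,
    yy_comm (X 5) (X 6),
    f263.edge G e45_add f625,
    yy_comm (X 2) (X 6),
    f364.edge G e45_add f632,
    yy_comm (X 3) (X 6),
    f465.edge G e44_add f643,
    yy_comm (X 4) (X 6),
    f_ta (f012.ps G),
    f_ta (f023.ps G),
    f_ta (f031.ps G),
    f_td (f413.ps G),
    ar_rot (X 4) (X 1) (X 3),
    f_tc (f145.ps G),
    f_td (f521.ps G),
    ar_rot (X 1) (X 5) (X 2),
    f_tc (f256.ps G),
    f_td (f632.ps G),
    ar_rot (X 2) (X 6) (X 3),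
    f_tc (f364.ps G),
    f_tb (f465.ps G)]

theorem sum2 (G : Gen X) (H : Hd (Fc X) ty2) : sar X ty2 ≤ 7.5604 := by
  have f012 : Fc X 0 1 2 := H (0, 1, 2) (by decide)
  have f120 := f012.rot
  have f201 := f120.rot
  have f023 : Fc X 0 2 3 := H (0, 2, 3) (by decide)
  have f230 := f023.rot
  have f302 := f230.rot
  have f031 : Fc X 0 3 1 := H (0, 3, 1) (by decide)
  have f310 := f031.rot
  have f103 := f310.rot
  have f134 : Fc X 1 3 4 := H (1, 3, 4) (by decide)
  have f341 := f134.rot
  have f413 := f341.rot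
  have f145 : Fc X 1 4 5 := H (1, 4, 5) (by decide)
  have f451 := f145.rot
  have f514 := f451.rot
  have f152 : Fc X 1 5 2 := H (1, 5, 2) (by decide)
  have f521 := f152.rot
  have f215 := f521.rot
  have f246 : Fc X 2 4 6 := H (2, 4, 6) (by decide)
  have f462 := f246.rot
  have f624 := f462.rot
  have f254 : Fc X 2 5 4 := H (2, 5, 4) (by decide)
  have f542 := f254.rot
  have f425 := f542.rot
  have f263 : Fc X 2 6 3 := H (2, 6, 3) (by decide)
  have f632 := f263.rot
  have f326 := f632.rot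
  have f364 : Fc X 3 6 4 := H (3, 6, 4) (by decide)
  have f643 := f364.rot
  have f436 := f643.rot
  simp only [sar, ty2, List.map_cons, List.map_nil, List.sum_cons, List.sum_nil]
  linarith [pi_lt_d6,
    G.cyc3 (by decide) f012 f023 f031,
    G.cyc5 (by decide) f120 f103 f134 f145 f152,
    G.cyc6 (by decide) f201 f215 f254 f246 f263 f230,
    G.cyc5 (by decide) f302 f326 f364 f341 f310,
    G.cyc5 (by decide) f413 f436 f462 f425 f451,
    G.cyc3 (by decide) f514 f542 f521,
    G.cyc3 (by decide) f624 f643 f632,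
    f012.edge G ej_add f103,
    f120.edge G ej_add f215,
    f023.edge G ej_add f201,
    f230.edge G ej_add f326,
    f031.edge G ej_add f302,
    f134.edge G ej_add f310,
    f341.edge G ej_add f436,
    f145.edge G ej_add f413,
    f451.edge G ej_add f542,
    f152.edge G ej_add f514,
    f246.edge G ej_add f425,
    f462.edge G ej_add f643,
    f254.edge G ej_add f521,
    f263.edge G ej_add f624,
    f364.edge G ej_add f632,
    f_jb (f012.ps G),
    f_jb (f023.ps G),
    f_jb (f031.ps G),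
    f_ja (f134.ps G),
    f_jb (f514.ps G),
    ar_rot (X 5) (X 1) (X 4),
    f_jb (f521.ps G),
    ar_rot (X 1) (X 5) (X 2),
    f_ja (f246.ps G),
    f_jb (f542.ps G),
    ar_rot (X 2) (X 5) (X 4),
    f_ja (f263.ps G),
    f_ja (f364.ps G)]

theorem sum3 (G : Gen X) (H : Hd (Fc X) ty3) : sar X ty3 ≤ 7.5604 := by
  have f012 : Fc X 0 1 2 := H (0, 1, 2) (by decide)
  have f120 := f012.rot
  have f201 := f120.rot
  have f023 : Fc X 0 2 3 := H (0, 2, 3) (by decide)
  have f230 := f023.rot
  have f302 := f230.rot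
  have f031 : Fc X 0 3 1 := H (0, 3, 1) (by decide)
  have f310 := f031.rot
  have f103 := f310.rot
  have f134 : Fc X 1 3 4 := H (1, 3, 4) (by decide)
  have f341 := f134.rot
  have f413 := f341.rot
  have f142 : Fc X 1 4 2 := H (1, 4, 2) (by decide)
  have f421 := f142.rot
  have f214 := f421.rot
  have f245 : Fc X 2 4 5 := H (2, 4, 5) (by decide)
  have f452 := f245.rot
  have f524 := f452.rot
  have f256 : Fc X 2 5 6 := H (2, 5, 6) (by decide)
  have f562 := f256.rot
  have f625 := f562.rot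
  have f263 : Fc X 2 6 3 := H (2, 6, 3) (by decide)
  have f632 := f263.rot
  have f326 := f632.rot
  have f354 : Fc X 3 5 4 := H (3, 5, 4) (by decide)
  have f543 := f354.rot
  have f435 := f543.rot
  have f365 : Fc X 3 6 5 := H (3, 6, 5) (by decide)
  have f653 := f365.rot
  have f536 := f653.rot
  simp only [sar, ty3, List.map_cons, List.map_nil, List.sum_cons, List.sum_nil]
  linarith [pi_lt_d6,
    G.cyc3 (by decide) f012 f023 f031,
    G.cyc4 (by decide) f120 f103 f134 f142,
    G.cyc6 (by decide) f201 f214 f245 f256 f263 f230,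
    G.cyc6 (by decide) f302 f326 f365 f354 f341 f310,
    G.cyc4 (by decide) f413 f435 f452 f421,
    G.cyc4 (by decide) f524 f543 f536 f562,
    G.cyc3 (by decide) f625 f653 f632,
    f012.edge G ej_add f103,
    f120.edge G ej_add f214,
    f023.edge G ej_add f201,
    f230.edge G ej_add f326,
    f031.edge G ej_add f302,
    f134.edge G ej_add f310,
    f341.edge G ej_add f435,
    f142.edge G ej_add f413,
    f245.edge G ej_add f421,
    f452.edge G ej_add f543,
    f256.edge G ej_add f524,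
    f562.edge G ej_add f653,
    f263.edge G ej_add f625,
    f354.edge G ej_add f536,
    f365.edge G ej_add f632,
    f_jb (f012.ps G),
    f_jb (f023.ps G),
    f_jb (f031.ps G),
    f_ja (f134.ps G),
    f_ja (f142.ps G),
    f_ja (f245.ps G),
    f_jb (f625.ps G),
    ar_rot (X 6) (X 2) (X 5),
    f_jb (f632.ps G),
    ar_rot (X 2) (X 6) (X 3),
    f_ja (f354.ps G),
    f_jb (f653.ps G),
    ar_rot (X 3) (X 6) (X 5)]

theorem sum4 (G : Gen X) (H : Hd (Fc X) ty4) : sar X ty4 ≤ 7.5604 := by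
  have f012 : Fc X 0 1 2 := H (0, 1, 2) (by decide)
  have f120 := f012.rot
  have f201 := f120.rot
  have f023 : Fc X 0 2 3 := H (0, 2, 3) (by decide)
  have f230 := f023.rot
  have f302 := f230.rot
  have f031 : Fc X 0 3 1 := H (0, 3, 1) (by decide)
  have f310 := f031.rot
  have f103 := f310.rot
  have f134 : Fc X 1 3 4 := H (1, 3, 4) (by decide)
  have f341 := f134.rot
  have f413 := f341.rot
  have f142 : Fc X 1 4 2 := H (1, 4, 2) (by decide)
  have f421 := f142.rot
  have f214 := f421.rot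
  have f245 : Fc X 2 4 5 := H (2, 4, 5) (by decide)
  have f452 := f245.rot
  have f524 := f452.rot
  have f253 : Fc X 2 5 3 := H (2, 5, 3) (by decide)
  have f532 := f253.rot
  have f325 := f532.rot
  have f356 : Fc X 3 5 6 := H (3, 5, 6) (by decide)
  have f563 := f356.rot
  have f635 := f563.rot
  have f364 : Fc X 3 6 4 := H (3, 6, 4) (by decide)
  have f643 := f364.rot
  have f436 := f643.rot
  have f465 : Fc X 4 6 5 := H (4, 6, 5) (by decide)
  have f654 := f465.rot
  have f546 := f654.rot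
  simp only [sar, ty4, List.map_cons, List.map_nil, List.sum_cons, List.sum_nil]
  linarith [pi_lt_d6,
    G.cyc3 (by decide) f012 f023 f031,
    G.cyc4 (by decide) f120 f103 f134 f142,
    G.cyc5 (by decide) f201 f214 f245 f253 f230,
    G.cyc6 (by decide) f302 f325 f356 f364 f341 f310,
    G.cyc5 (by decide) f413 f436 f465 f452 f421,
    G.cyc4 (by decide) f524 f546 f563 f532,
    G.cyc3 (by decide) f635 f654 f643,
    f012.edge G ej_add f103,
    f120.edge G ej_add f214,
    f023.edge G ej_add f201,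
    f230.edge G ej_add f325,
    f031.edge G ej_add f302,
    f134.edge G ej_add f310,
    f341.edge G ej_add f436,
    f142.edge G ej_add f413,
    f245.edge G ej_add f421,
    f452.edge G ej_add f546,
    f253.edge G ej_add f524,
    f356.edge G ej_add f532,
    f563.edge G ej_add f654,
    f364.edge G ej_add f635,
    f465.edge G ej_add f643,
    f_jb (f012.ps G),
    f_jb (f023.ps G),
    f_jb (f031.ps G),
    f_ja (f134.ps G),
    f_ja (f142.ps G),
    f_ja (f245.ps G),
    f_ja (f253.ps G),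
    f_jb (f635.ps G),
    ar_rot (X 6) (X 3) (X 5),
    f_jb (f643.ps G),
    ar_rot (X 3) (X 6) (X 4),
    f_jb (f654.ps G),
    ar_rot (X 4) (X 6) (X 5)]

theorem sum5 (G : Gen X) (H : Hd (Fc X) ty5) : sar X ty5 ≤ 7.5604 := by
  have f012 : Fc X 0 1 2 := H (0, 1, 2) (by decide)
  have f120 := f012.rot
  have f201 := f120.rot
  have f023 : Fc X 0 2 3 := H (0, 2, 3) (by decide)
  have f230 := f023.rot
  have f302 := f230.rot
  have f031 : Fc X 0 3 1 := H (0, 3, 1) (by decide)
  have f310 := f031.rot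
  have f103 := f310.rot
  have f134 : Fc X 1 3 4 := H (1, 3, 4) (by decide)
  have f341 := f134.rot
  have f413 := f341.rot
  have f142 : Fc X 1 4 2 := H (1, 4, 2) (by decide)
  have f421 := f142.rot
  have f214 := f421.rot
  have f245 : Fc X 2 4 5 := H (2, 4, 5) (by decide)
  have f452 := f245.rot
  have f524 := f452.rot
  have f256 : Fc X 2 5 6 := H (2, 5, 6) (by decide)
  have f562 := f256.rot
  have f625 := f562.rot
  have f263 : Fc X 2 6 3 := H (2, 6, 3) (by decide)
  have f632 := f263.rot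
  have f326 := f632.rot
  have f364 : Fc X 3 6 4 := H (3, 6, 4) (by decide)
  have f643 := f364.rot
  have f436 := f643.rot
  have f465 : Fc X 4 6 5 := H (4, 6, 5) (by decide)
  have f654 := f465.rot
  have f546 := f654.rot
  simp only [sar, ty5, List.map_cons, List.map_nil, List.sum_cons, List.sum_nil]
  linarith [pi_lt_d6,
    G.cyc3 (by decide) f012 f023 f031,
    G.cyc4 (by decide) f120 f103 f134 f142,
    G.cyc6 (by decide) f201 f214 f245 f256 f263 f230,
    G.cyc5 (by decide) f302 f326 f364 f341 f310,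
    G.cyc5 (by decide) f413 f436 f465 f452 f421,
    G.cyc3 (by decide) f524 f546 f562,
    G.cyc4 (by decide) f625 f654 f643 f632,
    f012.edge G ej_add f103,
    f120.edge G ej_add f214,
    f023.edge G ej_add f201,
    f230.edge G ej_add f326,
    f031.edge G ej_add f302,
    f134.edge G ej_add f310,
    f341.edge G ej_add f436,
    f142.edge G ej_add f413,
    f245.edge G ej_add f421,
    f452.edge G ej_add f546,
    f256.edge G ej_add f524,
    f562.edge G ej_add f654,
    f263.edge G ej_add f625,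
    f364.edge G ej_add f632,
    f465.edge G ej_add f643,
    f_jb (f012.ps G),
    f_jb (f023.ps G),
    f_jb (f031.ps G),
    f_ja (f134.ps G),
    f_ja (f142.ps G),
    f_jb (f524.ps G),
    ar_rot (X 5) (X 2) (X 4),
    f_jb (f562.ps G),
    ar_rot (X 2) (X 5) (X 6),
    f_ja (f263.ps G),
    f_ja (f364.ps G),
    f_jb (f546.ps G),
    ar_rot (X 5) (X 4) (X 6)]

theorem sum6 (G : Gen X) (H : Hd (Fc X) ty6) : sar X ty6 ≤ 7.5604 := by
  have f012 : Fc X 0 1 2 := H (0, 1, 2) (by decide)
  have f120 := f012.rot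
  have f201 := f120.rot
  have f023 : Fc X 0 2 3 := H (0, 2, 3) (by decide)
  have f230 := f023.rot
  have f302 := f230.rot
  have f034 : Fc X 0 3 4 := H (0, 3, 4) (by decide)
  have f340 := f034.rot
  have f403 := f340.rot
  have f045 : Fc X 0 4 5 := H (0, 4, 5) (by decide)
  have f450 := f045.rot
  have f504 := f450.rot
  have f056 : Fc X 0 5 6 := H (0, 5, 6) (by decide)
  have f560 := f056.rot
  have f605 := f560.rot
  have f061 : Fc X 0 6 1 := H (0, 6, 1) (by decide)
  have f610 := f061.rot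
  have f106 := f610.rot
  have f135 : Fc X 1 3 5 := H (1, 3, 5) (by decide)
  have f351 := f135.rot
  have f513 := f351.rot
  have f143 : Fc X 1 4 3 := H (1, 4, 3) (by decide)
  have f431 := f143.rot
  have f314 := f431.rot
  have f152 : Fc X 1 5 2 := H (1, 5, 2) (by decide)
  have f521 := f152.rot
  have f215 := f521.rot
  have f164 : Fc X 1 6 4 := H (1, 6, 4) (by decide)
  have f641 := f164.rot
  have f416 := f641.rot
  have f246 : Fc X 2 4 6 := H (2, 4, 6) (by decide)
  have f462 := f246.rot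
  have f624 := f462.rot
  have f254 : Fc X 2 5 4 := H (2, 5, 4) (by decide)
  have f542 := f254.rot
  have f425 := f542.rot
  have f263 : Fc X 2 6 3 := H (2, 6, 3) (by decide)
  have f632 := f263.rot
  have f326 := f632.rot
  have f365 : Fc X 3 6 5 := H (3, 6, 5) (by decide)
  have f653 := f365.rot
  have f536 := f653.rot
  simp only [sar, ty6, List.map_cons, List.map_nil, List.sum_cons, List.sum_nil]
  linarith [pi_lt_d6,
    G.cyc6 (by decide) f012 f023 f034 f045 f056 f061,
    G.cyc6 (by decide) f120 f106 f164 f143 f135 f152,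
    G.cyc6 (by decide) f201 f215 f254 f246 f263 f230,
    G.cyc6 (by decide) f302 f326 f365 f351 f314 f340,
    G.cyc6 (by decide) f403 f431 f416 f462 f425 f450,
    G.cyc6 (by decide) f504 f542 f521 f513 f536 f560,
    G.cyc6 (by decide) f605 f653 f632 f624 f641 f610,
    f012.edge G ej_add f106,
    f120.edge G ej_add f215,
    f023.edge G ej_add f201,
    f230.edge G ej_add f326,
    f034.edge G ej_add f302,
    f340.edge G ej_add f431,
    f045.edge G ej_add f403,
    f450.edge G ej_add f542,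
    f056.edge G ej_add f504,
    f560.edge G ej_add f653,
    f061.edge G ej_add f605,
    f135.edge G ej_add f314,
    f351.edge G ej_add f536,
    f143.edge G ej_add f416,
    f152.edge G ej_add f513,
    f164.edge G ej_add f610,
    f246.edge G ej_add f425,
    f462.edge G ej_add f641,
    f254.edge G ej_add f521,
    f263.edge G ej_add f624,
    f365.edge G ej_add f632,
    f_ja (f012.ps G),
    f_ja (f023.ps G),
    f_ja (f034.ps G),
    f_ja (f045.ps G),
    f_ja (f056.ps G),
    f_ja (f061.ps G),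
    f_ja (f135.ps G),
    f_ja (f143.ps G),
    f_ja (f152.ps G),
    f_ja (f164.ps G),
    f_ja (f246.ps G),
    f_ja (f254.ps G),
    f_ja (f263.ps G),
    f_ja (f365.ps G)]

theorem sum7 (G : Gen X) (H : Hd (Fc X) ty7) : sar X ty7 ≤ 7.5604 := by
  have f012 : Fc X 0 1 2 := H (0, 1, 2) (by decide)
  have f120 := f012.rot
  have f201 := f120.rot
  have f023 : Fc X 0 2 3 := H (0, 2, 3) (by decide)
  have f230 := f023.rot
  have f302 := f230.rot
  have f034 : Fc X 0 3 4 := H (0, 3, 4) (by decide)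
  have f340 := f034.rot
  have f403 := f340.rot
  have f045 : Fc X 0 4 5 := H (0, 4, 5) (by decide)
  have f450 := f045.rot
  have f504 := f450.rot
  have f056 : Fc X 0 5 6 := H (0, 5, 6) (by decide)
  have f560 := f056.rot
  have f605 := f560.rot
  have f061 : Fc X 0 6 1 := H (0, 6, 1) (by decide)
  have f610 := f061.rot
  have f106 := f610.rot
  have f135 : Fc X 1 3 5 := H (1, 3, 5) (by decide)
  have f351 := f135.rot
  have f513 := f351.rot
  have f142 : Fc X 1 4 2 := H (1, 4, 2) (by decide)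
  have f421 := f142.rot
  have f214 := f421.rot
  have f154 : Fc X 1 5 4 := H (1, 5, 4) (by decide)
  have f541 := f154.rot
  have f415 := f541.rot
  have f163 : Fc X 1 6 3 := H (1, 6, 3) (by decide)
  have f631 := f163.rot
  have f316 := f631.rot
  have f246 : Fc X 2 4 6 := H (2, 4, 6) (by decide)
  have f462 := f246.rot
  have f624 := f462.rot
  have f253 : Fc X 2 5 3 := H (2, 5, 3) (by decide)
  have f532 := f253.rot
  have f325 := f532.rot
  have f265 : Fc X 2 6 5 := H (2, 6, 5) (by decide)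
  have f652 := f265.rot
  have f526 := f652.rot
  have f364 : Fc X 3 6 4 := H (3, 6, 4) (by decide)
  have f643 := f364.rot
  have f436 := f643.rot
  simp only [sar, ty7, List.map_cons, List.map_nil, List.sum_cons, List.sum_nil]
  linarith [pi_lt_d6,
    G.cyc6 (by decide) f012 f023 f034 f045 f056 f061,
    G.cyc6 (by decide) f120 f106 f163 f135 f154 f142,
    G.cyc6 (by decide) f201 f214 f246 f265 f253 f230,
    G.cyc6 (by decide) f302 f325 f351 f316 f364 f340,
    G.cyc6 (by decide) f403 f436 f462 f421 f415 f450,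
    G.cyc6 (by decide) f504 f541 f513 f532 f526 f560,
    G.cyc6 (by decide) f605 f652 f624 f643 f631 f610,
    f012.edge G ej_add f106,
    f120.edge G ej_add f214,
    f023.edge G ej_add f201,
    f230.edge G ej_add f325,
    f034.edge G ej_add f302,
    f340.edge G ej_add f436,
    f045.edge G ej_add f403,
    f450.edge G ej_add f541,
    f056.edge G ej_add f504,
    f560.edge G ej_add f652,
    f061.edge G ej_add f605,
    f135.edge G ej_add f316,
    f351.edge G ej_add f532,
    f142.edge G ej_add f415,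
    f154.edge G ej_add f513,
    f163.edge G ej_add f610,
    f246.edge G ej_add f421,
    f462.edge G ej_add f643,
    f253.edge G ej_add f526,
    f265.edge G ej_add f624,
    f364.edge G ej_add f631,
    f_ja (f012.ps G),
    f_ja (f023.ps G),
    f_ja (f034.ps G),
    f_ja (f045.ps G),
    f_ja (f056.ps G),
    f_ja (f061.ps G),
    f_ja (f135.ps G),
    f_ja (f142.ps G),
    f_ja (f154.ps G),
    f_ja (f163.ps G),
    f_ja (f246.ps G),
    f_ja (f253.ps G),
    f_ja (f265.ps G),
    f_ja (f364.ps G)]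

def sf (p a b : V) : ℝ :=
  ar p a b + ee (yy a b) (An a b p) - wb * (An p a b + An b p a) - (wb + wb) * An a b p

theorem sf_pp {p a b : V} (P : Ps p a b) : sf p a b + ep (yy p a) (An p a b) + ep (yy b p) (An b p a) -
    1598934720 / 2 ^ 32 * (An p a b + An b p a) ≤ -2992488393 / 2 ^ 32 ∧
    (2748779069 ≤ yy p a * 2 ^ 32 ∨ 2748779069 ≤ yy b p * 2 ^ 32 → sf p a b + ep (yy p a) (An p a b) +
      ep (yy b p) (An b p a) - 1598934720 / 2 ^ 32 * (An p a b + An b p a) ≤ -3024842381 / 2 ^ 32) := by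
  have w := wb_bd
  have a1 := wA (w := wb) (r := 1350681680) (by linarith) (by linarith) (An_bd p a b)
  have a2 := wA (w := wb) (r := 1350681680) (by linarith) (by linarith) (An_bd b p a)
  have a3 := wA (w := wb + wb) (r := 2701363359) (by linarith) (by linarith) (An_bd a b p)
  unfold sf
  exact ⟨by linarith [(f_pp P).1], fun h => by linarith [(f_pp P).2 h]⟩

theorem Gen.starL (G : Gen X) {p a b c d e : Fin 7} (h : Function.Injective ![a, b, c, d, e])
    (h0 : Fc X p a b) (h1 : Fc X p b c) (h2 : Fc X p c d) (h3 : Fc X p d e) (h4 : Fc X p e a)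
    (l : 2748779069 ≤ yy (X p) (X a) * 2 ^ 32) :
    sf (X p) (X a) (X b) + sf (X p) (X b) (X c) + sf (X p) (X c) (X d) + sf (X p) (X d) (X e) +
      sf (X p) (X e) (X a) ≤ 5 * c0 + 2 * π * wa - 1 / 10 ^ 6 := by
  have w := wa_bd
  have : π * 0.411659775425 ≤ π * wa := mul_le_mul_of_nonneg_left w.1 pi_pos.le
  linarith [G.cyc5 h h0 h1 h2 h3 h4, (sf_pp (h0.ps G)).2 (Or.inl l), (sf_pp (h1.ps G)).1, (sf_pp (h2.ps G)).1,
    (sf_pp (h3.ps G)).1, (sf_pp (h4.ps G)).2 (Or.inr (by rw [yy_comm]; exact l)), c0_bd, pi_gt_d6,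
    h0.edge G ep_add h4.rot.rot, h1.edge G ep_add h0.rot.rot, h2.edge G ep_add h1.rot.rot,
    h3.edge G ep_add h2.rot.rot, h4.edge G ep_add h3.rot.rot]

theorem sq_bd {a b : V} (ha : dt a a = 1) (hb : dt b b = 1) :
    (yy a b - 1 / 2) ^ 2 ≤ 1 ∧ (yy a b - σ ^ 2) ^ 2 ≤ 1 := by
  have := yy_bd ha hb
  constructor <;> rw [sq_le_one_iff_abs_le_one, abs_le] <;> constructor <;> linarith [κσ, κ2_bd]

theorem Gen.star (G : Gen X) {p a b c d e : Fin 7} (h : Function.Injective ![a, b, c, d, e])
    (h' : Function.Injective ![b, c, d, e, a] ∧ Function.Injective ![c, d, e, a, b] ∧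
      Function.Injective ![d, e, a, b, c] ∧ Function.Injective ![e, a, b, c, d])
    (h0 : Fc X p a b) (h1 : Fc X p b c) (h2 : Fc X p c d) (h3 : Fc X p d e) (h4 : Fc X p e a) :
    sf (X p) (X a) (X b) + sf (X p) (X b) (X c) + sf (X p) (X c) (X d) + sf (X p) (X d) (X e) +
      sf (X p) (X e) (X a) ≤ 5 * c0 + 2 * π * wa -
      ((yy (X p) (X a) - 1 / 2) ^ 2 + (yy (X p) (X b) - 1 / 2) ^ 2 + (yy (X p) (X c) - 1 / 2) ^ 2 +
        (yy (X p) (X d) - 1 / 2) ^ 2 + (yy (X p) (X e) - 1 / 2) ^ 2 + (yy (X a) (X b) - σ ^ 2) ^ 2 +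
        (yy (X b) (X c) - σ ^ 2) ^ 2 + (yy (X c) (X d) - σ ^ 2) ^ 2 + (yy (X d) (X e) - σ ^ 2) ^ 2 +
        (yy (X e) (X a) - σ ^ 2) ^ 2) / 10 ^ 7 := by
  by_cases l : 2748779069 ≤ yy (X p) (X a) * 2 ^ 32 ∨ 2748779069 ≤ yy (X p) (X b) * 2 ^ 32 ∨
      2748779069 ≤ yy (X p) (X c) * 2 ^ 32 ∨ 2748779069 ≤ yy (X p) (X d) * 2 ^ 32 ∨
      2748779069 ≤ yy (X p) (X e) * 2 ^ 32
  · have : sf (X p) (X a) (X b) + sf (X p) (X b) (X c) + sf (X p) (X c) (X d) + sf (X p) (X d) (X e) +
        sf (X p) (X e) (X a) ≤ 5 * c0 + 2 * π * wa - 1 / 10 ^ 6 := by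
      rcases l with l | l | l | l | l
      · exact G.starL h h0 h1 h2 h3 h4 l
      · linarith [G.starL h'.1 h1 h2 h3 h4 h0 l]
      · linarith [G.starL h'.2.1 h2 h3 h4 h0 h1 l]
      · linarith [G.starL h'.2.2.1 h3 h4 h0 h1 h2 l]
      · linarith [G.starL h'.2.2.2 h4 h0 h1 h2 h3 l]
    have q := fun i j => sq_bd (G.u i) (G.u j)
    linarith [(q p a).1, (q p b).1, (q p c).1, (q p d).1, (q p e).1, (q a b).2, (q b c).2, (q c d).2, (q d e).2,
      (q e a).2]
  · push Not at l
    obtain ⟨la, lb, lc, ld, le⟩ := l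
    have y : ∀ x, (yy (X x) (X p) - 1 / 2) ^ 2 = (yy (X p) (X x) - 1 / 2) ^ 2 := fun x => by rw [yy_comm]
    have c5 := congrArg (wa * ·) (G.cyc5 h h0 h1 h2 h3 h4)
    unfold sf
    linarith [f_ss (h0.ps G) la.le (by rw [yy_comm]; exact lb.le), f_ss (h1.ps G) lb.le (by rw [yy_comm]; exact lc.le),
      f_ss (h2.ps G) lc.le (by rw [yy_comm]; exact ld.le), f_ss (h3.ps G) ld.le (by rw [yy_comm]; exact le.le),
      f_ss (h4.ps G) le.le (by rw [yy_comm]; exact la.le), y a, y b, y c, y d, y e,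
      h0.edge G es_add h4.rot.rot, h1.edge G es_add h0.rot.rot, h2.edge G es_add h1.rot.rot,
      h3.edge G es_add h2.rot.rot, h4.edge G es_add h3.rot.rot, sq_nonneg (yy (X p) (X a) - 1 / 2),
      sq_nonneg (yy (X p) (X b) - 1 / 2), sq_nonneg (yy (X p) (X c) - 1 / 2), sq_nonneg (yy (X p) (X d) - 1 / 2),
      sq_nonneg (yy (X p) (X e) - 1 / 2)]

def Phi (X : Fin 7 → V) : ℝ :=
  (yy (X 5) (X 0) - 1 / 2) ^ 2 + (yy (X 6) (X 0) - 1 / 2) ^ 2 + (yy (X 0) (X 1) - σ ^ 2) ^ 2 +
  (yy (X 5) (X 1) - 1 / 2) ^ 2 + (yy (X 6) (X 1) - 1 / 2) ^ 2 + (yy (X 1) (X 2) - σ ^ 2) ^ 2 +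
  (yy (X 5) (X 2) - 1 / 2) ^ 2 + (yy (X 6) (X 2) - 1 / 2) ^ 2 + (yy (X 2) (X 3) - σ ^ 2) ^ 2 +
  (yy (X 5) (X 3) - 1 / 2) ^ 2 + (yy (X 6) (X 3) - 1 / 2) ^ 2 + (yy (X 3) (X 4) - σ ^ 2) ^ 2 +
  (yy (X 5) (X 4) - 1 / 2) ^ 2 + (yy (X 6) (X 4) - 1 / 2) ^ 2 + (yy (X 4) (X 0) - σ ^ 2) ^ 2

theorem sum0 (G : Gen X) (H : Hd (Fc X) ty0) : sar X ty0 ≤ 10 * (σ * γ) - Phi X / 10 ^ 7 := by
  have f501 : Fc X 5 0 1 := H (5, 0, 1) (by decide)
  have f015 := f501.rot
  have f150 := f015.rot
  have f512 : Fc X 5 1 2 := H (5, 1, 2) (by decide)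
  have f125 := f512.rot
  have f251 := f125.rot
  have f523 : Fc X 5 2 3 := H (5, 2, 3) (by decide)
  have f235 := f523.rot
  have f352 := f235.rot
  have f534 : Fc X 5 3 4 := H (5, 3, 4) (by decide)
  have f345 := f534.rot
  have f453 := f345.rot
  have f540 : Fc X 5 4 0 := H (5, 4, 0) (by decide)
  have f405 := f540.rot
  have f054 := f405.rot
  have f610 : Fc X 6 1 0 := H (6, 1, 0) (by decide)
  have f106 := f610.rot
  have f061 := f106.rot
  have f621 : Fc X 6 2 1 := H (6, 2, 1) (by decide)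
  have f216 := f621.rot
  have f162 := f216.rot
  have f632 : Fc X 6 3 2 := H (6, 3, 2) (by decide)
  have f326 := f632.rot
  have f263 := f326.rot
  have f643 : Fc X 6 4 3 := H (6, 4, 3) (by decide)
  have f436 := f643.rot
  have f364 := f436.rot
  have f604 : Fc X 6 0 4 := H (6, 0, 4) (by decide)
  have f046 := f604.rot
  have f460 := f046.rot
  have s5 := G.star (by decide) (by decide) f501 f512 f523 f534 f540
  have s6 := G.star (by decide) (by decide) f604 f643 f632 f621 f610
  simp only [sar, ty0, List.map_cons, List.map_nil, List.sum_cons, List.sum_nil]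
  unfold sf c0 at s5 s6
  unfold Phi
  linarith [congrArg (wb * ·) (G.cyc4 (by decide) f015 f054 f046 f061),
    f015.edge G ee_add f106,
    sq_nonneg (yy (X 1) (X 0) - σ ^ 2),
    congrArg (wb * ·) (G.cyc4 (by decide) f125 f150 f106 f162),
    f125.edge G ee_add f216,
    sq_nonneg (yy (X 2) (X 1) - σ ^ 2),
    congrArg (wb * ·) (G.cyc4 (by decide) f235 f251 f216 f263),
    f235.edge G ee_add f326,
    sq_nonneg (yy (X 3) (X 2) - σ ^ 2),
    congrArg (wb * ·) (G.cyc4 (by decide) f345 f352 f326 f364),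
    f345.edge G ee_add f436,
    sq_nonneg (yy (X 4) (X 3) - σ ^ 2),
    congrArg (wb * ·) (G.cyc4 (by decide) f405 f453 f436 f460),
    f405.edge G ee_add f046,
    sq_nonneg (yy (X 0) (X 4) - σ ^ 2)]

end Pool.Agent.Work.MP_c2ab8b_gt
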